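import Mathlib

set_option autoImplicit false

open Set MeasureTheory

namespace Pool.Agent.helper312_gd

/-- `g` is `ω`-continuous on `A`. -/
def OmegaContOn {E : Type*} [PseudoMetricSpace E] (ω : ℝ → ℝ) (g : E → E) (A : Set E) : Prop :=
  ∃ C t₀ : ℝ, 0 < C ∧ 0 < t₀ ∧ ∀ x ∈ A, ∀ y ∈ A, dist x y ≤ t₀ →
    dist (g x) (g y) ≤ C * ω (dist x y)

/-- the unit cube of Euclidean space -/
def cube (d : ℕ) : Set (EuclideanSpace ℝ (Fin d)) := {x | ∀ i, 0 ≤ x i ∧ x i ≤ 1}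

/-- `ρ` is bi-`ω` realisable. -/
def BiOmegaRealisable (d : ℕ) (ω : ℝ → ℝ) (ρ : EuclideanSpace ℝ (Fin d) → ℝ) : Prop :=
  ∃ f g : EuclideanSpace ℝ (Fin d) → EuclideanSpace ℝ (Fin d),
    InjOn f (cube d) ∧ OmegaContOn ω f (cube d) ∧
    (∀ x ∈ cube d, g (f x) = x) ∧ OmegaContOn ω g (f '' cube d) ∧
    ∀ B : Set (EuclideanSpace ℝ (Fin d)), MeasurableSet B →
      ∫⁻ x in cube d ∩ f ⁻¹' B, ENNReal.ofReal (ρ x) = volume (B ∩ f '' cube d)

namespace TransferGd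

/-- the identification of Euclidean space with the product; the last coordinate is time -/
noncomputable def ee (n : ℕ) : EuclideanSpace ℝ (Fin (n + 1)) ≃ᵐ (Fin n → ℝ) × ℝ :=
  (MeasurableEquiv.toLp 2 (Fin (n + 1) → ℝ)).symm.trans
    ((MeasurableEquiv.piFinSuccAbove (fun _ => ℝ) (Fin.last n)).trans MeasurableEquiv.prodComm)

theorem ee_apply (n : ℕ) (x : EuclideanSpace ℝ (Fin (n + 1))) :
    ee n x = (fun i => x ((Fin.last n).succAbove i), x (Fin.last n)) := rfl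

theorem ee_mp (n : ℕ) : MeasurePreserving (ee n) :=
  (EuclideanSpace.volume_preserving_symm_measurableEquiv_toLp (Fin (n + 1))).trans
    ((volume_preserving_piFinSuccAbove (fun _ => ℝ) (Fin.last n)).trans
      Measure.measurePreserving_swap)

theorem dist_ee_le (n : ℕ) (x y : EuclideanSpace ℝ (Fin (n + 1))) :
    dist (ee n x) (ee n y) ≤ dist x y := by
  have key : ∀ i, dist (x i) (y i) ≤ dist x y := by
    intro i
    rw [EuclideanSpace.dist_eq]
    refine Real.le_sqrt_of_sq_le ?_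
    exact Finset.single_le_sum (f := fun i => dist (x i) (y i) ^ 2)
      (fun i _ => sq_nonneg _) (Finset.mem_univ i)
  rw [ee_apply, ee_apply, Prod.dist_eq]
  refine max_le ?_ (key _)
  rw [dist_pi_le_iff dist_nonneg]
  intro i
  exact key _

theorem dist_le_ee (n : ℕ) (x y : EuclideanSpace ℝ (Fin (n + 1))) :
    dist x y ≤ ((n : ℝ) + 1) * dist (ee n x) (ee n y) := by
  set m := dist (ee n x) (ee n y) with hm
  have hm0 : 0 ≤ m := dist_nonneg
  have key : ∀ i, dist (x i) (y i) ≤ m := by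
    intro i
    rw [hm, ee_apply, ee_apply, Prod.dist_eq]
    rcases Fin.eq_self_or_eq_succAbove (Fin.last n) i with h | ⟨j, h⟩
    · rw [h]
      exact le_max_right _ _
    · rw [h]
      refine le_trans ?_ (le_max_left _ _)
      exact dist_le_pi_dist (fun i => x ((Fin.last n).succAbove i))
        (fun i => y ((Fin.last n).succAbove i)) j
  rw [EuclideanSpace.dist_eq, Real.sqrt_le_left (by positivity)]
  calc ∑ i, dist (x i) (y i) ^ 2 ≤ ∑ _i : Fin (n + 1), m ^ 2 :=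
        Finset.sum_le_sum fun i _ => pow_le_pow_left₀ dist_nonneg (key i) 2
    _ = ((n : ℝ) + 1) * m ^ 2 := by
        rw [Finset.sum_const, Finset.card_univ, Fintype.card_fin, nsmul_eq_mul]
        push_cast
        ring
    _ ≤ (((n : ℝ) + 1) * m) ^ 2 := by
        have h1 : (1 : ℝ) ≤ (n : ℝ) + 1 := by
          have : (0 : ℝ) ≤ n := Nat.cast_nonneg n
          linarith
        rw [mul_pow]
        have h2 : (n : ℝ) + 1 ≤ ((n : ℝ) + 1) ^ 2 := by nlinarith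
        exact mul_le_mul_of_nonneg_right h2 (sq_nonneg m)

/-- The dyadic modulus gives the logarithmic one. -/
theorem modulus (p : ℕ) (C d r : ℝ) (hd : 0 < d) (hd' : d ≤ 1 / 2)
    (h : ∀ k : ℕ, d ≤ 1 / 2 ^ k → r ≤ 2 * (C * ((k : ℝ) + 1) ^ p / 2 ^ k)) :
    r ≤ (4 * |C| * 4 ^ p + 1) * (d * (Real.log (1 / d)) ^ p) := by
  obtain ⟨k, hk1, hk2⟩ : ∃ k : ℕ, d ≤ 1 / 2 ^ k ∧ 1 / 2 ^ (k + 1) < d := by
    have hex : ∃ n : ℕ, 1 / 2 ^ (n + 1) < d := by
      obtain ⟨n, hn⟩ := exists_pow_lt_of_lt_one hd (show (1 / 2 : ℝ) < 1 by norm_num)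
      refine ⟨n, lt_of_le_of_lt ?_ hn⟩
      rw [one_div, one_div, inv_pow, pow_succ]
      have h2 : (0 : ℝ) < 2 ^ n := by positivity
      exact inv_anti₀ h2 (by linarith)
    classical
    refine ⟨Nat.find hex, ?_, Nat.find_spec hex⟩
    by_cases h0 : Nat.find hex = 0
    · rw [h0]; norm_num; linarith
    · obtain ⟨m, hm⟩ := Nat.exists_eq_succ_of_ne_zero h0
      have := Nat.find_min hex (m := m) (by omega)
      rw [hm]
      exact not_lt.1 this
  have hlog : 0 < Real.log 2 := Real.log_pos (by norm_num)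
  have hl2 : (0.5 : ℝ) < Real.log 2 := by linarith [Real.log_two_gt_d9]
  have hk0 : 1 ≤ k := by
    by_contra hk0
    have : k = 0 := by omega
    subst this
    norm_num at hk2
    linarith
  have hk0' : (1 : ℝ) ≤ k := by exact_mod_cast hk0
  have hL : (k : ℝ) * Real.log 2 ≤ Real.log (1 / d) := by
    have h1 : (2 : ℝ) ^ k ≤ 1 / d := by
      rw [le_div_iff₀ hd]
      have h2 : (0 : ℝ) < 2 ^ k := by positivity
      rw [le_div_iff₀ h2] at hk1
      linarith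
    have h3 := Real.log_le_log (by positivity) h1
    rwa [Real.log_pow] at h3
  have hL1 : (k : ℝ) + 1 ≤ 4 * Real.log (1 / d) := by nlinarith
  have hL0 : 0 ≤ Real.log (1 / d) := by nlinarith
  have hp : ((k : ℝ) + 1) ^ p ≤ 4 ^ p * (Real.log (1 / d)) ^ p := by
    rw [← mul_pow]
    exact pow_le_pow_left₀ (by positivity) hL1 p
  have hk3 : 1 / (2 : ℝ) ^ k < 2 * d := by
    have h2 : (0 : ℝ) < 2 ^ k := by positivity
    rw [pow_succ, div_lt_iff₀ (by positivity)] at hk2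
    rw [div_lt_iff₀ h2]
    linarith
  have h5 := h k hk1
  have h6 : C * ((k : ℝ) + 1) ^ p / 2 ^ k ≤ |C| * (4 ^ p * (Real.log (1 / d)) ^ p) * (2 * d) := by
    have e : C * ((k : ℝ) + 1) ^ p / 2 ^ k = C * ((k : ℝ) + 1) ^ p * (1 / 2 ^ k) := by ring
    rw [e]
    calc C * ((k : ℝ) + 1) ^ p * (1 / 2 ^ k) ≤ |C| * ((k : ℝ) + 1) ^ p * (1 / 2 ^ k) := by
          gcongr
          exact le_abs_self C
      _ ≤ |C| * (4 ^ p * (Real.log (1 / d)) ^ p) * (2 * d) := by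
          gcongr
  have h7 : 0 ≤ d * (Real.log (1 / d)) ^ p := by positivity
  nlinarith

end TransferGd

open TransferGd

theorem transfer_gd (n p : ℕ) (a b : ℝ) (ha : 0 < a)
    (hmain : ∀ ρ : (Fin n → ℝ) × ℝ → ℝ, Measurable ρ → (∀ z, a ≤ ρ z ∧ ρ z ≤ b) →
      ∃ f : (Fin n → ℝ) × ℝ → (Fin n → ℝ) × ℝ,
      InjOn f (Icc (0 : Fin n → ℝ) 1 ×ˢ Icc (0 : ℝ) 1) ∧
      (∃ C : ℝ, ∀ x ∈ Icc (0 : Fin n → ℝ) 1 ×ˢ Icc (0 : ℝ) 1,
        ∀ y ∈ Icc (0 : Fin n → ℝ) 1 ×ˢ Icc (0 : ℝ) 1, ∀ k : ℕ, dist x y ≤ 1 / 2 ^ k →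
          dist (f x) (f y) ≤ C * ((k : ℝ) + 1) ^ p / 2 ^ k) ∧
      (∃ C : ℝ, ∀ x ∈ Icc (0 : Fin n → ℝ) 1 ×ˢ Icc (0 : ℝ) 1,
        ∀ y ∈ Icc (0 : Fin n → ℝ) 1 ×ˢ Icc (0 : ℝ) 1, ∀ k : ℕ, dist (f x) (f y) ≤ 1 / 2 ^ k →
          dist x y ≤ C * ((k : ℝ) + 1) ^ p / 2 ^ k) ∧
      ∀ B : Set ((Fin n → ℝ) × ℝ), MeasurableSet B →
        ∫⁻ x in (Icc (0 : Fin n → ℝ) 1 ×ˢ Icc (0 : ℝ) 1) ∩ f ⁻¹' B, ENNReal.ofReal (ρ x)
          = volume (B ∩ f '' (Icc (0 : Fin n → ℝ) 1 ×ˢ Icc (0 : ℝ) 1)))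
    (ρ : EuclideanSpace ℝ (Fin (n + 1)) → ℝ) (hρm : Measurable ρ)
    (hρ : ∀ x ∈ cube (n + 1), a ≤ ρ x ∧ ρ x ≤ b) (hab : a ≤ b) :
    BiOmegaRealisable (n + 1) (fun t => t * (Real.log (1 / t)) ^ p) ρ := by
  have _ := ha
  obtain ⟨f₀, hinj, ⟨C₁, hC₁⟩, ⟨C₂, hC₂⟩, hmeas⟩ :=
    hmain (fun z => max a (min b (ρ ((ee n).symm z))))
      (measurable_const.max (measurable_const.min (hρm.comp (ee n).symm.measurable)))
      (fun z => ⟨le_max_left _ _, max_le hab (min_le_left _ _)⟩)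
  set S : Set ((Fin n → ℝ) × ℝ) := Icc (0 : Fin n → ℝ) 1 ×ˢ Icc (0 : ℝ) 1 with hS
  have hmem : ∀ x, x ∈ cube (n + 1) ↔ ee n x ∈ S := by
    intro x
    rw [ee_apply, hS, Set.mem_prod, Set.mem_Icc, Set.mem_Icc, cube, Set.mem_ofPred_eq]
    constructor
    · intro h
      exact ⟨⟨fun i => (h _).1, fun i => (h _).2⟩, h _⟩
    · rintro ⟨⟨h1, h2⟩, h3⟩ i
      rcases Fin.eq_self_or_eq_succAbove (Fin.last n) i with h | ⟨j, h⟩
      · rw [h]
        exact h3
      · rw [h]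
        exact ⟨h1 j, h2 j⟩
  set f : EuclideanSpace ℝ (Fin (n + 1)) → EuclideanSpace ℝ (Fin (n + 1)) :=
    fun x => (ee n).symm (f₀ (ee n x)) with hf
  have hef : ∀ x, ee n (f x) = f₀ (ee n x) := fun x => (ee n).apply_symm_apply _
  have hfinj : InjOn f (cube (n + 1)) := by
    intro x hx y hy h
    apply (ee n).injective
    apply hinj ((hmem x).1 hx) ((hmem y).1 hy)
    rw [← hef, ← hef, h]
  have hn1 : (0 : ℝ) ≤ (n : ℝ) + 1 := by positivity
  have hg : ∀ x ∈ cube (n + 1), Function.invFunOn f (cube (n + 1)) (f x) = x :=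
    fun x hx => hfinj.leftInvOn_invFunOn hx
  refine ⟨f, Function.invFunOn f (cube (n + 1)), hfinj, ?_, hg, ?_, ?_⟩
  · refine ⟨4 * |((n : ℝ) + 1) / 2 * C₁| * 4 ^ p + 1, 1 / 2, by positivity, by norm_num, ?_⟩
    intro x hx y hy hd
    rcases eq_or_lt_of_le (dist_nonneg (x := x) (y := y)) with h0 | h0
    · have : x = y := dist_eq_zero.1 h0.symm
      subst this
      simp
    · refine modulus p (((n : ℝ) + 1) / 2 * C₁) _ _ h0 hd fun k hk => ?_
      refine (dist_le_ee n _ _).trans ?_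
      rw [hef, hef]
      have := hC₁ _ ((hmem x).1 hx) _ ((hmem y).1 hy) k ((dist_ee_le n x y).trans hk)
      calc ((n : ℝ) + 1) * dist (f₀ (ee n x)) (f₀ (ee n y))
          ≤ ((n : ℝ) + 1) * (C₁ * ((k : ℝ) + 1) ^ p / 2 ^ k) :=
            mul_le_mul_of_nonneg_left this hn1
        _ = 2 * (((n : ℝ) + 1) / 2 * C₁ * ((k : ℝ) + 1) ^ p / 2 ^ k) := by ring
  · refine ⟨4 * |((n : ℝ) + 1) / 2 * C₂| * 4 ^ p + 1, 1 / 2, by positivity, by norm_num, ?_⟩
    rintro _ ⟨x, hx, rfl⟩ _ ⟨y, hy, rfl⟩ hd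
    rw [hg x hx, hg y hy]
    rcases eq_or_lt_of_le (dist_nonneg (x := f x) (y := f y)) with h0 | h0
    · have : f x = f y := dist_eq_zero.1 h0.symm
      have h1 : x = y := hfinj hx hy this
      subst h1
      simp
    · refine modulus p (((n : ℝ) + 1) / 2 * C₂) _ _ h0 hd fun k hk => ?_
      refine (dist_le_ee n _ _).trans ?_
      have := hC₂ _ ((hmem x).1 hx) _ ((hmem y).1 hy) k (by
        rw [← hef, ← hef]; exact (dist_ee_le n _ _).trans hk)
      calc ((n : ℝ) + 1) * dist (ee n x) (ee n y)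
          ≤ ((n : ℝ) + 1) * (C₂ * ((k : ℝ) + 1) ^ p / 2 ^ k) :=
            mul_le_mul_of_nonneg_left this hn1
        _ = 2 * (((n : ℝ) + 1) / 2 * C₂ * ((k : ℝ) + 1) ^ p / 2 ^ k) := by ring
  · intro B hB
    have hB' : MeasurableSet ((ee n).symm ⁻¹' B) := (ee n).symm.measurable hB
    have h1 := hmeas _ hB'
    have e1 : ee n ⁻¹' (S ∩ f₀ ⁻¹' ((ee n).symm ⁻¹' B)) = cube (n + 1) ∩ f ⁻¹' B := by
      ext x
      simp only [Set.mem_preimage, Set.mem_inter_iff, hmem, hf]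
    have e2 : ee n ⁻¹' ((ee n).symm ⁻¹' B ∩ f₀ '' S) = B ∩ f '' cube (n + 1) := by
      ext x
      simp only [Set.mem_preimage, Set.mem_inter_iff, MeasurableEquiv.symm_apply_apply,
        Set.mem_image]
      refine and_congr_right fun _ => ⟨?_, ?_⟩
      · rintro ⟨z, hz, hzx⟩
        refine ⟨(ee n).symm z, (hmem _).2 (by rwa [MeasurableEquiv.apply_symm_apply]), ?_⟩
        apply (ee n).injective
        rw [hef, MeasurableEquiv.apply_symm_apply, hzx]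
      · rintro ⟨y, hy, rfl⟩
        exact ⟨ee n y, (hmem y).1 hy, (hef y).symm⟩
    rw [← e2, (ee_mp n).measure_preimage_equiv, ← h1,
      ← (ee_mp n).setLIntegral_comp_preimage_emb (ee n).measurableEmbedding, e1]
    refine lintegral_congr_ae ?_
    have hcm : MeasurableSet (cube (n + 1)) := by
      have : cube (n + 1) = ee n ⁻¹' S := by ext x; exact hmem x
      rw [this]
      exact (ee n).measurable (measurableSet_Icc.prod measurableSet_Icc)
    refine ae_restrict_of_ae_restrict_of_subset Set.inter_subset_left ?_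
    refine (ae_restrict_iff' hcm).2 (Filter.Eventually.of_forall fun x hx => ?_)
    simp only [MeasurableEquiv.symm_apply_apply]
    rw [min_eq_right (hρ x hx).2, max_eq_right (hρ x hx).1]

end Pool.Agent.helper312_gd
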