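import Pool.Agent.helper312_gd.Defs

set_option autoImplicit false

open Set MeasureTheory

namespace Pool.Agent.helper312_gd


theorem g6_chain {E : Type*} [NormedAddCommGroup E] [NormedSpace ℝ E] {φ : E → ℝ} {δ ε : ℝ}
    (h : ∀ x y, ‖x - y‖ ≤ δ → |φ x - φ y| ≤ ε) (m : ℕ) :
    ∀ x y, ‖x - y‖ ≤ m * δ → |φ x - φ y| ≤ m * ε := by
  induction m with
  | zero =>
    intro x y hxy
    rw [Nat.cast_zero, zero_mul] at hxy
    have : x = y := by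
      have := norm_le_zero_iff.1 hxy
      exact sub_eq_zero.1 this
    rw [this]
    simp
  | succ m ih =>
    intro x y hxy
    push_cast at hxy ⊢
    have hm : (0 : ℝ) ≤ m := Nat.cast_nonneg m
    have hm1 : (0 : ℝ) < m + 1 := by linarith
    set z : E := x + (1 / ((m : ℝ) + 1)) • (y - x) with hz
    have h1 : ‖x - z‖ ≤ δ := by
      have : x - z = (1 / ((m : ℝ) + 1)) • (x - y) := by
        rw [hz, ← neg_sub x y, smul_neg]; abel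
      rw [this, norm_smul, Real.norm_of_nonneg (by positivity), one_div, inv_mul_le_iff₀ hm1]
      exact hxy
    have h2 : ‖z - y‖ ≤ m * δ := by
      have : z - y = ((m : ℝ) / (m + 1)) • (x - y) := by
        have e : ((m : ℝ) / (m + 1)) = 1 - 1 / ((m : ℝ) + 1) := by field_simp; ring
        rw [e, sub_smul, one_smul, hz, ← neg_sub x y, smul_neg]; abel
      rw [this, norm_smul, Real.norm_of_nonneg (by positivity)]
      calc (m : ℝ) / (m + 1) * ‖x - y‖ ≤ (m : ℝ) / (m + 1) * ((m + 1) * δ) :=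
            mul_le_mul_of_nonneg_left hxy (by positivity)
        _ = m * δ := by field_simp
    have h3 := h x z h1
    have h4 := ih z y h2
    calc |φ x - φ y| ≤ |φ x - φ z| + |φ z - φ y| := abs_sub_le _ _ _
      _ ≤ (m + 1) * ε := by linarith

theorem g6_chain' {E : Type*} [NormedAddCommGroup E] [NormedSpace ℝ E] {φ : E → ℝ} {δ ε : ℝ}
    (hδ : 0 ≤ δ) (hε : 0 ≤ ε)
    (h : ∀ x y, ‖x - y‖ ≤ δ → |φ x - φ y| ≤ ε) {r : ℝ} (hr : 0 ≤ r) (x y : E)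
    (hxy : ‖x - y‖ ≤ r * δ) : |φ x - φ y| ≤ (r + 1) * ε := by
  have h1 := g6_chain h ⌈r⌉₊ x y
    (hxy.trans (mul_le_mul_of_nonneg_right (Nat.le_ceil r) hδ))
  exact h1.trans (mul_le_mul_of_nonneg_right (Nat.ceil_lt_add_one hr).le hε)

open Filter Topology in
theorem g6_lim (D : ℝ) (r : ℕ) :
    Tendsto (fun k : ℕ => D * ((k : ℝ) + 1) ^ r / 2 ^ k) atTop (𝓝 0) := by
  have h1 := (tendsto_pow_const_div_const_pow_of_one_lt r (one_lt_two (α := ℝ))).comp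
    (tendsto_add_atTop_nat 1)
  have h2 := h1.const_mul (2 * D)
  rw [mul_zero] at h2
  refine h2.congr fun k => ?_
  simp only [Function.comp_apply]
  push_cast
  rw [pow_succ]
  field_simp

/-- continuity from a modulus -/
theorem g6_cont {Y : Type*} [PseudoMetricSpace Y] (g : Y → ℝ) (D : ℝ) (r : ℕ)
    (h : ∀ p p' : Y, ∀ k : ℕ, dist p p' ≤ 1 / 2 ^ k → |g p - g p'| ≤ D * ((k : ℝ) + 1) ^ r / 2 ^ k) :
    Continuous g := by
  rw [Metric.continuous_iff]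
  intro p ε hε
  obtain ⟨k, hk⟩ := ((g6_lim D r).eventually (gt_mem_nhds hε)).exists
  refine ⟨1 / 2 ^ k, by positivity, fun p' hp' => ?_⟩
  rw [Real.dist_eq]
  exact (h p' p k hp'.le).trans_lt hk

theorem g6_one_le_pow (k r : ℕ) : (1 : ℝ) ≤ ((k : ℝ) + 1) ^ r :=
  one_le_pow₀ (by linarith [Nat.cast_nonneg (α := ℝ) k])

theorem g6_contLip {n : ℕ} (Z : (Fin n → ℝ) → ℝ → (Fin n → ℝ)) (C : ℝ) (hC : 0 ≤ C)
    (h : ∀ x x' τ τ', ‖Z x τ - Z x' τ'‖ ≤ C * (‖x - x'‖ + |τ - τ'|)) :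
    Continuous (fun p : (Fin n → ℝ) × ℝ => Z p.1 p.2) := by
  have h1 : LipschitzWith (Real.toNNReal (2 * C)) (fun p : (Fin n → ℝ) × ℝ => Z p.1 p.2) := by
    refine LipschitzWith.of_dist_le_mul fun p p' => ?_
    rw [Real.coe_toNNReal _ (by positivity), dist_eq_norm]
    refine (h _ _ _ _).trans ?_
    have e1 : ‖p.1 - p'.1‖ ≤ dist p p' := by
      rw [← dist_eq_norm, Prod.dist_eq]; exact le_max_left _ _
    have e2 : |p.2 - p'.2| ≤ dist p p' := by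
      rw [← Real.dist_eq, Prod.dist_eq]; exact le_max_right _ _
    calc C * (‖p.1 - p'.1‖ + |p.2 - p'.2|) ≤ C * (dist p p' + dist p p') :=
          mul_le_mul_of_nonneg_left (add_le_add e1 e2) hC
      _ = 2 * C * dist p p' := by ring
  exact h1.continuous

/-- the hypotheses of the assembly -/
structure G6 (n q : ℕ) (a b a' b' C₁ C₂ : ℝ) (ρ : (Fin n → ℝ) × ℝ → ℝ)
    (X Y : (Fin n → ℝ) → ℝ → (Fin n → ℝ)) (H : (Fin n → ℝ) → ℝ → ℝ) : Prop where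
  ha : 0 < a
  ha' : 0 < a'
  hρm : Measurable ρ
  hρ : ∀ p, a ≤ ρ p ∧ ρ p ≤ b
  hYX : ∀ x τ, Y (X x τ) τ = x
  hXY : ∀ z τ, X (Y z τ) τ = z
  hC₁ : 0 ≤ C₁
  hX : ∀ x x' τ τ', ‖X x τ - X x' τ'‖ ≤ C₁ * (‖x - x'‖ + |τ - τ'|)
  hY : ∀ z z' τ τ', ‖Y z τ - Y z' τ'‖ ≤ C₁ * (‖z - z'‖ + |τ - τ'|)
  hC₂ : 0 ≤ C₂
  hH : ∀ t ∈ Icc (0 : ℝ) 1, ∀ (X X' : Fin n → ℝ) (k : ℕ), ‖X - X'‖ ≤ 1 / 2 ^ k →
        |H X t - H X' t| ≤ C₂ * ((k : ℝ) + 1) ^ q / 2 ^ k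
  hH0 : ∀ z, H z 0 = 0
  hb' : 0 ≤ b'
  hHt : ∀ s ∈ Icc (0 : ℝ) 1, ∀ t ∈ Icc (0 : ℝ) 1, s ≤ t → ∀ z,
      a' * (t - s) ≤ H z t - H z s ∧ H z t - H z s ≤ b' * (t - s)
  hmass : ∀ t ∈ Icc (0 : ℝ) 1, ∀ φ : (Fin n → ℝ) → ℝ, Continuous φ → HasCompactSupport φ →
        lab ρ t φ (fun p => X p.1 p.2) = ∫ z, φ z * H z t

namespace G6

variable {n q : ℕ} {a b a' b' C₁ C₂ : ℝ} {ρ : (Fin n → ℝ) × ℝ → ℝ}
    {X Y : (Fin n → ℝ) → ℝ → (Fin n → ℝ)} {H : (Fin n → ℝ) → ℝ → ℝ}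

theorem zero_mem01 : (0 : ℝ) ∈ Icc (0 : ℝ) 1 := ⟨le_rfl, zero_le_one⟩

theorem H_abs (h : G6 n q a b a' b' C₁ C₂ ρ X Y H) (z : Fin n → ℝ) {s t : ℝ}
    (hs : s ∈ Icc (0 : ℝ) 1) (ht : t ∈ Icc (0 : ℝ) 1) :
    a' * |t - s| ≤ |H z t - H z s| ∧ |H z t - H z s| ≤ b' * |t - s| := by
  have ha := h.ha'
  rcases le_total s t with hst | hst
  · have h1 := h.hHt s hs t ht hst z
    have h2 : 0 ≤ t - s := by linarith
    have h3 : 0 ≤ H z t - H z s := le_trans (by positivity) h1.1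
    rw [abs_of_nonneg h2, abs_of_nonneg h3]
    exact h1
  · have h1 := h.hHt t ht s hs hst z
    have h2 : 0 ≤ s - t := by linarith
    have h3 : 0 ≤ H z s - H z t := le_trans (by positivity) h1.1
    rw [abs_sub_comm t s, abs_sub_comm (H z t), abs_of_nonneg h2, abs_of_nonneg h3]
    exact h1

theorem H_nonneg (h : G6 n q a b a' b' C₁ C₂ ρ X Y H) (z : Fin n → ℝ) {t : ℝ}
    (ht : t ∈ Icc (0 : ℝ) 1) : 0 ≤ H z t := by
  have h1 := (h.hHt 0 zero_mem01 t ht ht.1 z).1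
  rw [h.hH0, sub_zero, sub_zero] at h1
  exact (mul_nonneg h.ha'.le ht.1).trans h1

/-- from coordinates to the slab -/
def Th (Y : (Fin n → ℝ) → ℝ → (Fin n → ℝ)) (p : (Fin n → ℝ) × Icc (0 : ℝ) 1) :
    (Fin n → ℝ) × ℝ := (Y p.1 p.2, p.2)

/-- from coordinates to the target -/
def Xi (H : (Fin n → ℝ) → ℝ → ℝ) (p : (Fin n → ℝ) × Icc (0 : ℝ) 1) : (Fin n → ℝ) × ℝ :=
  (p.1, H p.1 p.2)

theorem H_mod (h : G6 n q a b a' b' C₁ C₂ ρ X Y H) (z z' : Fin n → ℝ) {t t' : ℝ}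
    (ht : t ∈ Icc (0 : ℝ) 1)
    (ht' : t' ∈ Icc (0 : ℝ) 1) (k : ℕ) (h1 : ‖z - z'‖ ≤ 1 / 2 ^ k) (h2 : |t - t'| ≤ 1 / 2 ^ k) :
    |H z t - H z' t'| ≤ (C₂ + b') * ((k : ℝ) + 1) ^ q / 2 ^ k := by
  have h3 := h.hH t ht z z' k h1
  have h4 := (h.H_abs z' ht' ht).2
  have h5 : |H z t - H z' t'| ≤ |H z t - H z' t| + |H z' t - H z' t'| := abs_sub_le _ _ _
  have h6 : (1 : ℝ) ≤ ((k : ℝ) + 1) ^ q := g6_one_le_pow k q
  have h7 : (0 : ℝ) < 2 ^ k := by positivity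
  have h8 : b' * (1 / 2 ^ k) + C₂ * ((k : ℝ) + 1) ^ q / 2 ^ k ≤
      (C₂ + b') * ((k : ℝ) + 1) ^ q / 2 ^ k := by
    rw [← mul_div_assoc, ← add_div]
    apply div_le_div_of_nonneg_right _ h7.le
    have := h.hb'
    nlinarith
  have h9 : b' * |t - t'| ≤ b' * (1 / 2 ^ k) := mul_le_mul_of_nonneg_left h2 h.hb'
  linarith

theorem coord_le {p p' : (Fin n → ℝ) × Icc (0 : ℝ) 1} {r : ℝ} (h : dist p p' ≤ r) :
    ‖p.1 - p'.1‖ ≤ r ∧ |(p.2 : ℝ) - p'.2| ≤ r := by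
  rw [Prod.dist_eq, max_le_iff, dist_eq_norm, Subtype.dist_eq, Real.dist_eq] at h
  exact h

theorem coord_le' {p p' : (Fin n → ℝ) × ℝ} {r : ℝ} (h : dist p p' ≤ r) :
    ‖p.1 - p'.1‖ ≤ r ∧ |p.2 - p'.2| ≤ r := by
  rw [Prod.dist_eq, max_le_iff, dist_eq_norm, Real.dist_eq] at h
  exact h

theorem X_cont (h : G6 n q a b a' b' C₁ C₂ ρ X Y H) :
    Continuous (fun p : (Fin n → ℝ) × ℝ => X p.1 p.2) := g6_contLip X C₁ h.hC₁ h.hX

theorem Y_cont (h : G6 n q a b a' b' C₁ C₂ ρ X Y H) :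
    Continuous (fun p : (Fin n → ℝ) × ℝ => Y p.1 p.2) := g6_contLip Y C₁ h.hC₁ h.hY

theorem Th_cont (h : G6 n q a b a' b' C₁ C₂ ρ X Y H) : Continuous (Th Y) := by
  refine Continuous.prodMk ?_ (by fun_prop)
  exact h.Y_cont.comp (f := fun p : (Fin n → ℝ) × Icc (0 : ℝ) 1 => (p.1, (p.2 : ℝ)))
    (by fun_prop)

theorem Xi_cont (h : G6 n q a b a' b' C₁ C₂ ρ X Y H) : Continuous (Xi H) := by
  refine Continuous.prodMk continuous_fst (g6_cont _ (C₂ + b') q fun p p' k hk => ?_)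
  exact h.H_mod _ _ p.2.2 p'.2.2 k (coord_le hk).1 (coord_le hk).2

theorem Th_inj (h : G6 n q a b a' b' C₁ C₂ ρ X Y H) : Function.Injective (Th Y) := by
  rintro ⟨z, t⟩ ⟨z', t'⟩ he
  simp only [Th, Prod.mk.injEq] at he
  obtain ⟨h1, h2⟩ := he
  have h3 : t = t' := Subtype.ext h2
  subst h3
  have h4 := congrArg (fun x => X x t) h1
  simp only [h.hXY] at h4
  rw [h4]

theorem Xi_inj (h : G6 n q a b a' b' C₁ C₂ ρ X Y H) : Function.Injective (Xi H) := by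
  rintro ⟨z, t⟩ ⟨z', t'⟩ he
  simp only [Xi, Prod.mk.injEq] at he
  obtain ⟨rfl, h2⟩ := he
  have h3 := (h.H_abs z t'.2 t.2).1
  rw [h2, sub_self, abs_zero] at h3
  have h4 : |(t : ℝ) - t'| ≤ 0 := by
    have := h.ha'
    by_contra hc
    push Not at hc
    have : 0 < a' * |(t : ℝ) - t'| := by positivity
    linarith
  have h5 : (t : ℝ) = t' := by
    have := abs_nonpos_iff.1 h4
    linarith
  rw [Subtype.ext h5]

theorem Th_emb (h : G6 n q a b a' b' C₁ C₂ ρ X Y H) : MeasurableEmbedding (Th Y) :=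
  h.Th_cont.measurableEmbedding h.Th_inj

theorem Xi_emb (h : G6 n q a b a' b' C₁ C₂ ρ X Y H) : MeasurableEmbedding (Xi H) :=
  h.Xi_cont.measurableEmbedding h.Xi_inj

/-- the mass -/
noncomputable def nu (ρ : (Fin n → ℝ) × ℝ → ℝ) : Measure ((Fin n → ℝ) × ℝ) :=
  volume.withDensity (fun p => ENNReal.ofReal (ρ p))

/-- the slab -/
def slab (n : ℕ) (t₀ : ℝ) : Set ((Fin n → ℝ) × ℝ) := univ ×ˢ Icc (0 : ℝ) t₀

/-- labels of the mass up to time `t₀` -/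
noncomputable def N1 (ρ : (Fin n → ℝ) × ℝ → ℝ) (X : (Fin n → ℝ) → ℝ → (Fin n → ℝ)) (t₀ : ℝ) :
    Measure (Fin n → ℝ) :=
  Measure.map (fun p : (Fin n → ℝ) × ℝ => X p.1 p.2) ((nu ρ).restrict (slab n t₀))

/-- the measure with density `H` -/
noncomputable def N2 (H : (Fin n → ℝ) → ℝ → ℝ) (t₀ : ℝ) : Measure (Fin n → ℝ) :=
  volume.withDensity (fun z => ENNReal.ofReal (H z t₀))

theorem slab_meas (t₀ : ℝ) : MeasurableSet (slab n t₀) := MeasurableSet.univ.prod measurableSet_Icc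

/-- a compact set containing the points of the slab with labels in `K` -/
theorem exists_compact (h : G6 n q a b a' b' C₁ C₂ ρ X Y H) (t₀ : ℝ) {K : Set (Fin n → ℝ)}
    (hK : IsCompact K) : ∃ T : Set ((Fin n → ℝ) × ℝ), IsCompact T ∧
      ∀ p ∈ slab n t₀, X p.1 p.2 ∈ K → p ∈ T := by
  refine ⟨(fun p : (Fin n → ℝ) × ℝ => (Y p.1 p.2, p.2)) '' (K ×ˢ Icc (0 : ℝ) t₀),
    (hK.prod isCompact_Icc).image (h.Y_cont.prodMk continuous_snd), ?_⟩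
  rintro ⟨x, τ⟩ ⟨_, hτ⟩ hx
  exact ⟨(X x τ, τ), ⟨hx, hτ⟩, by simp only [h.hYX]⟩

theorem nu_le (h : G6 n q a b a' b' C₁ C₂ ρ X Y H) {T : Set ((Fin n → ℝ) × ℝ)}
    (hT : IsCompact T) : nu ρ T < ⊤ := by
  rw [nu, withDensity_apply _ hT.measurableSet]
  calc ∫⁻ p in T, ENNReal.ofReal (ρ p) ≤ ∫⁻ _ in T, ENNReal.ofReal b :=
        lintegral_mono fun p => ENNReal.ofReal_le_ofReal (h.hρ p).2
    _ = ENNReal.ofReal b * volume T := by rw [setLIntegral_const]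
    _ < ⊤ := ENNReal.mul_lt_top ENNReal.ofReal_lt_top hT.measure_lt_top

theorem N1_apply (h : G6 n q a b a' b' C₁ C₂ ρ X Y H) (t₀ : ℝ) {A : Set (Fin n → ℝ)}
    (hA : MeasurableSet A) :
    N1 ρ X t₀ A = nu ρ ((fun p : (Fin n → ℝ) × ℝ => X p.1 p.2) ⁻¹' A ∩ slab n t₀) := by
  rw [N1, Measure.map_apply h.X_cont.measurable hA,
    Measure.restrict_apply (h.X_cont.measurable hA)]

theorem N1_fin (h : G6 n q a b a' b' C₁ C₂ ρ X Y H) (t₀ : ℝ) :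
    IsFiniteMeasureOnCompacts (N1 ρ X t₀) := by
  constructor
  intro K hK
  obtain ⟨T, hT, hTK⟩ := h.exists_compact t₀ hK
  rw [h.N1_apply t₀ hK.measurableSet]
  refine lt_of_le_of_lt (measure_mono ?_) (h.nu_le hT)
  rintro p ⟨hp1, hp2⟩
  exact hTK p hp2 hp1

theorem H_cont (h : G6 n q a b a' b' C₁ C₂ ρ X Y H) {t₀ : ℝ} (ht₀ : t₀ ∈ Icc (0 : ℝ) 1) :
    Continuous (fun z => H z t₀) := by
  have : (fun z => H z t₀) = fun z => (Xi H (z, ⟨t₀, ht₀⟩)).2 := rfl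
  rw [this]
  exact continuous_snd.comp (h.Xi_cont.comp (by fun_prop))

theorem N_eq (h : G6 n q a b a' b' C₁ C₂ ρ X Y H) {t₀ : ℝ} (ht₀ : t₀ ∈ Icc (0 : ℝ) 1) :
    N1 ρ X t₀ = N2 H t₀ := by
  have i1 : IsFiniteMeasureOnCompacts (N1 ρ X t₀) := h.N1_fin t₀
  have i1' : IsLocallyFiniteMeasure (N1 ρ X t₀) := inferInstance
  have i2 : IsLocallyFiniteMeasure (N2 H t₀) :=
    IsLocallyFiniteMeasure.withDensity_ofReal (h.H_cont ht₀)
  refine Measure.ext_of_integral_eq_on_compactlySupported fun φ => ?_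
  have hφc : Continuous (φ : (Fin n → ℝ) → ℝ) := φ.continuous
  have hφs : HasCompactSupport (φ : (Fin n → ℝ) → ℝ) := φ.hasCompactSupport
  have e1 : ∫ z, φ z ∂(N2 H t₀) = ∫ z, φ z * H z t₀ := by
    rw [N2, integral_withDensity_eq_integral_toReal_smul
      (h.H_cont ht₀).measurable.ennreal_ofReal
      (Filter.Eventually.of_forall fun _ => ENNReal.ofReal_lt_top)]
    refine integral_congr_ae (Filter.Eventually.of_forall fun z => ?_)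
    simp only
    rw [ENNReal.toReal_ofReal (h.H_nonneg z ht₀), smul_eq_mul, mul_comm]
  set g : (Fin n → ℝ) × ℝ → (Fin n → ℝ) := fun p => X p.1 p.2 with hg
  have hgc : Continuous g := h.X_cont
  have e2 : ∫ z, φ z ∂(N1 ρ X t₀) = ∫ p in slab n t₀, φ (g p) * ρ p := by
    rw [N1, integral_map hgc.measurable.aemeasurable hφc.aestronglyMeasurable, nu,
      restrict_withDensity (slab_meas t₀),
      integral_withDensity_eq_integral_toReal_smul h.hρm.ennreal_ofReal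
      (Filter.Eventually.of_forall fun _ => ENNReal.ofReal_lt_top)]
    refine integral_congr_ae (Filter.Eventually.of_forall fun p => ?_)
    simp only
    rw [ENNReal.toReal_ofReal (h.ha.le.trans (h.hρ p).1), smul_eq_mul, mul_comm]
  have hint : IntegrableOn (fun p => φ (g p) * ρ p) (slab n t₀) := by
    obtain ⟨T, hT, hTK⟩ := h.exists_compact t₀ hφs
    obtain ⟨M, hM⟩ := hφs.exists_bound_of_continuous hφc
    have hM0 : 0 ≤ M := (norm_nonneg _).trans (hM 0)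
    have h1 : IntegrableOn (fun p => φ (g p) * ρ p) T := by
      refine Measure.integrableOn_of_bounded (M := M * b) hT.measure_lt_top.ne
        ((hφc.comp hgc).measurable.mul h.hρm).aestronglyMeasurable ?_
      refine Filter.Eventually.of_forall fun p => ?_
      rw [norm_mul, Real.norm_of_nonneg (h.ha.le.trans (h.hρ p).1)]
      exact mul_le_mul (hM _) (h.hρ p).2 (h.ha.le.trans (h.hρ p).1) hM0
    have h2 : Integrable (T.indicator (fun p => φ (g p) * ρ p)) :=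
      (integrable_indicator_iff hT.measurableSet).2 h1
    refine h2.integrableOn.congr_fun (fun p hp => ?_) (slab_meas t₀)
    by_cases hpT : p ∈ T
    · rw [indicator_of_mem hpT]
    · rw [indicator_of_notMem hpT]
      have : φ (g p) = 0 := by
        by_contra hne
        exact hpT (hTK p hp (subset_tsupport _ hne))
      simp only [this, zero_mul]
  have e3 : ∫ p in slab n t₀, φ (g p) * ρ p = lab ρ t₀ φ g := by
    rw [lab, intervalIntegral.integral_of_le ht₀.1, ← integral_Icc_eq_integral_Ioc, slab]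
    have hvol : (volume : Measure ((Fin n → ℝ) × ℝ)).restrict (univ ×ˢ Icc (0 : ℝ) t₀) =
        (volume : Measure (Fin n → ℝ)).prod ((volume : Measure ℝ).restrict (Icc (0 : ℝ) t₀)) := by
      rw [Measure.volume_eq_prod, ← Measure.prod_restrict, Measure.restrict_univ]
    rw [hvol]
    rw [integral_prod_symm]
    have h3 := hint
    rw [IntegrableOn, slab, hvol] at h3
    exact h3
  rw [e1, e2, e3]
  exact h.hmass t₀ ht₀ φ hφc hφs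

theorem mass_Th (h : G6 n q a b a' b' C₁ C₂ ρ X Y H) (t₀ : Icc (0 : ℝ) 1) {A : Set (Fin n → ℝ)}
    (hA : MeasurableSet A) : nu ρ (Th Y '' (A ×ˢ Iic t₀)) = N1 ρ X t₀ A := by
  rw [h.N1_apply _ hA]
  congr 1
  ext ⟨x, t⟩
  constructor
  · rintro ⟨⟨z, s⟩, ⟨hz, hs⟩, he⟩
    simp only [Th, Prod.mk.injEq] at he
    obtain ⟨rfl, rfl⟩ := he
    refine ⟨?_, mem_univ _, s.2.1, hs⟩
    rw [mem_preimage]
    simp only [h.hXY]
    exact hz
  · rintro ⟨h1, _, h2⟩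
    exact ⟨(X x t, ⟨t, h2.1, h2.2.trans t₀.2.2⟩), ⟨h1, h2.2⟩, by simp only [Th, h.hYX]⟩

theorem Xi_image (h : G6 n q a b a' b' C₁ C₂ ρ X Y H) (A : Set (Fin n → ℝ))
    (t₀ : Icc (0 : ℝ) 1) :
    Xi H '' (A ×ˢ Iic t₀) =
      {p : (Fin n → ℝ) × ℝ | p.1 ∈ A ∧ p.2 ∈ Icc 0 (H p.1 t₀)} := by
  ext ⟨z, y⟩
  constructor
  · rintro ⟨⟨z', s⟩, ⟨hz, hs⟩, he⟩
    simp only [Xi, Prod.mk.injEq] at he
    obtain ⟨rfl, rfl⟩ := he
    have h2 := (h.hHt s s.2 t₀ t₀.2 hs z').1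
    have h4 : 0 ≤ a' * ((t₀ : ℝ) - s) :=
      mul_nonneg h.ha'.le (by have : (s : ℝ) ≤ t₀ := hs; linarith)
    exact ⟨hz, h.H_nonneg z' s.2, by simp only; linarith⟩
  · rintro ⟨hz, hy⟩
    simp only at hz hy
    have hc : ContinuousOn (fun t => H z t) (Icc 0 (t₀ : ℝ)) := by
      have h1 : Continuous (fun t : Icc (0 : ℝ) 1 => H z t) := by
        have : (fun t : Icc (0 : ℝ) 1 => H z t) = fun t => (Xi H (z, t)).2 := rfl
        rw [this]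
        exact continuous_snd.comp (h.Xi_cont.comp (by fun_prop))
      have h2 : ContinuousOn (fun t => H z t) (Icc (0 : ℝ) 1) :=
        continuousOn_iff_continuous_domRestrict.2 h1
      exact h2.mono (Icc_subset_Icc le_rfl t₀.2.2)
    have h3 := intermediate_value_Icc t₀.2.1 hc
    rw [h.hH0] at h3
    obtain ⟨t, ht, rfl⟩ := h3 hy
    exact ⟨(z, ⟨t, ht.1, ht.2.trans t₀.2.2⟩), ⟨hz, ht.2⟩, rfl⟩

theorem mass_Xi (h : G6 n q a b a' b' C₁ C₂ ρ X Y H) (t₀ : Icc (0 : ℝ) 1) {A : Set (Fin n → ℝ)}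
    (hA : MeasurableSet A) : volume (Xi H '' (A ×ˢ Iic t₀)) = N2 H t₀ A := by
  have hms : MeasurableSet (Xi H '' (A ×ˢ Iic t₀)) :=
    h.Xi_emb.measurableSet_image.2 (hA.prod measurableSet_Iic)
  rw [Measure.volume_eq_prod, Measure.prod_apply hms]
  have e1 : ∀ z : Fin n → ℝ, volume (Prod.mk z ⁻¹' (Xi H '' (A ×ˢ Iic t₀))) =
      A.indicator (fun z => ENNReal.ofReal (H z t₀)) z := by
    intro z
    rw [h.Xi_image]
    by_cases hz : z ∈ A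
    · rw [indicator_of_mem hz]
      have : Prod.mk z ⁻¹' {p : (Fin n → ℝ) × ℝ | p.1 ∈ A ∧ p.2 ∈ Icc 0 (H p.1 t₀)} =
          Icc 0 (H z t₀) := by
        ext y
        exact ⟨fun hy => hy.2, fun hy => ⟨hz, hy⟩⟩
      rw [this, Real.volume_Icc, sub_zero]
    · rw [indicator_of_notMem hz]
      have : Prod.mk z ⁻¹' {p : (Fin n → ℝ) × ℝ | p.1 ∈ A ∧ p.2 ∈ Icc 0 (H p.1 t₀)} = ∅ := by
        ext y
        exact ⟨fun hy => hz hy.1, fun hy => hy.elim⟩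
      rw [this, measure_empty]
  simp only [e1]
  rw [lintegral_indicator hA, N2, withDensity_apply _ hA]

/-- the two measures agree -/
theorem measures_eq (h : G6 n q a b a' b' C₁ C₂ ρ X Y H) :
    Measure.comap (Th Y) (nu ρ) = Measure.comap (Xi H) volume := by
  set C : Set (Set (Fin n → ℝ)) := {S | MeasurableSet S} with hC
  set D : Set (Set (Icc (0 : ℝ) 1)) := range Iic with hD
  have hCs : IsCountablySpanning C := isCountablySpanning_measurableSet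
  have htop : (Iic (⟨1, zero_le_one, le_rfl⟩ : Icc (0 : ℝ) 1)) = univ :=
    eq_univ_of_forall fun t => t.2.2
  have hDs : IsCountablySpanning D := by
    refine ⟨fun _ => Iic ⟨1, zero_le_one, le_rfl⟩, fun _ => ⟨_, rfl⟩, ?_⟩
    rw [htop, iUnion_const]
  have hgen : (inferInstance : MeasurableSpace ((Fin n → ℝ) × Icc (0 : ℝ) 1)) =
      MeasurableSpace.generateFrom (image2 (· ×ˢ ·) C D) := by
    rw [← generateFrom_prod_eq hCs hDs]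
    have e1 : MeasurableSpace.generateFrom C = (inferInstance : MeasurableSpace (Fin n → ℝ)) :=
      MeasurableSpace.generateFrom_measurableSet
    have e2 : MeasurableSpace.generateFrom D =
        (inferInstance : MeasurableSpace (Icc (0 : ℝ) 1)) := by
      rw [hD, ← borel_eq_generateFrom_Iic (Icc (0 : ℝ) 1)]
      exact (BorelSpace.measurable_eq (α := Icc (0 : ℝ) 1)).symm
    rw [e1, e2]
  have hpi : IsPiSystem (image2 (· ×ˢ ·) C D) :=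
    IsPiSystem.prod MeasurableSpace.isPiSystem_measurableSet isPiSystem_Iic
  refine Measure.ext_of_generateFrom_of_iUnion (image2 (· ×ˢ ·) C D)
    (fun k : ℕ => Metric.closedBall (0 : Fin n → ℝ) k ×ˢ Iic ⟨1, zero_le_one, le_rfl⟩)
    hgen hpi ?_ ?_ ?_ ?_
  · rw [htop]
    refine eq_univ_of_forall fun p => ?_
    obtain ⟨k, hk⟩ := exists_nat_gt ‖p.1‖
    rw [mem_iUnion]
    exact ⟨k, by rw [Metric.mem_closedBall, dist_zero_right]; exact hk.le, mem_univ _⟩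
  · intro k
    have hm : MeasurableSet (Metric.closedBall (0 : Fin n → ℝ) k) :=
      Metric.isClosed_closedBall.measurableSet
    exact ⟨_, hm, _, ⟨_, rfl⟩, rfl⟩
  · intro k
    have i1 : IsFiniteMeasureOnCompacts (N1 ρ X (1 : ℝ)) := h.N1_fin 1
    rw [h.Th_emb.comap_apply, h.mass_Th ⟨1, zero_le_one, le_rfl⟩
      Metric.isClosed_closedBall.measurableSet]
    exact (isCompact_closedBall (0 : Fin n → ℝ) k).measure_lt_top.ne
  · rintro _ ⟨A, hA, _, ⟨t₀, rfl⟩, rfl⟩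
    rw [h.Th_emb.comap_apply, h.Xi_emb.comap_apply]
    exact (h.mass_Th t₀ hA).trans ((congrArg (fun m => m A) (h.N_eq t₀.2)).trans
      (h.mass_Xi t₀ hA).symm)

/-- the map -/
noncomputable def ff (Y : (Fin n → ℝ) → ℝ → (Fin n → ℝ)) (H : (Fin n → ℝ) → ℝ → ℝ) :
    (Fin n → ℝ) × ℝ → (Fin n → ℝ) × ℝ :=
  Function.extend (Th Y) (Xi H) fun _ => 0

theorem ff_Th (h : G6 n q a b a' b' C₁ C₂ ρ X Y H) (p : (Fin n → ℝ) × Icc (0 : ℝ) 1) :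
    ff Y H (Th Y p) = Xi H p := h.Th_inj.extend_apply _ _ _

theorem exists_Th (h : G6 n q a b a' b' C₁ C₂ ρ X Y H) {p : (Fin n → ℝ) × ℝ}
    (hp : p ∈ Icc (0 : Fin n → ℝ) 1 ×ˢ Icc (0 : ℝ) 1) : ∃ r, Th Y r = p := by
  obtain ⟨x, t⟩ := p
  exact ⟨(X x t, ⟨t, hp.2⟩), by simp only [Th, h.hYX]⟩

theorem mod_f (h : G6 n q a b a' b' C₁ C₂ ρ X Y H) (r r' : (Fin n → ℝ) × Icc (0 : ℝ) 1) (k : ℕ)
    (hk : dist (Th Y r) (Th Y r') ≤ 1 / 2 ^ k) :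
    dist (Xi H r) (Xi H r') ≤
      (2 * C₁ + (2 * C₁ + 1) * C₂ + b') * ((k : ℝ) + 1) ^ q / 2 ^ k := by
  obtain ⟨z, t, ht⟩ := r
  obtain ⟨z', t', ht'⟩ := r'
  obtain ⟨h1, h2⟩ := coord_le' hk
  simp only [Th] at h1 h2
  have hp : (0 : ℝ) < 2 ^ k := by positivity
  have hC₁ := h.hC₁
  have hC₂ := h.hC₂
  have hb := h.hb'
  have hq0 := g6_one_le_pow k q
  have h3 : ‖z - z'‖ ≤ (2 * C₁) * (1 / 2 ^ k) := by
    have e := h.hX (Y z t) (Y z' t') t t'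
    rw [h.hXY, h.hXY] at e
    calc ‖z - z'‖ ≤ C₁ * (‖Y z t - Y z' t'‖ + |t - t'|) := e
      _ ≤ C₁ * (1 / 2 ^ k + 1 / 2 ^ k) := mul_le_mul_of_nonneg_left (add_le_add h1 h2) hC₁
      _ = _ := by ring
  have h4 := g6_chain' (φ := fun z => H z t) (δ := 1 / 2 ^ k)
    (ε := C₂ * ((k : ℝ) + 1) ^ q / 2 ^ k) (by positivity) (by positivity)
    (fun x y hxy => h.hH t ht x y k hxy) (r := 2 * C₁) (by positivity) z z' h3
  have h5 := (h.H_abs z' ht' ht).2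
  have h6 : |H z t - H z' t'| ≤ |H z t - H z' t| + |H z' t - H z' t'| := abs_sub_le _ _ _
  have h7 : b' * |t - t'| ≤ b' * (1 / 2 ^ k) := mul_le_mul_of_nonneg_left h2 hb
  rw [Prod.dist_eq, max_le_iff, dist_eq_norm, Real.dist_eq]
  constructor
  · change ‖z - z'‖ ≤ _
    refine h3.trans ?_
    rw [mul_one_div]
    apply div_le_div_of_nonneg_right _ hp.le
    calc 2 * C₁ ≤ 2 * C₁ * ((k : ℝ) + 1) ^ q := le_mul_of_one_le_right (by positivity) hq0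
      _ ≤ _ := mul_le_mul_of_nonneg_right (by nlinarith [mul_nonneg hC₁ hC₂]) (by positivity)
  · change |H z t - H z' t'| ≤ _
    have h8 : (2 * C₁ + 1) * (C₂ * ((k : ℝ) + 1) ^ q / 2 ^ k) + b' * (1 / 2 ^ k) ≤
        (2 * C₁ + (2 * C₁ + 1) * C₂ + b') * ((k : ℝ) + 1) ^ q / 2 ^ k := by
      rw [← mul_div_assoc, mul_one_div, ← add_div]
      apply div_le_div_of_nonneg_right _ hp.le
      have e1 : b' ≤ b' * ((k : ℝ) + 1) ^ q := le_mul_of_one_le_right hb hq0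
      have e2 : 0 ≤ 2 * C₁ * ((k : ℝ) + 1) ^ q := by positivity
      nlinarith
    linarith

theorem mod_inv (h : G6 n q a b a' b' C₁ C₂ ρ X Y H) (r r' : (Fin n → ℝ) × Icc (0 : ℝ) 1)
    (k : ℕ) (hk : dist (Xi H r) (Xi H r') ≤ 1 / 2 ^ k) :
    dist (Th Y r) (Th Y r') ≤
      ((1 + C₂) / a' + C₁ * (1 + (1 + C₂) / a')) * ((k : ℝ) + 1) ^ q / 2 ^ k := by
  obtain ⟨z, t, ht⟩ := r
  obtain ⟨z', t', ht'⟩ := r'
  obtain ⟨h1, h2⟩ := coord_le' hk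
  simp only [Xi] at h1 h2
  have hp : (0 : ℝ) < 2 ^ k := by positivity
  have hC₁ := h.hC₁
  have hC₂ := h.hC₂
  have ha := h.ha'
  have hq0 := g6_one_le_pow k q
  have h3 := (h.H_abs z' ht' ht).1
  have h4 := h.hH t ht z z' k h1
  have h5 : |H z' t - H z' t'| ≤ |H z' t - H z t| + |H z t - H z' t'| := abs_sub_le _ _ _
  rw [abs_sub_comm (H z' t) (H z t)] at h5
  set c := (1 + C₂) / a' with hc
  have hc0 : 0 ≤ c := by positivity
  have h6 : |t - t'| ≤ c * (((k : ℝ) + 1) ^ q / 2 ^ k) := by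
    have e2 : a' * |t - t'| ≤ (1 + C₂) * (((k : ℝ) + 1) ^ q / 2 ^ k) := by
      have : C₂ * ((k : ℝ) + 1) ^ q / 2 ^ k + 1 / 2 ^ k ≤
          (1 + C₂) * (((k : ℝ) + 1) ^ q / 2 ^ k) := by
        rw [← mul_div_assoc, ← add_div]
        apply div_le_div_of_nonneg_right _ hp.le
        linarith
      linarith
    rw [hc, div_mul_eq_mul_div, le_div_iff₀ ha]
    linarith
  have h7 := h.hY z z' t t'
  have h8 : (1 : ℝ) / 2 ^ k ≤ ((k : ℝ) + 1) ^ q / 2 ^ k :=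
    div_le_div_of_nonneg_right hq0 hp.le
  rw [Prod.dist_eq, max_le_iff, dist_eq_norm, Real.dist_eq, mul_div_assoc]
  have h9 : (0 : ℝ) ≤ ((k : ℝ) + 1) ^ q / 2 ^ k := by positivity
  constructor
  · change ‖Y z t - Y z' t'‖ ≤ _
    calc ‖Y z t - Y z' t'‖ ≤ C₁ * (‖z - z'‖ + |t - t'|) := h7
      _ ≤ C₁ * (((k : ℝ) + 1) ^ q / 2 ^ k + c * (((k : ℝ) + 1) ^ q / 2 ^ k)) :=
          mul_le_mul_of_nonneg_left (add_le_add (h1.trans h8) h6) hC₁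
      _ = C₁ * (1 + c) * (((k : ℝ) + 1) ^ q / 2 ^ k) := by ring
      _ ≤ _ := mul_le_mul_of_nonneg_right (by linarith) h9
  · change |t - t'| ≤ _
    refine h6.trans (mul_le_mul_of_nonneg_right ?_ h9)
    have : 0 ≤ C₁ * (1 + c) := by positivity
    linarith

theorem final (h : G6 n q a b a' b' C₁ C₂ ρ X Y H) (B : Set ((Fin n → ℝ) × ℝ))
    (hB : MeasurableSet B) :
    ∫⁻ x in (Icc (0 : Fin n → ℝ) 1 ×ˢ Icc (0 : ℝ) 1) ∩ ff Y H ⁻¹' B, ENNReal.ofReal (ρ x)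
      = volume (B ∩ ff Y H '' (Icc (0 : Fin n → ℝ) 1 ×ˢ Icc (0 : ℝ) 1)) := by
  set I : Set ((Fin n → ℝ) × ℝ) := Icc (0 : Fin n → ℝ) 1 ×ˢ Icc (0 : ℝ) 1 with hI
  have hIm : MeasurableSet I := measurableSet_Icc.prod measurableSet_Icc
  set A : Set ((Fin n → ℝ) × Icc (0 : ℝ) 1) := Th Y ⁻¹' I ∩ Xi H ⁻¹' B with hA
  have hAm : MeasurableSet A :=
    (h.Th_emb.measurable hIm).inter (h.Xi_emb.measurable hB)
  have e1 : I ∩ ff Y H ⁻¹' B = Th Y '' A := by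
    ext p
    constructor
    · rintro ⟨hp, hpB⟩
      obtain ⟨r, rfl⟩ := h.exists_Th hp
      rw [mem_preimage, h.ff_Th] at hpB
      exact ⟨r, ⟨hp, hpB⟩, rfl⟩
    · rintro ⟨r, ⟨hr1, hr2⟩, rfl⟩
      refine ⟨hr1, ?_⟩
      rw [mem_preimage, h.ff_Th]
      exact hr2
  have e2 : B ∩ ff Y H '' I = Xi H '' A := by
    ext p
    constructor
    · rintro ⟨hp, s, hs, rfl⟩
      obtain ⟨r, rfl⟩ := h.exists_Th hs
      rw [h.ff_Th] at hp ⊢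
      exact ⟨r, ⟨hs, hp⟩, rfl⟩
    · rintro ⟨r, ⟨hr1, hr2⟩, rfl⟩
      exact ⟨hr2, Th Y r, hr1, h.ff_Th r⟩
  have hm : MeasurableSet (Th Y '' A) := h.Th_emb.measurableSet_image.2 hAm
  rw [e1, e2, ← withDensity_apply _ hm]
  change nu ρ (Th Y '' A) = _
  rw [← h.Th_emb.comap_apply, h.measures_eq, h.Xi_emb.comap_apply]

end G6

theorem assembly_gd (n q : ℕ) (a b a' b' C₁ C₂ : ℝ) (ha : 0 < a) (ha' : 0 < a')
    (ρ : (Fin n → ℝ) × ℝ → ℝ) (hρm : Measurable ρ) (hρ : ∀ p, a ≤ ρ p ∧ ρ p ≤ b)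
    (X Y : (Fin n → ℝ) → ℝ → (Fin n → ℝ))
    (hYX : ∀ x τ, Y (X x τ) τ = x) (hXY : ∀ z τ, X (Y z τ) τ = z)
    (hX : ∀ x x' τ τ', ‖X x τ - X x' τ'‖ ≤ C₁ * (‖x - x'‖ + |τ - τ'|))
    (hY : ∀ z z' τ τ', ‖Y z τ - Y z' τ'‖ ≤ C₁ * (‖z - z'‖ + |τ - τ'|))
    (H : (Fin n → ℝ) → ℝ → ℝ)
    (hH : ∀ t ∈ Icc (0 : ℝ) 1, ∀ (X X' : Fin n → ℝ) (k : ℕ), ‖X - X'‖ ≤ 1 / 2 ^ k →
        |H X t - H X' t| ≤ C₂ * ((k : ℝ) + 1) ^ q / 2 ^ k)
    (hH0 : ∀ z, H z 0 = 0)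
    (hHt : ∀ s ∈ Icc (0 : ℝ) 1, ∀ t ∈ Icc (0 : ℝ) 1, s ≤ t → ∀ z,
      a' * (t - s) ≤ H z t - H z s ∧ H z t - H z s ≤ b' * (t - s))
    (hmass : ∀ t ∈ Icc (0 : ℝ) 1, ∀ φ : (Fin n → ℝ) → ℝ, Continuous φ → HasCompactSupport φ →
        lab ρ t φ (fun p => X p.1 p.2) = ∫ z, φ z * H z t) :
    ∃ f : (Fin n → ℝ) × ℝ → (Fin n → ℝ) × ℝ,
      InjOn f (Icc (0 : Fin n → ℝ) 1 ×ˢ Icc (0 : ℝ) 1) ∧
      (∃ C : ℝ, ∀ x ∈ Icc (0 : Fin n → ℝ) 1 ×ˢ Icc (0 : ℝ) 1,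
        ∀ y ∈ Icc (0 : Fin n → ℝ) 1 ×ˢ Icc (0 : ℝ) 1, ∀ k : ℕ, dist x y ≤ 1 / 2 ^ k →
          dist (f x) (f y) ≤ C * ((k : ℝ) + 1) ^ q / 2 ^ k) ∧
      (∃ C : ℝ, ∀ x ∈ Icc (0 : Fin n → ℝ) 1 ×ˢ Icc (0 : ℝ) 1,
        ∀ y ∈ Icc (0 : Fin n → ℝ) 1 ×ˢ Icc (0 : ℝ) 1, ∀ k : ℕ, dist (f x) (f y) ≤ 1 / 2 ^ k →
          dist x y ≤ C * ((k : ℝ) + 1) ^ q / 2 ^ k) ∧
      ∀ B : Set ((Fin n → ℝ) × ℝ), MeasurableSet B →
        ∫⁻ x in (Icc (0 : Fin n → ℝ) 1 ×ˢ Icc (0 : ℝ) 1) ∩ f ⁻¹' B, ENNReal.ofReal (ρ x)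
          = volume (B ∩ f '' (Icc (0 : Fin n → ℝ) 1 ×ˢ Icc (0 : ℝ) 1)) := by
  have hC₁ : 0 ≤ C₁ := by
    have h1 := hX 0 0 0 1
    rw [sub_self, norm_zero, zero_sub, abs_neg, abs_one, zero_add, mul_one] at h1
    exact (norm_nonneg _).trans h1
  have hC₂ : 0 ≤ C₂ := by
    have h1 := hH 0 G6.zero_mem01 0 0 0 (by simp)
    simpa using h1
  have hb' : 0 ≤ b' := by
    have h1 := hHt 0 G6.zero_mem01 1 ⟨zero_le_one, le_rfl⟩ zero_le_one 0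
    have h2 := h1.1.trans h1.2
    simp only [sub_zero, mul_one] at h2
    linarith
  have h : G6 n q a b a' b' C₁ C₂ ρ X Y H :=
    ⟨ha, ha', hρm, hρ, hYX, hXY, hC₁, hX, hY, hC₂, hH, hH0, hb', hHt, hmass⟩
  refine ⟨G6.ff Y H, ?_, ⟨2 * C₁ + (2 * C₁ + 1) * C₂ + b', ?_⟩,
    ⟨(1 + C₂) / a' + C₁ * (1 + (1 + C₂) / a'), ?_⟩, fun B hB => h.final B hB⟩
  · intro p hp p' hp' he
    obtain ⟨r, rfl⟩ := h.exists_Th hp
    obtain ⟨r', rfl⟩ := h.exists_Th hp'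
    rw [h.ff_Th, h.ff_Th] at he
    rw [h.Xi_inj he]
  · intro p hp p' hp' k hk
    obtain ⟨r, rfl⟩ := h.exists_Th hp
    obtain ⟨r', rfl⟩ := h.exists_Th hp'
    rw [h.ff_Th, h.ff_Th]
    exact h.mod_f r r' k hk
  · intro p hp p' hp' k hk
    obtain ⟨r, rfl⟩ := h.exists_Th hp
    obtain ⟨r', rfl⟩ := h.exists_Th hp'
    rw [h.ff_Th, h.ff_Th] at hk
    exact h.mod_inv r r' k hk

end Pool.Agent.helper312_gd
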