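import Mathlib

set_option autoImplicit false

open Set MeasureTheory

namespace Pool.Agent.helper312_gd

section self_balancing_aux

variable {V : Type*} [NormedAddCommGroup V] [InnerProductSpace ℝ V] {Ω : Type*} [Fintype Ω]

/-- averaged rank one operator -/
noncomputable def self_balancing_M (r : Ω → V) (u : V) : V :=
  (Fintype.card Ω : ℝ)⁻¹ • ∑ y, (inner ℝ (r y) u : ℝ) • r y

theorem self_balancing_inner_M (r : Ω → V) (u w : V) :
    (inner ℝ w (self_balancing_M r u) : ℝ) =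
      (Fintype.card Ω : ℝ)⁻¹ * ∑ y, (inner ℝ (r y) u : ℝ) * inner ℝ w (r y) := by
  unfold self_balancing_M
  rw [inner_smul_right, inner_sum]
  congr 1
  refine Finset.sum_congr rfl fun y _ => ?_
  rw [inner_smul_right]

theorem self_balancing_norm_M [Nonempty Ω] (r : Ω → V) (hr : ∀ y, ‖r y‖ ≤ 1) (u : V) :
    ‖self_balancing_M r u‖ ^ 2 ≤ (inner ℝ u (self_balancing_M r u) : ℝ) := by
  have hm : (0 : ℝ) < Fintype.card Ω := by exact_mod_cast Fintype.card_pos
  have h1 : ‖self_balancing_M r u‖ ≤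
      (Fintype.card Ω : ℝ)⁻¹ * ∑ y, |(inner ℝ (r y) u : ℝ)| := by
    unfold self_balancing_M
    rw [norm_smul, norm_inv, Real.norm_natCast]
    refine mul_le_mul_of_nonneg_left ?_ (by positivity)
    refine (norm_sum_le _ _).trans (Finset.sum_le_sum fun y _ => ?_)
    rw [norm_smul, Real.norm_eq_abs]
    exact mul_le_of_le_one_right (abs_nonneg _) (hr y)
  have h2 : (∑ y, |(inner ℝ (r y) u : ℝ)|) ^ 2 ≤
      (Fintype.card Ω : ℝ) * ∑ y, |(inner ℝ (r y) u : ℝ)| ^ 2 := by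
    have := sq_sum_le_card_mul_sum_sq (s := (Finset.univ : Finset Ω))
      (f := fun y => |(inner ℝ (r y) u : ℝ)|)
    simpa using this
  rw [self_balancing_inner_M]
  have h3 : ∑ y, |(inner ℝ (r y) u : ℝ)| ^ 2 =
      ∑ y, (inner ℝ (r y) u : ℝ) * inner ℝ u (r y) := by
    refine Finset.sum_congr rfl fun y _ => ?_
    rw [sq_abs, real_inner_comm u (r y), sq]
  calc ‖self_balancing_M r u‖ ^ 2
      ≤ ((Fintype.card Ω : ℝ)⁻¹ * ∑ y, |(inner ℝ (r y) u : ℝ)|) ^ 2 :=
        pow_le_pow_left₀ (norm_nonneg _) h1 2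
    _ = (Fintype.card Ω : ℝ)⁻¹ ^ 2 * (∑ y, |(inner ℝ (r y) u : ℝ)|) ^ 2 := by ring
    _ ≤ (Fintype.card Ω : ℝ)⁻¹ ^ 2 *
        ((Fintype.card Ω : ℝ) * ∑ y, |(inner ℝ (r y) u : ℝ)| ^ 2) :=
        mul_le_mul_of_nonneg_left h2 (by positivity)
    _ = (Fintype.card Ω : ℝ)⁻¹ * ∑ y, |(inner ℝ (r y) u : ℝ)| ^ 2 := by
        field_simp
    _ = _ := by rw [h3]

theorem self_balancing_inner_nonneg [Nonempty Ω] (r : Ω → V) (hr : ∀ y, ‖r y‖ ≤ 1) (u : V) :
    0 ≤ (inner ℝ u (self_balancing_M r u) : ℝ) :=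
  (sq_nonneg _).trans (self_balancing_norm_M r hr u)

theorem self_balancing_norm_sq (r : Ω → V) (u : V) (c : ℝ) :
    ‖u - c⁻¹ • self_balancing_M r u‖ ^ 2 = ‖u‖ ^ 2 - 2 * c⁻¹ * inner ℝ u (self_balancing_M r u) +
      c⁻¹ ^ 2 * ‖self_balancing_M r u‖ ^ 2 := by
  rw [norm_sub_sq_real, inner_smul_right, norm_smul, mul_pow, Real.norm_eq_abs, sq_abs]
  ring

theorem self_balancing_norm_step [Nonempty Ω] (r : Ω → V) (hr : ∀ y, ‖r y‖ ≤ 1) (u : V) {c : ℝ}
    (hc : 1 ≤ c) : ‖u - c⁻¹ • self_balancing_M r u‖ ≤ ‖u‖ := by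
  have h1 := self_balancing_norm_sq r u c
  have h2 := self_balancing_norm_M r hr u
  have h3 := self_balancing_inner_nonneg r hr u
  have hc0 : 0 < c := lt_of_lt_of_le one_pos hc
  have hc1 : c⁻¹ ≤ 1 := inv_le_one_of_one_le₀ hc
  have hc2 : 0 < c⁻¹ := inv_pos.2 hc0
  have h4 : c⁻¹ ^ 2 * ‖self_balancing_M r u‖ ^ 2 ≤ c⁻¹ * inner ℝ u (self_balancing_M r u) := by
    calc c⁻¹ ^ 2 * ‖self_balancing_M r u‖ ^ 2 ≤ c⁻¹ ^ 2 * inner ℝ u (self_balancing_M r u) :=
          mul_le_mul_of_nonneg_left h2 (by positivity)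
      _ ≤ c⁻¹ * inner ℝ u (self_balancing_M r u) := by
          refine mul_le_mul_of_nonneg_right ?_ h3
          nlinarith
  refine le_of_sq_le_sq ?_ (norm_nonneg _)
  rw [h1]
  have h5 : 0 ≤ c⁻¹ * inner ℝ u (self_balancing_M r u) := mul_nonneg hc2.le h3
  linarith

/-- the one step estimate -/
theorem self_balancing_step [Nonempty Ω] (r : Ω → V) (hr0 : ∑ y, r y = 0) (hr : ∀ y, ‖r y‖ ≤ 1)
    (u w : V) (hu : ‖u‖ ≤ 1) {c : ℝ} (hc : 1 ≤ c) (hw : ∀ y, |(inner ℝ w (r y) : ℝ)| ≤ c) :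
    (Fintype.card Ω : ℝ)⁻¹ * ∑ y, (1 - (inner ℝ w (r y) : ℝ) / c) *
        Real.exp (inner ℝ u (w + r y) - 2 * c * ‖u‖ ^ 2) ≤
      Real.exp (inner ℝ (u - c⁻¹ • self_balancing_M r u) w -
        2 * c * ‖u - c⁻¹ • self_balancing_M r u‖ ^ 2) := by
  have hm : (0 : ℝ) < Fintype.card Ω := by exact_mod_cast Fintype.card_pos
  have hc0 : 0 < c := lt_of_lt_of_le one_pos hc
  have ha : ∀ y, |(inner ℝ u (r y) : ℝ)| ≤ 1 := fun y => by
    calc |(inner ℝ u (r y) : ℝ)| ≤ ‖u‖ * ‖r y‖ := abs_real_inner_le_norm _ _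
      _ ≤ 1 * 1 := mul_le_mul hu (hr y) (norm_nonneg _) zero_le_one
      _ = 1 := one_mul 1
  have hp : ∀ y, 0 ≤ 1 - (inner ℝ w (r y) : ℝ) / c := fun y => by
    rw [sub_nonneg, div_le_one hc0]
    exact (le_abs_self _).trans (hw y)
  have hp2 : ∀ y, 1 - (inner ℝ w (r y) : ℝ) / c ≤ 2 := fun y => by
    have : -1 ≤ (inner ℝ w (r y) : ℝ) / c := by
      rw [le_div_iff₀ hc0]
      have := (abs_le.1 (hw y)).1
      linarith
    linarith
  have hexp : ∀ y, Real.exp (inner ℝ u (r y)) ≤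
      1 + (inner ℝ u (r y) : ℝ) + (inner ℝ u (r y) : ℝ) ^ 2 := fun y => by
    have h := Real.abs_exp_sub_one_sub_id_le (ha y)
    have := (abs_le.1 h).2
    linarith
  have hsa : ∑ y, (inner ℝ u (r y) : ℝ) = 0 := by
    rw [← inner_sum, hr0, inner_zero_right]
  have hsb : ∑ y, (inner ℝ w (r y) : ℝ) = 0 := by
    rw [← inner_sum, hr0, inner_zero_right]
  have hQ : (inner ℝ u (self_balancing_M r u) : ℝ) =
      (Fintype.card Ω : ℝ)⁻¹ * ∑ y, (inner ℝ u (r y) : ℝ) ^ 2 := by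
    rw [self_balancing_inner_M]
    congr 1
    refine Finset.sum_congr rfl fun y _ => ?_
    rw [real_inner_comm u (r y), sq]
  have hW : (inner ℝ w (self_balancing_M r u) : ℝ) =
      (Fintype.card Ω : ℝ)⁻¹ * ∑ y, (inner ℝ u (r y) : ℝ) * inner ℝ w (r y) := by
    rw [self_balancing_inner_M]
    congr 1
    refine Finset.sum_congr rfl fun y _ => ?_
    rw [real_inner_comm u (r y)]
  have key : (Fintype.card Ω : ℝ)⁻¹ * ∑ y, (1 - (inner ℝ w (r y) : ℝ) / c) *
      Real.exp (inner ℝ u (r y)) ≤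
      1 + (2 * inner ℝ u (self_balancing_M r u) - inner ℝ w (self_balancing_M r u) / c) := by
    have h1 : ∑ y, (1 - (inner ℝ w (r y) : ℝ) / c) * Real.exp (inner ℝ u (r y)) ≤
        ∑ y, (1 + inner ℝ u (r y) - (inner ℝ w (r y) : ℝ) / c +
          2 * (inner ℝ u (r y) : ℝ) ^ 2 - (inner ℝ u (r y) : ℝ) * inner ℝ w (r y) / c) := by
      refine Finset.sum_le_sum fun y _ => ?_
      have h2 := mul_le_mul_of_nonneg_left (hexp y) (hp y)
      have h3 := mul_le_mul_of_nonneg_right (hp2 y) (sq_nonneg (inner ℝ u (r y) : ℝ))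
      have e : (1 - (inner ℝ w (r y) : ℝ) / c) *
          (1 + (inner ℝ u (r y) : ℝ) + (inner ℝ u (r y) : ℝ) ^ 2) =
          1 + inner ℝ u (r y) - (inner ℝ w (r y) : ℝ) / c - (inner ℝ u (r y) : ℝ) * inner ℝ w (r y) / c
            + (1 - (inner ℝ w (r y) : ℝ) / c) * (inner ℝ u (r y) : ℝ) ^ 2 := by ring
      linarith
    have h4 : ∑ y, (1 + inner ℝ u (r y) - (inner ℝ w (r y) : ℝ) / c +
          2 * (inner ℝ u (r y) : ℝ) ^ 2 - (inner ℝ u (r y) : ℝ) * inner ℝ w (r y) / c) =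
        (Fintype.card Ω : ℝ) + 2 * ∑ y, (inner ℝ u (r y) : ℝ) ^ 2 -
          (∑ y, (inner ℝ u (r y) : ℝ) * inner ℝ w (r y)) / c := by
      rw [Finset.sum_sub_distrib, Finset.sum_add_distrib, Finset.sum_sub_distrib,
        Finset.sum_add_distrib, hsa, ← Finset.sum_div, hsb, ← Finset.mul_sum, ← Finset.sum_div]
      simp
    calc (Fintype.card Ω : ℝ)⁻¹ * ∑ y, (1 - (inner ℝ w (r y) : ℝ) / c) *
          Real.exp (inner ℝ u (r y))
        ≤ (Fintype.card Ω : ℝ)⁻¹ * ((Fintype.card Ω : ℝ) + 2 * ∑ y, (inner ℝ u (r y) : ℝ) ^ 2 -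
          (∑ y, (inner ℝ u (r y) : ℝ) * inner ℝ w (r y)) / c) := by
          rw [← h4]
          exact mul_le_mul_of_nonneg_left h1 (by positivity)
      _ = _ := by
          rw [hQ, hW]
          field_simp
          ring
  have hsum : (Fintype.card Ω : ℝ)⁻¹ * ∑ y, (1 - (inner ℝ w (r y) : ℝ) / c) *
        Real.exp (inner ℝ u (w + r y) - 2 * c * ‖u‖ ^ 2) =
      Real.exp (inner ℝ u w - 2 * c * ‖u‖ ^ 2) * ((Fintype.card Ω : ℝ)⁻¹ *
        ∑ y, (1 - (inner ℝ w (r y) : ℝ) / c) * Real.exp (inner ℝ u (r y))) := by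
    have hs : ∑ y, (1 - (inner ℝ w (r y) : ℝ) / c) *
        Real.exp (inner ℝ u (w + r y) - 2 * c * ‖u‖ ^ 2) =
        Real.exp (inner ℝ u w - 2 * c * ‖u‖ ^ 2) *
        ∑ y, (1 - (inner ℝ w (r y) : ℝ) / c) * Real.exp (inner ℝ u (r y)) := by
      rw [Finset.mul_sum]
      refine Finset.sum_congr rfl fun y _ => ?_
      rw [inner_add_right, mul_left_comm, ← Real.exp_add]
      congr 2
      ring
    rw [hs, mul_left_comm]
  rw [hsum]
  have h5 : (Fintype.card Ω : ℝ)⁻¹ * ∑ y, (1 - (inner ℝ w (r y) : ℝ) / c) *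
      Real.exp (inner ℝ u (r y)) ≤
      Real.exp (2 * inner ℝ u (self_balancing_M r u) - inner ℝ w (self_balancing_M r u) / c) := by
    refine key.trans ?_
    have := Real.add_one_le_exp
      (2 * (inner ℝ u (self_balancing_M r u) : ℝ) - inner ℝ w (self_balancing_M r u) / c)
    linarith
  refine (mul_le_mul_of_nonneg_left h5 (Real.exp_pos _).le).trans ?_
  rw [← Real.exp_add, Real.exp_le_exp, self_balancing_norm_sq, inner_sub_left, inner_smul_left]
  have h6 := self_balancing_norm_M r hr u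
  have h7 : (inner ℝ (self_balancing_M r u) w : ℝ) = inner ℝ w (self_balancing_M r u) :=
    real_inner_comm _ _
  rw [h7]
  simp only [conj_trivial]
  have h8 := self_balancing_inner_nonneg r hr u
  have h9 : c⁻¹ * ‖self_balancing_M r u‖ ^ 2 ≤ inner ℝ u (self_balancing_M r u) := by
    calc c⁻¹ * ‖self_balancing_M r u‖ ^ 2 ≤ 1 * ‖self_balancing_M r u‖ ^ 2 :=
          mul_le_mul_of_nonneg_right (inv_le_one_of_one_le₀ hc) (sq_nonneg _)
      _ ≤ _ := by rw [one_mul]; exact h6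
  have e1 : 2 * c * (‖u‖ ^ 2 - 2 * c⁻¹ * inner ℝ u (self_balancing_M r u) +
      c⁻¹ ^ 2 * ‖self_balancing_M r u‖ ^ 2) = 2 * c * ‖u‖ ^ 2 -
      4 * inner ℝ u (self_balancing_M r u) + 2 * (c⁻¹ * ‖self_balancing_M r u‖ ^ 2) := by
    field_simp
    ring
  rw [e1, div_eq_inv_mul]
  linarith

/-- the vector of a test `k` steps before its time -/
noncomputable def self_balancing_B (r : ℕ → Ω → V) (c : ℝ) : ℕ → ℕ → V → V
  | _, 0, u => u
  | j, k + 1, u => self_balancing_B r c (j + 1) k u -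
      c⁻¹ • self_balancing_M (r j) (self_balancing_B r c (j + 1) k u)

theorem self_balancing_B_norm [Nonempty Ω] (r : ℕ → Ω → V) (hr : ∀ i y, ‖r i y‖ ≤ 1) {c : ℝ}
    (hc : 1 ≤ c) (k : ℕ) : ∀ (j : ℕ) (u : V), ‖self_balancing_B r c j k u‖ ≤ ‖u‖ := by
  induction k with
  | zero => intro j u; simp [self_balancing_B]
  | succ k ih =>
    intro j u
    rw [self_balancing_B]
    exact (self_balancing_norm_step (r j) (hr j) _ hc).trans (ih (j + 1) u)

/-- total potential at step `j` -/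
noncomputable def self_balancing_Phi (r : ℕ → Ω → V) (c : ℝ) (N : ℕ) (T : ℕ → Finset V) (j : ℕ)
    (w : V) : ℝ :=
  ∑ i ∈ Finset.Icc j N, ∑ θ ∈ T i, Real.exp (inner ℝ (self_balancing_B r c j (i - j) θ) w -
    2 * c * ‖self_balancing_B r c j (i - j) θ‖ ^ 2)

theorem self_balancing_choose [Nonempty Ω] (r : ℕ → Ω → V) (hr0 : ∀ i, ∑ y, r i y = 0)
    (hr : ∀ i y, ‖r i y‖ ≤ 1) {c : ℝ} (hc : 1 ≤ c) (N : ℕ) (T : ℕ → Finset V)
    (hT : ∀ i, ∀ θ ∈ T i, ‖θ‖ ≤ 1) (j : ℕ) (w : V) (hw : ∀ y, |(inner ℝ w (r j y) : ℝ)| ≤ c) :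
    ∃ y, self_balancing_Phi r c N T (j + 1) (w + r j y) ≤ self_balancing_Phi r c N T j w := by
  have hm : (0 : ℝ) < Fintype.card Ω := by exact_mod_cast Fintype.card_pos
  have hc0 : 0 < c := lt_of_lt_of_le one_pos hc
  have hp : ∀ y, 0 ≤ 1 - (inner ℝ w (r j y) : ℝ) / c := fun y => by
    rw [sub_nonneg, div_le_one hc0]
    exact (le_abs_self _).trans (hw y)
  have hsb : ∑ y, (inner ℝ w (r j y) : ℝ) = 0 := by
    rw [← inner_sum, hr0, inner_zero_right]
  have hps : (Fintype.card Ω : ℝ)⁻¹ * ∑ y, (1 - (inner ℝ w (r j y) : ℝ) / c) = 1 := by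
    rw [Finset.sum_sub_distrib, ← Finset.sum_div, hsb]
    simp [hm.ne']
  have hav : (Fintype.card Ω : ℝ)⁻¹ * ∑ y, (1 - (inner ℝ w (r j y) : ℝ) / c) *
      self_balancing_Phi r c N T (j + 1) (w + r j y) ≤ self_balancing_Phi r c N T j w := by
    have h1 : (Fintype.card Ω : ℝ)⁻¹ * ∑ y, (1 - (inner ℝ w (r j y) : ℝ) / c) *
        self_balancing_Phi r c N T (j + 1) (w + r j y) =
        ∑ i ∈ Finset.Icc (j + 1) N, ∑ θ ∈ T i, (Fintype.card Ω : ℝ)⁻¹ *
          ∑ y, (1 - (inner ℝ w (r j y) : ℝ) / c) *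
            Real.exp (inner ℝ (self_balancing_B r c (j + 1) (i - (j + 1)) θ) (w + r j y) -
              2 * c * ‖self_balancing_B r c (j + 1) (i - (j + 1)) θ‖ ^ 2) := by
      unfold self_balancing_Phi
      simp only [Finset.mul_sum]
      rw [Finset.sum_comm]
      refine Finset.sum_congr rfl fun i _ => ?_
      rw [Finset.sum_comm]
    rw [h1]
    unfold self_balancing_Phi
    have h2 : ∑ i ∈ Finset.Icc (j + 1) N, ∑ θ ∈ T i,
        Real.exp (inner ℝ (self_balancing_B r c j (i - j) θ) w -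
          2 * c * ‖self_balancing_B r c j (i - j) θ‖ ^ 2) ≤
        ∑ i ∈ Finset.Icc j N, ∑ θ ∈ T i,
          Real.exp (inner ℝ (self_balancing_B r c j (i - j) θ) w -
            2 * c * ‖self_balancing_B r c j (i - j) θ‖ ^ 2) := by
      refine Finset.sum_le_sum_of_subset_of_nonneg ?_ ?_
      · exact Finset.Icc_subset_Icc (Nat.le_succ j) le_rfl
      · intro i _ _
        exact Finset.sum_nonneg fun θ _ => (Real.exp_pos _).le
    refine le_trans ?_ h2
    refine Finset.sum_le_sum fun i hi => Finset.sum_le_sum fun θ hθ => ?_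
    have hi' : i - j = (i - (j + 1)) + 1 := by
      have := (Finset.mem_Icc.1 hi).1
      omega
    rw [hi', self_balancing_B]
    exact self_balancing_step (r j) (hr0 j) (hr j) _ w
      ((self_balancing_B_norm r hr hc _ _ _).trans (hT i θ hθ)) hc hw
  by_contra hcon
  push Not at hcon
  have h3 : (Fintype.card Ω : ℝ)⁻¹ * ∑ y, (1 - (inner ℝ w (r j y) : ℝ) / c) *
      (self_balancing_Phi r c N T (j + 1) (w + r j y) - self_balancing_Phi r c N T j w) ≤ 0 := by
    have e : (Fintype.card Ω : ℝ)⁻¹ * ∑ y, (1 - (inner ℝ w (r j y) : ℝ) / c) *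
      (self_balancing_Phi r c N T (j + 1) (w + r j y) - self_balancing_Phi r c N T j w) =
      (Fintype.card Ω : ℝ)⁻¹ * ∑ y, (1 - (inner ℝ w (r j y) : ℝ) / c) *
      self_balancing_Phi r c N T (j + 1) (w + r j y) -
      ((Fintype.card Ω : ℝ)⁻¹ * ∑ y, (1 - (inner ℝ w (r j y) : ℝ) / c)) *
        self_balancing_Phi r c N T j w := by
      simp only [mul_sub, Finset.sum_sub_distrib, ← Finset.sum_mul]
      ring
    rw [e, hps]
    linarith
  have h4 : ∑ y, (1 - (inner ℝ w (r j y) : ℝ) / c) *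
      (self_balancing_Phi r c N T (j + 1) (w + r j y) - self_balancing_Phi r c N T j w) ≤ 0 := by
    by_contra h5
    push Not at h5
    have := mul_pos (inv_pos.2 hm) h5
    linarith
  have h6 : ∀ y ∈ (Finset.univ : Finset Ω), 0 ≤ (1 - (inner ℝ w (r j y) : ℝ) / c) *
      (self_balancing_Phi r c N T (j + 1) (w + r j y) - self_balancing_Phi r c N T j w) :=
    fun y _ => mul_nonneg (hp y) (sub_nonneg.2 (hcon y).le)
  have h7 := (Finset.sum_eq_zero_iff_of_nonneg h6).1 (le_antisymm h4 (Finset.sum_nonneg h6))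
  have h8 : ∀ y, 1 - (inner ℝ w (r j y) : ℝ) / c = 0 := fun y => by
    have h9 := h7 y (Finset.mem_univ y)
    rcases mul_eq_zero.1 h9 with h | h
    · exact h
    · have := hcon y
      linarith
  simp only [h8, Finset.sum_const_zero, mul_zero] at hps
  exact one_ne_zero hps.symm

end self_balancing_aux

theorem self_balancing {V : Type*} [NormedAddCommGroup V] [InnerProductSpace ℝ V]
    {Ω : Type*} [Fintype Ω] [Nonempty Ω] (N : ℕ) (r : ℕ → Ω → V)
    (hr0 : ∀ i, ∑ y, r i y = 0) (hr1 : ∀ i y, ‖r i y‖ ≤ 1)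
    (Θ : ℕ → Finset V) (hΘ : ∀ i, ∀ θ ∈ Θ i, ‖θ‖ ≤ 1) (A : ℕ) (hA : ∀ i, (Θ i).card ≤ A) :
    ∃ y : ℕ → Ω, ∀ i ≤ N, ∀ θ ∈ Θ i,
      |inner ℝ θ (∑ j ∈ Finset.range i, r j (y j))| ≤
        8 * Real.log (2 * ((N : ℝ) + 1) * ((A : ℝ) + Fintype.card Ω) + 1) := by
  classical
  set c : ℝ := 8 * Real.log (2 * ((N : ℝ) + 1) * ((A : ℝ) + Fintype.card Ω) + 1) with hcdef
  have hm : (1 : ℝ) ≤ Fintype.card Ω := by exact_mod_cast Fintype.card_pos
  have hN0 : (0 : ℝ) ≤ N := Nat.cast_nonneg N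
  have hA0 : (0 : ℝ) ≤ A := Nat.cast_nonneg A
  have hX : (2 : ℝ) ≤ 2 * ((N : ℝ) + 1) * ((A : ℝ) + Fintype.card Ω) := by
    nlinarith [mul_nonneg hN0 hA0, mul_nonneg hN0 (zero_le_one.trans hm)]
  have hc : 1 ≤ c := by
    have h1 : Real.log 2 ≤ Real.log (2 * ((N : ℝ) + 1) * ((A : ℝ) + Fintype.card Ω) + 1) :=
      Real.log_le_log (by norm_num) (by linarith)
    have h2 := Real.log_two_gt_d9
    rw [hcdef]
    linarith
  -- the tests
  set T0 : ℕ → Finset V := fun i => Θ i ∪ Finset.univ.image (r i) with hT0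
  set T : ℕ → Finset V := fun i =>
    (T0 i).image (fun θ => (4⁻¹ : ℝ) • θ) ∪ (T0 i).image (fun θ => -((4⁻¹ : ℝ) • θ)) with hTdef
  have hT0n : ∀ i, ∀ θ ∈ T0 i, ‖θ‖ ≤ 1 := by
    intro i θ hθ
    rw [hT0, Finset.mem_union] at hθ
    rcases hθ with hθ | hθ
    · exact hΘ i θ hθ
    · obtain ⟨y, -, rfl⟩ := Finset.mem_image.1 hθ
      exact hr1 i y
  have hTn : ∀ i, ∀ θ ∈ T i, ‖θ‖ ≤ 1 := by
    intro i θ hθ
    rw [hTdef, Finset.mem_union] at hθ
    rcases hθ with hθ | hθ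
    · obtain ⟨x, hx, rfl⟩ := Finset.mem_image.1 hθ
      rw [norm_smul]
      have := hT0n i x hx
      norm_num
      linarith
    · obtain ⟨x, hx, rfl⟩ := Finset.mem_image.1 hθ
      rw [norm_neg, norm_smul]
      have := hT0n i x hx
      norm_num
      linarith
  have hT0c : ∀ i, (T0 i).card ≤ A + Fintype.card Ω := by
    intro i
    calc (T0 i).card ≤ (Θ i).card + (Finset.univ.image (r i)).card := Finset.card_union_le _ _
      _ ≤ A + Fintype.card Ω := add_le_add (hA i) (Finset.card_image_le.trans (by simp))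
  have hTc : ∀ i, (T i).card ≤ 2 * (A + Fintype.card Ω) := by
    intro i
    calc (T i).card ≤ ((T0 i).image (fun θ => (4⁻¹ : ℝ) • θ)).card +
          ((T0 i).image (fun θ => -((4⁻¹ : ℝ) • θ))).card := Finset.card_union_le _ _
      _ ≤ (T0 i).card + (T0 i).card := add_le_add Finset.card_image_le Finset.card_image_le
      _ ≤ 2 * (A + Fintype.card Ω) := by have := hT0c i; omega
  -- the walk
  have hch : ∀ (j : ℕ) (w : V), ∃ y : Ω, (∀ y', |(inner ℝ w (r j y') : ℝ)| ≤ c) →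
      self_balancing_Phi r c N T (j + 1) (w + r j y) ≤ self_balancing_Phi r c N T j w := by
    intro j w
    by_cases h : ∀ y', |(inner ℝ w (r j y') : ℝ)| ≤ c
    · obtain ⟨y, hy⟩ := self_balancing_choose r hr0 hr1 hc N T hTn j w h
      exact ⟨y, fun _ => hy⟩
    · exact ⟨Classical.arbitrary Ω, fun h' => absurd h' h⟩
  choose g hg using hch
  let W : ℕ → V := fun n => Nat.rec 0 (fun j w => w + r j (g j w)) n
  have hW0 : W 0 = 0 := rfl
  have hW1 : ∀ j, W (j + 1) = W j + r j (g j (W j)) := fun j => rfl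
  have hWs : ∀ i, W i = ∑ j ∈ Finset.range i, r j (g j (W j)) := by
    intro i
    induction i with
    | zero => simp [hW0]
    | succ i ih => rw [Finset.sum_range_succ, ← ih, hW1]
  -- the conclusion at a time from the potential bound
  have hconc : ∀ i ≤ N, self_balancing_Phi r c N T i (W i) ≤
      2 * ((N : ℝ) + 1) * ((A : ℝ) + Fintype.card Ω) + 1 → ∀ θ ∈ T0 i, |(inner ℝ θ (W i) : ℝ)| ≤ c := by
    intro i hi hPhi θ hθ
    have hone : ∀ η ∈ T i, (inner ℝ η (W i) : ℝ) - 2 * c * ‖η‖ ^ 2 ≤ c / 8 := by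
      intro η hη
      have h1 : Real.exp (inner ℝ η (W i) - 2 * c * ‖η‖ ^ 2) ≤ self_balancing_Phi r c N T i (W i) := by
        unfold self_balancing_Phi
        have h2 : ∑ θ ∈ T i, Real.exp (inner ℝ (self_balancing_B r c i (i - i) θ) (W i) -
            2 * c * ‖self_balancing_B r c i (i - i) θ‖ ^ 2) ≤
            ∑ k ∈ Finset.Icc i N, ∑ θ ∈ T k,
              Real.exp (inner ℝ (self_balancing_B r c i (k - i) θ) (W i) -
                2 * c * ‖self_balancing_B r c i (k - i) θ‖ ^ 2) :=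
          Finset.single_le_sum (f := fun k => ∑ θ ∈ T k,
              Real.exp (inner ℝ (self_balancing_B r c i (k - i) θ) (W i) -
                2 * c * ‖self_balancing_B r c i (k - i) θ‖ ^ 2))
            (fun k _ => Finset.sum_nonneg fun θ _ => (Real.exp_pos _).le)
            (Finset.mem_Icc.2 ⟨le_rfl, hi⟩)
        refine le_trans ?_ h2
        have h3 := Finset.single_le_sum (s := T i) (f := fun θ =>
          Real.exp (inner ℝ (self_balancing_B r c i (i - i) θ) (W i) -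
            2 * c * ‖self_balancing_B r c i (i - i) θ‖ ^ 2))
            (fun θ _ => (Real.exp_pos _).le) hη
        simpa [self_balancing_B] using h3
      have h4 := h1.trans hPhi
      have h5 : (inner ℝ η (W i) : ℝ) - 2 * c * ‖η‖ ^ 2 ≤
          Real.log (2 * ((N : ℝ) + 1) * ((A : ℝ) + Fintype.card Ω) + 1) := by
        rw [Real.le_log_iff_exp_le (by linarith)]
        exact h4
      have h6 : c / 8 = Real.log (2 * ((N : ℝ) + 1) * ((A : ℝ) + Fintype.card Ω) + 1) := by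
        rw [hcdef]; ring
      rw [h6]
      exact h5
    have hn := hT0n i θ hθ
    have hn2 : ‖θ‖ ^ 2 ≤ 1 := by
      have := norm_nonneg θ
      nlinarith
    have h7 := hone ((4⁻¹ : ℝ) • θ) (by
      rw [hTdef, Finset.mem_union]
      exact Or.inl (Finset.mem_image_of_mem _ hθ))
    have h8 := hone (-((4⁻¹ : ℝ) • θ)) (by
      rw [hTdef, Finset.mem_union]
      exact Or.inr (Finset.mem_image_of_mem _ hθ))
    rw [norm_neg, inner_neg_left] at h8
    rw [inner_smul_left, norm_smul, mul_pow] at h7 h8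
    simp only [conj_trivial, Real.norm_eq_abs, sq_abs] at h7 h8
    have h9 : 2 * c * ((4⁻¹ : ℝ) ^ 2 * ‖θ‖ ^ 2) ≤ c / 8 := by
      have : c * ‖θ‖ ^ 2 ≤ c * 1 := mul_le_mul_of_nonneg_left hn2 (by linarith)
      nlinarith
    rw [abs_le]
    constructor <;> linarith
  -- the potential bound
  have hPhi : ∀ i ≤ N, self_balancing_Phi r c N T i (W i) ≤
      2 * ((N : ℝ) + 1) * ((A : ℝ) + Fintype.card Ω) + 1 := by
    intro i
    induction i with
    | zero =>
      intro _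
      rw [hW0]
      unfold self_balancing_Phi
      have h1 : ∀ i ∈ Finset.Icc 0 N, ∑ θ ∈ T i,
          Real.exp (inner ℝ (self_balancing_B r c 0 (i - 0) θ) (0 : V) -
            2 * c * ‖self_balancing_B r c 0 (i - 0) θ‖ ^ 2) ≤ 2 * ((A : ℝ) + Fintype.card Ω) := by
        intro i _
        calc ∑ θ ∈ T i, Real.exp (inner ℝ (self_balancing_B r c 0 (i - 0) θ) (0 : V) -
              2 * c * ‖self_balancing_B r c 0 (i - 0) θ‖ ^ 2) ≤ ∑ θ ∈ T i, (1 : ℝ) := by
              refine Finset.sum_le_sum fun θ _ => ?_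
              rw [inner_zero_right, Real.exp_le_one_iff]
              have : 0 ≤ 2 * c * ‖self_balancing_B r c 0 (i - 0) θ‖ ^ 2 := by
                have : 0 ≤ c := by linarith
                positivity
              linarith
          _ = ((T i).card : ℝ) := by simp
          _ ≤ ((2 * (A + Fintype.card Ω) : ℕ) : ℝ) := by exact_mod_cast hTc i
          _ = _ := by push_cast; ring
      have h2 := Finset.sum_le_sum h1
      rw [Finset.sum_const, Nat.card_Icc, nsmul_eq_mul] at h2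
      refine h2.trans ?_
      push_cast
      nlinarith
    | succ i ih =>
      intro hi
      have h1 := ih (by omega)
      have h2 : ∀ y', |(inner ℝ (W i) (r i y') : ℝ)| ≤ c := by
        intro y'
        rw [real_inner_comm]
        refine hconc i (by omega) h1 (r i y') ?_
        rw [hT0, Finset.mem_union]
        exact Or.inr (Finset.mem_image_of_mem _ (Finset.mem_univ y'))
      rw [hW1]
      exact (hg i (W i) h2).trans h1
  refine ⟨fun j => g j (W j), fun i hi θ hθ => ?_⟩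
  rw [← hWs i]
  refine hconc i hi (hPhi i hi) θ ?_
  rw [hT0, Finset.mem_union]
  exact Or.inl hθ

end Pool.Agent.helper312_gd
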