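import Pool.Agent.helper312_gd.Defs

set_option autoImplicit false

open Set MeasureTheory

namespace Pool.Agent.helper312_gd


theorem g2a_absround (x y : ℝ) : |x - round x| ≤ |x - y| + |y - round y| := by
  calc |x - round x| ≤ |x - round y| := round_le x (round y)
    _ = |(x - y) + (y - round y)| := by congr 1; ring
    _ ≤ |x - y| + |y - round y| := abs_add_le _ _

theorem g2a_P_lip (x y : ℝ) : |P x - P y| ≤ 2 * |x - y| := by
  have h1 := g2a_absround x y
  have h2 := g2a_absround y x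
  rw [abs_sub_comm y x] at h2
  unfold P
  rw [abs_le]
  constructor <;> linarith

theorem g2a_P_bound (x : ℝ) : |P x| ≤ 1 / 2 := by
  have h1 := abs_sub_round x
  have h2 := abs_nonneg (x - round x)
  unfold P
  rw [abs_le]
  constructor <;> linarith

theorem g2a_P_cont : Continuous P := by
  have : LipschitzWith 2 P := LipschitzWith.of_dist_le_mul fun x y => by
    rw [Real.dist_eq, Real.dist_eq]
    simpa using g2a_P_lip x y
  exact this.continuous

theorem field_bound (n m : ℕ) (w R : ℝ) (hw : 0 < w) (hR : 0 < R)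
    (θ : Cls n → Cell n → Par n m) (z : Fin n → ℝ) (τ : ℝ) :
    ‖field w R θ z τ‖ ≤ 3 / 2 * w := by
  rw [pi_norm_le_iff_of_nonneg (by positivity)]
  intro j
  unfold field
  rw [Real.norm_eq_abs, abs_mul, abs_of_pos hw]
  have h : |∑ i : Fin 3, P (∑ c : Cls n, Wt c R z τ *
      (((θ c (cell c R z τ) i j : ℕ) : ℝ) / m))| ≤ 3 / 2 := by
    refine (Finset.abs_sum_le_sum_abs _ _).trans ?_
    refine (Finset.sum_le_sum fun i _ => g2a_P_bound _).trans ?_
    norm_num
  calc w * _ ≤ w * (3 / 2) := mul_le_mul_of_nonneg_left h hw.le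
    _ = 3 / 2 * w := by ring

theorem g2a_idx_meas (κ : Bool) (R : ℝ) : Measurable (idx κ R) := by
  unfold idx
  cases κ
  · simp only [Bool.false_eq_true, if_false]
    exact Int.measurable_floor.comp (((measurable_id.div_const R).add_const 1).div_const 2)
  · simp only [if_true]
    exact Int.measurable_floor.comp ((measurable_id.div_const R).div_const 2)

theorem g2a_wt_meas (κ : Bool) (R : ℝ) : Measurable (wt κ R) := by
  have h1 : Measurable fun s : ℝ => cen κ R (idx κ R s) :=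
    (Measurable.of_discrete (f := cen κ R)).comp (g2a_idx_meas κ R)
  unfold wt
  exact measurable_const.max (measurable_const.min
    (measurable_const.sub ((((measurable_id.sub h1).abs).const_mul 2).div_const R)))

theorem field_measurable (n m : ℕ) (w R : ℝ) (θ : Cls n → Cell n → Par n m) :
    Measurable (fun p : (Fin n → ℝ) × ℝ => field w R θ p.1 p.2) := by
  rw [measurable_pi_iff]
  intro j
  unfold field
  refine Measurable.const_mul (Finset.measurable_sum _ fun i _ => ?_) w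
  refine g2a_P_cont.measurable.comp (Finset.measurable_sum _ fun c _ => ?_)
  refine Measurable.mul ?_ ?_
  · unfold Wt
    refine Measurable.mul (Finset.measurable_prod _ fun i _ => ?_) ?_
    · exact (g2a_wt_meas _ _).comp ((measurable_pi_apply i).comp measurable_fst)
    · exact (g2a_wt_meas _ _).comp measurable_snd
  · have h1 : Measurable fun p : (Fin n → ℝ) × ℝ => cell c R p.1 p.2 := by
      unfold cell
      refine Measurable.prodMk (measurable_pi_iff.2 fun i => ?_) ?_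
      · exact (g2a_idx_meas _ _).comp ((measurable_pi_apply i).comp measurable_fst)
      · exact (g2a_idx_meas _ _).comp measurable_snd
    exact (Measurable.of_discrete
      (f := fun q : Cell n => (((θ c q i j : ℕ) : ℝ) / m))).comp h1

theorem g2a_cell_mem (κ : Bool) {R : ℝ} (hR : 0 < R) (s : ℝ) :
    cen κ R (idx κ R s) - R ≤ s ∧ s < cen κ R (idx κ R s) + R := by
  have hs : s / R * R = s := div_mul_cancel₀ s hR.ne'
  cases κ
  · simp only [cen, idx, Bool.false_eq_true, if_false]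
    have h1 := Int.floor_le ((s / R + 1) / 2)
    have h2 := Int.lt_floor_add_one ((s / R + 1) / 2)
    constructor <;> nlinarith
  · simp only [cen, idx, if_true]
    have h1 := Int.floor_le (s / R / 2)
    have h2 := Int.lt_floor_add_one (s / R / 2)
    constructor <;> nlinarith

theorem g2a_cen_sep (κ : Bool) {R : ℝ} (hR : 0 < R) {a b : ℤ} (h : a < b) :
    cen κ R a + 2 * R ≤ cen κ R b := by
  have h1 : (a : ℝ) + 1 ≤ b := by exact_mod_cast h
  cases κ
  · simp only [cen, Bool.false_eq_true, if_false]; nlinarith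
  · simp only [cen, if_true]; nlinarith

theorem g2a_wt_nonneg (κ : Bool) (R s : ℝ) : 0 ≤ wt κ R s := le_max_left _ _

theorem g2a_wt_le_one (κ : Bool) (R s : ℝ) : wt κ R s ≤ 1 :=
  max_le zero_le_one (min_le_left _ _)

theorem g2a_wt_le {κ : Bool} {R : ℝ} (hR : 0 < R) {s s' : ℝ} (h : idx κ R s ≠ idx κ R s') :
    wt κ R s ≤ 2 / R * |s - s'| := by
  obtain ⟨a1, a2⟩ := g2a_cell_mem κ hR s
  obtain ⟨b1, b2⟩ := g2a_cell_mem κ hR s'
  have h0 : 0 ≤ 2 / R * |s - s'| := by positivity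
  refine max_le h0 ((min_le_right _ _).trans ?_)
  have key : R - |s - cen κ R (idx κ R s)| ≤ |s - s'| := by
    rcases lt_or_gt_of_ne h with h | h
    · have := g2a_cen_sep κ hR h
      have h3 := neg_abs_le (s - s')
      have h4 := neg_abs_le (s - cen κ R (idx κ R s))
      have h5 := le_abs_self (s - cen κ R (idx κ R s))
      linarith
    · have := g2a_cen_sep κ hR h
      have h3 := le_abs_self (s - s')
      have h4 := neg_abs_le (s - cen κ R (idx κ R s))
      linarith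
  have e : 2 - 2 * |s - cen κ R (idx κ R s)| / R = 2 / R * (R - |s - cen κ R (idx κ R s)|) := by
    field_simp
  rw [e]
  exact mul_le_mul_of_nonneg_left key (by positivity)

theorem g2a_clamp (a b : ℝ) : |max 0 (min 1 a) - max 0 (min 1 b)| ≤ |a - b| := by
  calc |max 0 (min 1 a) - max 0 (min 1 b)| ≤ |min 1 a - min 1 b| := by
        simpa [max_comm] using abs_max_sub_max_le_abs (min 1 a) (min 1 b) 0
    _ ≤ |a - b| := by
        have h := abs_min_sub_min_le_max 1 a 1 b
        simpa using h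

theorem g2a_wt_lip (κ : Bool) {R : ℝ} (hR : 0 < R) (s s' : ℝ) :
    |wt κ R s - wt κ R s'| ≤ 2 / R * |s - s'| := by
  by_cases h : idx κ R s = idx κ R s'
  · unfold wt
    rw [h]
    refine (g2a_clamp _ _).trans ?_
    have e : (2 - 2 * |s - cen κ R (idx κ R s')| / R) - (2 - 2 * |s' - cen κ R (idx κ R s')| / R)
        = 2 / R * (|s' - cen κ R (idx κ R s')| - |s - cen κ R (idx κ R s')|) := by
      field_simp
      ring
    rw [e, abs_mul, abs_of_pos (by positivity : 0 < 2 / R)]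
    refine mul_le_mul_of_nonneg_left ?_ (by positivity)
    refine (abs_abs_sub_abs_le_abs_sub _ _).trans ?_
    rw [abs_sub_comm s s']
    apply le_of_eq
    congr 1; ring
  · have h1 := g2a_wt_le hR h
    have h2 := g2a_wt_le hR (Ne.symm h)
    rw [abs_sub_comm s' s] at h2
    have h3 := g2a_wt_nonneg κ R s
    have h4 := g2a_wt_nonneg κ R s'
    rw [abs_le]
    constructor <;> linarith

theorem g2a_prod_sub {ι : Type} (F : Finset ι) (f g : ι → ℝ) (hf : ∀ i, 0 ≤ f i ∧ f i ≤ 1)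
    (hg : ∀ i, 0 ≤ g i ∧ g i ≤ 1) : |∏ i ∈ F, f i - ∏ i ∈ F, g i| ≤ ∑ i ∈ F, |f i - g i| := by
  classical
  induction F using Finset.induction_on with
  | empty => simp
  | insert a F ha ih =>
    rw [Finset.prod_insert ha, Finset.prod_insert ha, Finset.sum_insert ha]
    have h1 : 0 ≤ ∏ i ∈ F, f i := Finset.prod_nonneg fun i _ => (hf i).1
    have h2 : ∏ i ∈ F, f i ≤ 1 := Finset.prod_le_one (fun i _ => (hf i).1) fun i _ => (hf i).2
    have e : f a * ∏ i ∈ F, f i - g a * ∏ i ∈ F, g i =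
        (f a - g a) * ∏ i ∈ F, f i + g a * (∏ i ∈ F, f i - ∏ i ∈ F, g i) := by ring
    rw [e]
    refine (abs_add_le _ _).trans (add_le_add ?_ ?_)
    · rw [abs_mul, abs_of_nonneg h1]
      exact mul_le_of_le_one_right (abs_nonneg _) h2
    · rw [abs_mul, abs_of_nonneg (hg a).1]
      calc g a * |∏ i ∈ F, f i - ∏ i ∈ F, g i| ≤ 1 * |∏ i ∈ F, f i - ∏ i ∈ F, g i| :=
            mul_le_mul_of_nonneg_right (hg a).2 (abs_nonneg _)
        _ ≤ _ := by rw [one_mul]; exact ih

theorem g2a_Wt_nonneg {n : ℕ} (c : Cls n) (R : ℝ) (z : Fin n → ℝ) (τ : ℝ) : 0 ≤ Wt c R z τ :=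
  mul_nonneg (Finset.prod_nonneg fun _ _ => g2a_wt_nonneg _ _ _) (g2a_wt_nonneg _ _ _)

theorem g2a_Wt_le_fac {n : ℕ} (c : Cls n) (R : ℝ) (z : Fin n → ℝ) (τ : ℝ) (i : Fin n) :
    Wt c R z τ ≤ wt (c.1 i) R (z i) := by
  have h1 : ∏ i, wt (c.1 i) R (z i) ≤ wt (c.1 i) R (z i) := by
    rw [← Finset.mul_prod_erase _ _ (Finset.mem_univ i)]
    exact mul_le_of_le_one_right (g2a_wt_nonneg _ _ _)
      (Finset.prod_le_one (fun _ _ => g2a_wt_nonneg _ _ _) fun _ _ => g2a_wt_le_one _ _ _)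
  exact (mul_le_of_le_one_right (Finset.prod_nonneg fun _ _ => g2a_wt_nonneg _ _ _)
    (g2a_wt_le_one _ _ _)).trans h1

theorem g2a_Wt_le_time {n : ℕ} (c : Cls n) (R : ℝ) (z : Fin n → ℝ) (τ : ℝ) :
    Wt c R z τ ≤ wt c.2 R τ :=
  mul_le_of_le_one_left (g2a_wt_nonneg _ _ _)
    (Finset.prod_le_one (fun _ _ => g2a_wt_nonneg _ _ _) fun _ _ => g2a_wt_le_one _ _ _)

theorem g2a_coord {n : ℕ} (z z' : Fin n → ℝ) (τ τ' : ℝ) (i : Fin n) :
    |z i - z' i| ≤ ‖z - z'‖ + |τ - τ'| := by
  have h1 : ‖(z - z') i‖ ≤ ‖z - z'‖ := norm_le_pi_norm _ i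
  rw [Pi.sub_apply, Real.norm_eq_abs] at h1
  have := abs_nonneg (τ - τ')
  linarith

theorem g2a_Wt_lip {n : ℕ} (c : Cls n) {R : ℝ} (hR : 0 < R) (z z' : Fin n → ℝ) (τ τ' : ℝ) :
    |Wt c R z τ - Wt c R z' τ'| ≤ (n + 1) * (2 / R * (‖z - z'‖ + |τ - τ'|)) := by
  set D := ‖z - z'‖ + |τ - τ'| with hD
  have hp1 : 0 ≤ ∏ i, wt (c.1 i) R (z i) := Finset.prod_nonneg fun _ _ => g2a_wt_nonneg _ _ _
  have hp2 : ∏ i, wt (c.1 i) R (z i) ≤ 1 :=
    Finset.prod_le_one (fun _ _ => g2a_wt_nonneg _ _ _) fun _ _ => g2a_wt_le_one _ _ _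
  have e : Wt c R z τ - Wt c R z' τ' =
      (∏ i, wt (c.1 i) R (z i)) * (wt c.2 R τ - wt c.2 R τ') +
        (∏ i, wt (c.1 i) R (z i) - ∏ i, wt (c.1 i) R (z' i)) * wt c.2 R τ' := by
    unfold Wt; ring
  have h1 : |(∏ i, wt (c.1 i) R (z i)) * (wt c.2 R τ - wt c.2 R τ')| ≤ 2 / R * D := by
    rw [abs_mul, abs_of_nonneg hp1]
    refine (mul_le_of_le_one_left (abs_nonneg _) hp2).trans ?_
    refine (g2a_wt_lip _ hR _ _).trans (mul_le_mul_of_nonneg_left ?_ (by positivity))
    have := norm_nonneg (z - z')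
    linarith
  have h2 : |(∏ i, wt (c.1 i) R (z i) - ∏ i, wt (c.1 i) R (z' i)) * wt c.2 R τ'| ≤
      n * (2 / R * D) := by
    rw [abs_mul, abs_of_nonneg (g2a_wt_nonneg _ _ _)]
    refine (mul_le_of_le_one_right (abs_nonneg _) (g2a_wt_le_one _ _ _)).trans ?_
    refine (g2a_prod_sub _ _ _ (fun i => ⟨g2a_wt_nonneg _ _ _, g2a_wt_le_one _ _ _⟩)
      (fun i => ⟨g2a_wt_nonneg _ _ _, g2a_wt_le_one _ _ _⟩)).trans ?_
    calc ∑ i, |wt (c.1 i) R (z i) - wt (c.1 i) R (z' i)| ≤ ∑ _i : Fin n, 2 / R * D := by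
          refine Finset.sum_le_sum fun i _ => (g2a_wt_lip _ hR _ _).trans ?_
          exact mul_le_mul_of_nonneg_left (g2a_coord z z' τ τ' i) (by positivity)
      _ = n * (2 / R * D) := by simp
  rw [e]
  refine (abs_add_le _ _).trans ?_
  linarith

theorem g2a_ratio (m : ℕ) (a : Fin m) : 0 ≤ (((a : ℕ) : ℝ) / m) ∧ (((a : ℕ) : ℝ) / m) ≤ 1 := by
  refine ⟨by positivity, ?_⟩
  apply div_le_one_of_le₀ _ (Nat.cast_nonneg _)
  exact_mod_cast a.isLt.le

theorem g2a_term {n m : ℕ} (c : Cls n) {R : ℝ} (hR : 0 < R) (ψ : Cell n → Fin m)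
    (z z' : Fin n → ℝ) (τ τ' : ℝ) :
    |Wt c R z τ * (((ψ (cell c R z τ) : ℕ) : ℝ) / m) -
      Wt c R z' τ' * (((ψ (cell c R z' τ') : ℕ) : ℝ) / m)| ≤
      (n + 1) * (2 / R * (‖z - z'‖ + |τ - τ'|)) := by
  set D := ‖z - z'‖ + |τ - τ'| with hD
  have hD0 : 0 ≤ D := add_nonneg (norm_nonneg _) (abs_nonneg _)
  by_cases h : cell c R z τ = cell c R z' τ'
  · rw [h, ← sub_mul, abs_mul, abs_of_nonneg (g2a_ratio m _).1]
    exact (mul_le_of_le_one_right (abs_nonneg _) (g2a_ratio m _).2).trans (g2a_Wt_lip c hR _ _ _ _)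
  · have key : Wt c R z τ ≤ 2 / R * D ∧ Wt c R z' τ' ≤ 2 / R * D := by
      have hor : (∃ i, idx (c.1 i) R (z i) ≠ idx (c.1 i) R (z' i)) ∨ idx c.2 R τ ≠ idx c.2 R τ' := by
        by_contra hcon
        push Not at hcon
        apply h
        unfold cell
        exact Prod.ext (funext fun i => hcon.1 i) hcon.2
      rcases hor with ⟨i, hi⟩ | ht
      · have hc := g2a_coord z z' τ τ' i
        constructor
        · refine (g2a_Wt_le_fac c R z τ i).trans ((g2a_wt_le hR hi).trans ?_)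
          exact mul_le_mul_of_nonneg_left hc (by positivity)
        · refine (g2a_Wt_le_fac c R z' τ' i).trans ((g2a_wt_le hR hi.symm).trans ?_)
          rw [abs_sub_comm] at hc
          exact mul_le_mul_of_nonneg_left hc (by positivity)
      · have hc : |τ - τ'| ≤ D := by
          have := norm_nonneg (z - z')
          linarith
        constructor
        · refine (g2a_Wt_le_time c R z τ).trans ((g2a_wt_le hR ht).trans ?_)
          exact mul_le_mul_of_nonneg_left hc (by positivity)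
        · refine (g2a_Wt_le_time c R z' τ').trans ((g2a_wt_le hR ht.symm).trans ?_)
          rw [abs_sub_comm] at hc
          exact mul_le_mul_of_nonneg_left hc (by positivity)
    have h1 : 0 ≤ Wt c R z τ * (((ψ (cell c R z τ) : ℕ) : ℝ) / m) :=
      mul_nonneg (g2a_Wt_nonneg _ _ _ _) (g2a_ratio m _).1
    have h2 : 0 ≤ Wt c R z' τ' * (((ψ (cell c R z' τ') : ℕ) : ℝ) / m) :=
      mul_nonneg (g2a_Wt_nonneg _ _ _ _) (g2a_ratio m _).1
    have h3 : Wt c R z τ * (((ψ (cell c R z τ) : ℕ) : ℝ) / m) ≤ 2 / R * D :=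
      (mul_le_of_le_one_right (g2a_Wt_nonneg _ _ _ _) (g2a_ratio m _).2).trans key.1
    have h4 : Wt c R z' τ' * (((ψ (cell c R z' τ') : ℕ) : ℝ) / m) ≤ 2 / R * D :=
      (mul_le_of_le_one_right (g2a_Wt_nonneg _ _ _ _) (g2a_ratio m _).2).trans key.2
    have h5 : 2 / R * D ≤ (n + 1) * (2 / R * D) := by
      have h6 : 0 ≤ 2 / R * D := by positivity
      have h7 : (0 : ℝ) ≤ n := Nat.cast_nonneg n
      nlinarith
    refine le_trans ?_ h5
    rw [abs_le]
    constructor <;> linarith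

theorem field_lip (n : ℕ) : ∃ C : ℝ, 0 < C ∧ ∀ (m : ℕ) (w R : ℝ), 0 < w → 0 < R →
    ∀ (θ : Cls n → Cell n → Par n m) (z z' : Fin n → ℝ) (τ τ' : ℝ),
      ‖field w R θ z τ - field w R θ z' τ'‖ ≤ C * (w / R) * (‖z - z'‖ + |τ - τ'|) := by
  refine ⟨12 * Fintype.card (Cls n) * (n + 1), by positivity, ?_⟩
  intro m w R hw hR θ z z' τ τ'
  set D := ‖z - z'‖ + |τ - τ'| with hD
  have hD0 : 0 ≤ D := add_nonneg (norm_nonneg _) (abs_nonneg _)
  rw [pi_norm_le_iff_of_nonneg (by positivity)]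
  intro j
  have h1 : ∀ i : Fin 3, |P (∑ c : Cls n, Wt c R z τ * (((θ c (cell c R z τ) i j : ℕ) : ℝ) / m)) -
      P (∑ c : Cls n, Wt c R z' τ' * (((θ c (cell c R z' τ') i j : ℕ) : ℝ) / m))| ≤
      2 * (Fintype.card (Cls n) * ((n + 1) * (2 / R * D))) := by
    intro i
    refine (g2a_P_lip _ _).trans (mul_le_mul_of_nonneg_left ?_ zero_le_two)
    rw [← Finset.sum_sub_distrib]
    refine (Finset.abs_sum_le_sum_abs _ _).trans ?_
    refine (Finset.sum_le_sum fun c _ => g2a_term c hR (fun q => θ c q i j) z z' τ τ').trans ?_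
    rw [← hD]
    simp
  rw [Pi.sub_apply, Real.norm_eq_abs]
  unfold field
  rw [← mul_sub, abs_mul, abs_of_pos hw, ← Finset.sum_sub_distrib]
  have h2 := (Finset.abs_sum_le_sum_abs (fun i : Fin 3 =>
    P (∑ c : Cls n, Wt c R z τ * (((θ c (cell c R z τ) i j : ℕ) : ℝ) / m)) -
      P (∑ c : Cls n, Wt c R z' τ' * (((θ c (cell c R z' τ') i j : ℕ) : ℝ) / m)))
    Finset.univ).trans (Finset.sum_le_sum fun i _ => h1 i)
  refine (mul_le_mul_of_nonneg_left h2 hw.le).trans (le_of_eq ?_)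
  simp only [Finset.sum_const, Finset.card_univ, Fintype.card_fin, nsmul_eq_mul]
  field_simp
  push_cast
  ring

theorem g2a_choose (R : ℝ) (hR : 0 < R) (s : ℝ) : ∃ κ, wt κ R s = 1 := by
  have hs : s / R * R = s := div_mul_cancel₀ s hR.ne'
  have key : ∀ κ, |s - cen κ R (idx κ R s)| ≤ R / 2 → wt κ R s = 1 := by
    intro κ h
    unfold wt
    have h1 : 2 * |s - cen κ R (idx κ R s)| / R ≤ 1 := by
      rw [div_le_one hR]; linarith
    rw [min_eq_left (by linarith), max_eq_right zero_le_one]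
  obtain ⟨x, hx⟩ : ∃ x, x = s / R := ⟨_, rfl⟩
  obtain ⟨m, hm⟩ : ∃ m, m = ⌊x / 2⌋ := ⟨_, rfl⟩
  have h1 : (m : ℝ) ≤ x / 2 := by rw [hm]; exact Int.floor_le _
  have h2 : x / 2 < m + 1 := by rw [hm]; exact Int.lt_floor_add_one _
  by_cases h3 : x < 2 * m + 1 / 2
  · refine ⟨false, key false ?_⟩
    have h4 : idx false R s = m := by
      simp only [idx, Bool.false_eq_true, if_false]
      rw [← hx, Int.floor_eq_iff]
      constructor <;> linarith
    rw [h4]
    simp only [cen, Bool.false_eq_true, if_false]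
    rw [← hs, ← hx, ← sub_mul, abs_mul, abs_of_pos hR]
    have h5 : |x - 2 * m| ≤ 1 / 2 := by rw [abs_le]; constructor <;> linarith
    nlinarith
  · by_cases h4 : x ≤ 2 * m + 3 / 2
    · refine ⟨true, key true ?_⟩
      have h5 : idx true R s = m := by
        simp only [idx, if_true]
        rw [← hx, ← hm]
      rw [h5]
      simp only [cen, if_true]
      rw [← hs, ← hx, ← sub_mul, abs_mul, abs_of_pos hR]
      have h5 : |x - (2 * m + 1)| ≤ 1 / 2 := by rw [abs_le]; constructor <;> linarith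
      nlinarith
    · refine ⟨false, key false ?_⟩
      have h5 : idx false R s = m + 1 := by
        simp only [idx, Bool.false_eq_true, if_false]
        rw [← hx, Int.floor_eq_iff]
        push_cast
        constructor <;> linarith
      rw [h5]
      simp only [cen, Bool.false_eq_true, if_false]
      push_cast
      rw [← hs, ← hx, ← sub_mul, abs_mul, abs_of_pos hR]
      have h5 : |x - 2 * ((m : ℝ) + 1)| ≤ 1 / 2 := by rw [abs_le]; constructor <;> linarith
      nlinarith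

/-- some class has weight one -/
theorem exists_Wt_eq_one (n : ℕ) (R : ℝ) (hR : 0 < R) (z : Fin n → ℝ) (τ : ℝ) :
    ∃ c : Cls n, Wt c R z τ = 1 := by
  choose κ hκ using fun s => g2a_choose R hR s
  refine ⟨(fun i => κ (z i), κ τ), ?_⟩
  unfold Wt
  simp only [hκ, Finset.prod_const_one, mul_one]

end Pool.Agent.helper312_gd
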