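import Pool.Agent.helper312_gd.Mix
import Pool.Agent.helper312_gd.Balance
import Pool.Agent.helper312_gd.Field

set_option autoImplicit false

open Set MeasureTheory

namespace Pool.Agent.helper312_gd


theorem cs404_idx (κ : Bool) (R s : ℝ) :
    idx κ R s = ⌊s / R / 2 + (if κ then 0 else 1 / 2)⌋ := by
  unfold idx
  cases κ
  · simp only [Bool.false_eq_true, if_false]
    congr 1
    ring
  · simp

theorem cs404_cen (κ : Bool) (R : ℝ) (m : ℤ) :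
    cen κ R m = (2 * m + 1 - 2 * (if κ then 0 else 1 / 2)) * R := by
  unfold cen
  cases κ
  · simp only [Bool.false_eq_true, if_false]
    ring
  · simp

theorem cs404_idx_mem (κ : Bool) {R : ℝ} (hR : 0 < R) (s : ℝ) :
    |s - cen κ R (idx κ R s)| ≤ R := by
  rw [cs404_cen, cs404_idx]
  set e : ℝ := if κ then 0 else 1 / 2 with he
  have h1 := Int.floor_le (s / R / 2 + e)
  have h2 := Int.lt_floor_add_one (s / R / 2 + e)
  set q : ℝ := (⌊s / R / 2 + e⌋ : ℝ) with hq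
  have h3 : s = (s / R / 2) * (2 * R) := by
    field_simp
  have h4 : (q - e) * (2 * R) ≤ s := by
    rw [h3]
    apply mul_le_mul_of_nonneg_right _ (by positivity)
    linarith
  have h5 : s ≤ (q - e + 1) * (2 * R) := by
    rw [h3]
    apply mul_le_mul_of_nonneg_right _ (by positivity)
    linarith
  rw [abs_le]
  constructor <;> nlinarith

theorem cs404_idx_mono (κ : Bool) {R : ℝ} (hR : 0 < R) : Monotone (idx κ R) := by
  intro s s' h
  rw [cs404_idx, cs404_idx]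
  apply Int.floor_le_floor
  gcongr

theorem cs404_idx_near (κ : Bool) {R : ℝ} (hR : 0 < R) {s s' : ℝ} (h : |s - s'| ≤ 2 * R) :
    idx κ R s ∈ Finset.Icc (idx κ R s' - 1) (idx κ R s' + 1) := by
  rw [cs404_idx, cs404_idx, Finset.mem_Icc]
  rw [abs_le] at h
  have h1 : s / R / 2 ≤ s' / R / 2 + 1 := by
    rw [div_div, div_div, div_add_one (by positivity)]
    gcongr
    linarith
  have h2 : s' / R / 2 ≤ s / R / 2 + 1 := by
    rw [div_div, div_div, div_add_one (by positivity)]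
    gcongr
    linarith
  constructor
  · rw [sub_le_iff_le_add, ← Int.floor_add_one]
    apply Int.floor_le_floor
    linarith
  · rw [← Int.floor_add_one]
    apply Int.floor_le_floor
    linarith

theorem cs404_idx_nonneg (κ : Bool) {R : ℝ} (hR : 0 < R) {s : ℝ} (hs : 0 ≤ s) :
    0 ≤ idx κ R s := by
  rw [cs404_idx]
  apply Int.floor_nonneg.mpr
  have : 0 ≤ s / R / 2 := by positivity
  split_ifs <;> linarith

theorem cs404_idx_le (κ : Bool) {R : ℝ} (hR : 0 < R) {s : ℝ} (hs : s ≤ 1) {N : ℕ}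
    (hN1 : 1 ≤ N) (hN : 1 ≤ R * N) : idx κ R s ≤ N := by
  rw [cs404_idx]
  have h1 : s / R ≤ N := by
    rw [div_le_iff₀ hR]
    linarith
  have h3 : (1:ℝ) ≤ N := by exact_mod_cast hN1
  have h2 : s / R / 2 + (if κ then (0:ℝ) else 1 / 2) < (N : ℝ) + 1 := by
    split_ifs <;> linarith
  have h4 : ⌊s / R / 2 + (if κ then (0:ℝ) else 1 / 2)⌋ < (N : ℤ) + 1 := by
    rw [Int.floor_lt]
    push_cast
    exact h2
  omega

theorem cs404_idx_meas (κ : Bool) (R : ℝ) : Measurable (idx κ R) := by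
  have : idx κ R = fun s => ⌊s / R / 2 + (if κ then (0:ℝ) else 1 / 2)⌋ := by
    funext s
    exact cs404_idx κ R s
  rw [this]
  apply Measurable.floor
  fun_prop

theorem cs404_cell_meas {n : ℕ} (c : Cls n) (R : ℝ) {P' : Type*} [MeasurableSpace P']
    {Z : P' → (Fin n → ℝ)} (hZ : Measurable Z) {T : P' → ℝ} (hT : Measurable T) :
    Measurable (fun p => cell c R (Z p) (T p)) := by
  unfold cell
  apply Measurable.prodMk
  · apply measurable_pi_lambda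
    intro i
    exact (cs404_idx_meas (c.1 i) R).comp ((measurable_pi_apply i).comp hZ)
  · exact (cs404_idx_meas c.2 R).comp hT

/-! ### The tent kernel -/

theorem cs404_tent_nonneg {n : ℕ} {h : ℝ} (hh : 0 < h) (z : Fin n → ℝ) : 0 ≤ tent h z := by
  unfold tent
  apply Finset.prod_nonneg
  intro i _
  exact div_nonneg (le_max_left _ _) hh.le

theorem cs404_tent_le {n : ℕ} {h : ℝ} (hh : 0 < h) (z : Fin n → ℝ) : tent h z ≤ (h⁻¹) ^ n := by
  unfold tent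
  have h1 : ∏ _i : Fin n, h⁻¹ = (h⁻¹) ^ n := by simp
  rw [← h1]
  apply Finset.prod_le_prod
  · intro i _
    exact div_nonneg (le_max_left _ _) hh.le
  · intro i _
    rw [div_eq_mul_inv]
    have h2 : max 0 (1 - |z i| / h) ≤ 1 := by
      apply max_le zero_le_one
      have : 0 ≤ |z i| / h := by positivity
      linarith
    have h3 : 0 ≤ h⁻¹ := by positivity
    nlinarith

theorem cs404_tent_zero {n : ℕ} {h : ℝ} : tent h (0 : Fin n → ℝ) = (h⁻¹) ^ n := by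
  unfold tent
  simp

theorem cs404_tent_supp {n : ℕ} {h : ℝ} (hh : 0 < h) {z : Fin n → ℝ} (hz : h < ‖z‖) :
    tent h z = 0 := by
  unfold tent
  have h1 : ∃ i, h < |z i| := by
    by_contra hcon
    push Not at hcon
    exact absurd ((pi_norm_le_iff_of_nonneg hh.le).mpr hcon) (not_le.mpr hz)
  obtain ⟨i, hi⟩ := h1
  apply Finset.prod_eq_zero (Finset.mem_univ i)
  have h2 : 1 - |z i| / h ≤ 0 := by
    rw [sub_nonpos, one_le_div hh]
    exact hi.le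
  rw [max_eq_left h2, zero_div]

theorem cs404_tent_cont {n : ℕ} (h : ℝ) : Continuous (fun z : Fin n → ℝ => tent h z) := by
  unfold tent
  fun_prop

theorem cs404_tent_lower {n : ℕ} {h : ℝ} (hh : 0 < h) (z : Fin n → ℝ) :
    (h⁻¹) ^ n - tent h z ≤ (h⁻¹) ^ n * (n * (‖z‖ / h)) := by
  have hz0 : 0 ≤ ‖z‖ / h := by positivity
  have hinv : 0 ≤ h⁻¹ := by positivity
  by_cases hc : 1 ≤ ‖z‖ / h
  · rcases Nat.eq_zero_or_pos n with hn | hn
    · subst hn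
      simp [tent]
    · have h1 := cs404_tent_nonneg hh z
      have h2 : (1:ℝ) ≤ n := by exact_mod_cast hn
      have h3 : 1 ≤ (n:ℝ) * (‖z‖ / h) := by nlinarith
      have h4 : 0 ≤ (h⁻¹) ^ n := by positivity
      nlinarith
  · push Not at hc
    have h1 : (h⁻¹) ^ n * (1 - ‖z‖ / h) ^ n ≤ tent h z := by
      rw [← mul_pow]
      unfold tent
      have h2 : ∏ _i : Fin n, (h⁻¹ * (1 - ‖z‖ / h)) = (h⁻¹ * (1 - ‖z‖ / h)) ^ n := by simp
      rw [← h2]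
      apply Finset.prod_le_prod
      · intro i _
        apply mul_nonneg hinv
        linarith
      · intro i _
        rw [div_eq_mul_inv (max _ _), mul_comm]
        apply mul_le_mul_of_nonneg_right _ hinv
        refine le_trans ?_ (le_max_right _ _)
        have h3 : |z i| ≤ ‖z‖ := norm_le_pi_norm z i
        have h4 : |z i| / h ≤ ‖z‖ / h := by gcongr
        linarith
    have h2 : 1 + (n:ℝ) * (-(‖z‖ / h)) ≤ (1 + -(‖z‖ / h)) ^ n :=
      one_add_mul_le_pow (by linarith) n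
    have h3 : 1 - (n:ℝ) * (‖z‖ / h) ≤ (1 - ‖z‖ / h) ^ n := by
      have e : 1 + -(‖z‖ / h) = 1 - ‖z‖ / h := by ring
      rw [e] at h2
      linarith
    have h4 : (h⁻¹) ^ n * (1 - (n:ℝ) * (‖z‖ / h)) ≤ (h⁻¹) ^ n * (1 - ‖z‖ / h) ^ n :=
      mul_le_mul_of_nonneg_left h3 (by positivity)
    linarith

/-- The feature map of the tent kernel. -/
theorem cs404_feature (n : ℕ) {h : ℝ} (hh : 0 < h) :
    ∃ Φ : (Fin n → ℝ) → Lp ℝ 2 (volume : Measure (Fin n → ℝ)),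
      ∀ X z, inner ℝ (Φ X) (Φ z) = tent h (X - z) := by
  set Q : (Fin n → ℝ) → Set (Fin n → ℝ) := fun z =>
    Icc (fun i => z i - h / 2) (fun i => z i + h / 2) with hQ
  have hQm : ∀ z, MeasurableSet (Q z) := fun z => measurableSet_Icc
  have hQf : ∀ z, (volume : Measure (Fin n → ℝ)) (Q z) ≠ ⊤ := fun z =>
    (isCompact_Icc.measure_lt_top).ne
  refine ⟨fun z => indicatorConstLp 2 (hQm z) (hQf z) ((h⁻¹) ^ n), fun X z => ?_⟩
  rw [L2.inner_indicatorConstLp_indicatorConstLp (𝕜 := ℝ) (hQm X) (hQm z) (hQf X) (hQf z)]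
  have h1 : Q X ∩ Q z = Icc (fun i => max (X i) (z i) - h / 2) (fun i => min (X i) (z i) + h / 2)
      := by
    rw [hQ, Icc_inter_Icc]
    congr 1
    · funext i
      simp only [Pi.sup_apply]
      exact (max_sub_sub_right _ _ _)
    · funext i
      simp only [Pi.inf_apply]
      exact (min_add_add_right _ _ _)
  rw [h1, Measure.real, Real.volume_Icc_pi, ENNReal.toReal_prod]
  have h2 : ∀ i, (ENNReal.ofReal (min (X i) (z i) + h / 2 - (max (X i) (z i) - h / 2))).toReal =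
      h * max 0 (1 - |X i - z i| / h) := by
    intro i
    have e1 : min (X i) (z i) + h / 2 - (max (X i) (z i) - h / 2) = h - |X i - z i| := by
      rw [← max_sub_min_eq_abs']
      ring
    rw [e1, ENNReal.toReal_ofReal', max_comm, mul_max_of_nonneg _ _ hh.le, mul_zero]
    congr 1
    field_simp
  simp_rw [h2]
  rw [Finset.prod_mul_distrib, Finset.prod_const, Finset.card_univ, Fintype.card_fin]
  unfold tent
  rw [Finset.prod_div_distrib, Finset.prod_const, Finset.card_univ, Fintype.card_fin]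
  simp only [smul_eq_mul, Pi.sub_apply, RCLike.inner_apply, conj_trivial]
  generalize (∏ i, max 0 (1 - |X i - z i| / h)) = p
  rw [inv_pow]
  have h3 : h ^ n ≠ 0 := pow_ne_zero n hh.ne'
  field_simp

/-! ### The feature map -/

section Hilb

variable {n : ℕ} {V : Type*} [NormedAddCommGroup V] [InnerProductSpace ℝ V]

theorem cs404_Phi_norm {h : ℝ} {Φ : (Fin n → ℝ) → V}
    (hΦ : ∀ X z, inner ℝ (Φ X) (Φ z) = tent h (X - z)) (X : Fin n → ℝ) :
    ‖Φ X‖ ^ 2 = (h⁻¹) ^ n := by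
  rw [← real_inner_self_eq_norm_sq, hΦ, sub_self, cs404_tent_zero]

theorem cs404_Phi_dist {h : ℝ} {Φ : (Fin n → ℝ) → V}
    (hΦ : ∀ X z, inner ℝ (Φ X) (Φ z) = tent h (X - z)) (X X' : Fin n → ℝ) :
    ‖Φ X - Φ X'‖ ^ 2 = 2 * ((h⁻¹) ^ n - tent h (X - X')) := by
  rw [norm_sub_sq_real, cs404_Phi_norm hΦ, cs404_Phi_norm hΦ, hΦ]
  ring

theorem cs404_Phi_cont {h : ℝ} {Φ : (Fin n → ℝ) → V}
    (hΦ : ∀ X z, inner ℝ (Φ X) (Φ z) = tent h (X - z)) : Continuous Φ := by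
  rw [continuous_iff_continuousAt]
  intro X
  rw [ContinuousAt, tendsto_iff_norm_sub_tendsto_zero]
  have h1 : (fun X' => ‖Φ X' - Φ X‖) = fun X' => √(2 * ((h⁻¹) ^ n - tent h (X' - X))) := by
    funext X'
    rw [← cs404_Phi_dist hΦ, Real.sqrt_sq (norm_nonneg _)]
  rw [h1]
  have h2 : Continuous (fun X' : Fin n → ℝ => √(2 * ((h⁻¹) ^ n - tent h (X' - X)))) := by
    have := (cs404_tent_cont (n := n) h).comp (continuous_id.sub (continuous_const (y := X)))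
    simp only [Function.comp_def] at this
    fun_prop
  have h3 := h2.tendsto X
  rw [sub_self, cs404_tent_zero, sub_self, mul_zero, Real.sqrt_zero] at h3
  exact h3

/-- Choice of the parameters in one column. -/
theorem cs404_column {Ω : Type*} [Fintype Ω] [Nonempty Ω] {h : ℝ} (hh : 0 < h)
    {Φ : (Fin n → ℝ) → V} (hΦ : ∀ X z, inner ℝ (Φ X) (Φ z) = tent h (X - z)) {a : ℝ}
    (ha : 0 < a) (ha2 : a ^ 2 = (h⁻¹) ^ n) (N : ℕ) {ρ1 : ℝ} (hρ : 0 < ρ1) (U : ℕ → Ω → V)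
    (hU : ∀ j y, ‖U j y‖ ≤ ρ1) (cn : Fin n → ℝ) (K : ℕ) {δ η : ℝ} (hδ : 0 < δ) (hη : 0 ≤ η)
    (hη2 : 2 * ((h⁻¹) ^ n * (n * (δ / h))) ≤ η ^ 2) :
    ∃ y : ℕ → Ω, ∀ i ≤ N, ∀ X, ‖X - cn‖ ≤ K * δ →
      |inner ℝ (Φ X) (∑ j ∈ Finset.range i,
        (U j (y j) - (Fintype.card Ω : ℝ)⁻¹ • ∑ y', U j y'))| ≤
      a * (2 * ρ1) * (8 * Real.log (2 * ((N:ℝ) + 1) *
        ((((2 * K + 1) ^ n : ℕ) : ℝ) + Fintype.card Ω) + 1)) + η * (N * (2 * ρ1)) := by
  classical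
  have hcard : (0:ℝ) < Fintype.card Ω := by exact_mod_cast Fintype.card_pos
  have hΦn : ∀ X, ‖Φ X‖ = a := by
    intro X
    have h1 := cs404_Phi_norm hΦ X
    rw [← ha2] at h1
    exact (pow_left_inj₀ (norm_nonneg _) ha.le two_ne_zero).mp h1
  set av : ℕ → V := fun j => (Fintype.card Ω : ℝ)⁻¹ • ∑ y', U j y' with hav
  have havn : ∀ j, ‖av j‖ ≤ ρ1 := by
    intro j
    rw [hav, norm_smul, norm_inv, Real.norm_of_nonneg hcard.le, inv_mul_le_iff₀ hcard]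
    refine (norm_sum_le _ _).trans ?_
    calc ∑ y, ‖U j y‖ ≤ ∑ _y : Ω, ρ1 := Finset.sum_le_sum fun y _ => hU j y
      _ = Fintype.card Ω * ρ1 := by simp
  have hdn : ∀ j y, ‖U j y - av j‖ ≤ 2 * ρ1 := by
    intro j y
    have := norm_sub_le (U j y) (av j)
    linarith [hU j y, havn j]
  set r : ℕ → Ω → V := fun j y => (2 * ρ1)⁻¹ • (U j y - av j) with hr
  have hr0 : ∀ j, ∑ y, r j y = 0 := by
    intro j
    rw [hr, ← Finset.smul_sum, Finset.sum_sub_distrib, Finset.sum_const, Finset.card_univ, hav,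
      ← Nat.cast_smul_eq_nsmul ℝ, smul_smul, mul_inv_cancel₀ hcard.ne', one_smul, sub_self,
      smul_zero]
  have hr1 : ∀ j y, ‖r j y‖ ≤ 1 := by
    intro j y
    rw [hr, norm_smul, norm_inv, Real.norm_of_nonneg (by positivity),
      inv_mul_le_iff₀ (by positivity), mul_one]
    exact hdn j y
  set grid : Finset (Fin n → ℤ) := Fintype.piFinset (fun _ => Finset.Icc (-(K:ℤ)) K) with hgrid
  set Xg : (Fin n → ℤ) → (Fin n → ℝ) := fun g i => cn i + δ * g i with hXg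
  set Θ : ℕ → Finset V := fun _ => grid.image (fun g => a⁻¹ • Φ (Xg g)) with hΘd
  have hΘ : ∀ i, ∀ θ ∈ Θ i, ‖θ‖ ≤ 1 := by
    intro i θ hθ
    obtain ⟨g, _, rfl⟩ := Finset.mem_image.mp hθ
    rw [norm_smul, norm_inv, Real.norm_of_nonneg ha.le, hΦn, inv_mul_cancel₀ ha.ne']
  have hA : ∀ i, (Θ i).card ≤ (2 * K + 1) ^ n := by
    intro i
    refine Finset.card_image_le.trans ?_
    rw [hgrid, Fintype.card_piFinset_const, Int.card_Icc]
    apply Nat.pow_le_pow_left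
    omega
  obtain ⟨y, hy⟩ := self_balancing N r hr0 hr1 Θ hΘ ((2 * K + 1) ^ n) hA
  refine ⟨y, fun i hi X hX => ?_⟩
  have hco : ∀ q, |(X q - cn q) / δ| ≤ K := by
    intro q
    rw [abs_div, abs_of_pos hδ, div_le_iff₀ hδ]
    exact (norm_le_pi_norm (X - cn) q).trans hX
  set g : Fin n → ℤ := fun q => ⌊(X q - cn q) / δ⌋ with hg
  have hgm : g ∈ grid := by
    rw [hgrid, Fintype.mem_piFinset]
    intro q
    have h1 := abs_le.mp (hco q)
    rw [Finset.mem_Icc]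
    constructor
    · rw [hg, Int.le_floor]
      push_cast
      exact h1.1
    · have h2 : (⌊(X q - cn q) / δ⌋ : ℝ) ≤ K := (Int.floor_le _).trans h1.2
      exact_mod_cast h2
  have hXX : ‖X - Xg g‖ ≤ δ := by
    rw [pi_norm_le_iff_of_nonneg hδ.le]
    intro q
    have h1 := Int.floor_le ((X q - cn q) / δ)
    have h2 := Int.lt_floor_add_one ((X q - cn q) / δ)
    have h3 : (X q - cn q) / δ * δ = X q - cn q := div_mul_cancel₀ _ hδ.ne'
    have h4 : (X - Xg g) q = ((X q - cn q) / δ - ⌊(X q - cn q) / δ⌋) * δ := by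
      rw [sub_mul, h3]
      simp only [Pi.sub_apply, hXg, hg]
      ring
    rw [h4, Real.norm_eq_abs, abs_of_nonneg (mul_nonneg (by linarith) hδ.le)]
    nlinarith
  have hdist : ‖Φ X - Φ (Xg g)‖ ≤ η := by
    apply (sq_le_sq₀ (norm_nonneg _) hη).mp
    rw [cs404_Phi_dist hΦ]
    refine le_trans ?_ hη2
    have h1 := cs404_tent_lower hh (X - Xg g)
    have h2 : (h⁻¹) ^ n * (n * (‖X - Xg g‖ / h)) ≤ (h⁻¹) ^ n * (n * (δ / h)) := by
      gcongr
    linarith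
  set Sm : V := ∑ j ∈ Finset.range i, (U j (y j) - av j) with hSm
  have hSr : Sm = (2 * ρ1) • ∑ j ∈ Finset.range i, r j (y j) := by
    rw [hSm, Finset.smul_sum]
    apply Finset.sum_congr rfl
    intro j _
    rw [hr, smul_smul, mul_inv_cancel₀ (by positivity), one_smul]
  have hSn : ‖Sm‖ ≤ N * (2 * ρ1) := by
    refine (norm_sum_le _ _).trans ?_
    calc ∑ j ∈ Finset.range i, ‖U j (y j) - av j‖ ≤ ∑ _j ∈ Finset.range i, (2 * ρ1) :=
          Finset.sum_le_sum fun j _ => hdn j (y j)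
      _ = i * (2 * ρ1) := by simp
      _ ≤ N * (2 * ρ1) := by gcongr
  have h1 : |inner ℝ (Φ (Xg g)) Sm| ≤ a * (2 * ρ1) * (8 * Real.log (2 * ((N:ℝ) + 1) *
        ((((2 * K + 1) ^ n : ℕ) : ℝ) + Fintype.card Ω) + 1)) := by
    have h2 := hy i hi (a⁻¹ • Φ (Xg g)) (Finset.mem_image_of_mem _ hgm)
    have h3 : inner ℝ (Φ (Xg g)) Sm = (a * (2 * ρ1)) *
        inner ℝ (a⁻¹ • Φ (Xg g)) (∑ j ∈ Finset.range i, r j (y j)) := by
      rw [hSr, inner_smul_right, real_inner_smul_left]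
      field_simp
    rw [h3, abs_mul, abs_of_nonneg (by positivity)]
    exact mul_le_mul_of_nonneg_left h2 (by positivity)
  have h4 : |inner ℝ (Φ X - Φ (Xg g)) Sm| ≤ η * (N * (2 * ρ1)) := by
    refine (abs_real_inner_le_norm _ _).trans ?_
    exact mul_le_mul hdist hSn (norm_nonneg _) hη
  have h5 : inner ℝ (Φ X) Sm = inner ℝ (Φ (Xg g)) Sm + inner ℝ (Φ X - Φ (Xg g)) Sm := by
    rw [inner_sub_left]
    ring
  rw [h5]
  exact (abs_add_le _ _).trans (add_le_add h1 h4)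

end Hilb

/-! ### The measure -/

section Meas

variable {n : ℕ}

/-- the reference measure -/
noncomputable def cs404_mu (ρ : (Fin n → ℝ) × ℝ → ℝ) : Measure ((Fin n → ℝ) × ℝ) :=
  ((volume : Measure (Fin n → ℝ)).prod (volume.restrict (Icc (0:ℝ) 1))).withDensity
    (fun p => ENNReal.ofReal (ρ p))

theorem cs404_mu_le {M : ℝ} {Z : (Fin n → ℝ) × ℝ → (Fin n → ℝ)} {ρ : (Fin n → ℝ) × ℝ → ℝ}
    (hZ : Measurable Z) (hρ : Measurable ρ) (hM : MassBound M Z ρ) (c : Fin n → ℝ) {s : ℝ}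
    (hs : 0 < s) (a b : ℝ) :
    cs404_mu ρ {p | ‖Z p - c‖ ≤ s ∧ p.2 ∈ Icc a b} ≤
      ENNReal.ofReal (M * (2 * s) ^ n) * ENNReal.ofReal (b - a) := by
  have hA : MeasurableSet {p : (Fin n → ℝ) × ℝ | ‖Z p - c‖ ≤ s ∧ p.2 ∈ Icc a b} := by
    apply MeasurableSet.inter
    · exact measurableSet_le (hZ.sub_const c).norm measurable_const
    · exact measurable_snd measurableSet_Icc
  set A := {p : (Fin n → ℝ) × ℝ | ‖Z p - c‖ ≤ s ∧ p.2 ∈ Icc a b} with hAd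
  unfold cs404_mu
  rw [withDensity_apply _ hA, ← lintegral_indicator hA, lintegral_prod_symm' _
    (hρ.ennreal_ofReal.indicator hA)]
  calc ∫⁻ τ in Icc (0:ℝ) 1, ∫⁻ x, A.indicator (fun p => ENNReal.ofReal (ρ p)) (x, τ)
      ≤ ∫⁻ τ in Icc (0:ℝ) 1, (Icc a b).indicator (fun _ => ENNReal.ofReal (M * (2 * s) ^ n)) τ := by
        apply lintegral_mono
        intro τ
        simp only
        by_cases hτ : τ ∈ Icc a b
        · rw [indicator_of_mem hτ]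
          have h1 : ∫⁻ x, A.indicator (fun p => ENNReal.ofReal (ρ p)) (x, τ) =
              ∫⁻ x in {x : Fin n → ℝ | ‖Z (x, τ) - c‖ ≤ s}, ENNReal.ofReal (ρ (x, τ)) := by
            rw [← lintegral_indicator]
            · apply lintegral_congr
              intro x
              by_cases hx : ‖Z (x, τ) - c‖ ≤ s
              · rw [indicator_of_mem (show (x, τ) ∈ A from ⟨hx, hτ⟩),
                  indicator_of_mem (show x ∈ {x : Fin n → ℝ | ‖Z (x, τ) - c‖ ≤ s} from hx)]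
              · rw [indicator_of_notMem (show (x, τ) ∉ A from fun h => hx h.1),
                  indicator_of_notMem (show x ∉ {x : Fin n → ℝ | ‖Z (x, τ) - c‖ ≤ s} from hx)]
            · exact measurableSet_le
                ((hZ.comp (measurable_id.prodMk measurable_const)).sub_const c).norm
                measurable_const
          rw [h1]
          exact hM τ c s hs
        · rw [indicator_of_notMem hτ]
          have h1 : ∀ x, A.indicator (fun p => ENNReal.ofReal (ρ p)) (x, τ) = 0 := by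
            intro x
            exact indicator_of_notMem (show (x, τ) ∉ A from fun h => hτ h.2) _
          simp only [h1, lintegral_const, zero_mul, le_refl]
    _ ≤ ∫⁻ τ, (Icc a b).indicator (fun _ => ENNReal.ofReal (M * (2 * s) ^ n)) τ :=
        lintegral_mono' Measure.restrict_le_self le_rfl
    _ = ENNReal.ofReal (M * (2 * s) ^ n) * ENNReal.ofReal (b - a) := by
        rw [lintegral_indicator measurableSet_Icc, lintegral_const, Measure.restrict_apply_univ,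
          Real.volume_Icc]

theorem cs404_lab {ρ : (Fin n → ℝ) × ℝ → ℝ} (hρm : Measurable ρ) (hρ0 : ∀ p, 0 ≤ ρ p)
    {φ : (Fin n → ℝ) → ℝ} {Z' : (Fin n → ℝ) × ℝ → (Fin n → ℝ)} {t : ℝ}
    (ht : t ∈ Icc (0:ℝ) 1) (hint : IntegrableOn (fun p => φ (Z' p)) {p | p.2 ∈ Icc 0 t}
      (cs404_mu ρ)) :
    lab ρ t φ Z' = ∫ p in {p | p.2 ∈ Icc 0 t}, φ (Z' p) ∂(cs404_mu ρ) := by
  have hB : MeasurableSet {p : (Fin n → ℝ) × ℝ | p.2 ∈ Icc 0 t} :=
    measurable_snd measurableSet_Icc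
  have hBe : {p : (Fin n → ℝ) × ℝ | p.2 ∈ Icc 0 t} = univ ×ˢ Icc 0 t := by
    ext p
    simp
  have hmeas : Measurable (fun p => ENNReal.ofReal (ρ p)) := hρm.ennreal_ofReal
  unfold cs404_mu IntegrableOn at hint
  rw [restrict_withDensity hB, integrable_withDensity_iff_integrable_smul' hmeas
    (Filter.Eventually.of_forall fun _ => ENNReal.ofReal_lt_top)] at hint
  unfold cs404_mu
  rw [restrict_withDensity hB, integral_withDensity_eq_integral_toReal_smul hmeas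
    (Filter.Eventually.of_forall fun _ => ENNReal.ofReal_lt_top)]
  rw [hBe, ← Measure.prod_restrict, Measure.restrict_univ,
    Measure.restrict_restrict measurableSet_Icc] at hint ⊢
  have hI : Icc (0:ℝ) t ∩ Icc 0 1 = Icc 0 t := by
    apply inter_eq_left.mpr
    exact Icc_subset_Icc_right ht.2
  rw [hI] at hint ⊢
  rw [integral_prod_symm _ hint]
  unfold lab
  rw [intervalIntegral.integral_of_le ht.1, ← integral_Icc_eq_integral_Ioc]
  apply setIntegral_congr_fun measurableSet_Icc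
  intro τ _
  simp only
  congr 1
  funext x
  rw [ENNReal.toReal_ofReal (hρ0 _), smul_eq_mul, mul_comm]

end Meas

/-! ### Bounds for integrals -/

section Bd

variable {n : ℕ} {P' : Type*} [MeasurableSpace P'] {κ : Measure P'} {Z : P' → (Fin n → ℝ)}
  {T : P' → ℝ} {M : ℝ}

theorem cs404_fin (hmass : ∀ (c : Fin n → ℝ) (s a b : ℝ), 0 < s →
      κ {p | ‖Z p - c‖ ≤ s ∧ T p ∈ Icc a b} ≤
        ENNReal.ofReal (M * (2 * s) ^ n) * ENNReal.ofReal (b - a))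
    {A : Set P'} {X : Fin n → ℝ} {s α β : ℝ} (hs : 0 < s)
    (hA : ∀ p ∈ A, ‖Z p - X‖ ≤ s ∧ T p ∈ Icc α β) : κ A < ⊤ :=
  lt_of_le_of_lt ((measure_mono hA).trans (hmass X s α β hs))
    (ENNReal.mul_lt_top ENNReal.ofReal_lt_top ENNReal.ofReal_lt_top)

theorem cs404_real (hM : 0 ≤ M) (hmass : ∀ (c : Fin n → ℝ) (s a b : ℝ), 0 < s →
      κ {p | ‖Z p - c‖ ≤ s ∧ T p ∈ Icc a b} ≤
        ENNReal.ofReal (M * (2 * s) ^ n) * ENNReal.ofReal (b - a))
    {A : Set P'} {X : Fin n → ℝ} {s α β : ℝ} (hs : 0 < s) (hαβ : α ≤ β)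
    (hA : ∀ p ∈ A, ‖Z p - X‖ ≤ s ∧ T p ∈ Icc α β) :
    κ.real A ≤ M * (2 * s) ^ n * (β - α) := by
  unfold Measure.real
  have h1 := (measure_mono hA).trans (hmass X s α β hs)
  rw [← ENNReal.ofReal_mul (by positivity)] at h1
  have h2 : 0 ≤ M * (2 * s) ^ n * (β - α) := mul_nonneg (by positivity) (by linarith)
  have h3 := ENNReal.toReal_mono ENNReal.ofReal_ne_top h1
  rwa [ENNReal.toReal_ofReal h2] at h3

theorem cs404_intble (hZ : Measurable Z) (hmass : ∀ (c : Fin n → ℝ) (s a b : ℝ), 0 < s →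
      κ {p | ‖Z p - c‖ ≤ s ∧ T p ∈ Icc a b} ≤
        ENNReal.ofReal (M * (2 * s) ^ n) * ENNReal.ofReal (b - a))
    {A : Set P'} (hAm : MeasurableSet A) {X : Fin n → ℝ} {s α β : ℝ} (hs : 0 < s)
    (hA : ∀ p ∈ A, T p ∈ Icc α β) {f : P' → ℝ} (hfm : AEStronglyMeasurable f κ) {B : ℝ}
    (hf : ∀ p, |f p| ≤ B) (hf0 : ∀ p, s < ‖Z p - X‖ → f p = 0) : IntegrableOn f A κ := by
  have hD : MeasurableSet {p | ‖Z p - X‖ ≤ s} :=
    measurableSet_le (hZ.sub_const X).norm measurable_const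
  have h1 : IntegrableOn f (A ∩ {p | ‖Z p - X‖ ≤ s}) κ := by
    apply Measure.integrableOn_of_bounded (M := B)
    · exact (cs404_fin hmass hs (X := X) (α := α) (β := β) (fun p hp => ⟨hp.2, hA p hp.1⟩)).ne
    · exact hfm
    · exact Filter.Eventually.of_forall hf
  apply h1.of_forall_sdiff_eq_zero hAm
  intro p hp
  apply hf0
  by_contra hcon
  push Not at hcon
  exact hp.2 ⟨hp.1, hcon⟩

theorem cs404_bound (hM : 0 ≤ M) (hmass : ∀ (c : Fin n → ℝ) (s a b : ℝ), 0 < s →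
      κ {p | ‖Z p - c‖ ≤ s ∧ T p ∈ Icc a b} ≤
        ENNReal.ofReal (M * (2 * s) ^ n) * ENNReal.ofReal (b - a))
    {A : Set P'} (hAm : MeasurableSet A) {X : Fin n → ℝ} {s α β : ℝ} (hs : 0 < s)
    (hαβ : α ≤ β) (hA : ∀ p ∈ A, T p ∈ Icc α β) {f : P' → ℝ} {B : ℝ} (hB : 0 ≤ B)
    (hf : ∀ p, |f p| ≤ B) (hf0 : ∀ p, s < ‖Z p - X‖ → f p = 0) :
    |∫ p in A, f p ∂κ| ≤ B * (M * (2 * s) ^ n * (β - α)) := by
  have h1 : ∫ p in A, f p ∂κ = ∫ p in A ∩ {p | ‖Z p - X‖ ≤ s}, f p ∂κ := by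
    apply setIntegral_eq_of_subset_of_forall_sdiff_eq_zero hAm inter_subset_left
    intro p hp
    apply hf0
    by_contra hcon
    push Not at hcon
    exact hp.2 ⟨hp.1, hcon⟩
  rw [h1, ← Real.norm_eq_abs]
  refine (norm_setIntegral_le_of_norm_le_const (C := B) ?_ (fun p _ => hf p)).trans ?_
  · exact cs404_fin hmass hs (X := X) (α := α) (β := β) (fun p hp => ⟨hp.2, hA p hp.1⟩)
  · exact mul_le_mul_of_nonneg_left (cs404_real hM hmass hs hαβ (X := X)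
      (fun p hp => ⟨hp.2, hA p hp.1⟩)) hB

end Bd

/-! ### Assembly -/

section Asm

variable {n : ℕ} {P' : Type*} [MeasurableSpace P'] {κ : Measure P'} {Z : P' → (Fin n → ℝ)}
  {T : P' → ℝ} {M : ℝ} {V : Type*} [NormedAddCommGroup V] [InnerProductSpace ℝ V]
  {Ω : Type*} [Fintype Ω] [Nonempty Ω]

/-- region of space-time -/
def cs404_reg (c₀ : Cls n) (R : ℝ) (Z : P' → (Fin n → ℝ)) (T : P' → ℝ) (c : Fin n → ℤ) (j : ℕ) :
    Set P' :=
  {p | T p ∈ Icc (0:ℝ) 1 ∧ cell c₀ R (Z p) (T p) = (c, (j:ℤ))}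

theorem cs404_reg_meas (c₀ : Cls n) (R : ℝ) (hZ : Measurable Z) (hT : Measurable T)
    (c : Fin n → ℤ) (j : ℕ) : MeasurableSet (cs404_reg c₀ R Z T c j) := by
  apply MeasurableSet.inter
  · exact hT measurableSet_Icc
  · exact (cs404_cell_meas c₀ R hZ hT) (measurableSet_singleton (c, (j:ℤ)))

theorem cs404_reg_sub {c₀ : Cls n} {R : ℝ} (hR : 0 < R) {c : Fin n → ℤ} {j : ℕ} {p : P'}
    (hp : p ∈ cs404_reg c₀ R Z T c j) :
    ‖Z p - (fun i => cen (c₀.1 i) R (c i))‖ ≤ R ∧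
      T p ∈ Icc (cen c₀.2 R j - R) (cen c₀.2 R j + R) := by
  have h1 := hp.2
  unfold cell at h1
  rw [Prod.mk.injEq] at h1
  constructor
  · rw [pi_norm_le_iff_of_nonneg hR.le]
    intro i
    have h2 := congrFun h1.1 i
    rw [Pi.sub_apply, ← h2]
    exact cs404_idx_mem _ hR _
  · rw [← h1.2]
    have h2 := abs_le.mp (cs404_idx_mem c₀.2 hR (T p))
    constructor <;> linarith [h2.1, h2.2]

theorem cs404_Ubound [CompleteSpace V] (hM : 0 ≤ M)
    (hmass : ∀ (c : Fin n → ℝ) (s a b : ℝ), 0 < s →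
      κ {p | ‖Z p - c‖ ≤ s ∧ T p ∈ Icc a b} ≤
        ENNReal.ofReal (M * (2 * s) ^ n) * ENNReal.ofReal (b - a))
    (hZ : Measurable Z) (hT : Measurable T) {w R a b : ℝ} (hw : 0 < w) (hR : w ≤ R)
    {Φ : (Fin n → ℝ) → V} {Ψ : P' → V} (hΨm : StronglyMeasurable Ψ) (hΨa : ∀ p, ‖Ψ p‖ ≤ a)
    (hΨ1 : ∀ (p : P') (v : V) (B : ℝ), (∀ X, |inner ℝ (Φ X) v| ≤ B) → |inner ℝ (Ψ p) v| ≤ B)
    (hb : 0 ≤ b) (hΨ2 : ∀ p X, |inner ℝ (Φ X) (Ψ p)| ≤ b)
    (hΨ3 : ∀ p X, 2 * w < ‖Z p - X‖ → inner ℝ (Φ X) (Ψ p) = 0)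
    (c₀ : Cls n) (c : Fin n → ℤ) (j : ℕ) :
    IntegrableOn Ψ (cs404_reg c₀ R Z T c j) κ ∧
    ‖∫ p in cs404_reg c₀ R Z T c j, Ψ p ∂κ‖ ^ 2 ≤
      (b * (M * (2 * (2 * w)) ^ n * (2 * R))) * (M * (2 * R) ^ n * (2 * R)) := by
  have hR0 : 0 < R := hw.trans_le hR
  have hreg := cs404_reg_meas c₀ R hZ hT c j
  have hsub := fun p (hp : p ∈ cs404_reg c₀ R Z T c j) => cs404_reg_sub hR0 hp
  have hfin := cs404_fin hmass hR0 hsub
  have hint : IntegrableOn Ψ (cs404_reg c₀ R Z T c j) κ :=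
    Measure.integrableOn_of_bounded hfin.ne hΨm.aestronglyMeasurable
      (Filter.Eventually.of_forall hΨa)
  refine ⟨hint, ?_⟩
  set U : V := ∫ p in cs404_reg c₀ R Z T c j, Ψ p ∂κ with hU
  have e1 : (cen c₀.2 R j + R) - (cen c₀.2 R j - R) = 2 * R := by ring
  have h1 : ∀ X, |inner ℝ (Φ X) U| ≤ b * (M * (2 * (2 * w)) ^ n * (2 * R)) := by
    intro X
    rw [hU, ← integral_inner hint]
    have := cs404_bound hM hmass hreg (X := X) (s := 2 * w) (α := cen c₀.2 R j - R)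
      (β := cen c₀.2 R j + R) (by positivity) (by linarith) (fun p hp => (hsub p hp).2)
      (f := fun p => inner ℝ (Φ X) (Ψ p)) hb (fun p => hΨ2 p X) (fun p hp => hΨ3 p X hp)
    rw [e1] at this
    exact this
  have h2 : ‖U‖ ^ 2 = ∫ p in cs404_reg c₀ R Z T c j, inner ℝ U (Ψ p) ∂κ := by
    rw [integral_inner hint, ← hU, real_inner_self_eq_norm_sq]
  have h3 : ‖∫ p in cs404_reg c₀ R Z T c j, inner ℝ U (Ψ p) ∂κ‖ ≤
      (b * (M * (2 * (2 * w)) ^ n * (2 * R))) * κ.real (cs404_reg c₀ R Z T c j) := by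
    apply norm_setIntegral_le_of_norm_le_const hfin
    intro p _
    rw [real_inner_comm]
    exact hΨ1 p U _ h1
  have h4 := cs404_real hM hmass hR0 (by linarith) hsub
  rw [e1] at h4
  rw [h2]
  refine (le_abs_self _).trans (h3.trans ?_)
  apply mul_le_mul_of_nonneg_left h4
  positivity

theorem cs404_asm [CompleteSpace V] (hM : 0 ≤ M)
    (hmass : ∀ (c : Fin n → ℝ) (s a b : ℝ), 0 < s →
      κ {p | ‖Z p - c‖ ≤ s ∧ T p ∈ Icc a b} ≤
        ENNReal.ofReal (M * (2 * s) ^ n) * ENNReal.ofReal (b - a))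
    (hZ : Measurable Z) (hT : Measurable T) {h w R a ρ1 : ℝ} (hh : 0 < h) (hw : 0 < w)
    (hR : w ≤ R) (ha : 0 < a) (ha2 : a ^ 2 = (h⁻¹) ^ n)
    {Φ : (Fin n → ℝ) → V} (hΦ : ∀ X z, inner ℝ (Φ X) (Φ z) = tent h (X - z))
    {Ψ : Ω → P' → V} (hΨm : ∀ y, StronglyMeasurable (Ψ y)) (hΨa : ∀ y p, ‖Ψ y p‖ ≤ a)
    (hΨ1 : ∀ (y : Ω) (p : P') (v : V) (B : ℝ), (∀ X, |inner ℝ (Φ X) v| ≤ B) →
      |inner ℝ (Ψ y p) v| ≤ B)
    (hΨ2 : ∀ y p X, |inner ℝ (Φ X) (Ψ y p)| ≤ (h⁻¹) ^ n)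
    (hΨ3 : ∀ y p X, 2 * w < ‖Z p - X‖ → inner ℝ (Φ X) (Ψ y p) = 0)
    (hρ1 : 0 < ρ1) (hρ2 : ((h⁻¹) ^ n * (M * (2 * (2 * w)) ^ n * (2 * R))) *
      (M * (2 * R) ^ n * (2 * R)) ≤ ρ1 ^ 2)
    {N : ℕ} (hN1 : 1 ≤ N) (hN : 1 ≤ R * N) {K : ℕ} {δ η : ℝ} (hδ : 0 < δ) (hη : 0 ≤ η)
    (hη2 : 2 * ((h⁻¹) ^ n * (n * (δ / h))) ≤ η ^ 2) (hK : 3 * R ≤ K * δ) (c₀ : Cls n) :
    ∃ Y : Cell n → Ω, ∀ t ∈ Icc (0:ℝ) 1, ∀ X,
      |∫ p in {p | T p ∈ Icc 0 t}, (inner ℝ (Φ X) (Ψ (Y (cell c₀ R (Z p) (T p))) p) -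
        (Fintype.card Ω : ℝ)⁻¹ * ∑ y, inner ℝ (Φ X) (Ψ y p)) ∂κ| ≤
      3 ^ n * ((a * (2 * ρ1) * (8 * Real.log (2 * ((N:ℝ) + 1) *
        ((((2 * K + 1) ^ n : ℕ) : ℝ) + Fintype.card Ω) + 1)) + η * (N * (2 * ρ1))) +
        2 * (h⁻¹) ^ n * (M * (2 * (2 * w)) ^ n * (2 * R))) := by
  classical
  have hR0 : 0 < R := hw.trans_le hR
  have hcard : (0:ℝ) < Fintype.card Ω := by exact_mod_cast Fintype.card_pos
  have hb0 : 0 ≤ (h⁻¹) ^ n := by positivity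
  have hUb := fun (c : Fin n → ℤ) (j : ℕ) (y : Ω) => cs404_Ubound hM hmass hZ hT hw hR
    (hΨm y) (hΨa y) (hΨ1 y) hb0 (hΨ2 y) (hΨ3 y) c₀ c j
  set U : (Fin n → ℤ) → ℕ → Ω → V := fun c j y =>
    ∫ p in cs404_reg c₀ R Z T c j, Ψ y p ∂κ with hU
  have hUn : ∀ c j y, ‖U c j y‖ ≤ ρ1 := fun c j y =>
    (sq_le_sq₀ (norm_nonneg _) hρ1.le).mp ((hUb c j y).2.trans hρ2)
  have hcol := fun c => cs404_column hh hΦ ha ha2 N hρ1 (U c) (hUn c)
    (fun i => cen (c₀.1 i) R (c i)) K hδ hη hη2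
  choose Yc hYc using hcol
  refine ⟨fun q => Yc q.1 q.2.toNat, fun t ht X => ?_⟩
  set i₀ : ℕ := (idx c₀.2 R t).toNat with hi₀
  have hi0 : idx c₀.2 R t = (i₀ : ℤ) :=
    (Int.toNat_of_nonneg (cs404_idx_nonneg _ hR0 ht.1)).symm
  have hi0N : i₀ ≤ N := by
    have := cs404_idx_le c₀.2 hR0 ht.2 hN1 hN
    omega
  set Tm : Finset (Fin n → ℤ) := Fintype.piFinset (fun i =>
    Finset.Icc (idx (c₀.1 i) R (X i) - 1) (idx (c₀.1 i) R (X i) + 1)) with hTm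
  have hTmc : Tm.card = 3 ^ n := by
    rw [hTm, Fintype.card_piFinset]
    have : ∀ i : Fin n, (Finset.Icc (idx (c₀.1 i) R (X i) - 1)
        (idx (c₀.1 i) R (X i) + 1)).card = 3 := by
      intro i
      rw [Int.card_Icc]
      omega
    simp [this]
  set fc : (Fin n → ℤ) → ℕ → P' → ℝ := fun c j p => inner ℝ (Φ X) (Ψ (Yc c j) p) -
    (Fintype.card Ω : ℝ)⁻¹ * ∑ y, inner ℝ (Φ X) (Ψ y p) with hfc
  have hinm : ∀ y, AEStronglyMeasurable (fun p => inner ℝ (Φ X) (Ψ y p)) κ := fun y =>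
    (stronglyMeasurable_const.inner (hΨm y)).aestronglyMeasurable
  have hfcm : ∀ c j, AEStronglyMeasurable (fc c j) κ := by
    intro c j
    apply (hinm _).sub
    apply AEStronglyMeasurable.const_mul
    exact Finset.aestronglyMeasurable_fun_sum _ (fun y _ => hinm y)
  have hfcb : ∀ c j p, |fc c j p| ≤ 2 * (h⁻¹) ^ n := by
    intro c j p
    have h1 : |(Fintype.card Ω : ℝ)⁻¹ * ∑ y, inner ℝ (Φ X) (Ψ y p)| ≤ (h⁻¹) ^ n := by
      rw [abs_mul, abs_inv, abs_of_pos hcard, inv_mul_le_iff₀ hcard]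
      refine (Finset.abs_sum_le_sum_abs _ _).trans ?_
      calc ∑ y, |inner ℝ (Φ X) (Ψ y p)| ≤ ∑ _y : Ω, (h⁻¹) ^ n :=
            Finset.sum_le_sum fun y _ => hΨ2 y p X
        _ = Fintype.card Ω * (h⁻¹) ^ n := by simp
    have h2 := hΨ2 (Yc c j) p X
    have h3 := abs_sub (inner ℝ (Φ X) (Ψ (Yc c j) p))
      ((Fintype.card Ω : ℝ)⁻¹ * ∑ y, inner ℝ (Φ X) (Ψ y p))
    have h4 : |fc c j p| = |inner ℝ (Φ X) (Ψ (Yc c j) p) -
      (Fintype.card Ω : ℝ)⁻¹ * ∑ y, inner ℝ (Φ X) (Ψ y p)| := rfl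
    rw [h4]
    linarith
  have hfc0 : ∀ c j p, 2 * w < ‖Z p - X‖ → fc c j p = 0 := by
    intro c j p hp
    simp only [hfc, hΨ3 _ p X hp, Finset.sum_const_zero, mul_zero, sub_zero]
  have hregm := fun c j => cs404_reg_meas c₀ R hZ hT c j
  have hAm : MeasurableSet {p | T p ∈ Icc 0 t} := hT measurableSet_Icc
  have hfci : ∀ c j, IntegrableOn (fc c j) {p | T p ∈ Icc 0 t} κ := fun c j =>
    cs404_intble hZ hmass hAm (X := X) (s := 2 * w) (α := 0) (β := t) (by positivity)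
      (fun p hp => hp) (hfcm c j) (hfcb c j) (hfc0 c j)
  have hpt : ∀ p ∈ {p | T p ∈ Icc 0 t},
      (inner ℝ (Φ X) (Ψ (Yc (cell c₀ R (Z p) (T p)).1 (cell c₀ R (Z p) (T p)).2.toNat) p) -
        (Fintype.card Ω : ℝ)⁻¹ * ∑ y, inner ℝ (Φ X) (Ψ y p)) =
      ∑ c ∈ Tm, ∑ j ∈ Finset.range (i₀ + 1),
        (cs404_reg c₀ R Z T c j).indicator (fc c j) p := by
    intro p hp
    have hp : T p ∈ Icc 0 t := hp
    by_cases hfar : 2 * w < ‖Z p - X‖
    · have hz : ∑ c ∈ Tm, ∑ j ∈ Finset.range (i₀ + 1),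
          (cs404_reg c₀ R Z T c j).indicator (fc c j) p = 0 := by
        apply Finset.sum_eq_zero
        intro c _
        apply Finset.sum_eq_zero
        intro j _
        by_cases hj : p ∈ cs404_reg c₀ R Z T c j
        · rw [indicator_of_mem hj, hfc0 c j p hfar]
        · rw [indicator_of_notMem hj]
      rw [hz]
      simp only [hΨ3 _ p X hfar, Finset.sum_const_zero, mul_zero, sub_zero]
    · push Not at hfar
      set c' : Fin n → ℤ := (cell c₀ R (Z p) (T p)).1 with hc'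
      set j' : ℕ := (cell c₀ R (Z p) (T p)).2.toNat with hj'
      have hidx0 : 0 ≤ idx c₀.2 R (T p) := cs404_idx_nonneg _ hR0 hp.1
      have hj'2 : (cell c₀ R (Z p) (T p)).2 = (j' : ℤ) := (Int.toNat_of_nonneg hidx0).symm
      have hmem : p ∈ cs404_reg c₀ R Z T c' j' := by
        refine ⟨⟨hp.1, hp.2.trans ht.2⟩, ?_⟩
        rw [← hj'2]
      have hne : ∀ c j, (c ≠ c' ∨ j ≠ j') → p ∉ cs404_reg c₀ R Z T c j := by
        intro c j hcj hpc
        have h1 := hpc.2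
        have h2 := hmem.2
        rw [h1] at h2
        have h3 : c = c' := congrArg Prod.fst h2
        have h4 : (j : ℤ) = j' := congrArg Prod.snd h2
        rcases hcj with h5 | h5
        · exact h5 h3
        · exact h5 (by exact_mod_cast h4)
      have hc'T : c' ∈ Tm := by
        rw [hTm, Fintype.mem_piFinset]
        intro i
        apply cs404_idx_near _ hR0
        have h1 := norm_le_pi_norm (Z p - X) i
        rw [Pi.sub_apply, Real.norm_eq_abs] at h1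
        linarith
      have hj'r : j' ∈ Finset.range (i₀ + 1) := by
        rw [Finset.mem_range]
        have h1 : idx c₀.2 R (T p) ≤ idx c₀.2 R t := cs404_idx_mono _ hR0 hp.2
        have h2 : (cell c₀ R (Z p) (T p)).2 = idx c₀.2 R (T p) := rfl
        omega
      rw [Finset.sum_eq_single c', Finset.sum_eq_single j', indicator_of_mem hmem]
      · intro j _ hj
        exact indicator_of_notMem (hne c' j (Or.inr hj)) _
      · intro h
        exact absurd hj'r h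
      · intro c _ hc
        apply Finset.sum_eq_zero
        intro j _
        exact indicator_of_notMem (hne c j (Or.inl hc)) _
      · intro h
        exact absurd hc'T h
  rw [setIntegral_congr_fun hAm hpt]
  rw [integral_finsetSum _ (fun c _ => integrable_finsetSum _ (fun j _ =>
    (hfci c j).indicator (hregm c j)))]
  have hone : ∀ c ∈ Tm, |∫ p in {p | T p ∈ Icc 0 t}, ∑ j ∈ Finset.range (i₀ + 1),
      (cs404_reg c₀ R Z T c j).indicator (fc c j) p ∂κ| ≤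
      ((a * (2 * ρ1) * (8 * Real.log (2 * ((N:ℝ) + 1) *
        ((((2 * K + 1) ^ n : ℕ) : ℝ) + Fintype.card Ω) + 1)) + η * (N * (2 * ρ1))) +
        2 * (h⁻¹) ^ n * (M * (2 * (2 * w)) ^ n * (2 * R))) := by
    intro c hc
    rw [integral_finsetSum _ (fun j _ => (hfci c j).indicator (hregm c j)),
      Finset.sum_range_succ]
    have hlt : ∀ j ∈ Finset.range i₀, ∫ p in {p | T p ∈ Icc 0 t},
        (cs404_reg c₀ R Z T c j).indicator (fc c j) p ∂κ =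
        inner ℝ (Φ X) (U c j (Yc c j) - (Fintype.card Ω : ℝ)⁻¹ • ∑ y', U c j y') := by
      intro j hj
      rw [Finset.mem_range] at hj
      rw [setIntegral_indicator (hregm c j)]
      have hsub : {p | T p ∈ Icc 0 t} ∩ cs404_reg c₀ R Z T c j = cs404_reg c₀ R Z T c j := by
        apply inter_eq_right.mpr
        intro p hp
        refine ⟨hp.1.1, ?_⟩
        by_contra hcon
        push Not at hcon
        have h1 : idx c₀.2 R t ≤ idx c₀.2 R (T p) := cs404_idx_mono _ hR0 hcon.le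
        have h2 : idx c₀.2 R (T p) = (j:ℤ) := congrArg Prod.snd hp.2
        omega
      rw [hsub]
      have hyi : ∀ y, IntegrableOn (fun p => inner ℝ (Φ X) (Ψ y p))
          (cs404_reg c₀ R Z T c j) κ := fun y => ((hUb c j y).1).const_inner (Φ X)
      have hyv : ∀ y, ∫ p in cs404_reg c₀ R Z T c j, inner ℝ (Φ X) (Ψ y p) ∂κ =
          inner ℝ (Φ X) (U c j y) := fun y => integral_inner (hUb c j y).1 (Φ X)
      rw [hfc]
      simp only
      rw [integral_sub (hyi _) ((integrable_finsetSum _ (fun y _ => hyi y)).const_mul _),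
        integral_const_mul, integral_finsetSum _ (fun y _ => hyi y)]
      simp_rw [hyv]
      rw [inner_sub_right, inner_smul_right, inner_sum]
    rw [Finset.sum_congr rfl hlt, ← inner_sum]
    refine (abs_add_le _ _).trans (add_le_add ?_ ?_)
    · apply hYc c i₀ hi0N X
      refine le_trans ?_ hK
      rw [pi_norm_le_iff_of_nonneg (by positivity)]
      intro i
      have h1 := (Fintype.mem_piFinset.mp hc) i
      rw [Finset.mem_Icc] at h1
      have h2 := abs_le.mp (cs404_idx_mem (c₀.1 i) hR0 (X i))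
      rw [cs404_cen] at h2
      rw [Pi.sub_apply, cs404_cen, Real.norm_eq_abs, abs_le]
      set e : ℝ := if c₀.1 i then 0 else 1 / 2 with he
      have h3 : ((c i : ℤ) : ℝ) ≤ (idx (c₀.1 i) R (X i) : ℝ) + 1 := by exact_mod_cast h1.2
      have h4 : (idx (c₀.1 i) R (X i) : ℝ) - 1 ≤ ((c i : ℤ) : ℝ) := by exact_mod_cast h1.1
      set q : ℝ := (idx (c₀.1 i) R (X i) : ℝ) with hq
      have h5 := mul_le_mul_of_nonneg_right h3 hR0.le
      have h6 := mul_le_mul_of_nonneg_right h4 hR0.le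
      constructor <;> nlinarith [h2.1, h2.2]
    · rw [setIntegral_indicator (hregm c i₀)]
      have := cs404_bound hM hmass (hAm.inter (hregm c i₀)) (X := X) (s := 2 * w)
        (α := cen c₀.2 R i₀ - R) (β := cen c₀.2 R i₀ + R) (by positivity) (by linarith)
        (fun p hp => (cs404_reg_sub hR0 hp.2).2) (f := fc c i₀) (by positivity)
        (hfcb c i₀) (hfc0 c i₀)
      have e1 : (cen c₀.2 R i₀ + R) - (cen c₀.2 R i₀ - R) = 2 * R := by ring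
      rw [e1] at this
      exact this
  refine (Finset.abs_sum_le_sum_abs _ _).trans ((Finset.sum_le_sum hone).trans ?_)
  rw [Finset.sum_const, hTmc, nsmul_eq_mul]
  push_cast
  exact le_rfl

end Asm

/-! ### Arithmetic -/

theorem cs404_arith {n l₀ k : ℕ} (hn : 1 ≤ n) :
    2 * (2 ^ k + 1) * ((2 * (6 * n * (l₀ * (k + 1)) ^ 2 * 2 ^ ((k + 1) * (n + 3))) + 1) ^ n +
      ((4 ^ (k + 1)) ^ n) ^ 3) + 1 ≤ 2 ^ ((k + 1) * ((2 * n + 2 * l₀ + 10) * n + 4)) := by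
  have h1 : n ≤ 2 ^ n := Nat.lt_two_pow_self.le
  have h2 : l₀ ≤ 2 ^ l₀ := Nat.lt_two_pow_self.le
  have h3 : k + 1 ≤ 2 ^ (k + 1) := Nat.lt_two_pow_self.le
  set q : ℕ := 2 * n + 2 * l₀ + 10 with hq
  set K : ℕ := 6 * n * (l₀ * (k + 1)) ^ 2 * 2 ^ ((k + 1) * (n + 3)) with hK
  have hKe : K ≤ 2 ^ (3 + n + 2 * (l₀ + (k + 1)) + (k + 1) * (n + 3)) := by
    rw [pow_add, pow_add, pow_add, mul_comm 2 (l₀ + (k + 1)), pow_mul, pow_add 2 l₀ (k + 1)]
    rw [hK]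
    gcongr
    norm_num
  have hK1 : 2 * K + 1 ≤ 2 ^ ((k + 1) * q) := by
    have h4 : 1 ≤ 2 ^ (3 + n + 2 * (l₀ + (k + 1)) + (k + 1) * (n + 3)) := Nat.one_le_two_pow
    have h5 : 2 * K + 1 ≤ 2 ^ (3 + n + 2 * (l₀ + (k + 1)) + (k + 1) * (n + 3) + 2) := by
      rw [pow_add _ _ 2]
      omega
    refine h5.trans (Nat.pow_le_pow_right (by norm_num) ?_)
    rw [hq]
    nlinarith [Nat.zero_le (k * n), Nat.zero_le (k * l₀), Nat.zero_le k]
  have hK2 : (2 * K + 1) ^ n ≤ 2 ^ ((k + 1) * (q * n)) := by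
    refine (Nat.pow_le_pow_left hK1 n).trans ?_
    rw [← pow_mul]
    apply Nat.pow_le_pow_right (by norm_num)
    rw [mul_assoc]
  have hO : ((4 ^ (k + 1)) ^ n) ^ 3 ≤ 2 ^ ((k + 1) * (q * n)) := by
    have e : (4:ℕ) = 2 ^ 2 := by norm_num
    rw [e, ← pow_mul, ← pow_mul, ← pow_mul]
    apply Nat.pow_le_pow_right (by norm_num)
    have h6 : 6 ≤ q := by omega
    calc 2 * ((k + 1) * (n * 3)) = (k + 1) * (6 * n) := by ring
      _ ≤ (k + 1) * (q * n) := by gcongr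
  have hk : 2 ^ k + 1 ≤ 2 ^ (k + 1) := by
    have : 1 ≤ 2 ^ k := Nat.one_le_two_pow
    rw [pow_succ]
    omega
  have h7 : 1 ≤ 2 ^ ((k + 1) * (q * n)) := Nat.one_le_two_pow
  have h8 : 1 ≤ 2 ^ (k + 1) := Nat.one_le_two_pow
  calc 2 * (2 ^ k + 1) * ((2 * K + 1) ^ n + ((4 ^ (k + 1)) ^ n) ^ 3) + 1
      ≤ 2 * 2 ^ (k + 1) * (2 ^ ((k + 1) * (q * n)) + 2 ^ ((k + 1) * (q * n))) + 1 := by gcongr
    _ ≤ 2 ^ 3 * 2 ^ (k + 1) * 2 ^ ((k + 1) * (q * n)) := by nlinarith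
    _ = 2 ^ (3 + (k + 1) + (k + 1) * (q * n)) := by
        rw [pow_add 2 (3 + (k + 1)), pow_add 2 3 (k + 1)]
    _ ≤ 2 ^ ((k + 1) * (q * n + 4)) := by
        apply Nat.pow_le_pow_right (by norm_num)
        nlinarith [Nat.zero_le k]

theorem cs404_log {n l₀ k : ℕ} (hn : 1 ≤ n) :
    Real.log (2 * (((2 ^ k : ℕ) : ℝ) + 1) *
      ((((2 * (6 * n * (l₀ * (k + 1)) ^ 2 * 2 ^ ((k + 1) * (n + 3))) + 1) ^ n : ℕ) : ℝ) +
        (Fintype.card (Par n (4 ^ (k + 1))) : ℝ)) + 1) ≤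
      ((k : ℝ) + 1) * (((2 * n + 2 * l₀ + 10) * n + 4 : ℕ) : ℝ) := by
  have h1 := cs404_arith (n := n) (l₀ := l₀) (k := k) hn
  have hc : Fintype.card (Par n (4 ^ (k + 1))) = ((4 ^ (k + 1)) ^ n) ^ 3 := by
    simp only [Par, Fintype.card_fun, Fintype.card_fin]
  rw [hc]
  set Q : ℕ := (2 * n + 2 * l₀ + 10) * n + 4 with hQ
  set a : ℕ := (2 * (6 * n * (l₀ * (k + 1)) ^ 2 * 2 ^ ((k + 1) * (n + 3))) + 1) ^ n with ha
  set b : ℕ := ((4 ^ (k + 1)) ^ n) ^ 3 with hb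
  have h2 : (2 * (((2 ^ k : ℕ) : ℝ) + 1) * ((a : ℝ) + (b : ℝ)) + 1) ≤ (2:ℝ) ^ ((k + 1) * Q) := by
    have : ((2 * (2 ^ k + 1) * (a + b) + 1 : ℕ) : ℝ) ≤ ((2 ^ ((k + 1) * Q) : ℕ) : ℝ) := by
      exact_mod_cast h1
    push_cast at this ⊢
    exact this
  have h3 : 0 < 2 * (((2 ^ k : ℕ) : ℝ) + 1) * ((a : ℝ) + (b : ℝ)) + 1 := by positivity
  refine (Real.log_le_log h3 h2).trans ?_
  rw [Real.log_pow]
  have h4 : Real.log 2 ≤ 1 := by
    have := Real.log_two_lt_d9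
    linarith
  have h5 : (0:ℝ) ≤ (((k + 1) * Q : ℕ) : ℝ) := by positivity
  calc _ ≤ (((k + 1) * Q : ℕ) : ℝ) * 1 := mul_le_mul_of_nonneg_left h4 h5
    _ = _ := by push_cast; ring

/-! ### Averages -/

theorem cs404_avg {I : Type*} [Fintype I] [Nonempty I] {f : I → ℝ} {B : ℝ}
    (hf : ∀ i, |f i| ≤ B) : |(Fintype.card I : ℝ)⁻¹ * ∑ i, f i| ≤ B := by
  have hcard : (0:ℝ) < Fintype.card I := by exact_mod_cast Fintype.card_pos
  rw [abs_mul, abs_inv, abs_of_pos hcard, inv_mul_le_iff₀ hcard]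
  refine (Finset.abs_sum_le_sum_abs _ _).trans ?_
  calc ∑ i, |f i| ≤ ∑ _i : I, B := Finset.sum_le_sum fun i _ => hf i
    _ = Fintype.card I * B := by simp

theorem cs404_swap {C Ω : Type*} [Fintype C] [DecidableEq C] [Fintype Ω] (c₀ : C)
    (H : (C → Ω) → Ω → ℝ) (hH : ∀ u y y', H (Function.update u c₀ y') y = H u y) :
    (Fintype.card Ω : ℝ) * ∑ u : C → Ω, H u (u c₀) = ∑ u : C → Ω, ∑ y, H u y := by
  have hinv : Function.Involutive (fun q : (C → Ω) × Ω => (Function.update q.1 c₀ q.2, q.1 c₀)) := by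
    intro q
    simp
  have h1 : ∑ u : C → Ω, ∑ y, H u y = ∑ q : (C → Ω) × Ω, H q.1 q.2 := by
    rw [Fintype.sum_prod_type]
  have h2 : ∑ q : (C → Ω) × Ω, H q.1 q.2 =
      ∑ q : (C → Ω) × Ω, H (Function.update q.1 c₀ q.2) (q.1 c₀) := by
    rw [← Equiv.sum_comp hinv.toPerm (fun q : (C → Ω) × Ω => H q.1 q.2)]
    rfl
  rw [h1, h2, Fintype.sum_prod_type]
  simp_rw [hH]
  rw [Finset.mul_sum]
  apply Finset.sum_congr rfl
  intro u _
  rw [Finset.sum_const, Finset.card_univ, nsmul_eq_mul]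

theorem cs404_field_congr {n m : ℕ} {w R : ℝ} {θ₁ θ₂ : Cls n → Cell n → Par n m}
    {z : Fin n → ℝ} {τ : ℝ} (h : ∀ c, θ₁ c (cell c R z τ) = θ₂ c (cell c R z τ)) :
    field w R θ₁ z τ = field w R θ₂ z τ := by
  unfold field
  funext j
  simp only [h]

/-! ### The theorem -/

/-- The final numerical estimate. -/
theorem cs404_num {n l₀ k : ℕ} {M R h a L Qr : ℝ} (hM : 0 ≤ M) (hR : R = ((l₀ : ℝ) * (k + 1)) ^ 2 / 2 ^ k)
    (hh : h = 1 / 2 ^ (k + 1)) (ha : 1 ≤ a) (hL : L ≤ ((k : ℝ) + 1) * Qr) :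
    3 ^ n * ((a * (2 * (2 * M * R * (6 * l₀ * (k + 1)) ^ n * a⁻¹)) * (8 * L) +
      h * (((2 ^ k : ℕ) : ℝ) * (2 * (2 * M * R * (6 * l₀ * (k + 1)) ^ n * a⁻¹)))) +
        2 * (h⁻¹) ^ n * (M * (2 * (2 * (2 * h))) ^ n * (2 * R))) ≤
    (3 ^ n * (2 * 6 ^ n * l₀ ^ (n + 2) * (16 * Qr + 1) + 4 * 8 ^ n * l₀ ^ 2)) * M *
      ((k : ℝ) + 1) ^ (n + 3) / 2 ^ k := by
  have hk0 : (0:ℝ) ≤ k := by positivity
  have hk1 : (1:ℝ) ≤ (k:ℝ) + 1 := by linarith
  have ha0 : 0 < a := by linarith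
  have hR0 : 0 ≤ R := by rw [hR]; positivity
  have hh0 : 0 < h := by rw [hh]; positivity
  set G : ℝ := 2 * M * R * (6 * l₀ * (k + 1)) ^ n with hG
  have hG0 : 0 ≤ G := by positivity
  have e1 : a * (2 * (G * a⁻¹)) * (8 * L) = 16 * G * L := by
    field_simp
    ring
  have e2 : h * (((2 ^ k : ℕ) : ℝ) * (2 * (G * a⁻¹))) = G * a⁻¹ := by
    rw [hh, pow_succ]
    push_cast
    field_simp
  have e3 : 2 * (h⁻¹) ^ n * (M * (2 * (2 * (2 * h))) ^ n * (2 * R)) = 4 * 8 ^ n * M * R := by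
    have : (h⁻¹) ^ n * (2 * (2 * (2 * h))) ^ n = 8 ^ n := by
      rw [← mul_pow]
      congr 1
      field_simp
      norm_num
    calc _ = 4 * ((h⁻¹) ^ n * (2 * (2 * (2 * h))) ^ n) * M * R := by ring
      _ = _ := by rw [this]
  rw [e1, e2, e3]
  have h1 : G * a⁻¹ ≤ G * ((k:ℝ) + 1) := by
    apply mul_le_mul_of_nonneg_left _ hG0
    have : a⁻¹ ≤ 1 := inv_le_one_of_one_le₀ ha
    linarith
  have h2 : 16 * G * L ≤ 16 * G * (((k:ℝ) + 1) * Qr) := by gcongr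
  have h3 : 16 * G * L + G * a⁻¹ ≤ G * ((k:ℝ) + 1) * (16 * Qr + 1) := by linarith
  have e4 : G * ((k:ℝ) + 1) * (16 * Qr + 1) = (2 * 6 ^ n * l₀ ^ (n + 2) * (16 * Qr + 1)) * M *
      ((k : ℝ) + 1) ^ (n + 3) / 2 ^ k := by
    rw [hG, hR, mul_pow, mul_pow, mul_pow]
    ring
  have h5 : 4 * 8 ^ n * M * R ≤ (4 * 8 ^ n * (l₀:ℝ) ^ 2) * M * ((k : ℝ) + 1) ^ (n + 3) / 2 ^ k := by
    rw [hR, mul_pow]
    have h6 : ((k:ℝ) + 1) ^ 2 ≤ ((k:ℝ) + 1) ^ (n + 3) := pow_le_pow_right₀ hk1 (by omega)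
    have h7 : 0 ≤ 4 * 8 ^ n * (l₀:ℝ) ^ 2 * M / 2 ^ k := by positivity
    calc 4 * 8 ^ n * M * ((l₀:ℝ) ^ 2 * ((k:ℝ) + 1) ^ 2 / 2 ^ k)
        = (4 * 8 ^ n * (l₀:ℝ) ^ 2 * M / 2 ^ k) * ((k:ℝ) + 1) ^ 2 := by ring
      _ ≤ (4 * 8 ^ n * (l₀:ℝ) ^ 2 * M / 2 ^ k) * ((k:ℝ) + 1) ^ (n + 3) :=
          mul_le_mul_of_nonneg_left h6 h7
      _ = _ := by ring
  rw [e4] at h3
  calc _ ≤ 3 ^ n * ((2 * 6 ^ n * l₀ ^ (n + 2) * (16 * Qr + 1)) * M *
      ((k : ℝ) + 1) ^ (n + 3) / 2 ^ k +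
        (4 * 8 ^ n * (l₀:ℝ) ^ 2) * M * ((k : ℝ) + 1) ^ (n + 3) / 2 ^ k) :=
        mul_le_mul_of_nonneg_left (add_le_add h3 h5) (by positivity)
    _ = _ := by ring

/-- Measurability of the displaced labels. -/
theorem cs404_fieldm {n m : ℕ} (w R : ℝ) {Z : (Fin n → ℝ) × ℝ → (Fin n → ℝ)} (hZ : Measurable Z)
    (θ : Cls n → Cell n → Par n m) :
    Measurable (fun p : (Fin n → ℝ) × ℝ => Z p + field w R θ (Z p) p.2) := by
  have h1 := field_measurable n m w R θ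
  have h2 : Measurable (fun p : (Fin n → ℝ) × ℝ => (Z p, p.2)) := hZ.prodMk measurable_snd
  have h3 : Measurable (fun p : (Fin n → ℝ) × ℝ => field w R θ (Z p) p.2) :=
    Measurable.comp (g := fun q : (Fin n → ℝ) × ℝ => field w R θ q.1 q.2)
      (f := fun p : (Fin n → ℝ) × ℝ => (Z p, p.2)) h1 h2
  exact hZ.add h3

/-- Mixed configurations with values in an arbitrary finite set. -/
def cs404_mix {n : ℕ} {Ω : Type} (S : Finset (Cls n)) (u : Cls n → Ω) (θ : Cls n → Cell n → Ω) :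
    Cls n → Cell n → Ω :=
  fun c q => if c ∈ S then u c else θ c q

theorem cs404_mix_upd {n : ℕ} {Ω : Type} {S : Finset (Cls n)} {c₀ : Cls n} (hc₀ : c₀ ∉ S)
    (u : Cls n → Ω) (θ : Cls n → Cell n → Ω) (y' : Ω) :
    cs404_mix S (Function.update u c₀ y') θ = cs404_mix S u θ := by
  funext c q
  unfold cs404_mix
  by_cases hcS : c ∈ S
  · have hcc : c ≠ c₀ := fun h => hc₀ (h ▸ hcS)
    simp [hcS, Function.update_of_ne hcc]
  · simp [hcS]

theorem cs404_mix_insert {n : ℕ} {Ω : Type} {S : Finset (Cls n)} {c₀ : Cls n} (hc₀ : c₀ ∉ S)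
    (u : Cls n → Ω) (θ : Cls n → Cell n → Ω) :
    cs404_mix (insert c₀ S) u θ = cs404_mix S u (Function.update θ c₀ (fun _ => u c₀)) := by
  funext c q
  unfold cs404_mix
  by_cases hcc : c = c₀
  · subst hcc
    simp [hc₀]
  · simp [Finset.mem_insert, hcc]

theorem cs404_mix_cell {n : ℕ} {Ω : Type} (S : Finset (Cls n)) (c₀ : Cls n)
    (u : Cls n → Ω) (θ : Cls n → Cell n → Ω) (Y : Cell n → Ω) (q : Cls n → Cell n) (c : Cls n) :
    cs404_mix S u (Function.update θ c₀ Y) c (q c) =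
      cs404_mix S u (Function.update θ c₀ (fun _ => Y (q c₀))) c (q c) := by
  unfold cs404_mix
  by_cases hcS : c ∈ S
  · simp [hcS]
  · by_cases hcc : c = c₀
    · subst hcc
      simp [hcS]
    · simp [hcS, Function.update_of_ne hcc]

/-- The mean feature. -/
noncomputable def cs404_Psi {n : ℕ} {V : Type*} [NormedAddCommGroup V] [InnerProductSpace ℝ V]
    {Ω : Type} [Fintype Ω] (S : Finset (Cls n)) (c₀ : Cls n) (θ : Cls n → Cell n → Ω)
    (G : (Cls n → Cell n → Ω) → (Fin n → ℝ) × ℝ → (Fin n → ℝ)) (Φ : (Fin n → ℝ) → V)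
    (y : Ω) (p : (Fin n → ℝ) × ℝ) : V :=
  (Fintype.card (Cls n → Ω) : ℝ)⁻¹ • ∑ u : Cls n → Ω,
    Φ (G (cs404_mix S u (Function.update θ c₀ (fun _ => y))) p)

/-- Choice of the parameters of one class, abstract version: `G θ p` is the displaced label. -/
theorem cs404_core {n : ℕ} {V : Type*} [NormedAddCommGroup V] [InnerProductSpace ℝ V]
    [CompleteSpace V] {Ω : Type} [Fintype Ω] [Nonempty Ω] {M : ℝ} (hM : 0 ≤ M)
    {Z : (Fin n → ℝ) × ℝ → (Fin n → ℝ)} {ρ : (Fin n → ℝ) × ℝ → ℝ} (hZ : Measurable Z)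
    (hρm : Measurable ρ) (hρ0 : ∀ p, 0 ≤ ρ p) (hMB : MassBound M Z ρ) {w R h a ρ1 : ℝ}
    {G : (Cls n → Cell n → Ω) → (Fin n → ℝ) × ℝ → (Fin n → ℝ)}
    (hGm : ∀ θ, Measurable (G θ)) (hGb : ∀ θ p, ‖G θ p - Z p‖ ≤ 3 / 2 * w)
    (hGc : ∀ θ₁ θ₂ p, (∀ c, θ₁ c (cell c R (Z p) p.2) = θ₂ c (cell c R (Z p) p.2)) →
      G θ₁ p = G θ₂ p)
    (hw0 : 0 < w) (hhd : h = w / 2) (hwR : w ≤ R) (ha0 : 0 < a) (ha2 : a ^ 2 = (h⁻¹) ^ n)
    {Φ : (Fin n → ℝ) → V} (hΦ : ∀ X z, inner ℝ (Φ X) (Φ z) = tent h (X - z))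
    (hρ1 : 0 < ρ1) (hρ2 : ((h⁻¹) ^ n * (M * (2 * (2 * w)) ^ n * (2 * R))) *
      (M * (2 * R) ^ n * (2 * R)) ≤ ρ1 ^ 2)
    {N : ℕ} (hN1 : 1 ≤ N) (hN : 1 ≤ R * N) {K : ℕ} {δ η : ℝ} (hδ : 0 < δ) (hη : 0 ≤ η)
    (hη2 : 2 * ((h⁻¹) ^ n * (n * (δ / h))) ≤ η ^ 2) (hKδ : 3 * R ≤ K * δ)
    {S : Finset (Cls n)} {c₀ : Cls n} (hc₀ : c₀ ∉ S) (θ : Cls n → Cell n → Ω) :
    ∃ θ' : Cls n → Cell n → Ω, (∀ c, c ≠ c₀ → θ' c = θ c) ∧
        ∀ t ∈ Icc (0 : ℝ) 1, ∀ X : Fin n → ℝ,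
          |(∑ u : Cls n → Ω, lab ρ t (fun z => tent h (X - z)) (G (cs404_mix S u θ'))) /
              Fintype.card (Cls n → Ω) -
            (∑ u : Cls n → Ω, lab ρ t (fun z => tent h (X - z))
              (G (cs404_mix (insert c₀ S) u θ))) / Fintype.card (Cls n → Ω)| ≤
      3 ^ n * ((a * (2 * ρ1) * (8 * Real.log (2 * ((N:ℝ) + 1) *
        ((((2 * K + 1) ^ n : ℕ) : ℝ) + Fintype.card Ω) + 1)) + η * (N * (2 * ρ1))) +
        2 * (h⁻¹) ^ n * (M * (2 * (2 * w)) ^ n * (2 * R))) := by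
  have hh0 : 0 < h := by rw [hhd]; positivity
  have hR0 : 0 < R := hw0.trans_le hwR
  have hΦc := cs404_Phi_cont hΦ
  have hΦn : ∀ X, ‖Φ X‖ = a := by
    intro X
    have h1 := cs404_Phi_norm hΦ X
    rw [← ha2] at h1
    exact (pow_left_inj₀ (norm_nonneg _) ha0.le two_ne_zero).mp h1
  set Ψ : Ω → (Fin n → ℝ) × ℝ → V := cs404_Psi S c₀ θ G Φ with hΨ
  have hΨe : ∀ y p, Ψ y p = (Fintype.card (Cls n → Ω) : ℝ)⁻¹ • ∑ u : Cls n → Ω,
    Φ (G (cs404_mix S u (Function.update θ c₀ (fun _ => y))) p) := fun y p => rfl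
  have hΨm : ∀ y, StronglyMeasurable (Ψ y) := by
    intro y
    have h1 : StronglyMeasurable (fun p => ∑ u : Cls n → Ω,
        Φ (G (cs404_mix S u (Function.update θ c₀ (fun _ => y))) p)) := by
      apply Finset.stronglyMeasurable_fun_sum
      intro u _
      exact hΦc.stronglyMeasurable.comp_measurable (hGm _)
    exact h1.const_smul _
  have hcard2 : (0:ℝ) < Fintype.card (Cls n → Ω) := by exact_mod_cast Fintype.card_pos
  have hΨa : ∀ y p, ‖Ψ y p‖ ≤ a := by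
    intro y p
    rw [hΨe, norm_smul, norm_inv, Real.norm_of_nonneg hcard2.le, inv_mul_le_iff₀ hcard2]
    refine (norm_sum_le _ _).trans ?_
    refine (Finset.sum_le_sum fun u _ => (hΦn _).le).trans ?_
    simp
  have hΨ1 : ∀ (y : Ω) (p : (Fin n → ℝ) × ℝ) (v : V) (B : ℝ),
      (∀ X, |inner ℝ (Φ X) v| ≤ B) → |inner ℝ (Ψ y p) v| ≤ B := by
    intro y p v B hB
    rw [hΨe, real_inner_smul_left, sum_inner]
    exact cs404_avg fun u => hB _
  have hin : ∀ y p X, inner ℝ (Φ X) (Ψ y p) = (Fintype.card (Cls n → Ω) : ℝ)⁻¹ *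
      ∑ u : Cls n → Ω, tent h (X - G (cs404_mix S u (Function.update θ c₀ (fun _ => y))) p) := by
    intro y p X
    rw [hΨe, inner_smul_right, inner_sum]
    simp_rw [hΦ]
  have htb : ∀ z : Fin n → ℝ, |tent h z| ≤ (h⁻¹) ^ n := by
    intro z
    rw [abs_of_nonneg (cs404_tent_nonneg hh0 z)]
    exact cs404_tent_le hh0 z
  have hΨ2 : ∀ y p X, |inner ℝ (Φ X) (Ψ y p)| ≤ (h⁻¹) ^ n := by
    intro y p X
    rw [hin]
    exact cs404_avg fun u => htb _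
  have htz : ∀ (θ₁ : Cls n → Cell n → Ω) (p : (Fin n → ℝ) × ℝ) (X : Fin n → ℝ),
      2 * w < ‖Z p - X‖ → tent h (X - G θ₁ p) = 0 := by
    intro θ₁ p X hp
    apply cs404_tent_supp hh0
    have h1 := hGb θ₁ p
    have h2 : ‖Z p - X‖ ≤ ‖X - G θ₁ p‖ + ‖G θ₁ p - Z p‖ := by
      have e : Z p - X = -((X - G θ₁ p) + (G θ₁ p - Z p)) := by abel
      rw [e, norm_neg]
      exact norm_add_le _ _
    rw [hhd]
    linarith
  have hΨ3 : ∀ y p X, 2 * w < ‖Z p - X‖ → inner ℝ (Φ X) (Ψ y p) = 0 := by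
    intro y p X hp
    rw [hin, Finset.sum_eq_zero, mul_zero]
    intro u _
    exact htz _ p X hp
  have hmass : ∀ (c : Fin n → ℝ) (s a b : ℝ), 0 < s →
      cs404_mu ρ {p | ‖Z p - c‖ ≤ s ∧ p.2 ∈ Icc a b} ≤
        ENNReal.ofReal (M * (2 * s) ^ n) * ENNReal.ofReal (b - a) :=
    fun c s a b hs => cs404_mu_le hZ hρm hMB c hs a b
  obtain ⟨Y, hY⟩ := cs404_asm hM hmass hZ measurable_snd hh0 hw0 hwR ha0 ha2 hΦ hΨm hΨa hΨ1
    hΨ2 hΨ3 hρ1 hρ2 hN1 hN hδ hη hη2 hKδ c₀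
  refine ⟨Function.update θ c₀ Y, fun c hc => Function.update_of_ne hc _ _, fun t ht X => ?_⟩
  have hbound := hY t ht X
  have hAm : MeasurableSet {p : (Fin n → ℝ) × ℝ | p.2 ∈ Icc 0 t} :=
    measurable_snd measurableSet_Icc
  have hti : ∀ θ₁ : Cls n → Cell n → Ω, IntegrableOn
      (fun p : (Fin n → ℝ) × ℝ => tent h (X - G θ₁ p))
      {p | p.2 ∈ Icc 0 t} (cs404_mu ρ) := by
    intro θ₁
    refine cs404_intble hZ hmass hAm (X := X) (s := 2 * w) (α := 0) (β := t) (by positivity)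
      (fun p hp => hp) ?_ (fun p => htb _) (fun p hp => htz θ₁ p X hp)
    exact ((cs404_tent_cont (n := n) h).measurable.comp
      ((hGm θ₁).const_sub X)).aestronglyMeasurable
  have hlab : ∀ θ₁ : Cls n → Cell n → Ω, lab ρ t (fun z => tent h (X - z)) (G θ₁) =
      ∫ p in {p | p.2 ∈ Icc 0 t}, tent h (X - G θ₁ p) ∂(cs404_mu ρ) := fun θ₁ =>
    cs404_lab hρm hρ0 (φ := fun z => tent h (X - z)) ht (hti θ₁)
  have hcellpt : ∀ p, (Fintype.card (Cls n → Ω) : ℝ)⁻¹ * ∑ u : Cls n → Ω,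
      tent h (X - G (cs404_mix S u (Function.update θ c₀ Y)) p) =
      inner ℝ (Φ X) (Ψ (Y (cell c₀ R (Z p) p.2)) p) := by
    intro p
    rw [hin]
    congr 1
    apply Finset.sum_congr rfl
    intro u _
    rw [hGc _ _ p (fun c => cs404_mix_cell S c₀ u θ Y (fun c => cell c R (Z p) p.2) c)]
  have hfst : (∑ u : Cls n → Ω, lab ρ t (fun z => tent h (X - z))
      (G (cs404_mix S u (Function.update θ c₀ Y)))) / Fintype.card (Cls n → Ω) =
      ∫ p in {p | p.2 ∈ Icc 0 t}, inner ℝ (Φ X) (Ψ (Y (cell c₀ R (Z p) p.2)) p)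
        ∂(cs404_mu ρ) := by
    simp_rw [hlab]
    rw [← integral_finsetSum _ (fun u _ => hti _), div_eq_inv_mul, ← integral_const_mul]
    exact setIntegral_congr_fun hAm (fun p _ => hcellpt p)
  have hinint : ∀ y, IntegrableOn (fun p => inner ℝ (Φ X) (Ψ y p)) {p | p.2 ∈ Icc 0 t}
      (cs404_mu ρ) := by
    intro y
    have h1 : (fun p => inner ℝ (Φ X) (Ψ y p)) = fun p => (Fintype.card (Cls n → Ω) : ℝ)⁻¹ *
      ∑ u : Cls n → Ω, tent h (X - G (cs404_mix S u (Function.update θ c₀ (fun _ => y))) p) :=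
      funext fun p => hin y p X
    rw [h1]
    exact (integrable_finsetSum _ (fun u _ => hti _)).const_mul _
  have hsnd : (∑ u : Cls n → Ω, lab ρ t (fun z => tent h (X - z))
      (G (cs404_mix (insert c₀ S) u θ))) / Fintype.card (Cls n → Ω) =
      ∫ p in {p | p.2 ∈ Icc 0 t}, (Fintype.card Ω : ℝ)⁻¹ * ∑ y, inner ℝ (Φ X) (Ψ y p)
        ∂(cs404_mu ρ) := by
    have hcO : (0:ℝ) < Fintype.card Ω := by exact_mod_cast Fintype.card_pos
    rw [integral_const_mul, integral_finsetSum _ (fun y _ => hinint y)]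
    have h1 : ∀ y, ∫ p in {p | p.2 ∈ Icc 0 t}, inner ℝ (Φ X) (Ψ y p) ∂(cs404_mu ρ) =
        (Fintype.card (Cls n → Ω) : ℝ)⁻¹ * ∑ u : Cls n → Ω, ∫ p in {p | p.2 ∈ Icc 0 t},
          tent h (X - G (cs404_mix S u (Function.update θ c₀ (fun _ => y))) p)
            ∂(cs404_mu ρ) := by
      intro y
      simp_rw [hin]
      rw [integral_const_mul, integral_finsetSum _ (fun u _ => hti _)]
    simp_rw [h1]
    rw [← Finset.mul_sum, Finset.sum_comm]
    rw [← cs404_swap c₀ (fun u y => ∫ p in {p | p.2 ∈ Icc 0 t},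
          tent h (X - G (cs404_mix S u (Function.update θ c₀ (fun _ => y))) p) ∂(cs404_mu ρ))
      (fun u y y' => by simp only [cs404_mix_upd hc₀])]
    simp_rw [hlab, cs404_mix_insert hc₀]
    rw [div_eq_inv_mul]
    field_simp
  have hcellint : IntegrableOn (fun p => inner ℝ (Φ X) (Ψ (Y (cell c₀ R (Z p) p.2)) p))
      {p | p.2 ∈ Icc 0 t} (cs404_mu ρ) := by
    have h1 : IntegrableOn (fun p => (Fintype.card (Cls n → Ω) : ℝ)⁻¹ * ∑ u : Cls n → Ω,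
        tent h (X - G (cs404_mix S u (Function.update θ c₀ Y)) p))
        {p | p.2 ∈ Icc 0 t} (cs404_mu ρ) :=
      (integrable_finsetSum _ (fun u _ => hti _)).const_mul _
    exact h1.congr_fun (fun p _ => hcellpt p) hAm
  rw [hfst, hsnd, ← integral_sub hcellint
    ((integrable_finsetSum _ (fun y _ => hinint y)).const_mul _)]
  exact hbound

/-- choice of the parameters of one class -/
theorem class_step (n : ℕ) (hn : 1 ≤ n) : ∃ l₁ : ℕ, 1 ≤ l₁ ∧ ∀ l₀ : ℕ, l₁ ≤ l₀ →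
    ∃ C : ℝ, 0 < C ∧ ∀ (M : ℝ), 0 < M → ∀ (Z : (Fin n → ℝ) × ℝ → (Fin n → ℝ))
      (ρ : (Fin n → ℝ) × ℝ → ℝ), Measurable Z → Measurable ρ → (∀ p, 0 ≤ ρ p) →
      MassBound M Z ρ → ∀ (k : ℕ) (w R : ℝ), w = 1 / 2 ^ k → R = ((l₀ : ℝ) * (k + 1)) ^ 2 / 2 ^ k →
      ∀ (S : Finset (Cls n)) (c₀ : Cls n), c₀ ∉ S →
      ∀ θ : Cls n → Cell n → Par n (4 ^ (k + 1)),
      ∃ θ' : Cls n → Cell n → Par n (4 ^ (k + 1)), (∀ c, c ≠ c₀ → θ' c = θ c) ∧
        ∀ t ∈ Icc (0 : ℝ) 1, ∀ X : Fin n → ℝ,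
          |meanLab w R ρ Z S θ' X t - meanLab w R ρ Z (insert c₀ S) θ X t| ≤
            C * M * ((k : ℝ) + 1) ^ (n + 3) / 2 ^ k := by
  refine ⟨1, le_rfl, fun l₀ hl₀ => ?_⟩
  set Qn : ℕ := (2 * n + 2 * l₀ + 10) * n + 4 with hQn
  refine ⟨3 ^ n * (2 * 6 ^ n * l₀ ^ (n + 2) * (16 * (Qn : ℝ) + 1) + 4 * 8 ^ n * l₀ ^ 2), ?_, ?_⟩
  · have : (1:ℝ) ≤ l₀ := by exact_mod_cast hl₀
    positivity
  intro M hM Z ρ hZ hρm hρ0 hMB k w R hw hR S c₀ hc₀ θ
  have hl₀r : (1:ℝ) ≤ l₀ := by exact_mod_cast hl₀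
  have hk0 : (0:ℝ) ≤ k := by positivity
  have hw0 : 0 < w := by rw [hw]; positivity
  set h : ℝ := w / 2 with hhd
  have hh : h = 1 / 2 ^ (k + 1) := by
    rw [hhd, hw, pow_succ]
    field_simp
  have hw2 : w = 2 * h := by rw [hhd]; ring
  have hh0 : 0 < h := by positivity
  have hRw : R = ((l₀ : ℝ) * (k + 1)) ^ 2 * w := by
    rw [hR, hw]
    ring
  have hsq1 : 1 ≤ ((l₀ : ℝ) * (k + 1)) ^ 2 := by
    have : 1 ≤ (l₀ : ℝ) * (k + 1) := by nlinarith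
    exact one_le_pow₀ this
  have hwR : w ≤ R := by
    rw [hRw]
    nlinarith
  have hR0 : 0 < R := hw0.trans_le hwR
  have hinv : h⁻¹ = 2 ^ (k + 1) := by
    rw [hh]
    simp
  have hinv1 : 1 ≤ h⁻¹ := by
    rw [hinv]
    exact one_le_pow₀ (by norm_num)
  have hinvn : 1 ≤ (h⁻¹) ^ n := one_le_pow₀ hinv1
  set a : ℝ := √((h⁻¹) ^ n) with had
  have ha2 : a ^ 2 = (h⁻¹) ^ n := Real.sq_sqrt (by positivity)
  have ha1 : 1 ≤ a := Real.one_le_sqrt.mpr hinvn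
  have ha0 : 0 < a := by linarith
  set ρ1 : ℝ := 2 * M * R * (6 * l₀ * (k + 1)) ^ n * a⁻¹ with hρ1d
  have hρ1 : 0 < ρ1 := by positivity
  have hρ2 : ((h⁻¹) ^ n * (M * (2 * (2 * w)) ^ n * (2 * R))) *
      (M * (2 * R) ^ n * (2 * R)) ≤ ρ1 ^ 2 := by
    have e1 : ρ1 ^ 2 = (2 * M * R) ^ 2 * ((36 * ((l₀ : ℝ) * (k + 1)) ^ 2) ^ n * h ^ n) := by
      have e2 : (a⁻¹) ^ 2 = h ^ n := by
        rw [inv_pow, ha2, inv_pow, inv_inv]
      have e3 : ((6 * (l₀:ℝ) * (k + 1)) ^ n) ^ 2 = (36 * ((l₀ : ℝ) * (k + 1)) ^ 2) ^ n := by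
        rw [← pow_mul, mul_comm n 2, pow_mul]
        congr 1
        ring
      calc ρ1 ^ 2 = (2 * M * R) ^ 2 * (((6 * (l₀:ℝ) * (k + 1)) ^ n) ^ 2 * (a⁻¹) ^ 2) := by
            rw [hρ1d]; ring
        _ = _ := by rw [e2, e3]
    have e4 : ((h⁻¹) ^ n * (M * (2 * (2 * w)) ^ n * (2 * R))) * (M * (2 * R) ^ n * (2 * R)) =
        (2 * M * R) ^ 2 * ((32 * ((l₀ : ℝ) * (k + 1)) ^ 2) ^ n * h ^ n) := by
      have e5 : (h⁻¹) ^ n * (2 * (2 * w)) ^ n * (2 * R) ^ n =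
          (32 * ((l₀ : ℝ) * (k + 1)) ^ 2) ^ n * h ^ n := by
        rw [← mul_pow, ← mul_pow, ← mul_pow]
        congr 1
        rw [hRw, hw2]
        field_simp
        ring
      calc _ = (2 * M * R) ^ 2 * ((h⁻¹) ^ n * (2 * (2 * w)) ^ n * (2 * R) ^ n) := by ring
        _ = _ := by rw [e5]
    rw [e1, e4]
    gcongr
    norm_num
  set K : ℕ := 6 * n * (l₀ * (k + 1)) ^ 2 * 2 ^ ((k + 1) * (n + 3)) with hK
  have hnr : (0:ℝ) < n := by exact_mod_cast hn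
  set δ : ℝ := h ^ (n + 3) / (2 * n) with hδd
  have hδ : 0 < δ := by positivity
  have hη2 : 2 * ((h⁻¹) ^ n * (n * (δ / h))) ≤ h ^ 2 := by
    apply le_of_eq
    rw [hδd, inv_pow, pow_add h n 3]
    have : h ^ n ≠ 0 := by positivity
    field_simp
  have hKδ : 3 * R ≤ K * δ := by
    have e1 : (K:ℝ) * δ = 3 * ((l₀:ℝ) * (k + 1)) ^ 2 := by
      have e2 : (2:ℝ) ^ ((k + 1) * (n + 3)) * h ^ (n + 3) = 1 := by
        rw [pow_mul, ← hinv, ← mul_pow, inv_mul_cancel₀ hh0.ne', one_pow]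
      rw [hK, hδd]
      push_cast
      calc _ = 3 * ((l₀:ℝ) * (k + 1)) ^ 2 * (2 ^ ((k + 1) * (n + 3)) * h ^ (n + 3)) * (n / n) := by
            ring
        _ = _ := by rw [e2, div_self hnr.ne']; ring
    rw [e1, hR]
    have : ((l₀:ℝ) * (k + 1)) ^ 2 / 2 ^ k ≤ ((l₀:ℝ) * (k + 1)) ^ 2 := by
      apply div_le_self (by positivity)
      exact one_le_pow₀ (by norm_num)
    linarith
  have hN1 : 1 ≤ 2 ^ k := Nat.one_le_two_pow
  have hN : 1 ≤ R * ((2 ^ k : ℕ) : ℝ) := by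
    rw [hR]
    push_cast
    rw [div_mul_cancel₀ _ (by positivity)]
    exact hsq1
  have hne : Nonempty (Par n (4 ^ (k + 1))) := ⟨fun _ _ => ⟨0, by positivity⟩⟩
  obtain ⟨Φ, hΦ⟩ := cs404_feature n hh0
  obtain ⟨θ', h1, h2⟩ := cs404_core (Ω := Par n (4 ^ (k + 1))) (R := R)
    (G := fun θ p => Z p + field w R θ (Z p) p.2) hM.le hZ hρm hρ0 hMB
    (fun θ => cs404_fieldm w R hZ θ)
    (fun θ p => by
      rw [add_sub_cancel_left]
      exact field_bound n _ w R hw0 hR0 θ (Z p) p.2)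
    (fun θ₁ θ₂ p hc => by
      rw [cs404_field_congr hc])
    hw0 hhd hwR ha0 ha2 hΦ hρ1 hρ2 hN1 hN hδ hh0.le hη2 hKδ hc₀ θ
  refine ⟨θ', h1, fun t ht X => ?_⟩
  have h3 := h2 t ht X
  have hlog := cs404_log (n := n) (l₀ := l₀) (k := k) hn
  have hfin := cs404_num (n := n) (l₀ := l₀) (k := k) (M := M) (R := R) (h := h) (a := a)
    (Qr := (Qn : ℝ)) hM.le hR hh ha1 hlog
  rw [← hw2] at hfin
  exact h3.trans hfin

end Pool.Agent.helper312_gd
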