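import Mathlib

set_option autoImplicit false

open Set MeasureTheory

namespace Pool.Agent.helper312_gd

/-- average of `φ` over the cube of side `w` centred at `z` -/
noncomputable def avg {n : ℕ} (w : ℝ) (φ : (Fin n → ℝ) → ℝ) (z : Fin n → ℝ) : ℝ :=
  ∫ y in Icc (fun _ : Fin n => (-1/2 : ℝ)) (fun _ => (1/2 : ℝ)), φ (z + w • y)

/-- product tent kernel of scale `w`, integral one -/
noncomputable def tent {n : ℕ} (w : ℝ) (z : Fin n → ℝ) : ℝ :=
  ∏ i, (max 0 (1 - |z i| / w)) / w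

/-- cell index of parity `κ` -/
noncomputable def idx (κ : Bool) (R s : ℝ) : ℤ :=
  if κ then ⌊s / R / 2⌋ else ⌊(s / R + 1) / 2⌋

/-- centre of the cell `m` of parity `κ` -/
noncomputable def cen (κ : Bool) (R : ℝ) (m : ℤ) : ℝ :=
  if κ then (2 * m + 1) * R else 2 * m * R

/-- one-dimensional weight -/
noncomputable def wt (κ : Bool) (R s : ℝ) : ℝ :=
  max 0 (min 1 (2 - 2 * |s - cen κ R (idx κ R s)| / R))

/-- class of cells: parities of the space coordinates and of time -/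
abbrev Cls (n : ℕ) := (Fin n → Bool) × Bool

/-- cells of a class -/
abbrev Cell (n : ℕ) := (Fin n → ℤ) × ℤ

/-- finite parameter set -/
abbrev Par (n m : ℕ) := Fin 3 → Fin n → Fin m

/-- weight of the class `c` at `(z, τ)` -/
noncomputable def Wt {n : ℕ} (c : Cls n) (R : ℝ) (z : Fin n → ℝ) (τ : ℝ) : ℝ :=
  (∏ i, wt (c.1 i) R (z i)) * wt c.2 R τ

/-- cell of the class `c` containing `(z, τ)` -/
noncomputable def cell {n : ℕ} (c : Cls n) (R : ℝ) (z : Fin n → ℝ) (τ : ℝ) : Cell n :=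
  (fun i => idx (c.1 i) R (z i), idx c.2 R τ)

/-- triangle wave with values in `[-1/2, 1/2]` -/
noncomputable def P (x : ℝ) : ℝ := 2 * |x - round x| - 1 / 2

/-- the shift field with parameters `θ` -/
noncomputable def field {n m : ℕ} (w R : ℝ) (θ : Cls n → Cell n → Par n m)
    (z : Fin n → ℝ) (τ : ℝ) : Fin n → ℝ := fun j =>
  w * ∑ i : Fin 3, P (∑ c : Cls n, Wt c R z τ * (((θ c (cell c R z τ) i j : ℕ) : ℝ) / m))

/-- mass bound: at each time the measure `ρ(x,τ)dx` transported by the label map `Z` gives mass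
at most `M (2s)^n` to each closed sup-norm ball of radius `s`. -/
def MassBound {n : ℕ} (M : ℝ) (Z : (Fin n → ℝ) × ℝ → (Fin n → ℝ)) (ρ : (Fin n → ℝ) × ℝ → ℝ) :
    Prop :=
  ∀ (τ : ℝ) (c : Fin n → ℝ) (s : ℝ), 0 < s →
    ∫⁻ x in {x : Fin n → ℝ | ‖Z (x, τ) - c‖ ≤ s}, ENNReal.ofReal (ρ (x, τ)) ≤
      ENNReal.ofReal (M * (2 * s) ^ n)

/-- integral over times in `[0,t]` and over space of `φ (label)` against `ρ` -/
noncomputable def lab {n : ℕ} (ρ : (Fin n → ℝ) × ℝ → ℝ) (t : ℝ) (φ : (Fin n → ℝ) → ℝ)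
    (Z : (Fin n → ℝ) × ℝ → (Fin n → ℝ)) : ℝ :=
  ∫ τ in (0 : ℝ)..t, ∫ x, φ (Z (x, τ)) * ρ (x, τ)

end Pool.Agent.helper312_gd
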