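import Pool.Agent.helper312_gd.Field

set_option autoImplicit false

open Set MeasureTheory

namespace Pool.Agent.helper312_gd


theorem g2b_P_periodic : Function.Periodic P 1 := by
  intro x
  unfold P
  rw [round_add_one]
  push_cast
  ring_nf

theorem g2b_P_lip (x y : ℝ) : |P x - P y| ≤ 2 * |x - y| := by
  have key : ∀ x y : ℝ, |x - round x| - |y - round y| ≤ |x - y| := by
    intro x y
    have h1 : |x - round x| ≤ |x - round y| := round_le x (round y)
    have h2 : |x - round y| ≤ |x - y| + |y - round y| := abs_sub_le x y (round y)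
    linarith
  unfold P
  rw [abs_le]
  have h1 := key x y
  have h2 := key y x
  rw [abs_sub_comm y x] at h2
  constructor <;> linarith

theorem g2b_P_cont : Continuous P := by
  have : LipschitzWith 2 P := by
    refine LipschitzWith.of_dist_le_mul fun x y => ?_
    rw [Real.dist_eq, Real.dist_eq]
    exact g2b_P_lip x y
  exact this.continuous

theorem g2b_P_left {x : ℝ} (h0 : 0 ≤ x) (h1 : x ≤ 1 / 2) : P x = 2 * x - 1 / 2 := by
  unfold P
  rw [abs_sub_round_eq_min, Int.fract_eq_self.2 ⟨h0, by linarith⟩, min_eq_left (by linarith)]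

theorem g2b_P_right {x : ℝ} (h0 : 1 / 2 ≤ x) (h1 : x ≤ 1) : P x = 3 / 2 - 2 * x := by
  have e : P x = P (1 - x) := by
    unfold P
    congr 2
    have a1 := round_le x (1 - round (1 - x))
    have a2 := round_le (1 - x) (1 - round x)
    push_cast at a1 a2
    have e1 : x - (1 - (round (1 - x) : ℝ)) = -((1 - x) - round (1 - x)) := by ring
    have e2 : (1 - x) - (1 - (round x : ℝ)) = -(x - round x) := by ring
    rw [e1, abs_neg] at a1
    rw [e2, abs_neg] at a2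
    exact le_antisymm a1 a2
  rw [e, g2b_P_left (by linarith) (by linarith)]
  ring

theorem g2b_int0 (h : ℝ → ℝ) (hc : Continuous h) :
    ∫ θ in (0:ℝ)..1, h (P θ) = ∫ y in (-1/2 : ℝ)..(1/2), h y := by
  have hcP : Continuous fun θ => h (P θ) := hc.comp g2b_P_cont
  rw [← intervalIntegral.integral_add_adjacent_intervals (b := 1/2)
    (hcP.intervalIntegrable _ _) (hcP.intervalIntegrable _ _)]
  have e1 : ∫ θ in (0:ℝ)..(1/2), h (P θ) = ∫ θ in (0:ℝ)..(1/2), h (2 * θ - 1/2) := by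
    refine intervalIntegral.integral_congr fun θ hθ => ?_
    rw [uIcc_of_le (by norm_num)] at hθ
    rw [g2b_P_left hθ.1 hθ.2]
  have e2 : ∫ θ in (1/2:ℝ)..1, h (P θ) = ∫ θ in (1/2:ℝ)..1, h (3/2 - 2 * θ) := by
    refine intervalIntegral.integral_congr fun θ hθ => ?_
    rw [uIcc_of_le (by norm_num)] at hθ
    rw [g2b_P_right hθ.1 hθ.2]
  rw [e1, e2, intervalIntegral.integral_comp_mul_sub (fun x => h x) (by norm_num),
    intervalIntegral.integral_comp_sub_mul (fun x => h x) (by norm_num)]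
  norm_num
  ring

theorem g2b_int (h : ℝ → ℝ) (hc : Continuous h) (a : ℝ) :
    ∫ θ in (0:ℝ)..1, h (P (a + θ)) = ∫ y in (-1/2 : ℝ)..(1/2), h y := by
  rw [← g2b_int0 h hc]
  have hper : Function.Periodic (fun θ => h (P θ)) 1 := fun x => by
    simp only [g2b_P_periodic x]
  have e := hper.intervalIntegral_add_eq a 0
  rw [zero_add] at e
  rw [← e]
  rw [intervalIntegral.integral_comp_add_left (fun θ => h (P θ)) a]
  simp

theorem g2b_one {m : ℕ} (hm : 1 ≤ m) {K : ℝ} (hK : 0 ≤ K) {h : ℝ → ℝ}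
    (hh : ∀ x y, |h x - h y| ≤ K * |x - y|) (a : ℝ) :
    |(∑ j : Fin m, h (P (a + ((j : ℕ) : ℝ) / m))) / m - ∫ y in (-1/2:ℝ)..(1/2), h y|
      ≤ 2 * K / m := by
  have hm0 : (0:ℝ) < m := by exact_mod_cast hm
  have hhc : Continuous h := by
    have : LipschitzWith ⟨K, hK⟩ h := by
      refine LipschitzWith.of_dist_le_mul fun x y => ?_
      rw [Real.dist_eq, Real.dist_eq]
      exact hh x y
    exact this.continuous
  have hF : Continuous fun θ => h (P (a + θ)) :=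
    hhc.comp (g2b_P_cont.comp (continuous_const.add continuous_id))
  rw [← g2b_int h hhc a]
  have hsum : ∫ θ in (0:ℝ)..1, h (P (a + θ)) =
      ∑ j ∈ Finset.range m, ∫ θ in ((j:ℕ):ℝ)/m..((j + 1 : ℕ):ℝ)/m, h (P (a + θ)) := by
    rw [intervalIntegral.sum_integral_adjacent_intervals (a := fun j : ℕ => (j:ℝ)/m)
      (fun k _ => hF.intervalIntegrable _ _)]
    congr 1
    · simp
    · field_simp
  rw [hsum, Finset.sum_range, Finset.sum_div, ← Finset.sum_sub_distrib]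
  have hterm : ∀ j : Fin m, |h (P (a + ((j : ℕ) : ℝ) / m)) / m -
      ∫ θ in ((j:ℕ):ℝ)/m..((j + 1 : ℕ):ℝ)/m, h (P (a + θ))| ≤ 2 * K / m / m := by
    intro j
    have hlen : (((j:ℕ) + 1 : ℕ):ℝ)/m - ((j:ℕ):ℝ)/m = 1 / m := by push_cast; ring
    have e1 : h (P (a + ((j : ℕ) : ℝ) / m)) / m =
        ∫ θ in ((j:ℕ):ℝ)/m..(((j:ℕ) + 1 : ℕ):ℝ)/m, h (P (a + ((j : ℕ) : ℝ) / m)) := by
      rw [intervalIntegral.integral_const, hlen, smul_eq_mul]; ring
    rw [e1, ← intervalIntegral.integral_sub (by simp) (hF.intervalIntegrable _ _)]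
    have hle : ((j:ℕ):ℝ)/m ≤ (((j:ℕ) + 1 : ℕ):ℝ)/m := by
      have : (0:ℝ) ≤ 1 / m := by positivity
      linarith
    have hb := intervalIntegral.norm_integral_le_of_norm_le_const (a := ((j:ℕ):ℝ)/m)
      (b := (((j:ℕ) + 1 : ℕ):ℝ)/m) (C := 2 * K / m)
      (f := fun θ => h (P (a + ((j : ℕ) : ℝ) / m)) - h (P (a + θ))) (by
        intro θ hθ
        rw [uIoc_of_le hle] at hθ
        rw [Real.norm_eq_abs]
        have k1 := hh (P (a + ((j : ℕ) : ℝ) / m)) (P (a + θ))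
        have k2 := g2b_P_lip (a + ((j : ℕ) : ℝ) / m) (a + θ)
        have k3 : |a + ((j : ℕ) : ℝ) / m - (a + θ)| ≤ 1 / m := by
          rw [abs_le]
          constructor
          · linarith [hθ.2]
          · have : (0:ℝ) ≤ 1 / m := by positivity
            linarith [hθ.1]
        calc |h (P (a + ((j : ℕ) : ℝ) / m)) - h (P (a + θ))|
            ≤ K * |P (a + ((j : ℕ) : ℝ) / m) - P (a + θ)| := k1
          _ ≤ K * (2 * (1 / m)) := by
              apply mul_le_mul_of_nonneg_left _ hK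
              linarith
          _ = 2 * K / m := by ring)
    rw [hlen, abs_of_pos (by positivity : (0:ℝ) < 1 / m), Real.norm_eq_abs] at hb
    calc _ ≤ 2 * K / m * (1 / m) := hb
      _ = 2 * K / m / m := by ring
  calc _ ≤ ∑ j : Fin m, |h (P (a + ((j : ℕ) : ℝ) / m)) / m -
      ∫ θ in ((j:ℕ):ℝ)/m..((j + 1 : ℕ):ℝ)/m, h (P (a + θ))| := Finset.abs_sum_le_sum_abs _ _
    _ ≤ ∑ _j : Fin m, 2 * K / m / m := Finset.sum_le_sum fun j _ => hterm j
    _ = 2 * K / m := by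
        rw [Finset.sum_const, Finset.card_univ, Fintype.card_fin, nsmul_eq_mul]
        field_simp


/-- the uniform law of the cube -/
noncomputable def g2b_Q (n : ℕ) : Measure (Fin n → ℝ) :=
  Measure.pi fun _ => (volume : Measure ℝ).restrict (Icc (-1/2) (1/2))

theorem g2b_Q_eq (n : ℕ) : (volume : Measure (Fin n → ℝ)).restrict
    (Icc (fun _ : Fin n => (-1/2 : ℝ)) (fun _ => (1/2 : ℝ))) = g2b_Q n := by
  unfold g2b_Q
  rw [← Measure.restrict_pi_pi, Set.pi_univ_Icc, ← volume_pi]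

theorem g2b_Q_prob (n : ℕ) : IsProbabilityMeasure (g2b_Q n) := by
  have : IsProbabilityMeasure ((volume : Measure ℝ).restrict (Icc (-1/2) (1/2))) := by
    refine ⟨?_⟩
    rw [Measure.restrict_apply_univ, Real.volume_Icc]
    norm_num
  unfold g2b_Q
  infer_instance

theorem g2b_integrable {n : ℕ} {g : (Fin n → ℝ) → ℝ} (hg : Continuous g) :
    Integrable g (g2b_Q n) := by
  rw [← g2b_Q_eq]
  exact hg.continuousOn.integrableOn_compact isCompact_Icc

theorem g2b_fubini {n : ℕ} {g : (Fin (n+1) → ℝ) → ℝ} (hg : Continuous g) :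
    ∫ y, g y ∂(g2b_Q (n+1)) =
      ∫ x in (-1/2:ℝ)..(1/2), ∫ y, g (Fin.cons x y) ∂(g2b_Q n) := by
  have hmp := measurePreserving_piFinSuccAbove
    (fun _ : Fin (n+1) => (volume : Measure ℝ).restrict (Icc (-1/2) (1/2))) 0
  have hmp' := hmp.symm
  have e1 : ∫ y, g y ∂(g2b_Q (n+1)) = ∫ p, g ((MeasurableEquiv.piFinSuccAbove (fun _ => ℝ) 0).symm p)
      ∂((((volume : Measure ℝ).restrict (Icc (-1/2) (1/2)))).prod (g2b_Q n)) :=
    (hmp'.integral_comp' g).symm
  have hint : Integrable (fun p => g ((MeasurableEquiv.piFinSuccAbove (fun _ : Fin (n+1) => ℝ) 0).symm p))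
      ((((volume : Measure ℝ).restrict (Icc (-1/2) (1/2)))).prod (g2b_Q n)) :=
    (hmp'.integrable_comp_emb (MeasurableEquiv.measurableEmbedding _)).2 (g2b_integrable hg)
  have := g2b_Q_prob n
  have hs : ∀ (t : ℝ) (y : Fin n → ℝ),
      (MeasurableEquiv.piFinSuccAbove (fun _ : Fin (n+1) => ℝ) 0).symm (t, y) =
        (Fin.cons t y : Fin (n+1) → ℝ) := by
    intro t y
    have h0 : (MeasurableEquiv.piFinSuccAbove (fun _ : Fin (n+1) => ℝ) 0).symm (t, y) =
      Fin.insertNth (α := fun _ => ℝ) 0 t y := rfl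
    rw [h0, Fin.insertNth_zero']
  rw [e1, integral_prod _ hint, intervalIntegral.integral_of_le (by norm_num),
    integral_Icc_eq_integral_Ioc]
  simp only [hs]

theorem g2b_lip_cont {n : ℕ} {K : ℝ} (hK : 0 ≤ K) {g : (Fin n → ℝ) → ℝ}
    (hg : ∀ x y, |g x - g y| ≤ K * ‖x - y‖) : Continuous g := by
  have : LipschitzWith ⟨K, hK⟩ g := by
    refine LipschitzWith.of_dist_le_mul fun x y => ?_
    rw [Real.dist_eq, dist_eq_norm]
    exact hg x y
  exact this.continuous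

theorem g2b_sum_cons {V : Type*} [Fintype V] {N : ℕ} (G : (Fin (N+1) → V) → ℝ) :
    ∑ v, G v = ∑ x : V, ∑ v' : Fin N → V, G (Fin.cons x v') := by
  rw [← (Fin.consEquiv (fun _ => V)).sum_comp, Fintype.sum_prod_type]
  rfl

theorem g2b_cons_norm {n : ℕ} (x x' : ℝ) (y : Fin n → ℝ) :
    ‖(Fin.cons x y : Fin (n+1) → ℝ) - Fin.cons x' y‖ ≤ |x - x'| := by
  rw [pi_norm_le_iff_of_nonneg (abs_nonneg _)]
  intro i
  refine Fin.cases ?_ (fun j => ?_) i
  · simp
  · simp

theorem g2b_cons_norm' {n : ℕ} (x : ℝ) (y y' : Fin n → ℝ) :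
    ‖(Fin.cons x y : Fin (n+1) → ℝ) - Fin.cons x y'‖ ≤ ‖y - y'‖ := by
  rw [pi_norm_le_iff_of_nonneg (norm_nonneg _)]
  intro i
  refine Fin.cases ?_ (fun j => ?_) i
  · simp
  · simpa using norm_le_pi_norm (y - y') j

/-- one layer -/
theorem g2b_layer {m : ℕ} (hm : 1 ≤ m) {K : ℝ} (hK : 0 ≤ K) : ∀ (n : ℕ) (g : (Fin n → ℝ) → ℝ),
    (∀ x y, |g x - g y| ≤ K * ‖x - y‖) → ∀ a : Fin n → ℝ,
    |(∑ v : Fin n → Fin m, g (fun j => P (a j + ((v j : ℕ) : ℝ) / m))) / (m:ℝ)^n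
      - ∫ y, g y ∂(g2b_Q n)| ≤ n * (2 * K / m) := by
  have hm0 : (0:ℝ) < m := by exact_mod_cast hm
  intro n
  induction n with
  | zero =>
    intro g hg a
    have := g2b_Q_prob 0
    have e : ∀ y : Fin 0 → ℝ, g y = g default := fun y => by rw [Subsingleton.elim y default]
    simp only [e]
    simp
  | succ n ih =>
    intro g hg a
    have hgc : Continuous g := g2b_lip_cont hK hg
    have := g2b_Q_prob n
    rw [g2b_fubini hgc, g2b_sum_cons]
    have hcont : ∀ x : ℝ, Continuous fun y : Fin n → ℝ => g (Fin.cons x y) := fun x =>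
      g2b_lip_cont hK (fun y y' => (hg _ _).trans
        (mul_le_mul_of_nonneg_left (g2b_cons_norm' x y y') hK))
    set H : ℝ → ℝ := fun x => ∫ y, g (Fin.cons x y) ∂(g2b_Q n) with hH
    have hHlip : ∀ x x', |H x - H x'| ≤ K * |x - x'| := by
      intro x x'
      rw [hH]
      simp only
      rw [← integral_sub (g2b_integrable (hcont x)) (g2b_integrable (hcont x'))]
      have := norm_integral_le_of_norm_le_const (μ := g2b_Q n) (C := K * |x - x'|)
        (f := fun y => g (Fin.cons x y) - g (Fin.cons x' y))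
        (Filter.Eventually.of_forall fun y => by
          rw [Real.norm_eq_abs]
          exact (hg _ _).trans (mul_le_mul_of_nonneg_left (g2b_cons_norm x x' y) hK))
      simpa using this
    have h1 := g2b_one hm hK hHlip (a 0)
    have h2 : ∀ x : ℝ, |(∑ v : Fin n → Fin m,
        g (Fin.cons x (fun j => P (a j.succ + ((v j : ℕ) : ℝ) / m)))) / (m:ℝ)^n - H x| ≤
          n * (2 * K / m) := by
      intro x
      exact ih (fun y => g (Fin.cons x y)) (fun y y' => (hg _ _).trans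
        (mul_le_mul_of_nonneg_left (g2b_cons_norm' x y y') hK)) (fun j => a j.succ)
    have e1 : ∀ (x : Fin m) (v' : Fin n → Fin m),
        (fun j => P (a j + (((Fin.cons x v' : Fin (n+1) → Fin m) j : ℕ) : ℝ) / m)) =
        (Fin.cons (P (a 0 + ((x : ℕ) : ℝ) / m)) (fun j => P (a j.succ + ((v' j : ℕ) : ℝ) / m)) :
          Fin (n+1) → ℝ) := by
      intro x v'
      funext j
      refine Fin.cases ?_ (fun j => ?_) j
      · simp
      · simp
    simp only [e1]
    have e2 : (∑ x : Fin m, ∑ v' : Fin n → Fin m, g (Fin.cons (P (a 0 + ((x : ℕ) : ℝ) / m))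
        (fun j => P (a j.succ + ((v' j : ℕ) : ℝ) / m)))) / (m:ℝ)^(n+1) =
        (∑ x : Fin m, (∑ v' : Fin n → Fin m, g (Fin.cons (P (a 0 + ((x : ℕ) : ℝ) / m))
        (fun j => P (a j.succ + ((v' j : ℕ) : ℝ) / m)))) / (m:ℝ)^n) / m := by
      rw [← Finset.sum_div, div_div, pow_succ]
    rw [e2]
    have h3 : |(∑ x : Fin m, (∑ v' : Fin n → Fin m, g (Fin.cons (P (a 0 + ((x : ℕ) : ℝ) / m))
        (fun j => P (a j.succ + ((v' j : ℕ) : ℝ) / m)))) / (m:ℝ)^n) / m -
        (∑ x : Fin m, H (P (a 0 + ((x : ℕ) : ℝ) / m))) / m| ≤ n * (2 * K / m) := by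
      rw [← sub_div, ← Finset.sum_sub_distrib, abs_div, abs_of_pos hm0, div_le_iff₀ hm0]
      calc _ ≤ ∑ x : Fin m, _ := Finset.abs_sum_le_sum_abs _ _
        _ ≤ ∑ _x : Fin m, n * (2 * K / m) := Finset.sum_le_sum fun x _ => h2 _
        _ = n * (2 * K / m) * m := by
          rw [Finset.sum_const, Finset.card_univ, Fintype.card_fin, nsmul_eq_mul]; ring
    have h4 := abs_sub_le ((∑ x : Fin m, (∑ v' : Fin n → Fin m, g (Fin.cons (P (a 0 + ((x : ℕ) : ℝ) / m))
        (fun j => P (a j.succ + ((v' j : ℕ) : ℝ) / m)))) / (m:ℝ)^n) / m)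
        ((∑ x : Fin m, H (P (a 0 + ((x : ℕ) : ℝ) / m))) / m) (∫ x in (-1/2:ℝ)..(1/2), H x)
    push_cast
    linarith


theorem g2b_avg_eq {n : ℕ} (w : ℝ) (φ : (Fin n → ℝ) → ℝ) (z : Fin n → ℝ) :
    avg w φ z = ∫ y, φ (z + w • y) ∂(g2b_Q n) := by
  unfold avg
  rw [g2b_Q_eq]

theorem g2b_avg_lip {n : ℕ} (w : ℝ) {K : ℝ} (hK : 0 ≤ K) {φ : (Fin n → ℝ) → ℝ}
    (hφ : ∀ x y, |φ x - φ y| ≤ K * ‖x - y‖) (x y : Fin n → ℝ) :
    |avg w φ x - avg w φ y| ≤ K * ‖x - y‖ := by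
  have := g2b_Q_prob n
  have hc : ∀ z : Fin n → ℝ, Continuous fun u : Fin n → ℝ => φ (z + w • u) := fun z =>
    (g2b_lip_cont hK hφ).comp (continuous_const.add (continuous_id.const_smul w))
  rw [g2b_avg_eq, g2b_avg_eq, ← integral_sub (g2b_integrable (hc x)) (g2b_integrable (hc y))]
  have := norm_integral_le_of_norm_le_const (μ := g2b_Q n) (C := K * ‖x - y‖)
    (f := fun u => φ (x + w • u) - φ (y + w • u))
    (Filter.Eventually.of_forall fun u => by
      rw [Real.norm_eq_abs]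
      refine (hφ _ _).trans (le_of_eq ?_)
      congr 2
      abel)
  simpa using this

/-- discrete averaging operator -/
noncomputable def g2bD {n m : ℕ} (w : ℝ) (a : Fin n → ℝ) (φ : (Fin n → ℝ) → ℝ)
    (z : Fin n → ℝ) : ℝ :=
  (∑ v : Fin n → Fin m, φ (z + w • fun j => P (a j + ((v j : ℕ) : ℝ) / m))) / (m:ℝ)^n

theorem g2b_D_layer {n m : ℕ} (hm : 1 ≤ m) {w : ℝ} (hw : 0 < w) {K : ℝ} (hK : 0 ≤ K)
    {φ : (Fin n → ℝ) → ℝ} (hφ : ∀ x y, |φ x - φ y| ≤ K * ‖x - y‖) (a z : Fin n → ℝ) :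
    |g2bD (m := m) w a φ z - avg w φ z| ≤ n * (2 * (K * w) / m) := by
  rw [g2b_avg_eq]
  unfold g2bD
  refine g2b_layer hm (by positivity) n (fun y => φ (z + w • y)) (fun x y => ?_) a
  refine (hφ _ _).trans (le_of_eq ?_)
  have : z + w • x - (z + w • y) = w • (x - y) := by
    rw [smul_sub]; abel
  rw [this, norm_smul, Real.norm_eq_abs, abs_of_pos hw]; ring

theorem g2b_D_contr {n m : ℕ} (hm : 1 ≤ m) (w : ℝ) {δ : ℝ}
    {φ ψ : (Fin n → ℝ) → ℝ} (h : ∀ x, |φ x - ψ x| ≤ δ) (a z : Fin n → ℝ) :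
    |g2bD (m := m) w a φ z - g2bD (m := m) w a ψ z| ≤ δ := by
  have hm0 : (0:ℝ) < m := by exact_mod_cast hm
  unfold g2bD
  rw [← sub_div, ← Finset.sum_sub_distrib, abs_div, abs_of_pos (by positivity : (0:ℝ) < (m:ℝ)^n),
    div_le_iff₀ (by positivity)]
  calc _ ≤ ∑ v : Fin n → Fin m, _ := Finset.abs_sum_le_sum_abs _ _
    _ ≤ ∑ _v : Fin n → Fin m, δ := Finset.sum_le_sum fun v _ => h _
    _ = δ * (m:ℝ)^n := by
      rw [Finset.sum_const, Finset.card_univ, nsmul_eq_mul]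
      simp
      ring

theorem g2b_D3 {n m : ℕ} (hm : 1 ≤ m) {w : ℝ} (hw : 0 < w) {K : ℝ} (hK : 0 ≤ K)
    {φ : (Fin n → ℝ) → ℝ} (hφ : ∀ x y, |φ x - φ y| ≤ K * ‖x - y‖) (a : Fin 3 → Fin n → ℝ)
    (z : Fin n → ℝ) :
    |g2bD (m := m) w (a 0) (g2bD (m := m) w (a 1) (g2bD (m := m) w (a 2) φ)) z -
      avg w (avg w (avg w φ)) z| ≤ 3 * (n * (2 * (K * w) / m)) := by
  have h1 : ∀ z, |g2bD (m := m) w (a 2) φ z - avg w φ z| ≤ n * (2 * (K * w) / m) :=
    fun z => g2b_D_layer hm hw hK hφ _ _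
  have hA := g2b_avg_lip w hK hφ
  have hAA := g2b_avg_lip w hK hA
  have h2 : ∀ z, |g2bD (m := m) w (a 1) (g2bD (m := m) w (a 2) φ) z - avg w (avg w φ) z| ≤
      2 * (n * (2 * (K * w) / m)) := by
    intro z
    have e1 := g2b_D_contr hm w h1 (a 1) z
    have e2 := g2b_D_layer hm hw hK hA (a 1) z
    have e3 := abs_sub_le (g2bD (m := m) w (a 1) (g2bD (m := m) w (a 2) φ) z)
      (g2bD (m := m) w (a 1) (avg w φ) z) (avg w (avg w φ) z)
    linarith
  have e1 := g2b_D_contr hm w h2 (a 0) z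
  have e2 := g2b_D_layer hm hw hK hAA (a 0) z
  have e3 := abs_sub_le (g2bD (m := m) w (a 0) (g2bD (m := m) w (a 1) (g2bD (m := m) w (a 2) φ)) z)
    (g2bD (m := m) w (a 0) (avg w (avg w φ)) z) (avg w (avg w (avg w φ)) z)
  linarith

theorem g2b_sum3 {n m : ℕ} (hm : 1 ≤ m) (w : ℝ) (φ : (Fin n → ℝ) → ℝ) (a : Fin 3 → Fin n → ℝ)
    (z : Fin n → ℝ) :
    ∑ p : Par n m, φ (z + fun j => w * ∑ i : Fin 3, P (a i j + ((p i j : ℕ) : ℝ) / m)) =
      ((m:ℝ)^n)^3 *
        g2bD (m := m) w (a 0) (g2bD (m := m) w (a 1) (g2bD (m := m) w (a 2) φ)) z := by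
  have hm0 : (0:ℝ) < m := by exact_mod_cast hm
  have hmn : (m:ℝ)^n ≠ 0 := by positivity
  rw [g2b_sum_cons]
  simp_rw [g2b_sum_cons (V := Fin n → Fin m)]
  have e : ∀ (v0 v1 v2 : Fin n → Fin m) (v : Fin 0 → Fin n → Fin m),
      (z + fun j => w * ∑ i : Fin 3, P (a i j +
        ((((Fin.cons v0 (Fin.cons v1 (Fin.cons v2 v : Fin 1 → Fin n → Fin m) :
          Fin 2 → Fin n → Fin m) : Fin 3 → Fin n → Fin m) i j : ℕ) : ℝ)) / m)) =
      z + (w • fun j => P (a 0 j + ((v0 j : ℕ) : ℝ) / m)) +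
        (w • fun j => P (a 1 j + ((v1 j : ℕ) : ℝ) / m)) +
        (w • fun j => P (a 2 j + ((v2 j : ℕ) : ℝ) / m)) := by
    intro v0 v1 v2 v
    funext j
    simp only [Fin.sum_univ_three, Pi.add_apply, Pi.smul_apply, smul_eq_mul]
    have c0 : (Fin.cons v0 (Fin.cons v1 (Fin.cons v2 v : Fin 1 → Fin n → Fin m) :
          Fin 2 → Fin n → Fin m) : Fin 3 → Fin n → Fin m) 0 = v0 := rfl
    have c1 : (Fin.cons v0 (Fin.cons v1 (Fin.cons v2 v : Fin 1 → Fin n → Fin m) :
          Fin 2 → Fin n → Fin m) : Fin 3 → Fin n → Fin m) 1 = v1 := rfl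
    have c2 : (Fin.cons v0 (Fin.cons v1 (Fin.cons v2 v : Fin 1 → Fin n → Fin m) :
          Fin 2 → Fin n → Fin m) : Fin 3 → Fin n → Fin m) 2 = v2 := rfl
    rw [c0, c1, c2]
    ring
  simp_rw [e]
  unfold g2bD
  simp_rw [← Finset.sum_div]
  simp only [Finset.sum_const, Finset.card_univ]
  simp only [Fintype.card_unique, one_smul]
  have gen : ∀ S M : ℝ, M ≠ 0 → S = M^3 * (S / M / M / M) := by
    intro S M hM
    field_simp
  exact gen _ _ hmn

theorem field_mean (n : ℕ) : ∃ C : ℝ, 0 < C ∧ ∀ (m : ℕ), 1 ≤ m → ∀ (w R : ℝ), 0 < w → 0 < R →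
    ∀ (K : ℝ) (φ : (Fin n → ℝ) → ℝ), 0 ≤ K → (∀ x y, |φ x - φ y| ≤ K * ‖x - y‖) →
    ∀ (z : Fin n → ℝ) (τ : ℝ),
      |(∑ u : Cls n → Par n m, φ (z + field w R (fun c _ => u c) z τ))
          / Fintype.card (Cls n → Par n m)
        - avg w (avg w (avg w φ)) z| ≤ C * K * w / m := by
  refine ⟨6 * n + 1, by positivity, ?_⟩
  intro m hm w R hw hR K φ hK hφ z τ
  have hm0 : (0:ℝ) < m := by exact_mod_cast hm
  obtain ⟨c₀, hc₀⟩ := exists_Wt_eq_one n R hR z τ
  have : Nonempty (Fin m) := ⟨⟨0, hm⟩⟩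
  set L := avg w (avg w (avg w φ)) z with hL
  set ε : ℝ := 3 * (n * (2 * (K * w) / m)) with hε
  have hcard0 : (0:ℝ) < (Fintype.card (Cls n → Par n m) : ℝ) := by
    exact_mod_cast Fintype.card_pos
  let e := Equiv.funSplitAt c₀ (Par n m)
  have hfield : ∀ (p : Par n m) (r : {c // c ≠ c₀} → Par n m),
      field w R (fun c _ => e.symm (p, r) c) z τ = fun j => w * ∑ i : Fin 3,
        P ((∑ c : {c // c ≠ c₀}, Wt c.1 R z τ * (((r c i j : ℕ) : ℝ) / m)) +
          ((p i j : ℕ) : ℝ) / m) := by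
    intro p r
    funext j
    unfold field
    congr 1
    refine Finset.sum_congr rfl fun i _ => ?_
    congr 1
    have h1 : ∀ c : {c // c ≠ c₀}, e.symm (p, r) c.1 = r c := by
      intro c
      simp [e, Equiv.funSplitAt, Equiv.piSplitAt, c.2]
    have h2 : e.symm (p, r) c₀ = p := by
      simp [e, Equiv.funSplitAt, Equiv.piSplitAt]
    rw [Fintype.sum_eq_add_sum_subtype_ne _ c₀]
    simp only [h1, h2, hc₀, one_mul]
    rw [add_comm]
  have hinner : ∀ r : {c // c ≠ c₀} → Par n m,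
      |∑ p : Par n m, (φ (z + field w R (fun c _ => e.symm (p, r) c) z τ) - L)| ≤
        Fintype.card (Par n m) * ε := by
    intro r
    have hcard : ((Fintype.card (Par n m) : ℕ) : ℝ) = ((m:ℝ)^n)^3 := by
      simp [Par]
    obtain ⟨A, hA⟩ : ∃ A : Fin 3 → Fin n → ℝ, A = fun i j =>
      ∑ c : {c // c ≠ c₀}, Wt c.1 R z τ * (((r c i j : ℕ) : ℝ) / m) := ⟨_, rfl⟩
    have hf2 : ∀ p : Par n m, φ (z + field w R (fun c _ => e.symm (p, r) c) z τ) =
        φ (z + fun j => w * ∑ i : Fin 3, P (A i j + ((p i j : ℕ) : ℝ) / m)) := by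
      intro p
      rw [hfield p r, hA]
    have hs : ∑ p : Par n m, (φ (z + field w R (fun c _ => e.symm (p, r) c) z τ) - L) =
        ((m:ℝ)^n)^3 * (g2bD (m := m) w (A 0) (g2bD (m := m) w (A 1)
          (g2bD (m := m) w (A 2) φ)) z - L) := by
      rw [Finset.sum_sub_distrib, Finset.sum_const, Finset.card_univ, nsmul_eq_mul, hcard,
        Finset.sum_congr rfl (fun p _ => hf2 p), g2b_sum3 hm w φ A z, mul_sub]
    rw [hs, hcard, abs_mul, abs_of_pos (by positivity : (0:ℝ) < ((m:ℝ)^n)^3)]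
    exact mul_le_mul_of_nonneg_left (g2b_D3 hm hw hK hφ A z) (by positivity)
  have htot : |∑ u : Cls n → Par n m, (φ (z + field w R (fun c _ => u c) z τ) - L)| ≤
      Fintype.card (Cls n → Par n m) * ε := by
    rw [← e.symm.sum_comp, Fintype.sum_prod_type_right]
    calc _ ≤ ∑ r : {c // c ≠ c₀} → Par n m,
          |∑ p : Par n m, (φ (z + field w R (fun c _ => e.symm (p, r) c) z τ) - L)| :=
          Finset.abs_sum_le_sum_abs _ _
      _ ≤ ∑ _r : {c // c ≠ c₀} → Par n m, (Fintype.card (Par n m) : ℝ) * ε :=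
          Finset.sum_le_sum fun r _ => hinner r
      _ = Fintype.card (Cls n → Par n m) * ε := by
          rw [Finset.sum_const, Finset.card_univ, nsmul_eq_mul, Fintype.card_congr e,
            Fintype.card_prod]
          push_cast
          ring
  rw [Finset.sum_sub_distrib, Finset.sum_const, Finset.card_univ, nsmul_eq_mul] at htot
  have hdiv : (∑ u : Cls n → Par n m, φ (z + field w R (fun c _ => u c) z τ))
      / Fintype.card (Cls n → Par n m) - L =
      (∑ u : Cls n → Par n m, φ (z + field w R (fun c _ => u c) z τ) -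
        Fintype.card (Cls n → Par n m) * L) / Fintype.card (Cls n → Par n m) := by
    field_simp
  rw [hdiv, abs_div, abs_of_pos hcard0, div_le_iff₀ hcard0]
  refine htot.trans ?_
  have : ε ≤ (6 * n + 1) * K * w / m := by
    rw [hε, le_div_iff₀ hm0]
    have : 3 * (n * (2 * (K * w) / m)) * m = 6 * n * K * w := by field_simp; ring
    rw [this]
    nlinarith [mul_nonneg hK hw.le]
  nlinarith [hcard0]

end Pool.Agent.helper312_gd
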