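import Pool.Agent.helper312_gd.Defs

set_option autoImplicit false

open Set MeasureTheory

namespace Pool.Agent.helper312_gd


/-- images of sets under 2-Lipschitz maps -/
theorem inc603_image_le {n : ℕ} (f : (Fin n → ℝ) → (Fin n → ℝ)) (hf : ∀ x x', ‖f x - f x'‖ ≤ 2 * ‖x - x'‖)
    (A : Set (Fin n → ℝ)) : volume (f '' A) ≤ 2 ^ n * volume A := by
  have hL : LipschitzWith 2 f := by
    apply LipschitzWith.of_dist_le_mul
    intro x y
    rw [dist_eq_norm, dist_eq_norm]
    exact hf x y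
  have h := hL.hausdorffMeasure_image_le (d := (Fintype.card (Fin n) : ℝ)) (Nat.cast_nonneg _) A
  rw [hausdorffMeasure_pi_real, Fintype.card_fin, ENNReal.rpow_natCast] at h
  exact_mod_cast h

/-- A 2-bi-Lipschitz bijection as a homeomorphism -/
noncomputable def inc603_homeo {n : ℕ} (f g : (Fin n → ℝ) → (Fin n → ℝ))
    (hgf : ∀ x, g (f x) = x) (hfg : ∀ z, f (g z) = z)
    (hf : ∀ x x', ‖f x - f x'‖ ≤ 2 * ‖x - x'‖) (hf' : ∀ x x', ‖x - x'‖ ≤ 2 * ‖f x - f x'‖) :
    (Fin n → ℝ) ≃ₜ (Fin n → ℝ) where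
  toFun := f
  invFun := g
  left_inv := hgf
  right_inv := hfg
  continuous_toFun := by
    have hL : LipschitzWith 2 f := by
      apply LipschitzWith.of_dist_le_mul
      intro x y
      rw [dist_eq_norm, dist_eq_norm]
      exact hf x y
    exact hL.continuous
  continuous_invFun := by
    have hL : LipschitzWith 2 g := by
      apply LipschitzWith.of_dist_le_mul
      intro x y
      rw [dist_eq_norm, dist_eq_norm]
      have h := hf' (g x) (g y)
      rw [hfg, hfg] at h
      exact h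
    exact hL.continuous

/-- comparison of the integral of `φ ∘ f` with the integral of `φ` -/
theorem inc603_compare {n : ℕ} (f g : (Fin n → ℝ) → (Fin n → ℝ))
    (hgf : ∀ x, g (f x) = x) (hfg : ∀ z, f (g z) = z)
    (hf : ∀ x x', ‖f x - f x'‖ ≤ 2 * ‖x - x'‖) (hf' : ∀ x x', ‖x - x'‖ ≤ 2 * ‖f x - f x'‖)
    (φ : (Fin n → ℝ) → ℝ) (hφ : Continuous φ) (hφs : HasCompactSupport φ) (hφ0 : ∀ z, 0 ≤ φ z) :
    (∫ z, φ z) ≤ 2 ^ n * ∫ x, φ (f x) ∧ (∫ x, φ (f x)) ≤ 2 ^ n * ∫ z, φ z := by
  set F := inc603_homeo f g hgf hfg hf hf' with hF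
  have hFf : ∀ x, F x = f x := fun x => rfl
  have hmeas : Measurable f := F.continuous.measurable
  have hemb : MeasurableEmbedding f := F.measurableEmbedding
  set ν : Measure (Fin n → ℝ) := Measure.map f volume with hν
  have hφi : Integrable φ volume := hφ.integrable_of_hasCompactSupport hφs
  have hφfi : Integrable (fun x => φ (f x)) volume := by
    have h1 : Continuous (fun x => φ (f x)) := hφ.comp F.continuous
    have h2 : HasCompactSupport (φ ∘ F) := hφs.comp_homeomorph F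
    exact h1.integrable_of_hasCompactSupport h2
  have hmap : ∫ z, φ z ∂ν = ∫ x, φ (f x) := hemb.integral_map φ
  have hνi : Integrable φ ν := (hemb.integrable_map_iff).2 hφfi
  have hle1 : ν ≤ (2 : ENNReal) ^ n • (volume : Measure (Fin n → ℝ)) := by
    rw [Measure.le_iff]
    intro A hA
    rw [hν, Measure.map_apply hmeas hA, Measure.smul_apply, smul_eq_mul]
    have h1 : f ⁻¹' A = g '' A := by
      ext x
      constructor
      · intro hx
        exact ⟨f x, hx, hgf x⟩
      · rintro ⟨y, hy, rfl⟩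
        rw [mem_preimage, hfg]
        exact hy
    rw [h1]
    apply inc603_image_le
    intro x y
    have h := hf' (g x) (g y)
    rw [hfg, hfg] at h
    exact h
  have hle2 : (volume : Measure (Fin n → ℝ)) ≤ (2 : ENNReal) ^ n • ν := by
    rw [Measure.le_iff]
    intro A hA
    rw [Measure.smul_apply, smul_eq_mul, hν, Measure.map_apply hmeas hA]
    have h1 : A = f '' (f ⁻¹' A) := by
      ext z
      constructor
      · intro hz
        refine ⟨g z, ?_, hfg z⟩
        rw [mem_preimage, hfg]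
        exact hz
      · rintro ⟨y, hy, rfl⟩
        exact hy
    calc volume A = volume (f '' (f ⁻¹' A)) := by rw [← h1]
      _ ≤ _ := inc603_image_le f hf _
  have htr : ((2 : ENNReal) ^ n).toReal = 2 ^ n := by
    rw [ENNReal.toReal_pow]
    norm_num
  have hfin : (2 : ENNReal) ^ n ≠ ⊤ := ENNReal.pow_ne_top (by norm_num)
  constructor
  · have h := integral_mono_measure hle2 (Filter.Eventually.of_forall hφ0) (hνi.smul_measure hfin)
    rw [integral_smul_measure, htr, smul_eq_mul, hmap] at h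
    exact h
  · have h := integral_mono_measure hle1 (Filter.Eventually.of_forall hφ0) (hφi.smul_measure hfin)
    rw [integral_smul_measure, htr, smul_eq_mul, hmap] at h
    exact h

/-- comparison with the density -/
theorem inc603_density {n : ℕ} {a b : ℝ} (ha : 0 < a) (f g : (Fin n → ℝ) → (Fin n → ℝ))
    (hgf : ∀ x, g (f x) = x) (hfg : ∀ z, f (g z) = z)
    (hf : ∀ x x', ‖f x - f x'‖ ≤ 2 * ‖x - x'‖) (hf' : ∀ x x', ‖x - x'‖ ≤ 2 * ‖f x - f x'‖)
    (r : (Fin n → ℝ) → ℝ) (hrm : Measurable r) (hr : ∀ x, a ≤ r x ∧ r x ≤ b)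
    (φ : (Fin n → ℝ) → ℝ) (hφ : Continuous φ) (hφs : HasCompactSupport φ) (hφ0 : ∀ z, 0 ≤ φ z) :
    (a / 2 ^ n * ∫ z, φ z) ≤ ∫ x, φ (f x) * r x ∧ (∫ x, φ (f x) * r x) ≤ b * 2 ^ n * ∫ z, φ z := by
  set F := inc603_homeo f g hgf hfg hf hf' with hF
  obtain ⟨h1, h2⟩ := inc603_compare f g hgf hfg hf hf' φ hφ hφs hφ0
  have hφfi : Integrable (fun x => φ (f x)) volume := by
    have h1 : Continuous (fun x => φ (f x)) := hφ.comp F.continuous
    have h2 : HasCompactSupport (φ ∘ F) := hφs.comp_homeomorph F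
    exact h1.integrable_of_hasCompactSupport h2
  have hb0 : 0 ≤ b := by
    have := hr 0
    linarith [this.1, this.2]
  have hint : Integrable (fun x => φ (f x) * r x) volume := by
    refine hφfi.mul_bdd (c := b) hrm.aestronglyMeasurable ?_
    refine Filter.Eventually.of_forall fun x => ?_
    rw [Real.norm_of_nonneg (ha.le.trans (hr x).1)]
    exact (hr x).2
  have h2n : (0 : ℝ) < 2 ^ n := by positivity
  constructor
  · have h3 : ∫ x, φ (f x) * a ≤ ∫ x, φ (f x) * r x := by
      apply integral_mono (hφfi.mul_const a) hint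
      intro x
      exact mul_le_mul_of_nonneg_left (hr x).1 (hφ0 _)
    rw [integral_mul_const] at h3
    have h4 : a / 2 ^ n * ∫ z, φ z ≤ a / 2 ^ n * (2 ^ n * ∫ x, φ (f x)) :=
      mul_le_mul_of_nonneg_left h1 (by positivity)
    have h5 : a / 2 ^ n * (2 ^ n * ∫ x, φ (f x)) = (∫ x, φ (f x)) * a := by
      field_simp
    rw [h5] at h4
    exact h4.trans h3
  · have h3 : ∫ x, φ (f x) * r x ≤ ∫ x, φ (f x) * b := by
      apply integral_mono hint (hφfi.mul_const b)
      intro x
      exact mul_le_mul_of_nonneg_left (hr x).2 (hφ0 _)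
    rw [integral_mul_const] at h3
    have h4 : (∫ x, φ (f x)) * b ≤ (2 ^ n * ∫ z, φ z) * b := mul_le_mul_of_nonneg_right h2 hb0
    calc (∫ x, φ (f x) * r x) ≤ (∫ x, φ (f x)) * b := h3
      _ ≤ (2 ^ n * ∫ z, φ z) * b := h4
      _ = b * 2 ^ n * ∫ z, φ z := by ring

/-- a continuous function with nonnegative integrals against nonnegative test functions -/
theorem inc603_nonneg {n : ℕ} (D : (Fin n → ℝ) → ℝ) (hD : Continuous D)
    (h : ∀ φ : (Fin n → ℝ) → ℝ, Continuous φ → HasCompactSupport φ → (∀ z, 0 ≤ φ z) →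
      0 ≤ ∫ z, φ z * D z) (z : Fin n → ℝ) : 0 ≤ D z := by
  by_contra hcon
  push Not at hcon
  have hev : ∀ᶠ y in nhds z, D y < 0 := hD.continuousAt.eventually_lt continuousAt_const hcon
  rw [Metric.eventually_nhds_iff] at hev
  obtain ⟨r, hr, hball⟩ := hev
  set φ : (Fin n → ℝ) → ℝ := fun y => max 0 (r - dist y z) with hφ
  have hφc : Continuous φ := by
    apply continuous_const.max
    exact continuous_const.sub (continuous_id.dist continuous_const)
  have hφs : HasCompactSupport φ := by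
    apply HasCompactSupport.intro (isCompact_closedBall z r)
    intro y hy
    rw [Metric.mem_closedBall, not_le] at hy
    exact max_eq_left (by linarith)
  have hφ0 : ∀ y, 0 ≤ φ y := fun y => le_max_left _ _
  have h1 := h φ hφc hφs hφ0
  have hneg : ∀ y, 0 ≤ -(φ y * D y) := by
    intro y
    by_cases hy : dist y z < r
    · have := hball hy
      nlinarith [hφ0 y]
    · have : φ y = 0 := max_eq_left (by linarith)
      rw [this]
      simp
  have hpos : 0 < ∫ y, -(φ y * D y) := by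
    apply Continuous.integral_pos_of_hasCompactSupport_nonneg_nonzero (x := z)
    · exact (hφc.mul hD).neg
    · have := hφs.mul_right (f' := D)
      exact this.neg
    · exact hneg
    · have e : φ z = r := by
        change max 0 (r - dist z z) = r
        rw [dist_self, sub_zero]
        exact max_eq_right hr.le
      rw [e]
      have : r * D z < 0 := mul_neg_of_pos_of_neg hr hcon
      linarith
  rw [integral_neg] at hpos
  linarith

theorem inc603_tendsto (C' : ℝ) (q : ℕ) :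
    Filter.Tendsto (fun k : ℕ => C' * ((k : ℝ) + 1) ^ q / 2 ^ k) Filter.atTop (nhds 0) := by
  have h1 : Filter.Tendsto (fun k : ℕ => (k : ℝ) ^ q * (1 / 2 : ℝ) ^ k) Filter.atTop (nhds 0) :=
    tendsto_pow_const_mul_const_pow_of_lt_one q (by norm_num) (by norm_num)
  have h2 := (h1.comp (Filter.tendsto_add_atTop_nat 1)).const_mul (2 * C')
  rw [mul_zero] at h2
  refine h2.congr ?_
  intro k
  simp only [Function.comp]
  push_cast
  rw [pow_succ, one_div, inv_pow]
  field_simp

/-- continuity from the modulus -/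
theorem inc603_cont {n : ℕ} (C' : ℝ) (q : ℕ) (h : (Fin n → ℝ) → ℝ)
    (hh : ∀ (X X' : Fin n → ℝ) (k : ℕ), ‖X - X'‖ ≤ 1 / 2 ^ k →
      |h X - h X'| ≤ C' * ((k : ℝ) + 1) ^ q / 2 ^ k) : Continuous h := by
  rw [Metric.continuous_iff]
  intro x ε hε
  have h1 := (inc603_tendsto C' q).eventually (gt_mem_nhds hε)
  obtain ⟨k, hk⟩ := h1.exists
  refine ⟨1 / 2 ^ k, by positivity, ?_⟩
  intro y hy
  rw [dist_eq_norm] at hy
  rw [Real.dist_eq]
  exact (hh y x k hy.le).trans_lt hk

theorem increments (n q : ℕ) (a b C' : ℝ) (ha : 0 < a)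
    (ρ : (Fin n → ℝ) × ℝ → ℝ) (hρm : Measurable ρ) (hρ : ∀ p, a ≤ ρ p ∧ ρ p ≤ b)
    (X Y : (Fin n → ℝ) → ℝ → (Fin n → ℝ))
    (hXm : Measurable (fun p : (Fin n → ℝ) × ℝ => X p.1 p.2))
    (hYX : ∀ x τ, Y (X x τ) τ = x) (hXY : ∀ z τ, X (Y z τ) τ = z)
    (hX : ∀ x x' τ, ‖X x τ - X x' τ‖ ≤ 2 * ‖x - x'‖)
    (hX' : ∀ x x' τ, ‖x - x'‖ ≤ 2 * ‖X x τ - X x' τ‖)
    (H : (Fin n → ℝ) → ℝ → ℝ)
    (hH : ∀ t ∈ Icc (0 : ℝ) 1, ∀ (X X' : Fin n → ℝ) (k : ℕ), ‖X - X'‖ ≤ 1 / 2 ^ k →
        |H X t - H X' t| ≤ C' * ((k : ℝ) + 1) ^ q / 2 ^ k)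
    (hmass : ∀ t ∈ Icc (0 : ℝ) 1, ∀ φ : (Fin n → ℝ) → ℝ, Continuous φ → HasCompactSupport φ →
        lab ρ t φ (fun p => X p.1 p.2) = ∫ z, φ z * H z t) :
    (∀ z, H z 0 = 0) ∧
    ∀ s ∈ Icc (0 : ℝ) 1, ∀ t ∈ Icc (0 : ℝ) 1, s ≤ t → ∀ z,
      a / 2 ^ n * (t - s) ≤ H z t - H z s ∧ H z t - H z s ≤ b * 2 ^ n * (t - s) := by
  have hHc : ∀ t ∈ Icc (0 : ℝ) 1, Continuous (fun z => H z t) := fun t ht =>
    inc603_cont C' q _ (hH t ht)
  have hb0 : 0 ≤ b := by
    have := hρ 0
    linarith [this.1, this.2]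
  -- the inner integral
  have hdens : ∀ φ : (Fin n → ℝ) → ℝ, Continuous φ → HasCompactSupport φ → (∀ z, 0 ≤ φ z) → ∀ τ,
      (a / 2 ^ n * ∫ z, φ z) ≤ ∫ x, φ (X x τ) * ρ (x, τ) ∧
        (∫ x, φ (X x τ) * ρ (x, τ)) ≤ b * 2 ^ n * ∫ z, φ z := by
    intro φ hφ hφs hφ0 τ
    exact inc603_density ha (fun x => X x τ) (fun z => Y z τ) (fun x => hYX x τ) (fun z => hXY z τ)
      (fun x x' => hX x x' τ) (fun x x' => hX' x x' τ) (fun x => ρ (x, τ))
      (hρm.comp (measurable_id.prodMk measurable_const)) (fun x => hρ (x, τ)) φ hφ hφs hφ0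
  have hII : ∀ φ : (Fin n → ℝ) → ℝ, Continuous φ → HasCompactSupport φ → (∀ z, 0 ≤ φ z) →
      ∀ u v : ℝ, IntervalIntegrable (fun τ => ∫ x, φ (X x τ) * ρ (x, τ)) volume u v := by
    intro φ hφ hφs hφ0 u v
    have hm : StronglyMeasurable (fun τ => ∫ x, φ (X x τ) * ρ (x, τ)) := by
      have h1 : StronglyMeasurable (fun p : (Fin n → ℝ) × ℝ => φ (X p.1 p.2) * ρ p) :=
        ((hφ.measurable.comp hXm).mul hρm).stronglyMeasurable
      exact h1.integral_prod_left'
    rw [intervalIntegrable_iff]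
    refine Measure.integrableOn_of_bounded (M := b * 2 ^ n * ∫ z, φ z) ?_ hm.aestronglyMeasurable ?_
    · exact (measure_lt_top_of_subset uIoc_subset_uIcc
        (isCompact_uIcc.measure_lt_top.ne)).ne
    · refine Filter.Eventually.of_forall fun τ => ?_
      obtain ⟨h1, h2⟩ := hdens φ hφ hφs hφ0 τ
      have h3 : 0 ≤ ∫ z, φ z := integral_nonneg hφ0
      have h4 : 0 ≤ a / 2 ^ n * ∫ z, φ z := by positivity
      rw [Real.norm_of_nonneg (h4.trans h1)]
      exact h2
  have h0mem : (0 : ℝ) ∈ Icc (0 : ℝ) 1 := ⟨le_rfl, zero_le_one⟩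
  -- the values at time zero
  have hlab0 : ∀ φ : (Fin n → ℝ) → ℝ, lab ρ 0 φ (fun p => X p.1 p.2) = 0 := by
    intro φ
    unfold lab
    exact intervalIntegral.integral_same
  have hzero : ∀ z, H z 0 = 0 := by
    intro z
    apply le_antisymm
    · have h1 := inc603_nonneg (fun z => -H z 0) (hHc 0 h0mem).neg (fun φ hφ hφs hφ0 => by
        have h2 := hmass 0 h0mem φ hφ hφs
        rw [hlab0] at h2
        have h3 : (fun z => φ z * -H z 0) = fun z => -(φ z * H z 0) := by
          funext z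
          ring
        rw [h3, integral_neg, ← h2, neg_zero]) z
      linarith
    · exact inc603_nonneg (fun z => H z 0) (hHc 0 h0mem) (fun φ hφ hφs hφ0 => by
        have h2 := hmass 0 h0mem φ hφ hφs
        rw [hlab0] at h2
        rw [← h2]) z
  refine ⟨hzero, ?_⟩
  intro s hs t ht hst z
  -- the increment against test functions
  have hinc : ∀ φ : (Fin n → ℝ) → ℝ, Continuous φ → HasCompactSupport φ → (∀ z, 0 ≤ φ z) →
      (a / 2 ^ n * (t - s)) * (∫ z, φ z) ≤ (∫ z, φ z * H z t) - (∫ z, φ z * H z s) ∧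
      (∫ z, φ z * H z t) - (∫ z, φ z * H z s) ≤ (b * 2 ^ n * (t - s)) * (∫ z, φ z) := by
    intro φ hφ hφs hφ0
    rw [← hmass t ht φ hφ hφs, ← hmass s hs φ hφ hφs]
    unfold lab
    have e := intervalIntegral.integral_interval_sub_left (hII φ hφ hφs hφ0 0 t)
      (hII φ hφ hφs hφ0 0 s)
    change _ ≤ (∫ τ in (0 : ℝ)..t, ∫ x, φ (X x τ) * ρ (x, τ)) -
      (∫ τ in (0 : ℝ)..s, ∫ x, φ (X x τ) * ρ (x, τ)) ∧
      (∫ τ in (0 : ℝ)..t, ∫ x, φ (X x τ) * ρ (x, τ)) -
      (∫ τ in (0 : ℝ)..s, ∫ x, φ (X x τ) * ρ (x, τ)) ≤ _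
    rw [e]
    constructor
    · have h1 := intervalIntegral.integral_mono_on hst
        (intervalIntegrable_const (c := a / 2 ^ n * ∫ z, φ z)) (hII φ hφ hφs hφ0 s t)
        (fun τ _ => (hdens φ hφ hφs hφ0 τ).1)
      rw [intervalIntegral.integral_const, smul_eq_mul] at h1
      calc (a / 2 ^ n * (t - s)) * (∫ z, φ z) = (t - s) * (a / 2 ^ n * ∫ z, φ z) := by ring
        _ ≤ _ := h1
    · have h1 := intervalIntegral.integral_mono_on hst (hII φ hφ hφs hφ0 s t)
        (intervalIntegrable_const (c := b * 2 ^ n * ∫ z, φ z))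
        (fun τ _ => (hdens φ hφ hφs hφ0 τ).2)
      rw [intervalIntegral.integral_const, smul_eq_mul] at h1
      calc _ ≤ (t - s) * (b * 2 ^ n * ∫ z, φ z) := h1
        _ = _ := by ring
  have hti : ∀ φ : (Fin n → ℝ) → ℝ, Continuous φ → HasCompactSupport φ → ∀ g : (Fin n → ℝ) → ℝ,
      Continuous g → Integrable (fun z => φ z * g z) volume := by
    intro φ hφ hφs g hg
    exact (hφ.mul hg).integrable_of_hasCompactSupport hφs.mul_right
  constructor
  · have h1 := inc603_nonneg (fun z => H z t - H z s - a / 2 ^ n * (t - s))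
      (((hHc t ht).sub (hHc s hs)).sub continuous_const) (fun φ hφ hφs hφ0 => by
        have h2 := (hinc φ hφ hφs hφ0).1
        have h3 : (∫ z, φ z * (H z t - H z s - a / 2 ^ n * (t - s))) =
            (∫ z, φ z * H z t) - (∫ z, φ z * H z s) - (a / 2 ^ n * (t - s)) * (∫ z, φ z) := by
          have i1 := hti φ hφ hφs _ (hHc t ht)
          have i2 := hti φ hφ hφs _ (hHc s hs)
          have i3 : Integrable (fun z => (a / 2 ^ n * (t - s)) * φ z) volume :=
            (hφ.integrable_of_hasCompactSupport hφs).const_mul _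
          have i4 : Integrable (fun z => φ z * H z t - φ z * H z s) volume := i1.sub i2
          rw [← integral_sub i1 i2, ← integral_const_mul, ← integral_sub i4 i3]
          congr 1
          funext z
          ring
        rw [h3]
        linarith) z
    linarith
  · have h1 := inc603_nonneg (fun z => b * 2 ^ n * (t - s) - (H z t - H z s))
      (continuous_const.sub ((hHc t ht).sub (hHc s hs))) (fun φ hφ hφs hφ0 => by
        have h2 := (hinc φ hφ hφs hφ0).2
        have h3 : (∫ z, φ z * (b * 2 ^ n * (t - s) - (H z t - H z s))) =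
            (b * 2 ^ n * (t - s)) * (∫ z, φ z) - ((∫ z, φ z * H z t) - (∫ z, φ z * H z s)) := by
          have i1 := hti φ hφ hφs _ (hHc t ht)
          have i2 := hti φ hφ hφs _ (hHc s hs)
          have i3 : Integrable (fun z => (b * 2 ^ n * (t - s)) * φ z) volume :=
            (hφ.integrable_of_hasCompactSupport hφs).const_mul _
          have i4 : Integrable (fun z => φ z * H z t - φ z * H z s) volume := i1.sub i2
          rw [← integral_sub i1 i2, ← integral_const_mul, ← integral_sub i3 i4]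
          congr 1
          funext z
          ring
        rw [h3]
        linarith) z
    linarith

end Pool.Agent.helper312_gd
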