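import Pool.Agent.helper312_gd.Defs

set_option autoImplicit false

open Set MeasureTheory

namespace Pool.Agent.helper312_gd


theorem g5a_up (n : ℕ) (v : ℕ → (Fin n → ℝ) → ℝ → (Fin n → ℝ))
    (hl : ∀ k z z' τ τ', ‖v k z τ - v k z' τ'‖ ≤
      1 / 16 / ((k : ℝ) + 1) ^ 2 * (‖z - z'‖ + |τ - τ'|))
    (Xs : ℕ → (Fin n → ℝ) → ℝ → (Fin n → ℝ)) (h0 : ∀ x τ, Xs 0 x τ = x)
    (hs : ∀ k x τ, Xs (k + 1) x τ = Xs k x τ + v k (Xs k x τ) τ) (k : ℕ)
    (x x' : Fin n → ℝ) (τ τ' : ℝ) :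
    ‖Xs k x τ - Xs k x' τ'‖ ≤ (2 - 1 / ((k : ℝ) + 1)) * (‖x - x'‖ + |τ - τ'|) := by
  induction k with
  | zero =>
    rw [h0, h0]
    have := abs_nonneg (τ - τ')
    norm_num
  | succ k ih =>
    have hk : (0 : ℝ) < (k : ℝ) + 1 := by positivity
    set δ : ℝ := ‖x - x'‖ + |τ - τ'| with hδ
    have hδ0 : 0 ≤ δ := by positivity
    have hτ : |τ - τ'| ≤ δ := by
      rw [hδ]
      have := norm_nonneg (x - x')
      linarith
    set η : ℝ := 1 / 16 / ((k : ℝ) + 1) ^ 2 with hη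
    have hη0 : 0 ≤ η := by positivity
    have h1 : ‖Xs (k + 1) x τ - Xs (k + 1) x' τ'‖ ≤ ‖Xs k x τ - Xs k x' τ'‖ +
        ‖v k (Xs k x τ) τ - v k (Xs k x' τ') τ'‖ := by
      rw [hs, hs]
      have : Xs k x τ + v k (Xs k x τ) τ - (Xs k x' τ' + v k (Xs k x' τ') τ') =
          (Xs k x τ - Xs k x' τ') + (v k (Xs k x τ) τ - v k (Xs k x' τ') τ') := by abel
      rw [this]
      exact norm_add_le _ _
    have h2 := hl k (Xs k x τ) (Xs k x' τ') τ τ'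
    rw [← hη] at h2
    have h3 : ‖v k (Xs k x τ) τ - v k (Xs k x' τ') τ'‖ ≤
        η * ((2 - 1 / ((k : ℝ) + 1)) * δ + δ) :=
      h2.trans (mul_le_mul_of_nonneg_left (add_le_add ih hτ) hη0)
    have h4 : (1 : ℝ) / (k + 1) - 1 / ((k + 1 : ℕ) + 1) - η * (3 - 1 / (k + 1)) ≥ 0 := by
      have h5 : (1 : ℝ) / (k + 1) - 1 / ((k + 1 : ℕ) + 1) - η * (3 - 1 / (k + 1)) =
          (16 * (k + 1) ^ 2 - (3 * (k + 1) - 1) * (k + 2)) / (16 * (k + 1) ^ 3 * (k + 2)) := by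
        rw [hη]
        push_cast
        have h6 : (k : ℝ) + 1 + 1 ≠ 0 := by positivity
        have h7 : (k : ℝ) + 2 ≠ 0 := by positivity
        field_simp
        ring
      rw [h5]
      refine div_nonneg ?_ (by positivity)
      have hk0 : (0 : ℝ) ≤ k := Nat.cast_nonneg k
      nlinarith
    have h8 := mul_nonneg h4 hδ0
    nlinarith

theorem g5a_low (n : ℕ) (v : ℕ → (Fin n → ℝ) → ℝ → (Fin n → ℝ))
    (hl : ∀ k z z' τ τ', ‖v k z τ - v k z' τ'‖ ≤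
      1 / 16 / ((k : ℝ) + 1) ^ 2 * (‖z - z'‖ + |τ - τ'|))
    (Xs : ℕ → (Fin n → ℝ) → ℝ → (Fin n → ℝ)) (h0 : ∀ x τ, Xs 0 x τ = x)
    (hs : ∀ k x τ, Xs (k + 1) x τ = Xs k x τ + v k (Xs k x τ) τ) (k : ℕ)
    (x x' : Fin n → ℝ) (τ : ℝ) :
    (1 / 2 + 1 / (2 * ((k : ℝ) + 1))) * ‖x - x'‖ ≤ ‖Xs k x τ - Xs k x' τ‖ := by
  induction k with
  | zero =>
    rw [h0, h0]
    norm_num
  | succ k ih =>
    have hk : (0 : ℝ) < (k : ℝ) + 1 := by positivity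
    set δ : ℝ := ‖x - x'‖ with hδ
    have hδ0 : 0 ≤ δ := norm_nonneg _
    set η : ℝ := 1 / 16 / ((k : ℝ) + 1) ^ 2 with hη
    have hη0 : 0 ≤ η := by positivity
    have hη1 : η ≤ 1 := by
      rw [hη, div_div, div_le_one (by positivity)]
      nlinarith [sq_nonneg (k : ℝ), (Nat.cast_nonneg k : (0 : ℝ) ≤ k)]
    set D : ℝ := ‖Xs k x τ - Xs k x' τ‖ with hD
    have h2 := hl k (Xs k x τ) (Xs k x' τ) τ τ
    rw [← hη, sub_self, abs_zero, add_zero, ← hD] at h2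
    have h1 : D - ‖v k (Xs k x τ) τ - v k (Xs k x' τ) τ‖ ≤ ‖Xs (k + 1) x τ - Xs (k + 1) x' τ‖ := by
      rw [hs, hs]
      have : Xs k x τ + v k (Xs k x τ) τ - (Xs k x' τ + v k (Xs k x' τ) τ) =
          (Xs k x τ - Xs k x' τ) + (v k (Xs k x τ) τ - v k (Xs k x' τ) τ) := by abel
      rw [this]
      have h3 := norm_sub_norm_le (Xs k x τ - Xs k x' τ)
        (-(v k (Xs k x τ) τ - v k (Xs k x' τ) τ))
      rwa [norm_neg, sub_neg_eq_add] at h3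
    have h4 : (1 - η) * D ≤ ‖Xs (k + 1) x τ - Xs (k + 1) x' τ‖ := by linarith
    refine le_trans ?_ h4
    have h5 : (1 - η) * ((1 / 2 + 1 / (2 * ((k : ℝ) + 1))) * δ) ≤ (1 - η) * D :=
      mul_le_mul_of_nonneg_left ih (by linarith)
    refine le_trans ?_ h5
    have h6 : 0 ≤ (1 - η) * (1 / 2 + 1 / (2 * ((k : ℝ) + 1))) -
        (1 / 2 + 1 / (2 * (((k + 1 : ℕ) : ℝ) + 1))) := by
      have h7 : (1 - η) * (1 / 2 + 1 / (2 * ((k : ℝ) + 1))) -
          (1 / 2 + 1 / (2 * (((k + 1 : ℕ) : ℝ) + 1))) =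
          (16 * (k + 1) ^ 2 - (k + 2) ^ 2) / (32 * (k + 1) ^ 3 * (k + 2)) := by
        rw [hη]
        push_cast
        have h6 : (k : ℝ) + 1 + 1 ≠ 0 := by positivity
        have h7 : (k : ℝ) + 2 ≠ 0 := by positivity
        field_simp
        ring
      rw [h7]
      refine div_nonneg ?_ (by positivity)
      have hk0 : (0 : ℝ) ≤ k := Nat.cast_nonneg k
      nlinarith
    have h8 := mul_nonneg h6 hδ0
    nlinarith

theorem g5a_two {n : ℕ} {A B : Fin n → ℝ} {c : ℝ} (hc : 0 ≤ c)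
    (h : (1 / 2 + c) * ‖A‖ ≤ ‖B‖) : ‖A‖ ≤ 2 * ‖B‖ := by
  have h1 := mul_nonneg hc (norm_nonneg A)
  nlinarith

theorem g5a_surj_step (n : ℕ) (v : (Fin n → ℝ) → (Fin n → ℝ))
    (hv : ∀ z z', ‖v z - v z'‖ ≤ 1 / 2 * ‖z - z'‖) (z : Fin n → ℝ) :
    ∃ y, y + v y = z := by
  have hc : ContractingWith (1 / 2 : NNReal) (fun y : Fin n → ℝ => z - v y) := by
    refine ⟨?_, ?_⟩
    · rw [← NNReal.coe_lt_coe]
      push_cast
      norm_num
    · refine LipschitzWith.of_dist_le_mul fun y y' => ?_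
      rw [dist_eq_norm, dist_eq_norm]
      have h1 : z - v y - (z - v y') = -(v y - v y') := by abel
      rw [h1, norm_neg]
      have h2 := hv y y'
      push_cast
      exact h2
  refine ⟨ContractingWith.fixedPoint _ hc, ?_⟩
  have h := hc.fixedPoint_isFixedPt
  set y := ContractingWith.fixedPoint _ hc with hy
  have h1 : z - v y = y := h
  calc y + v y = (z - v y) + v y := by rw [h1]
    _ = z := by abel

theorem g5a_surj (n : ℕ) (v : ℕ → (Fin n → ℝ) → ℝ → (Fin n → ℝ))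
    (hl : ∀ k z z' τ τ', ‖v k z τ - v k z' τ'‖ ≤
      1 / 16 / ((k : ℝ) + 1) ^ 2 * (‖z - z'‖ + |τ - τ'|))
    (Xs : ℕ → (Fin n → ℝ) → ℝ → (Fin n → ℝ)) (h0 : ∀ x τ, Xs 0 x τ = x)
    (hs : ∀ k x τ, Xs (k + 1) x τ = Xs k x τ + v k (Xs k x τ) τ) (k : ℕ) (τ : ℝ) :
    ∀ z : Fin n → ℝ, ∃ x, Xs k x τ = z := by
  induction k with
  | zero =>
    intro z
    exact ⟨z, h0 z τ⟩
  | succ k ih =>
    intro z
    have hv : ∀ z z', ‖v k z τ - v k z' τ‖ ≤ 1 / 2 * ‖z - z'‖ := by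
      intro z z'
      have h1 := hl k z z' τ τ
      rw [sub_self, abs_zero, add_zero] at h1
      refine h1.trans (mul_le_mul_of_nonneg_right ?_ (norm_nonneg _))
      rw [div_div, div_le_div_iff₀ (by positivity) (by norm_num)]
      nlinarith [sq_nonneg (k : ℝ), (Nat.cast_nonneg k : (0 : ℝ) ≤ k)]
    obtain ⟨y, hy⟩ := g5a_surj_step n (fun z => v k z τ) hv z
    obtain ⟨x, hx⟩ := ih y
    refine ⟨x, ?_⟩
    rw [hs, hx]
    exact hy

theorem labels (n : ℕ) (v : ℕ → (Fin n → ℝ) → ℝ → (Fin n → ℝ))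
    (hb : ∀ k z τ, ‖v k z τ‖ ≤ 3 / 2 / 2 ^ k)
    (hl : ∀ k z z' τ τ', ‖v k z τ - v k z' τ'‖ ≤
      1 / 16 / ((k : ℝ) + 1) ^ 2 * (‖z - z'‖ + |τ - τ'|))
    (Xs : ℕ → (Fin n → ℝ) → ℝ → (Fin n → ℝ)) (h0 : ∀ x τ, Xs 0 x τ = x)
    (hs : ∀ k x τ, Xs (k + 1) x τ = Xs k x τ + v k (Xs k x τ) τ) :
    (∀ k x x' τ τ', ‖Xs k x τ - Xs k x' τ'‖ ≤ 2 * (‖x - x'‖ + |τ - τ'|)) ∧
    (∀ k x x' τ, ‖x - x'‖ ≤ 2 * ‖Xs k x τ - Xs k x' τ‖) ∧
    ∃ X Y : (Fin n → ℝ) → ℝ → (Fin n → ℝ),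
      (∀ k x τ, ‖X x τ - Xs k x τ‖ ≤ 3 / 2 ^ k) ∧
      (∀ x τ, Y (X x τ) τ = x) ∧ (∀ z τ, X (Y z τ) τ = z) ∧
      (∀ x x' τ τ', ‖X x τ - X x' τ'‖ ≤ 2 * (‖x - x'‖ + |τ - τ'|)) ∧
      (∀ x x' τ, ‖x - x'‖ ≤ 2 * ‖X x τ - X x' τ‖) ∧
      (∀ z z' τ τ', ‖Y z τ - Y z' τ'‖ ≤ 4 * (‖z - z'‖ + |τ - τ'|)) := by
  have hup : ∀ k x x' τ τ', ‖Xs k x τ - Xs k x' τ'‖ ≤ 2 * (‖x - x'‖ + |τ - τ'|) := by
    intro k x x' τ τ'
    refine (g5a_up n v hl Xs h0 hs k x x' τ τ').trans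
      (mul_le_mul_of_nonneg_right ?_ (by positivity))
    have : (0 : ℝ) ≤ 1 / ((k : ℝ) + 1) := by positivity
    linarith
  have hlow : ∀ k x x' τ, ‖x - x'‖ ≤ 2 * ‖Xs k x τ - Xs k x' τ‖ := by
    intro k x x' τ
    exact g5a_two (by positivity) (g5a_low n v hl Xs h0 hs k x x' τ)
  refine ⟨hup, hlow, ?_⟩
  have hstep : ∀ x τ k, dist (Xs k x τ) (Xs (k + 1) x τ) ≤ 3 / 2 / 2 ^ k := by
    intro x τ k
    rw [hs, dist_self_add_right]
    exact hb k _ τ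
  have hlim : ∀ x τ, ∃ a, Filter.Tendsto (fun k => Xs k x τ) Filter.atTop (nhds a) := by
    intro x τ
    exact cauchySeq_tendsto_of_complete (cauchySeq_of_le_geometric_two (hstep x τ))
  choose X hX using hlim
  have hXs : ∀ k x τ, ‖X x τ - Xs k x τ‖ ≤ 3 / 2 ^ k := by
    intro k x τ
    rw [← dist_eq_norm, dist_comm]
    exact dist_le_of_le_geometric_two_of_tendsto (hstep x τ) (hX x τ) k
  have hXup : ∀ x x' τ τ', ‖X x τ - X x' τ'‖ ≤ 2 * (‖x - x'‖ + |τ - τ'|) := by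
    intro x x' τ τ'
    refine le_of_tendsto (((hX x τ).sub (hX x' τ')).norm) (Filter.Eventually.of_forall fun k => ?_)
    exact hup k x x' τ τ'
  have hXlow : ∀ x x' τ, ‖x - x'‖ ≤ 2 * ‖X x τ - X x' τ‖ := by
    intro x x' τ
    refine ge_of_tendsto ((((hX x τ).sub (hX x' τ)).norm).const_mul 2)
      (Filter.Eventually.of_forall fun k => ?_)
    exact hlow k x x' τ
  have hsurj : ∀ z τ, ∃ x, X x τ = z := by
    intro z τ
    choose y hy using fun k => g5a_surj n v hl Xs h0 hs k τ z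
    have hyc : ∀ k, dist (y k) (y (k + 1)) ≤ 6 / 2 / 2 ^ k := by
      intro k
      rw [dist_eq_norm]
      refine (hlow (k + 1) (y k) (y (k + 1)) τ).trans ?_
      rw [hy (k + 1), hs, hy k, add_sub_cancel_left]
      have h1 := hb k z τ
      have h2 : (6 : ℝ) / 2 / 2 ^ k = 2 * (3 / 2 / 2 ^ k) := by ring
      rw [h2]
      linarith
    obtain ⟨x, hx⟩ := cauchySeq_tendsto_of_complete (cauchySeq_of_le_geometric_two hyc)
    refine ⟨x, ?_⟩
    have hbound : ∀ k, ‖X x τ - z‖ ≤ 2 * ‖x - y k‖ + 3 / 2 ^ k := by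
      intro k
      have h1 : X x τ - z = (X x τ - X (y k) τ) + (X (y k) τ - Xs k (y k) τ) := by
        rw [hy k]
        abel
      rw [h1]
      refine (norm_add_le _ _).trans (add_le_add ?_ (hXs k (y k) τ))
      have h2 := hXup x (y k) τ τ
      rwa [sub_self, abs_zero, add_zero] at h2
    have ht1 : Filter.Tendsto (fun k => ‖x - y k‖) Filter.atTop (nhds 0) := by
      have h1 := (tendsto_const_nhds (x := x)).sub hx
      rw [sub_self] at h1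
      have h2 := h1.norm
      rwa [norm_zero] at h2
    have ht2 : Filter.Tendsto (fun k : ℕ => (3 : ℝ) / 2 ^ k) Filter.atTop (nhds 0) := by
      have h1 : Filter.Tendsto (fun k : ℕ => (1 / 2 : ℝ) ^ k) Filter.atTop (nhds 0) :=
        tendsto_pow_atTop_nhds_zero_of_lt_one (by norm_num) (by norm_num)
      have h2 := h1.const_mul 3
      rw [mul_zero] at h2
      refine h2.congr fun k => ?_
      rw [one_div, inv_pow]
      rfl
    have ht3 := (ht1.const_mul 2).add ht2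
    rw [mul_zero, add_zero] at ht3
    have h3 : ‖X x τ - z‖ ≤ 0 := ge_of_tendsto ht3 (Filter.Eventually.of_forall hbound)
    have h4 := norm_le_zero_iff.1 h3
    exact sub_eq_zero.1 h4
  choose Y hY using hsurj
  refine ⟨X, Y, hXs, ?_, hY, hXup, hXlow, ?_⟩
  · intro x τ
    have h1 := hXlow (Y (X x τ) τ) x τ
    rw [hY, sub_self, norm_zero, mul_zero] at h1
    exact sub_eq_zero.1 (norm_le_zero_iff.1 h1)
  · intro z z' τ τ'
    have h1 := hXlow (Y z τ) (Y z' τ') τ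
    have h2 : ‖X (Y z τ) τ - X (Y z' τ') τ‖ ≤ ‖z - z'‖ + 2 * |τ - τ'| := by
      have h3 : X (Y z τ) τ - X (Y z' τ') τ = (z - z') + (X (Y z' τ') τ' - X (Y z' τ') τ) := by
        rw [hY, hY]
        abel
      rw [h3]
      refine (norm_add_le _ _).trans (add_le_add le_rfl ?_)
      have h4 := hXup (Y z' τ') (Y z' τ') τ' τ
      rwa [sub_self, norm_zero, zero_add, abs_sub_comm] at h4
    have h5 := norm_nonneg (z - z')
    linarith

/-- mass bound for bi-Lipschitz labels -/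
theorem massBound_of_lip (n : ℕ) (b : ℝ) (hb : 0 < b) (ρ : (Fin n → ℝ) × ℝ → ℝ)
    (hρ : ∀ p, 0 ≤ ρ p ∧ ρ p ≤ b) (Z : (Fin n → ℝ) × ℝ → (Fin n → ℝ))
    (hZ : ∀ x x' τ, ‖x - x'‖ ≤ 2 * ‖Z (x, τ) - Z (x', τ)‖) :
    MassBound (b * 4 ^ n) Z ρ := by
  intro τ c s hs
  set S : Set (Fin n → ℝ) := {x : Fin n → ℝ | ‖Z (x, τ) - c‖ ≤ s} with hS
  have h1 : ∫⁻ x in S, ENNReal.ofReal (ρ (x, τ)) ≤ ENNReal.ofReal b * volume S := by
    calc ∫⁻ x in S, ENNReal.ofReal (ρ (x, τ)) ≤ ∫⁻ _ in S, ENNReal.ofReal b :=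
          lintegral_mono fun x => ENNReal.ofReal_le_ofReal (hρ (x, τ)).2
      _ = ENNReal.ofReal b * volume S := by
          rw [lintegral_const, Measure.restrict_apply MeasurableSet.univ, univ_inter]
  refine h1.trans ?_
  rcases S.eq_empty_or_nonempty with he | ⟨x0, hx0⟩
  · rw [he, measure_empty, mul_zero]
    exact zero_le
  · have hsub : S ⊆ Metric.closedBall x0 (4 * s) := by
      intro x hx
      rw [mem_closedBall_iff_norm]
      refine (hZ x x0 τ).trans ?_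
      have h2 : Z (x, τ) - Z (x0, τ) = (Z (x, τ) - c) - (Z (x0, τ) - c) := by abel
      have h3 : ‖Z (x, τ) - c‖ ≤ s := hx
      have h4 : ‖Z (x0, τ) - c‖ ≤ s := hx0
      have h5 : ‖Z (x, τ) - Z (x0, τ)‖ ≤ s + s := by
        rw [h2]
        exact (norm_sub_le _ _).trans (add_le_add h3 h4)
      linarith
    have h6 : volume S ≤ ENNReal.ofReal ((2 * (4 * s)) ^ n) := by
      refine (measure_mono hsub).trans (le_of_eq ?_)
      rw [Real.volume_pi_closedBall _ (by positivity), Fintype.card_fin]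
    calc ENNReal.ofReal b * volume S ≤ ENNReal.ofReal b * ENNReal.ofReal ((2 * (4 * s)) ^ n) := by
          gcongr
      _ = ENNReal.ofReal (b * 4 ^ n * (2 * s) ^ n) := by
          rw [← ENNReal.ofReal_mul hb.le]
          congr 1
          rw [mul_assoc, ← mul_pow]
          congr 2
          ring

end Pool.Agent.helper312_gd
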