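import Pool.Agent.helper312_gd.Mix
import Pool.Agent.helper312_gd.Field
import Pool.Agent.helper312_gd.FieldMean
import Pool.Agent.helper312_gd.ClassStep

set_option autoImplicit false

open Set MeasureTheory

namespace Pool.Agent.helper312_gd


theorem lvl_lip_cont {n : ℕ} {ψ : (Fin n → ℝ) → ℝ} {K : ℝ} (hK : 0 ≤ K)
    (h : ∀ x y, |ψ x - ψ y| ≤ K * ‖x - y‖) : Continuous ψ := by
  have : LipschitzWith ⟨K, hK⟩ ψ := LipschitzWith.of_dist_le_mul fun x y => by
    rw [Real.dist_eq, dist_eq_norm]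
    exact h x y
  exact this.continuous

theorem lvl_cube_vol {n : ℕ} :
    (volume : Measure (Fin n → ℝ)).real
      (Icc (fun _ : Fin n => (-1/2 : ℝ)) (fun _ => (1/2 : ℝ))) = 1 := by
  rw [Measure.real, Real.volume_Icc_pi]
  norm_num

theorem lvl_avg_int {n : ℕ} {ψ : (Fin n → ℝ) → ℝ} (h : Continuous ψ) (w : ℝ) (z : Fin n → ℝ) :
    IntegrableOn (fun y => ψ (z + w • y))
      (Icc (fun _ : Fin n => (-1/2 : ℝ)) (fun _ => (1/2 : ℝ))) := by
  have hc : Continuous fun y : Fin n → ℝ => ψ (z + w • y) := by fun_prop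
  exact hc.continuousOn.integrableOn_compact isCompact_Icc

theorem lvl_avg_lip {n : ℕ} {ψ : (Fin n → ℝ) → ℝ} {K : ℝ} (hK : 0 ≤ K)
    (h : ∀ x y, |ψ x - ψ y| ≤ K * ‖x - y‖) (w : ℝ) :
    ∀ x y, |avg w ψ x - avg w ψ y| ≤ K * ‖x - y‖ := by
  intro x y
  have hc := lvl_lip_cont hK h
  unfold avg
  rw [← integral_sub (lvl_avg_int hc w x) (lvl_avg_int hc w y)]
  have h1 := norm_setIntegral_le_of_norm_le_const
    (μ := (volume : Measure (Fin n → ℝ)))
    (s := Icc (fun _ : Fin n => (-1/2 : ℝ)) (fun _ => (1/2 : ℝ)))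
    (f := fun a => ψ (x + w • a) - ψ (y + w • a)) (C := K * ‖x - y‖)
    isCompact_Icc.measure_lt_top (fun a _ => by
      have h2 := h (x + w • a) (y + w • a)
      have h3 : x + w • a - (y + w • a) = x - y := by abel
      rw [h3] at h2
      exact h2)
  rw [lvl_cube_vol, mul_one] at h1
  exact h1

theorem lvl_avg_bd {n : ℕ} {ψ : (Fin n → ℝ) → ℝ} {A : ℝ}
    (h : ∀ x, |ψ x| ≤ A) (w : ℝ) : ∀ x, |avg w ψ x| ≤ A := by
  intro x
  unfold avg
  have h1 := norm_setIntegral_le_of_norm_le_const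
    (μ := (volume : Measure (Fin n → ℝ)))
    (s := Icc (fun _ : Fin n => (-1/2 : ℝ)) (fun _ => (1/2 : ℝ)))
    (f := fun a => ψ (x + w • a)) (C := A)
    isCompact_Icc.measure_lt_top (fun a _ => h _)
  rw [lvl_cube_vol, mul_one] at h1
  exact h1

theorem lvl_avg_supp {n : ℕ} {ψ : (Fin n → ℝ) → ℝ} {r w : ℝ} (hw : 0 < w) {X : Fin n → ℝ}
    (h : ∀ x, r < ‖x - X‖ → ψ x = 0) : ∀ x, r + w / 2 < ‖x - X‖ → avg w ψ x = 0 := by
  intro x hx
  unfold avg
  refine setIntegral_eq_zero_of_forall_eq_zero fun a ha => ?_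
  refine h _ ?_
  have h1 : ‖a‖ ≤ 1 / 2 := by
    rw [pi_norm_le_iff_of_nonneg (by norm_num)]
    intro i
    rw [Real.norm_eq_abs, abs_le]
    have h2 := ha.1 i
    have h3 := ha.2 i
    simp only at h2 h3
    constructor <;> linarith
  have h2 : x - X = (x + w • a - X) - w • a := by abel
  have h3 : ‖x - X‖ ≤ ‖x + w • a - X‖ + ‖w • a‖ := by
    conv_lhs => rw [h2]
    exact norm_sub_le _ _
  have h4 : ‖w • a‖ ≤ w / 2 := by
    rw [norm_smul, Real.norm_eq_abs, abs_of_pos hw]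
    nlinarith
  linarith

theorem lvl_prod_lip {ι : Type} (s : Finset ι) (a b : ι → ℝ) (ha : ∀ i, 0 ≤ a i ∧ a i ≤ 1)
    (hb : ∀ i, 0 ≤ b i ∧ b i ≤ 1) {δ : ℝ} (h : ∀ i, |a i - b i| ≤ δ) :
    |∏ i ∈ s, a i - ∏ i ∈ s, b i| ≤ s.card * δ := by
  classical
  induction s using Finset.induction_on with
  | empty => simp
  | insert c s hc ih =>
    rw [Finset.prod_insert hc, Finset.prod_insert hc, Finset.card_insert_of_notMem hc]
    have h1 : a c * ∏ i ∈ s, a i - b c * ∏ i ∈ s, b i =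
        a c * (∏ i ∈ s, a i - ∏ i ∈ s, b i) + (a c - b c) * ∏ i ∈ s, b i := by ring
    have hp0 : 0 ≤ ∏ i ∈ s, b i := Finset.prod_nonneg fun i _ => (hb i).1
    have hp1 : ∏ i ∈ s, b i ≤ 1 := Finset.prod_le_one (fun i _ => (hb i).1) fun i _ => (hb i).2
    have hδ : 0 ≤ δ := (abs_nonneg _).trans (h c)
    have h2 : |a c * (∏ i ∈ s, a i - ∏ i ∈ s, b i)| ≤ s.card * δ := by
      rw [abs_mul, abs_of_nonneg (ha c).1]
      exact (mul_le_of_le_one_left (abs_nonneg _) (ha c).2).trans ih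
    have h3 : |(a c - b c) * ∏ i ∈ s, b i| ≤ δ := by
      rw [abs_mul, abs_of_nonneg hp0]
      exact (mul_le_of_le_one_right (abs_nonneg _) hp1).trans (h c)
    rw [h1]
    push_cast
    refine (abs_add_le _ _).trans ?_
    linarith

theorem lvl_tent_eq {n : ℕ} (w : ℝ) (z : Fin n → ℝ) :
    tent w z = (∏ i, max 0 (1 - |z i| / w)) * (1 / w) ^ n := by
  unfold tent
  rw [Finset.prod_div_distrib]
  simp [div_eq_mul_inv]

theorem lvl_tent_bd {n : ℕ} {w : ℝ} (hw : 0 < w) (z : Fin n → ℝ) : |tent w z| ≤ (1 / w) ^ n := by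
  rw [lvl_tent_eq, abs_mul, abs_of_nonneg (show 0 ≤ (1 / w) ^ n by positivity)]
  refine mul_le_of_le_one_left (by positivity) ?_
  rw [abs_of_nonneg (Finset.prod_nonneg fun i _ => le_max_left _ _)]
  refine Finset.prod_le_one (fun i _ => le_max_left _ _) fun i _ => ?_
  refine max_le (by norm_num) ?_
  have : 0 ≤ |z i| / w := by positivity
  linarith

theorem lvl_tent_lip {n : ℕ} {w : ℝ} (hw : 0 < w) (X : Fin n → ℝ) :
    ∀ x y : Fin n → ℝ, |tent w (X - x) - tent w (X - y)| ≤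
      (n * (1 / w) ^ (n + 1)) * ‖x - y‖ := by
  intro x y
  rw [lvl_tent_eq, lvl_tent_eq, ← sub_mul, abs_mul,
    abs_of_nonneg (show 0 ≤ (1 / w) ^ n by positivity)]
  have h1 := lvl_prod_lip Finset.univ (fun i => max 0 (1 - |(X - x) i| / w))
    (fun i => max 0 (1 - |(X - y) i| / w)) (fun i => ⟨le_max_left _ _, ?_⟩)
    (fun i => ⟨le_max_left _ _, ?_⟩) (δ := ‖x - y‖ / w) (fun i => ?_)
  · rw [Finset.card_univ, Fintype.card_fin] at h1
    calc _ ≤ (n * (‖x - y‖ / w)) * (1 / w) ^ n := mul_le_mul_of_nonneg_right h1 (by positivity)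
      _ = _ := by
        rw [pow_succ]
        ring
  · refine max_le (by norm_num) ?_
    have : 0 ≤ |(X - x) i| / w := by positivity
    linarith
  · refine max_le (by norm_num) ?_
    have : 0 ≤ |(X - y) i| / w := by positivity
    linarith
  · have h2 : |(max 0 (1 - |(X - x) i| / w)) - (max 0 (1 - |(X - y) i| / w))| ≤
        |(1 - |(X - x) i| / w) - (1 - |(X - y) i| / w)| := by
      have := abs_max_sub_max_le_abs (1 - |(X - x) i| / w) (1 - |(X - y) i| / w) 0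
      rwa [max_comm _ (0 : ℝ), max_comm _ (0 : ℝ)] at this
    refine h2.trans ?_
    have h3 : (1 - |(X - x) i| / w) - (1 - |(X - y) i| / w) =
        (|(X - y) i| - |(X - x) i|) / w := by ring
    rw [h3, abs_div, abs_of_pos hw]
    refine div_le_div_of_nonneg_right ?_ hw.le
    refine (abs_abs_sub_abs_le_abs_sub _ _).trans ?_
    have h4 : (X - y) i - (X - x) i = (x - y) i := by
      simp only [Pi.sub_apply]
      ring
    rw [h4, ← Real.norm_eq_abs]
    exact norm_le_pi_norm (x - y) i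

theorem lvl_tent_supp {n : ℕ} {w : ℝ} (hw : 0 < w) (X : Fin n → ℝ) :
    ∀ x : Fin n → ℝ, w < ‖x - X‖ → tent w (X - x) = 0 := by
  intro x hx
  rw [lvl_tent_eq]
  have h1 : ∃ i, w < ‖(x - X) i‖ := by
    by_contra hcon
    push Not at hcon
    have := (pi_norm_le_iff_of_nonneg hw.le).2 hcon
    linarith
  obtain ⟨i, hi⟩ := h1
  rw [Finset.prod_eq_zero (Finset.mem_univ i), zero_mul]
  refine max_eq_left ?_
  have h2 : |(X - x) i| = ‖(x - X) i‖ := by
    rw [Real.norm_eq_abs, ← abs_neg]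
    congr 1
    simp only [Pi.sub_apply]
    ring
  rw [h2]
  have : 1 ≤ ‖(x - X) i‖ / w := by
    rw [le_div_iff₀ hw]
    linarith
  linarith

/-- integrals of bounded measurable functions supported near `X` against `ρ` -/
theorem lvl_int {n : ℕ} {M : ℝ} (hM : 0 < M) {Z : (Fin n → ℝ) × ℝ → (Fin n → ℝ)}
    {ρ : (Fin n → ℝ) × ℝ → ℝ} (hZ : Measurable Z) (hρ : Measurable ρ) (hρ0 : ∀ p, 0 ≤ ρ p)
    (hMB : MassBound M Z ρ) {X : Fin n → ℝ} {r A : ℝ} (hr : 0 < r) (hA : 0 ≤ A)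
    {g : (Fin n → ℝ) × ℝ → ℝ} (hg : Measurable g) (hgA : ∀ p, |g p| ≤ A)
    (hgs : ∀ p, r < ‖Z p - X‖ → g p = 0) :
    (∀ τ, Integrable (fun x => g (x, τ) * ρ (x, τ))) ∧
    (∀ τ, |∫ x, g (x, τ) * ρ (x, τ)| ≤ A * (M * (2 * r) ^ n)) ∧
    ∀ t : ℝ, IntervalIntegrable (fun τ => ∫ x, g (x, τ) * ρ (x, τ)) volume 0 t := by
  have hlin : ∀ τ, ∫⁻ x, ENNReal.ofReal ‖g (x, τ) * ρ (x, τ)‖ ≤
      ENNReal.ofReal (A * (M * (2 * r) ^ n)) := by
    intro τ
    have hS : MeasurableSet {x : Fin n → ℝ | ‖Z (x, τ) - X‖ ≤ r} := by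
      refine measurableSet_le ?_ measurable_const
      exact ((hZ.comp (by fun_prop)).sub_const X).norm
    calc ∫⁻ x, ENNReal.ofReal ‖g (x, τ) * ρ (x, τ)‖
        ≤ ∫⁻ x, ENNReal.ofReal A * {x : Fin n → ℝ | ‖Z (x, τ) - X‖ ≤ r}.indicator
            (fun x => ENNReal.ofReal (ρ (x, τ))) x := by
          refine lintegral_mono fun x => ?_
          by_cases hx : ‖Z (x, τ) - X‖ ≤ r
          · have hx' : x ∈ {x : Fin n → ℝ | ‖Z (x, τ) - X‖ ≤ r} := hx
            rw [indicator_of_mem hx', ← ENNReal.ofReal_mul hA]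
            refine ENNReal.ofReal_le_ofReal ?_
            rw [norm_mul, Real.norm_eq_abs, Real.norm_of_nonneg (hρ0 _)]
            exact mul_le_mul_of_nonneg_right (hgA _) (hρ0 _)
          · rw [hgs (x, τ) (not_le.1 hx)]
            simp
      _ = ENNReal.ofReal A * ∫⁻ x in {x : Fin n → ℝ | ‖Z (x, τ) - X‖ ≤ r},
            ENNReal.ofReal (ρ (x, τ)) := by
          rw [lintegral_const_mul' _ _ ENNReal.ofReal_ne_top, lintegral_indicator hS]
      _ ≤ ENNReal.ofReal A * ENNReal.ofReal (M * (2 * r) ^ n) := by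
          gcongr
          exact hMB τ X r hr
      _ = _ := (ENNReal.ofReal_mul hA).symm
  have hmeas : Measurable (fun p : (Fin n → ℝ) × ℝ => g p * ρ p) := hg.mul hρ
  refine ⟨fun τ => ?_, fun τ => ?_, fun t => ?_⟩
  · refine ⟨(hmeas.comp (by fun_prop : Measurable fun x : Fin n → ℝ => (x, τ))).aestronglyMeasurable,
      ?_⟩
    rw [hasFiniteIntegral_iff_norm]
    exact (hlin τ).trans_lt ENNReal.ofReal_lt_top
  · have h1 := norm_integral_le_lintegral_norm (μ := (volume : Measure (Fin n → ℝ)))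
      (fun x => g (x, τ) * ρ (x, τ))
    rw [Real.norm_eq_abs] at h1
    refine h1.trans (ENNReal.toReal_le_of_le_ofReal (by positivity) (hlin τ))
  · have hb : ∀ τ, ‖∫ x, g (x, τ) * ρ (x, τ)‖ ≤ A * (M * (2 * r) ^ n) := by
      intro τ
      have h1 := norm_integral_le_lintegral_norm (μ := (volume : Measure (Fin n → ℝ)))
        (fun x => g (x, τ) * ρ (x, τ))
      exact h1.trans (ENNReal.toReal_le_of_le_ofReal (by positivity) (hlin τ))
    have hsm : StronglyMeasurable (fun τ : ℝ => ∫ x : Fin n → ℝ, g (x, τ) * ρ (x, τ)) :=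
      hmeas.stronglyMeasurable.integral_prod_left'
    refine (intervalIntegrable_const (c := A * (M * (2 * r) ^ n))).mono_fun
      hsm.aestronglyMeasurable ?_
    refine Filter.Eventually.of_forall fun τ => ?_
    refine (hb τ).trans ?_
    exact le_abs_self _

/-- comparison of the mean over constant parameters with the triple average -/
theorem lvl_uni {n : ℕ} {CM : ℝ} (hfm : ∀ (m : ℕ), 1 ≤ m → ∀ (w R : ℝ), 0 < w → 0 < R →
    ∀ (K : ℝ) (φ : (Fin n → ℝ) → ℝ), 0 ≤ K → (∀ x y, |φ x - φ y| ≤ K * ‖x - y‖) →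
    ∀ (z : Fin n → ℝ) (τ : ℝ),
      |(∑ u : Cls n → Par n m, φ (z + field w R (fun c _ => u c) z τ))
          / Fintype.card (Cls n → Par n m)
        - avg w (avg w (avg w φ)) z| ≤ CM * K * w / m) (hCM : 0 < CM)
    {M : ℝ} (hM : 0 < M) {Z : (Fin n → ℝ) × ℝ → (Fin n → ℝ)}
    {ρ : (Fin n → ℝ) × ℝ → ℝ} (hZ : Measurable Z) (hρ : Measurable ρ) (hρ0 : ∀ p, 0 ≤ ρ p)
    (hMB : MassBound M Z ρ) {w R : ℝ} (hw : 0 < w) (hR : 0 < R) {m : ℕ} (hm : 1 ≤ m)
    (θ : Cls n → Cell n → Par n m) {t : ℝ} (ht : t ∈ Icc (0 : ℝ) 1) (X : Fin n → ℝ) :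
    |meanLab w R ρ Z Finset.univ θ X t - lab ρ t (avg w (avg w (avg w
      (fun z => tent (w / 2) (X - z))))) Z| ≤
      (CM * (n * (1 / (w / 2)) ^ (n + 1)) * w / m) * (M * (2 * (2 * w)) ^ n) := by
  set φ : (Fin n → ℝ) → ℝ := fun z => tent (w / 2) (X - z) with hφ
  have hw2 : 0 < w / 2 := by positivity
  set K : ℝ := n * (1 / (w / 2)) ^ (n + 1) with hK
  have hK0 : 0 ≤ K := by positivity
  have hφl : ∀ x y, |φ x - φ y| ≤ K * ‖x - y‖ := lvl_tent_lip hw2 X
  have hφb : ∀ x, |φ x| ≤ (1 / (w / 2)) ^ n := fun x => lvl_tent_bd hw2 _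
  have hφs : ∀ x, w / 2 < ‖x - X‖ → φ x = 0 := lvl_tent_supp hw2 X
  set A : ℝ := (1 / (w / 2)) ^ n with hA
  have hA0 : 0 ≤ A := by positivity
  -- the functions
  set g : (Cls n → Par n m) → (Fin n → ℝ) × ℝ → ℝ :=
    fun u p => φ (Z p + field w R (fun c _ => u c) (Z p) p.2) with hg
  set g0 : (Fin n → ℝ) × ℝ → ℝ := fun p => avg w (avg w (avg w φ)) (Z p) with hg0
  have hl1 := lvl_avg_lip hK0 hφl w
  have hl2 := lvl_avg_lip hK0 hl1 w
  have hl3 := lvl_avg_lip hK0 hl2 w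
  have hgm : ∀ u, Measurable (g u) := by
    intro u
    have h0 := field_measurable n m w R (fun (c : Cls n) (_ : Cell n) => u c)
    have h1 : Measurable (fun p : (Fin n → ℝ) × ℝ => (Z p, p.2)) := hZ.prodMk measurable_snd
    have h2 := h0.comp h1
    simp only [Function.comp_def] at h2
    have h3 : Measurable (fun p : (Fin n → ℝ) × ℝ =>
      Z p + field w R (fun c _ => u c) (Z p) p.2) := hZ.add h2
    exact (lvl_lip_cont hK0 hφl).measurable.comp h3
  have hg0m : Measurable g0 := (lvl_lip_cont hK0 hl3).measurable.comp hZ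
  have hgb : ∀ u p, |g u p| ≤ A := fun u p => hφb _
  have hg0b : ∀ p, |g0 p| ≤ A := fun p =>
    lvl_avg_bd (lvl_avg_bd (lvl_avg_bd hφb w) w) w _
  have hgs : ∀ u p, 2 * w < ‖Z p - X‖ → g u p = 0 := by
    intro u p hp
    refine hφs _ ?_
    have h1 := field_bound n m w R hw hR (fun c _ => u c) (Z p) p.2
    have h2 : Z p - X = (Z p + field w R (fun c _ => u c) (Z p) p.2 - X) -
      field w R (fun c _ => u c) (Z p) p.2 := by abel
    have h3 : ‖Z p - X‖ ≤ ‖Z p + field w R (fun c _ => u c) (Z p) p.2 - X‖ +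
      ‖field w R (fun c _ => u c) (Z p) p.2‖ := by
      conv_lhs => rw [h2]
      exact norm_sub_le _ _
    linarith
  have hg0s : ∀ p, 2 * w < ‖Z p - X‖ → g0 p = 0 := by
    intro p hp
    have h1 := lvl_avg_supp hw hφs
    have h2 := lvl_avg_supp hw h1
    have h3 := lvl_avg_supp hw h2
    refine h3 _ ?_
    linarith
  -- the number of parameters
  have : Nonempty (Fin m) := ⟨⟨0, hm⟩⟩
  set N : ℝ := (Fintype.card (Cls n → Par n m) : ℝ) with hN
  have hN0 : 0 < N := by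
    rw [hN]
    exact_mod_cast Fintype.card_pos
  set h : (Fin n → ℝ) × ℝ → ℝ := fun p => (∑ u, g u p) / N - g0 p with hh
  have hhm : Measurable h := by
    refine Measurable.sub (Measurable.div_const ?_ N) hg0m
    exact Finset.measurable_fun_sum _ fun u _ => hgm u
  have hhb : ∀ p, |h p| ≤ CM * K * w / m := fun p => hfm m hm w R hw hR K φ hK0 hφl (Z p) p.2
  have hhs : ∀ p, 2 * w < ‖Z p - X‖ → h p = 0 := by
    intro p hp
    simp only [hh]
    rw [hg0s p hp, Finset.sum_eq_zero fun u _ => hgs u p hp]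
    simp
  have hr : 0 < 2 * w := by positivity
  have hB0 : 0 ≤ CM * K * w / m := by positivity
  have Ig := fun u => lvl_int hM hZ hρ hρ0 hMB (X := X) hr hA0 (hgm u) (hgb u) (hgs u)
  have Ig0 := lvl_int hM hZ hρ hρ0 hMB (X := X) hr hA0 hg0m hg0b hg0s
  have Ih := lvl_int hM hZ hρ hρ0 hMB (X := X) hr hB0 hhm hhb hhs
  have key : meanLab w R ρ Z Finset.univ θ X t - lab ρ t (avg w (avg w (avg w φ))) Z =
      ∫ τ in (0 : ℝ)..t, ∫ x, h (x, τ) * ρ (x, τ) := by
    have e1 : meanLab w R ρ Z Finset.univ θ X t =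
        (∑ u : Cls n → Par n m, ∫ τ in (0 : ℝ)..t, ∫ x, g u (x, τ) * ρ (x, τ)) / N := by
      unfold meanLab lab
      have hmix : ∀ u : Cls n → Par n m, mix Finset.univ u θ = fun c _ => u c := by
        intro u
        funext c q
        simp [mix]
      simp only [hmix, hg, hφ]
      rfl
    have e2 : lab ρ t (avg w (avg w (avg w φ))) Z =
        ∫ τ in (0 : ℝ)..t, ∫ x, g0 (x, τ) * ρ (x, τ) := rfl
    rw [e1, e2, ← intervalIntegral.integral_finsetSum (fun u _ => (Ig u).2.2 t),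
      ← intervalIntegral.integral_div, ← intervalIntegral.integral_sub]
    · refine intervalIntegral.integral_congr fun τ _ => ?_
      change (∑ u, ∫ x, g u (x, τ) * ρ (x, τ)) / N - ∫ x, g0 (x, τ) * ρ (x, τ) =
        ∫ x, h (x, τ) * ρ (x, τ)
      rw [← integral_finsetSum _ (fun u _ => (Ig u).1 τ), ← integral_div, ← integral_sub]
      · refine integral_congr_ae (Filter.Eventually.of_forall fun x => ?_)
        simp only [hh]
        rw [sub_mul, div_mul_eq_mul_div, Finset.sum_mul]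
      · exact (integrable_finsetSum _ fun u _ => (Ig u).1 τ).div_const N
      · exact Ig0.1 τ
    · refine IntervalIntegrable.div_const ?_ N
      have hs := IntervalIntegrable.sum Finset.univ (fun u _ => (Ig u).2.2 t)
      refine hs.congr fun τ _ => ?_
      simp only [Finset.sum_apply]
    · exact Ig0.2.2 t
  rw [key]
  have hfin := intervalIntegral.norm_integral_le_of_norm_le_const (a := (0 : ℝ)) (b := t)
    (f := fun τ => ∫ x, h (x, τ) * ρ (x, τ))
    (C := CM * K * w / m * (M * (2 * (2 * w)) ^ n)) (fun τ _ => Ih.2.1 τ)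
  rw [Real.norm_eq_abs, sub_zero, abs_of_nonneg ht.1] at hfin
  refine hfin.trans ?_
  exact mul_le_of_le_one_right (by positivity) ht.2

/-- the level lemma -/
theorem level (n : ℕ) (hn : 1 ≤ n) (η : ℝ) (hη : 0 < η) : ∃ C : ℝ, 0 < C ∧
    ∀ (M : ℝ), 0 < M → ∀ (Z : (Fin n → ℝ) × ℝ → (Fin n → ℝ)) (ρ : (Fin n → ℝ) × ℝ → ℝ),
      Measurable Z → Measurable ρ → (∀ p, 0 ≤ ρ p) → MassBound M Z ρ → ∀ k : ℕ,
      ∃ v : (Fin n → ℝ) → ℝ → (Fin n → ℝ),
        Measurable (fun p : (Fin n → ℝ) × ℝ => v p.1 p.2) ∧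
        (∀ z τ, ‖v z τ‖ ≤ 3 / 2 / 2 ^ k) ∧
        (∀ z z' τ τ', ‖v z τ - v z' τ'‖ ≤ η / ((k : ℝ) + 1) ^ 2 * (‖z - z'‖ + |τ - τ'|)) ∧
        ∀ t ∈ Icc (0 : ℝ) 1, ∀ X : Fin n → ℝ,
          |lab ρ t (fun z => tent (1 / 2 ^ (k + 1)) (X - z)) (fun p => Z p + v (Z p) p.2)
            - lab ρ t (avg (1 / 2 ^ k) (avg (1 / 2 ^ k) (avg (1 / 2 ^ k)
                (fun z => tent (1 / 2 ^ (k + 1)) (X - z))))) Z| ≤
            C * M * ((k : ℝ) + 1) ^ (n + 3) / 2 ^ k := by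
  classical
  obtain ⟨CF, hCF, hlip⟩ := field_lip n
  obtain ⟨CM, hCM, hfm⟩ := field_mean n
  obtain ⟨l₁, hl₁, hstep⟩ := class_step n hn
  -- the choice of l₀
  obtain ⟨l₀, hl₀1, hl₀2⟩ : ∃ l₀ : ℕ, l₁ ≤ l₀ ∧ CF / η ≤ (l₀ : ℝ) := by
    obtain ⟨a, ha⟩ := exists_nat_ge (CF / η)
    refine ⟨max l₁ a, le_max_left _ _, ha.trans ?_⟩
    exact_mod_cast le_max_right _ _
  have hl₀ : (1 : ℝ) ≤ (l₀ : ℝ) := by exact_mod_cast hl₁.trans hl₀1
  have hCl : CF / (l₀ : ℝ) ^ 2 ≤ η := by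
    rw [div_le_iff₀ (by positivity)]
    rw [div_le_iff₀ hη] at hl₀2
    nlinarith
  obtain ⟨C1, hC1, hstep⟩ := hstep l₀ hl₀1
  set Q : ℝ := (Fintype.card (Cls n) : ℝ) with hQ
  refine ⟨Q * C1 + CM * n * 2 ^ (n + 1) * 4 ^ n + 1, by positivity, ?_⟩
  intro M hM Z ρ hZ hρ hρ0 hMB k
  set w : ℝ := 1 / 2 ^ k with hw
  set R : ℝ := ((l₀ : ℝ) * (k + 1)) ^ 2 / 2 ^ k with hR
  have hw0 : 0 < w := by positivity
  have hR0 : 0 < R := by positivity
  have hm : 1 ≤ 4 ^ (k + 1) := Nat.one_le_pow _ _ (by norm_num)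
  have hw2 : (1 : ℝ) / 2 ^ (k + 1) = w / 2 := by
    rw [hw, pow_succ]
    field_simp
  have hne : Nonempty (Fin (4 ^ (k + 1))) := ⟨⟨0, hm⟩⟩
  obtain ⟨θ0⟩ : Nonempty (Cls n → Cell n → Par n (4 ^ (k + 1))) := inferInstance
  set B : ℝ := C1 * M * ((k : ℝ) + 1) ^ (n + 3) / 2 ^ k with hB
  -- removal of the classes one by one
  have hind : ∀ T : Finset (Cls n), ∃ θ : Cls n → Cell n → Par n (4 ^ (k + 1)),
      ∀ t ∈ Icc (0 : ℝ) 1, ∀ X : Fin n → ℝ,
        |meanLab w R ρ Z Tᶜ θ X t - meanLab w R ρ Z Finset.univ θ0 X t| ≤ T.card * B := by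
    intro T
    induction T using Finset.induction_on with
    | empty =>
      refine ⟨θ0, fun t _ X => ?_⟩
      rw [Finset.compl_empty, sub_self]
      simp
    | insert c₀ T hc ih =>
      obtain ⟨θ, hθ⟩ := ih
      have hc0 : c₀ ∉ (insert c₀ T)ᶜ := by simp
      have hins : insert c₀ (insert c₀ T)ᶜ = Tᶜ := by
        ext c
        simp only [Finset.mem_insert, Finset.mem_compl, not_or]
        constructor
        · rintro (rfl | ⟨_, h⟩)
          · exact hc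
          · exact h
        · intro h
          by_cases hcc : c = c₀
          · exact Or.inl hcc
          · exact Or.inr ⟨hcc, h⟩
      obtain ⟨θ', -, hθ'⟩ := hstep M hM Z ρ hZ hρ hρ0 hMB k w R hw hR _ c₀ hc0 θ
      refine ⟨θ', fun t ht X => ?_⟩
      have h1 := hθ' t ht X
      rw [hins] at h1
      have h2 := hθ t ht X
      rw [Finset.card_insert_of_notMem hc]
      push_cast
      calc |meanLab w R ρ Z (insert c₀ T)ᶜ θ' X t - meanLab w R ρ Z Finset.univ θ0 X t|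
          ≤ |meanLab w R ρ Z (insert c₀ T)ᶜ θ' X t - meanLab w R ρ Z Tᶜ θ X t| +
            |meanLab w R ρ Z Tᶜ θ X t - meanLab w R ρ Z Finset.univ θ0 X t| :=
            abs_sub_le _ _ _
        _ ≤ _ := by linarith
  obtain ⟨θ, hθ⟩ := hind Finset.univ
  refine ⟨fun z τ => field w R θ z τ, field_measurable n _ w R θ, ?_, ?_, ?_⟩
  · intro z τ
    refine (field_bound n _ w R hw0 hR0 θ z τ).trans (le_of_eq ?_)
    rw [hw]
    ring
  · intro z z' τ τ'
    refine (hlip _ w R hw0 hR0 θ z z' τ τ').trans ?_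
    refine mul_le_mul_of_nonneg_right ?_ (by positivity)
    have h1 : CF * (w / R) = CF / (l₀ : ℝ) ^ 2 / ((k : ℝ) + 1) ^ 2 := by
      rw [hw, hR]
      field_simp
    rw [h1]
    exact div_le_div_of_nonneg_right hCl (by positivity)
  · intro t ht X
    have h1 := hθ t ht X
    have h2 := lvl_uni hfm hCM hM hZ hρ hρ0 hMB hw0 hR0 hm θ0 ht X
    have h3 : meanLab w R ρ Z (Finset.univ : Finset (Cls n))ᶜ θ X t =
        lab ρ t (fun z => tent (w / 2) (X - z)) (fun p => Z p + field w R θ (Z p) p.2) := by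
      have hmix : ∀ u : Cls n → Par n (4 ^ (k + 1)),
          mix (Finset.univ : Finset (Cls n))ᶜ u θ = θ := by
        intro u
        funext c q
        simp [mix]
      unfold meanLab
      simp only [hmix]
      rw [Finset.sum_const, Finset.card_univ, nsmul_eq_mul]
      have : (Fintype.card (Cls n → Par n (4 ^ (k + 1))) : ℝ) ≠ 0 := by
        exact_mod_cast Fintype.card_ne_zero
      field_simp
    rw [h3, Finset.card_univ] at h1
    rw [hw2]
    have h4 : (CM * (n * (1 / (w / 2)) ^ (n + 1)) * w / (4 ^ (k + 1) : ℕ)) *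
        (M * (2 * (2 * w)) ^ n) ≤ (CM * n * 2 ^ (n + 1) * 4 ^ n) * M * ((k : ℝ) + 1) ^ (n + 3)
          / 2 ^ k := by
      have h5 : (CM * (n * (1 / (w / 2)) ^ (n + 1)) * w / (4 ^ (k + 1) : ℕ)) *
          (M * (2 * (2 * w)) ^ n) = (CM * n * 2 ^ (n + 1) * 4 ^ n) * M / 4 ^ (k + 1) := by
        push_cast
        have e1 : (1 / (w / 2)) ^ (n + 1) = 2 ^ (n + 1) / w ^ (n + 1) := by
          rw [← div_pow]
          congr 1
          field_simp
        have e2 : (2 * (2 * w)) ^ n = 4 ^ n * w ^ n := by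
          rw [← mul_pow]
          congr 1
          ring
        rw [e1, e2, pow_succ w n]
        field_simp
      rw [h5, mul_div_assoc _ (((k : ℝ) + 1) ^ (n + 3)), mul_div_assoc _ M]
      rw [mul_assoc (CM * n * 2 ^ (n + 1) * 4 ^ n) M]
      refine mul_le_mul_of_nonneg_left ?_ (by positivity)
      rw [div_eq_mul_one_div M]
      refine mul_le_mul_of_nonneg_left ?_ hM.le
      rw [div_le_div_iff₀ (by positivity) (by positivity)]
      have h6 : (1 : ℝ) ≤ ((k : ℝ) + 1) ^ (n + 3) := one_le_pow₀ (by linarith [Nat.cast_nonneg (α := ℝ) k])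
      have h7 : (2 : ℝ) ^ k ≤ 4 ^ (k + 1) := by
        calc (2 : ℝ) ^ k ≤ 4 ^ k := pow_le_pow_left₀ (by norm_num) (by norm_num) k
          _ ≤ 4 ^ (k + 1) := pow_le_pow_right₀ (by norm_num) (by omega)
      nlinarith [show (0 : ℝ) < 4 ^ (k + 1) by positivity]
    have h8 : 0 ≤ M * ((k : ℝ) + 1) ^ (n + 3) / 2 ^ k := by positivity
    calc _ ≤ |lab ρ t (fun z => tent (w / 2) (X - z)) (fun p => Z p + field w R θ (Z p) p.2)
          - meanLab w R ρ Z Finset.univ θ0 X t| +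
          |meanLab w R ρ Z Finset.univ θ0 X t - lab ρ t (avg w (avg w (avg w
            (fun z => tent (w / 2) (X - z))))) Z| := abs_sub_le _ _ _
      _ ≤ Q * B + (CM * n * 2 ^ (n + 1) * 4 ^ n) * M * ((k : ℝ) + 1) ^ (n + 3) / 2 ^ k := by
        linarith
      _ = (Q * C1 + CM * n * 2 ^ (n + 1) * 4 ^ n) * (M * ((k : ℝ) + 1) ^ (n + 3) / 2 ^ k) := by
        rw [hB]
        ring
      _ ≤ (Q * C1 + CM * n * 2 ^ (n + 1) * 4 ^ n + 1) *
          (M * ((k : ℝ) + 1) ^ (n + 3) / 2 ^ k) := by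
        refine mul_le_mul_of_nonneg_right ?_ h8
        linarith
      _ = _ := by ring

end Pool.Agent.helper312_gd
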