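import Pool.Agent.helper312_gd.Defs

set_option autoImplicit false

open Set MeasureTheory

namespace Pool.Agent.helper312_gd


/-- the unit cube -/
def g5b_cube (n : ℕ) : Set (Fin n → ℝ) :=
  Icc (fun _ : Fin n => (-1/2 : ℝ)) (fun _ => (1/2 : ℝ))

theorem g5b_cube_meas (n : ℕ) : MeasurableSet (g5b_cube n) := measurableSet_Icc

theorem g5b_cube_vol (n : ℕ) : (volume : Measure (Fin n → ℝ)) (g5b_cube n) = 1 := by
  unfold g5b_cube
  rw [Real.volume_Icc_pi]
  norm_num

instance g5b_cube_prob (n : ℕ) :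
    IsProbabilityMeasure ((volume : Measure (Fin n → ℝ)).restrict (g5b_cube n)) := by
  constructor
  rw [Measure.restrict_apply_univ, g5b_cube_vol]

theorem g5b_mem_cube {n : ℕ} {y : Fin n → ℝ} : y ∈ g5b_cube n ↔ ∀ i, |y i| ≤ 1 / 2 := by
  unfold g5b_cube
  rw [mem_Icc, Pi.le_def, Pi.le_def]
  constructor
  · intro h i
    rw [abs_le]
    exact ⟨by have := h.1 i; linarith, h.2 i⟩
  · intro h
    exact ⟨fun i => by have := (abs_le.1 (h i)).1; linarith, fun i => (abs_le.1 (h i)).2⟩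

theorem g5b_neg_cube {n : ℕ} {y : Fin n → ℝ} : -y ∈ g5b_cube n ↔ y ∈ g5b_cube n := by
  rw [g5b_mem_cube, g5b_mem_cube]
  simp

theorem g5b_norm_cube {n : ℕ} {y : Fin n → ℝ} (hy : y ∈ g5b_cube n) : ‖y‖ ≤ 1 / 2 := by
  rw [pi_norm_le_iff_of_nonneg (by norm_num)]
  intro i
  rw [Real.norm_eq_abs]
  exact g5b_mem_cube.1 hy i

theorem g5b_avg_def {n : ℕ} (w : ℝ) (φ : (Fin n → ℝ) → ℝ) (z : Fin n → ℝ) :
    avg w φ z = ∫ y in g5b_cube n, φ (z + w • y) := rfl

theorem g5b_avg_meas {n : ℕ} (w : ℝ) {φ : (Fin n → ℝ) → ℝ} (hφ : Measurable φ) :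
    Measurable (avg w φ) := by
  have h : StronglyMeasurable (fun p : (Fin n → ℝ) × (Fin n → ℝ) => φ (p.1 + w • p.2)) :=
    (hφ.comp (by fun_prop)).stronglyMeasurable
  exact (h.integral_prod_right (ν := (volume : Measure (Fin n → ℝ)).restrict (g5b_cube n))).measurable

theorem g5b_int_cube {n : ℕ} {φ : (Fin n → ℝ) → ℝ} (hφ : Measurable φ) {B : ℝ}
    (hB : ∀ x, |φ x| ≤ B) : Integrable φ ((volume : Measure (Fin n → ℝ)).restrict (g5b_cube n)) :=
  Integrable.of_bound hφ.aestronglyMeasurable B (Filter.Eventually.of_forall hB)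

theorem g5b_avg_bdd {n : ℕ} (w : ℝ) {φ : (Fin n → ℝ) → ℝ} {B : ℝ}
    (hB : ∀ x, |φ x| ≤ B) (z : Fin n → ℝ) : |avg w φ z| ≤ B := by
  rw [g5b_avg_def, ← Real.norm_eq_abs]
  have := norm_integral_le_of_norm_le_const
    (μ := (volume : Measure (Fin n → ℝ)).restrict (g5b_cube n))
    (f := fun y => φ (z + w • y)) (C := B)
    (Filter.Eventually.of_forall (fun y => hB _))
  simpa using this

theorem g5b_avg_refl {n : ℕ} (w : ℝ) (φ : (Fin n → ℝ) → ℝ) (X z : Fin n → ℝ) :
    avg w (fun u => φ (X - u)) z = avg w φ (X - z) := by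
  rw [g5b_avg_def, g5b_avg_def, ← integral_indicator (g5b_cube_meas n),
    ← integral_indicator (g5b_cube_meas n), ← integral_neg_eq_self]
  congr 1
  funext y
  by_cases hy : y ∈ g5b_cube n
  · rw [indicator_of_mem (g5b_neg_cube.2 hy), indicator_of_mem hy]
    congr 1
    rw [smul_neg]
    abel
  · rw [indicator_of_notMem (fun h => hy (g5b_neg_cube.1 h)), indicator_of_notMem hy]

/-- the tent function of scale one -/
noncomputable def g5b_t {n : ℕ} (u : Fin n → ℝ) : ℝ := ∏ i, max 0 (1 - |u i|)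

theorem g5b_t_eq {n : ℕ} (u : Fin n → ℝ) :
    ∫ y, (g5b_cube n).indicator (fun _ => (1 : ℝ)) y *
      (g5b_cube n).indicator (fun _ => (1 : ℝ)) (u - y) = g5b_t u := by
  have h1 : ∀ y : Fin n → ℝ, (g5b_cube n).indicator (fun _ => (1 : ℝ)) y *
      (g5b_cube n).indicator (fun _ => (1 : ℝ)) (u - y) =
      (Icc (fun i => max (-1/2) (u i - 1/2)) (fun i => min (1/2) (u i + 1/2)) :
        Set (Fin n → ℝ)).indicator (fun _ => (1 : ℝ)) y := by
    intro y
    have h2 : y ∈ (Icc (fun i => max (-1/2) (u i - 1/2)) (fun i => min (1/2) (u i + 1/2)) :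
        Set (Fin n → ℝ)) ↔ y ∈ g5b_cube n ∧ u - y ∈ g5b_cube n := by
      rw [g5b_mem_cube, g5b_mem_cube, mem_Icc, Pi.le_def, Pi.le_def]
      constructor
      · rintro ⟨h3, h4⟩
        constructor
        · intro i
          have a1 := (max_le_iff.1 (h3 i)).1
          have a2 := (le_min_iff.1 (h4 i)).1
          rw [abs_le]
          constructor <;> linarith
        · intro i
          have a1 := (max_le_iff.1 (h3 i)).2
          have a2 := (le_min_iff.1 (h4 i)).2
          rw [abs_le, Pi.sub_apply]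
          constructor <;> linarith
      · rintro ⟨h3, h4⟩
        constructor
        · intro i
          have a1 := (abs_le.1 (h3 i)).1
          have a2 := (abs_le.1 (h4 i)).2
          rw [Pi.sub_apply] at a2
          rw [max_le_iff]
          constructor <;> linarith
        · intro i
          have a1 := (abs_le.1 (h3 i)).2
          have a2 := (abs_le.1 (h4 i)).1
          rw [Pi.sub_apply] at a2
          rw [le_min_iff]
          constructor <;> linarith
    by_cases hy : y ∈ (Icc (fun i => max (-1/2) (u i - 1/2)) (fun i => min (1/2) (u i + 1/2)) :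
        Set (Fin n → ℝ))
    · rw [indicator_of_mem hy, indicator_of_mem (h2.1 hy).1, indicator_of_mem (h2.1 hy).2, mul_one]
    · rw [indicator_of_notMem hy]
      by_cases h3 : y ∈ g5b_cube n
      · rw [indicator_of_notMem (fun h4 => hy (h2.2 ⟨h3, h4⟩)), mul_zero]
      · rw [indicator_of_notMem h3, zero_mul]
  simp only [h1]
  rw [integral_indicator measurableSet_Icc, setIntegral_const, smul_eq_mul, mul_one, Measure.real,
    Real.volume_Icc_pi, ENNReal.toReal_prod]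
  unfold g5b_t
  apply Finset.prod_congr rfl
  intro i _
  have h5 : min (1/2) (u i + 1/2) - max (-1/2) (u i - 1/2) = 1 - |u i| := by
    rcases le_total 0 (u i) with h | h
    · rw [abs_of_nonneg h, min_eq_left (by linarith), max_eq_right (by linarith)]
      ring
    · rw [abs_of_nonpos h, min_eq_right (by linarith), max_eq_left (by linarith)]
      ring
  rw [h5]
  rcases le_total 0 (1 - |u i|) with h | h
  · rw [ENNReal.toReal_ofReal h, max_eq_right h]
  · rw [ENNReal.ofReal_of_nonpos h, max_eq_left h]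
    rfl

theorem g5b_t_nonneg {n : ℕ} (u : Fin n → ℝ) : 0 ≤ g5b_t u :=
  Finset.prod_nonneg fun _ _ => le_max_left _ _

theorem g5b_t_ge {n : ℕ} (u : Fin n → ℝ) : 1 - n * ‖u‖ ≤ g5b_t u := by
  have key : ∀ s : Finset (Fin n), 1 - (s.card : ℝ) * ‖u‖ ≤ ∏ i ∈ s, max 0 (1 - |u i|) ∧
      ∏ i ∈ s, max 0 (1 - |u i|) ≤ 1 ∧ 0 ≤ ∏ i ∈ s, max 0 (1 - |u i|) := by
    intro s
    induction s using Finset.induction_on with
    | empty => simp
    | insert a s ha ih =>
      obtain ⟨i1, i2, i3⟩ := ih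
      rw [Finset.prod_insert ha, Finset.card_insert_of_notMem ha]
      have b1 : |u a| ≤ ‖u‖ := by
        have := norm_le_pi_norm u a
        rwa [Real.norm_eq_abs] at this
      have b2 : 0 ≤ max 0 (1 - |u a|) := le_max_left _ _
      have b3 : max 0 (1 - |u a|) ≤ 1 := max_le zero_le_one (by linarith [abs_nonneg (u a)])
      have b4 : 1 - ‖u‖ ≤ max 0 (1 - |u a|) := le_trans (by linarith) (le_max_right _ _)
      have b5 : 0 ≤ ‖u‖ := norm_nonneg u
      refine ⟨?_, mul_le_one₀ b3 i3 i2, mul_nonneg b2 i3⟩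
      push_cast
      have b6 : 0 ≤ (1 - max 0 (1 - |u a|)) * (1 - ∏ i ∈ s, max 0 (1 - |u i|)) :=
        mul_nonneg (by linarith) (by linarith)
      nlinarith
  have := (key Finset.univ).1
  simpa [g5b_t] using this

theorem g5b_tent_eq {n : ℕ} {w : ℝ} (hw : 0 < w) (z : Fin n → ℝ) :
    tent w z = (w ^ n)⁻¹ * g5b_t (w⁻¹ • z) := by
  unfold tent g5b_t
  rw [Finset.prod_div_distrib, Finset.prod_const, Finset.card_univ, Fintype.card_fin,
    div_eq_inv_mul]
  congr 1
  apply Finset.prod_congr rfl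
  intro i _
  rw [Pi.smul_apply, smul_eq_mul, abs_mul, abs_of_pos (inv_pos.2 hw), div_eq_inv_mul]

theorem g5b_tent_nonneg {n : ℕ} {w : ℝ} (hw : 0 < w) (z : Fin n → ℝ) : 0 ≤ tent w z := by
  unfold tent
  exact Finset.prod_nonneg fun _ _ => div_nonneg (le_max_left _ _) hw.le

theorem g5b_tent_meas {n : ℕ} (w : ℝ) : Measurable (tent (n := n) w) := by
  unfold tent
  fun_prop

theorem g5b_tent_even {n : ℕ} (w : ℝ) (z : Fin n → ℝ) : tent w (-z) = tent w z := by
  unfold tent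
  simp

theorem g5b_tent_le {n : ℕ} {w : ℝ} (hw : 0 < w) (z : Fin n → ℝ) : tent w z ≤ (w ^ n)⁻¹ := by
  unfold tent
  calc ∏ i, max 0 (1 - |z i| / w) / w ≤ ∏ _i : Fin n, w⁻¹ := by
        apply Finset.prod_le_prod
        · intro i _
          exact div_nonneg (le_max_left _ _) hw.le
        · intro i _
          rw [div_eq_mul_inv]
          have h1 : max 0 (1 - |z i| / w) ≤ 1 :=
            max_le zero_le_one (by have := div_nonneg (abs_nonneg (z i)) hw.le; linarith)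
          have h2 : 0 ≤ w⁻¹ := (inv_pos.2 hw).le
          nlinarith
    _ = (w ^ n)⁻¹ := by simp

theorem g5b_tent_supp {n : ℕ} {w : ℝ} (hw : 0 < w) {z : Fin n → ℝ} (hz : tent w z ≠ 0) :
    ‖z‖ ≤ w := by
  rw [pi_norm_le_iff_of_nonneg hw.le]
  intro i
  by_contra hc
  push Not at hc
  apply hz
  unfold tent
  apply Finset.prod_eq_zero (Finset.mem_univ i)
  rw [Real.norm_eq_abs] at hc
  have : 1 - |z i| / w ≤ 0 := by
    have : 1 < |z i| / w := (one_lt_div hw).2 hc
    linarith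
  rw [max_eq_left this, zero_div]

theorem g5b_integrable {Ω A : Type} [MeasurableSpace Ω] [MeasurableSpace A] (m : Measure Ω)
    [SFinite m] (μ : Measure A) [SFinite μ] (f : Ω × A → ℝ) (hf : Measurable f) (B : ℝ)
    (hB : ∀ p, |f p| ≤ B) (S : Set A) (hS : MeasurableSet S) (hμ : μ S ≠ ⊤) (K : ENNReal)
    (hK : K ≠ ⊤) (hT : ∀ a, m {p | f (p, a) ≠ 0} ≤ K) (h0 : ∀ p a, a ∉ S → f (p, a) = 0) :
    Integrable f (m.prod μ) := by
  refine ⟨hf.aestronglyMeasurable, ?_⟩
  unfold HasFiniteIntegral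
  rw [lintegral_prod_symm' _ (by fun_prop)]
  have h1 : ∀ a, ∫⁻ p, ‖f (p, a)‖ₑ ∂m ≤ S.indicator (fun _ => ENNReal.ofReal B * K) a := by
    intro a
    by_cases ha : a ∈ S
    · rw [indicator_of_mem ha]
      have hm : MeasurableSet {p | f (p, a) ≠ 0} := by
        have : Measurable fun p => f (p, a) := hf.comp (by fun_prop)
        exact (measurableSet_singleton (0 : ℝ)).compl.preimage this
      calc ∫⁻ p, ‖f (p, a)‖ₑ ∂m ≤ ∫⁻ p, {p | f (p, a) ≠ 0}.indicator
            (fun _ => ENNReal.ofReal B) p ∂m := by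
            apply lintegral_mono
            intro p
            by_cases hp : f (p, a) = 0
            · simp [hp]
            · rw [indicator_of_mem (by exact hp)]
              change ‖f (p, a)‖ₑ ≤ _
              rw [Real.enorm_eq_ofReal_abs]
              exact ENNReal.ofReal_le_ofReal (hB _)
        _ = ENNReal.ofReal B * m {p | f (p, a) ≠ 0} := by
            rw [lintegral_indicator hm, setLIntegral_const]
        _ ≤ ENNReal.ofReal B * K := by gcongr; exact hT a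
    · rw [indicator_of_notMem ha]
      simp [h0 _ a ha]
  calc ∫⁻ a, ∫⁻ p, ‖f (p, a)‖ₑ ∂m ∂μ ≤ ∫⁻ a, S.indicator (fun _ => ENNReal.ofReal B * K) a ∂μ :=
        lintegral_mono h1
    _ = ENNReal.ofReal B * K * μ S := by rw [lintegral_indicator hS, setLIntegral_const]
    _ < ⊤ := ENNReal.mul_lt_top (ENNReal.mul_lt_top ENNReal.ofReal_lt_top (lt_top_iff_ne_top.2 hK))
        (lt_top_iff_ne_top.2 hμ)

/-- indicator of the unit cube -/
noncomputable def g5b_c {n : ℕ} (y : Fin n → ℝ) : ℝ := (g5b_cube n).indicator (fun _ => (1 : ℝ)) y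

theorem g5b_c_meas {n : ℕ} : Measurable (g5b_c (n := n)) :=
  measurable_const.indicator (g5b_cube_meas n)

theorem g5b_c_01 {n : ℕ} (y : Fin n → ℝ) : g5b_c y = 0 ∨ g5b_c y = 1 := by
  unfold g5b_c
  by_cases hy : y ∈ g5b_cube n
  · right; rw [indicator_of_mem hy]
  · left; rw [indicator_of_notMem hy]

theorem g5b_c_ne {n : ℕ} {y : Fin n → ℝ} (h : g5b_c y ≠ 0) : y ∈ g5b_cube n := by
  by_contra hy
  exact h (by unfold g5b_c; rw [indicator_of_notMem hy])

theorem g5b_c_neg {n : ℕ} (y : Fin n → ℝ) : g5b_c (-y) = g5b_c y := by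
  unfold g5b_c
  by_cases hy : y ∈ g5b_cube n
  · rw [indicator_of_mem hy, indicator_of_mem (g5b_neg_cube.2 hy)]
  · rw [indicator_of_notMem hy, indicator_of_notMem (fun h => hy (g5b_neg_cube.1 h))]

theorem g5b_c_mul {n : ℕ} (φ : (Fin n → ℝ) → ℝ) (y : Fin n → ℝ) :
    g5b_c y * φ y = (g5b_cube n).indicator φ y := by
  unfold g5b_c
  by_cases hy : y ∈ g5b_cube n
  · rw [indicator_of_mem hy, indicator_of_mem hy, one_mul]
  · rw [indicator_of_notMem hy, indicator_of_notMem hy, zero_mul]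

theorem g5b_c_int {n : ℕ} (φ : (Fin n → ℝ) → ℝ) :
    ∫ y in g5b_cube n, φ y = ∫ y, g5b_c y * φ y := by
  simp only [g5b_c_mul]
  rw [integral_indicator (g5b_cube_meas n)]

theorem g5b_c_integrable {n : ℕ} : Integrable (g5b_c (n := n)) := by
  unfold g5b_c
  rw [integrable_indicator_iff (g5b_cube_meas n)]
  exact integrableOn_const (by rw [g5b_cube_vol]; simp)

theorem g5b_c_one {n : ℕ} : ∫ y, g5b_c (n := n) y = 1 := by
  have := g5b_c_int (n := n) (fun _ => 1)
  simp only [mul_one] at this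
  rw [← this]
  simp [g5b_cube_vol, Measure.real]

theorem g5b_BB {n : ℕ} {w : ℝ} (hw : 0 < w) {φ : (Fin n → ℝ) → ℝ} (hφ : Measurable φ) {B : ℝ}
    (hB : ∀ x, |φ x| ≤ B) (z : Fin n → ℝ) :
    avg w (avg w φ) z = ∫ y, tent w y * φ (z + y) := by
  have hB0 : 0 ≤ B := (abs_nonneg _).trans (hB z)
  have hc := g5b_c_meas (n := n)
  have s1 : ∀ y1 : Fin n → ℝ, avg w φ (z + w • y1) = ∫ u, g5b_c (u - y1) * φ (z + w • u) := by
    intro y1
    rw [g5b_avg_def, g5b_c_int, ← integral_sub_right_eq_self _ y1]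
    congr 1
    funext u
    congr 2
    rw [smul_sub]
    abel
  have s2 : avg w (avg w φ) z = ∫ y1, ∫ u, g5b_c y1 * (g5b_c (u - y1) * φ (z + w • u)) := by
    rw [g5b_avg_def, g5b_c_int]
    congr 1
    funext y1
    rw [s1, integral_const_mul]
  have hint : Integrable (Function.uncurry fun (y1 u : Fin n → ℝ) =>
      g5b_c y1 * (g5b_c (u - y1) * φ (z + w • u))) (volume.prod volume) := by
    refine g5b_integrable volume volume _ ?_ B ?_ (Metric.closedBall 0 1)
      Metric.isClosed_closedBall.measurableSet ?_ 1 (by simp) ?_ ?_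
    · unfold Function.uncurry
      exact (hc.comp measurable_fst).mul ((hc.comp (measurable_snd.sub measurable_fst)).mul
        (hφ.comp (by fun_prop)))
    · rintro ⟨y1, u⟩
      simp only [Function.uncurry]
      rcases g5b_c_01 y1 with h | h <;> rcases g5b_c_01 (u - y1) with h' | h' <;>
        rw [h, h'] <;> simp [hB0, hB]
    · exact (isCompact_closedBall _ _).measure_lt_top.ne
    · intro u
      calc (volume : Measure (Fin n → ℝ)) {p | Function.uncurry (fun (y1 u : Fin n → ℝ) =>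
            g5b_c y1 * (g5b_c (u - y1) * φ (z + w • u))) (p, u) ≠ 0}
          ≤ volume (g5b_cube n) := by
            apply measure_mono
            intro p hp
            exact g5b_c_ne (left_ne_zero_of_mul hp)
        _ = 1 := g5b_cube_vol n
    · intro p u hu
      by_contra hne
      simp only [Function.uncurry] at hne
      have h1 := g5b_norm_cube (g5b_c_ne (left_ne_zero_of_mul hne))
      have h2 := g5b_norm_cube (g5b_c_ne (left_ne_zero_of_mul (right_ne_zero_of_mul hne)))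
      apply hu
      rw [mem_closedBall_zero_iff]
      calc ‖u‖ = ‖(u - p) + p‖ := by rw [sub_add_cancel]
        _ ≤ ‖u - p‖ + ‖p‖ := norm_add_le _ _
        _ ≤ 1 := by linarith
  rw [s2, integral_integral_swap hint]
  have s3 : ∀ u : Fin n → ℝ, ∫ y1, g5b_c y1 * (g5b_c (u - y1) * φ (z + w • u)) =
      g5b_t (w⁻¹ • (w • u)) * φ (z + w • u) := by
    intro u
    have e : ∀ y1 : Fin n → ℝ, g5b_c y1 * (g5b_c (u - y1) * φ (z + w • u)) =
        (g5b_c y1 * g5b_c (u - y1)) * φ (z + w • u) := fun y1 => by ring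
    simp only [e]
    rw [integral_mul_const, smul_smul, inv_mul_cancel₀ hw.ne', one_smul, ← g5b_t_eq]
    rfl
  simp only [s3]
  have s4 := Measure.integral_comp_smul (volume : Measure (Fin n → ℝ))
    (fun y => g5b_t (w⁻¹ • y) * φ (z + y)) w
  rw [s4]
  simp only [g5b_tent_eq hw, mul_assoc]
  rw [integral_const_mul, smul_eq_mul]
  congr 1
  rw [abs_of_pos (inv_pos.2 (pow_pos hw _))]
  simp

theorem g5b_tent_one {n : ℕ} {w : ℝ} (hw : 0 < w) : ∫ y, tent (n := n) w y = 1 := by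
  have h := g5b_BB (n := n) hw (φ := fun _ => 1) measurable_const (B := 1) (by simp) 0
  simp only [mul_one] at h
  rw [← h]
  have h2 : ∀ z : Fin n → ℝ, avg w (fun _ => (1 : ℝ)) z = 1 := by
    intro z
    rw [g5b_avg_def]
    simp [g5b_cube_vol, Measure.real]
  have h3 : avg w (fun _ : Fin n → ℝ => (1 : ℝ)) = fun _ => 1 := funext h2
  rw [h3, h2]

theorem g5b_avg_lip {n : ℕ} {w : ℝ} (hw : 0 < w) {φ : (Fin n → ℝ) → ℝ} (hφ : Measurable φ)
    {B : ℝ} (hB : ∀ x, |φ x| ≤ B) (X X' : Fin n → ℝ) :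
    |avg w φ X - avg w φ X'| ≤ 2 * B * (n * (‖X - X'‖ / w)) := by
  have hB0 : 0 ≤ B := (abs_nonneg _).trans (hB X)
  have hc := g5b_c_meas (n := n)
  set δ : Fin n → ℝ := w⁻¹ • (X' - X) with hδ
  have hwδ : w • δ = X' - X := by rw [hδ, smul_smul, mul_inv_cancel₀ hw.ne', one_smul]
  have e1 : avg w φ X = ∫ y, g5b_c (-δ - y) * φ (X' + w • y) := by
    rw [g5b_avg_def, g5b_c_int, ← integral_add_right_eq_self _ δ]
    congr 1
    funext y
    rw [← g5b_c_neg (y + δ)]
    congr 2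
    · abel
    · rw [smul_add, hwδ]; abel
  have e2 : avg w φ X' = ∫ y, g5b_c y * φ (X' + w • y) := by
    rw [g5b_avg_def, g5b_c_int]
  have i0 : Integrable (fun y : Fin n → ℝ => g5b_c (-δ - y)) := by
    have := (g5b_c_integrable (n := n)).comp_sub_left (-δ)
    exact this
  have hφm : AEStronglyMeasurable (fun y => φ (X' + w • y)) (volume : Measure (Fin n → ℝ)) :=
    (hφ.comp (by fun_prop)).aestronglyMeasurable
  have i1 : Integrable (fun y : Fin n → ℝ => g5b_c (-δ - y) * φ (X' + w • y)) :=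
    i0.mul_bdd (c := B) hφm (Filter.Eventually.of_forall fun y => hB _)
  have i2 : Integrable (fun y : Fin n → ℝ => g5b_c y * φ (X' + w • y)) :=
    g5b_c_integrable.mul_bdd (c := B) hφm (Filter.Eventually.of_forall fun y => hB _)
  have i3 : Integrable (fun y : Fin n → ℝ => g5b_c y * g5b_c (-δ - y)) := by
    refine g5b_c_integrable.mul_bdd (c := 1)
      (hc.comp (measurable_const.sub measurable_id)).aestronglyMeasurable (Filter.Eventually.of_forall fun y => ?_)
    rcases g5b_c_01 (-δ - y) with h | h <;> simp [h]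
  rw [e1, e2, ← integral_sub i1 i2]
  have hmaj : ∀ y : Fin n → ℝ, ‖g5b_c (-δ - y) * φ (X' + w • y) - g5b_c y * φ (X' + w • y)‖ ≤
      B * (g5b_c (-δ - y) + g5b_c y - 2 * (g5b_c y * g5b_c (-δ - y))) := by
    intro y
    rw [← sub_mul, norm_mul, mul_comm, Real.norm_eq_abs, Real.norm_eq_abs]
    refine mul_le_mul (hB _) ?_ (abs_nonneg _) hB0
    rcases g5b_c_01 (-δ - y) with h | h <;> rcases g5b_c_01 y with h' | h' <;>
      rw [h, h'] <;> norm_num
  have i4 : Integrable (fun y : Fin n → ℝ =>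
      B * (g5b_c (-δ - y) + g5b_c y - 2 * (g5b_c y * g5b_c (-δ - y)))) :=
    ((i0.add g5b_c_integrable).sub (i3.const_mul 2)).const_mul B
  have h1 := norm_integral_le_of_norm_le i4 (Filter.Eventually.of_forall hmaj)
  rw [Real.norm_eq_abs] at h1
  refine h1.trans ?_
  have h2 : ∫ y : Fin n → ℝ, B * (g5b_c (-δ - y) + g5b_c y - 2 * (g5b_c y * g5b_c (-δ - y))) =
      B * (1 + 1 - 2 * g5b_t (-δ)) := by
    have a1 : ∫ y : Fin n → ℝ, (g5b_c (-δ - y) + g5b_c y - 2 * (g5b_c y * g5b_c (-δ - y))) =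
        (∫ y : Fin n → ℝ, (g5b_c (-δ - y) + g5b_c y)) -
          ∫ y : Fin n → ℝ, 2 * (g5b_c y * g5b_c (-δ - y)) :=
      integral_sub (i0.add g5b_c_integrable) (i3.const_mul 2)
    rw [integral_const_mul, a1, integral_add i0 g5b_c_integrable, integral_const_mul]
    congr 2
    · rw [g5b_c_one]
      have h3 := integral_sub_left_eq_self (g5b_c (n := n)) volume (-δ)
      rw [h3, g5b_c_one]
    · rw [← g5b_t_eq]
      rfl
  rw [h2]
  have h3 := g5b_t_ge (-δ)
  have h4 : ‖-δ‖ = ‖X - X'‖ / w := by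
    rw [norm_neg, hδ, norm_smul, Real.norm_eq_abs, abs_of_pos (inv_pos.2 hw), norm_sub_rev]
    rw [div_eq_inv_mul]
  rw [h4] at h3
  have h5 : 2 * B * (n * (‖X - X'‖ / w)) = B * (2 * (n * (‖X - X'‖ / w))) := by ring
  rw [h5]
  apply mul_le_mul_of_nonneg_left _ hB0
  linarith

/-- smoothing by the tent kernel -/
noncomputable def g5b_T {n : ℕ} (v : ℝ) (g : (Fin n → ℝ) → ℝ) (X : Fin n → ℝ) : ℝ :=
  ∫ y, tent v y * g (X - y)

theorem g5b_tent_integrable {n : ℕ} {v : ℝ} (hv : 0 < v) : Integrable (tent (n := n) v) := by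
  by_contra h
  have h1 := integral_undef h
  rw [g5b_tent_one hv] at h1
  exact one_ne_zero h1

theorem g5b_T_int {n : ℕ} {v : ℝ} (hv : 0 < v) {g : (Fin n → ℝ) → ℝ} (hg : Measurable g) {B : ℝ}
    (hB : ∀ x, |g x| ≤ B) (X : Fin n → ℝ) : Integrable (fun y => tent v y * g (X - y)) :=
  (g5b_tent_integrable hv).mul_bdd (c := B)
    (hg.comp (measurable_const.sub measurable_id)).aestronglyMeasurable
    (Filter.Eventually.of_forall fun y => hB _)

theorem g5b_T_bdd {n : ℕ} {v : ℝ} (hv : 0 < v) {g : (Fin n → ℝ) → ℝ} {B : ℝ}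
    (hB : ∀ x, |g x| ≤ B) (X : Fin n → ℝ) : |g5b_T v g X| ≤ B := by
  unfold g5b_T
  have h1 : ∀ y, ‖tent v y * g (X - y)‖ ≤ tent v y * B := by
    intro y
    rw [norm_mul, Real.norm_eq_abs, Real.norm_eq_abs, abs_of_nonneg (g5b_tent_nonneg hv y)]
    exact mul_le_mul_of_nonneg_left (hB _) (g5b_tent_nonneg hv y)
  have h2 := norm_integral_le_of_norm_le ((g5b_tent_integrable (n := n) hv).mul_const B)
    (Filter.Eventually.of_forall h1)
  rw [integral_mul_const, g5b_tent_one hv, one_mul] at h2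
  exact h2

theorem g5b_T_meas {n : ℕ} (v : ℝ) {g : (Fin n → ℝ) → ℝ} (hg : Measurable g) :
    Measurable (g5b_T v g) := by
  have h : StronglyMeasurable (fun p : (Fin n → ℝ) × (Fin n → ℝ) => tent v p.2 * g (p.1 - p.2)) :=
    (((g5b_tent_meas v).comp measurable_snd).mul
      (hg.comp (measurable_fst.sub measurable_snd))).stronglyMeasurable
  exact (h.integral_prod_right (ν := (volume : Measure (Fin n → ℝ)))).measurable

theorem g5b_T_sub {n : ℕ} {v : ℝ} (hv : 0 < v) {g g' : (Fin n → ℝ) → ℝ} (hg : Measurable g)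
    (hg' : Measurable g') {B B' : ℝ} (hB : ∀ x, |g x| ≤ B) (hB' : ∀ x, |g' x| ≤ B')
    (X : Fin n → ℝ) : g5b_T v (fun x => g x - g' x) X = g5b_T v g X - g5b_T v g' X := by
  unfold g5b_T
  rw [← integral_sub (g5b_T_int hv hg hB X) (g5b_T_int hv hg' hB' X)]
  congr 1
  funext y
  ring

theorem g5b_avg_int {n : ℕ} (w : ℝ) {g : (Fin n → ℝ) → ℝ} (hg : Measurable g) {B : ℝ}
    (hB : ∀ x, |g x| ≤ B) (X : Fin n → ℝ) :
    Integrable (fun y => g (X + w • y)) ((volume : Measure (Fin n → ℝ)).restrict (g5b_cube n)) :=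
  g5b_int_cube (hg.comp (by fun_prop)) (fun _ => hB _)

theorem g5b_avg_sub {n : ℕ} (w : ℝ) {g g' : (Fin n → ℝ) → ℝ} (hg : Measurable g)
    (hg' : Measurable g') {B B' : ℝ} (hB : ∀ x, |g x| ≤ B) (hB' : ∀ x, |g' x| ≤ B')
    (X : Fin n → ℝ) : avg w (fun x => g x - g' x) X = avg w g X - avg w g' X := by
  rw [g5b_avg_def, g5b_avg_def, g5b_avg_def]
  exact integral_sub (g5b_avg_int w hg hB X) (g5b_avg_int w hg' hB' X)

theorem g5b_T_lip {n : ℕ} {v : ℝ} (hv : 0 < v) {g : (Fin n → ℝ) → ℝ} (hg : Measurable g) {B : ℝ}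
    (hB : ∀ x, |g x| ≤ B) {lam : ℝ} (hl : ∀ x y, |g x - g y| ≤ lam * ‖x - y‖)
    (X X' : Fin n → ℝ) : |g5b_T v g X - g5b_T v g X'| ≤ lam * ‖X - X'‖ := by
  unfold g5b_T
  rw [← integral_sub (g5b_T_int hv hg hB X) (g5b_T_int hv hg hB X')]
  have h1 : ∀ y, ‖tent v y * g (X - y) - tent v y * g (X' - y)‖ ≤
      tent v y * (lam * ‖X - X'‖) := by
    intro y
    rw [← mul_sub, norm_mul, Real.norm_eq_abs, Real.norm_eq_abs,
      abs_of_nonneg (g5b_tent_nonneg hv y)]
    apply mul_le_mul_of_nonneg_left _ (g5b_tent_nonneg hv y)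
    have := hl (X - y) (X' - y)
    rwa [sub_sub_sub_cancel_right] at this
  have h2 := norm_integral_le_of_norm_le
    ((g5b_tent_integrable (n := n) hv).mul_const (lam * ‖X - X'‖))
    (Filter.Eventually.of_forall h1)
  rw [integral_mul_const, g5b_tent_one hv, one_mul] at h2
  exact h2

theorem g5b_T_near {n : ℕ} {v : ℝ} (hv : 0 < v) {g : (Fin n → ℝ) → ℝ} (hg : Measurable g) {B : ℝ}
    (hB : ∀ x, |g x| ≤ B) {lam : ℝ} (hlam : 0 ≤ lam) (hl : ∀ x y, |g x - g y| ≤ lam * ‖x - y‖)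
    (X : Fin n → ℝ) : |g5b_T v g X - g X| ≤ lam * v := by
  have e : g X = ∫ y : Fin n → ℝ, tent v y * g X := by
    rw [integral_mul_const, g5b_tent_one hv, one_mul]
  conv_lhs => rw [e]
  unfold g5b_T
  rw [← integral_sub (g5b_T_int hv hg hB X) ((g5b_tent_integrable hv).mul_const _)]
  have h1 : ∀ y, ‖tent v y * g (X - y) - tent v y * g X‖ ≤ tent v y * (lam * v) := by
    intro y
    rw [← mul_sub, norm_mul, Real.norm_eq_abs, Real.norm_eq_abs,
      abs_of_nonneg (g5b_tent_nonneg hv y)]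
    by_cases hy : tent v y = 0
    · rw [hy]; simp
    · apply mul_le_mul_of_nonneg_left _ (g5b_tent_nonneg hv y)
      have h2 := hl (X - y) X
      have h3 : ‖X - y - X‖ ≤ v := by
        have := g5b_tent_supp hv hy
        rwa [sub_sub_cancel_left, norm_neg]
      exact h2.trans (mul_le_mul_of_nonneg_left h3 hlam)
  have h2 := norm_integral_le_of_norm_le
    ((g5b_tent_integrable (n := n) hv).mul_const (lam * v))
    (Filter.Eventually.of_forall h1)
  rw [integral_mul_const, g5b_tent_one hv, one_mul] at h2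
  exact h2

theorem g5b_avg_lip2 {n : ℕ} (w : ℝ) {g : (Fin n → ℝ) → ℝ} (hg : Measurable g) {B : ℝ}
    (hB : ∀ x, |g x| ≤ B) {lam : ℝ} (hl : ∀ x y, |g x - g y| ≤ lam * ‖x - y‖)
    (X X' : Fin n → ℝ) : |avg w g X - avg w g X'| ≤ lam * ‖X - X'‖ := by
  rw [g5b_avg_def, g5b_avg_def, ← integral_sub (g5b_avg_int w hg hB X) (g5b_avg_int w hg hB X'),
    ← Real.norm_eq_abs]
  have := norm_integral_le_of_norm_le_const
    (μ := (volume : Measure (Fin n → ℝ)).restrict (g5b_cube n))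
    (f := fun y => g (X + w • y) - g (X' + w • y)) (C := lam * ‖X - X'‖)
    (Filter.Eventually.of_forall (fun y => by
      have := hl (X + w • y) (X' + w • y)
      rw [add_sub_add_right_eq_sub] at this
      exact this))
  simpa using this

theorem g5b_avg_near {n : ℕ} {w : ℝ} (hw : 0 < w) {g : (Fin n → ℝ) → ℝ} (hg : Measurable g)
    {B : ℝ} (hB : ∀ x, |g x| ≤ B) {lam : ℝ} (hlam : 0 ≤ lam)
    (hl : ∀ x y, |g x - g y| ≤ lam * ‖x - y‖)
    (X : Fin n → ℝ) : |avg w g X - g X| ≤ lam * (w / 2) := by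
  have e : g X = ∫ _y in g5b_cube n, g X := by
    simp [Measure.real, g5b_cube_vol]
  conv_lhs => rw [e]
  rw [g5b_avg_def, ← integral_sub (g5b_avg_int w hg hB X) (integrable_const _),
    ← Real.norm_eq_abs]
  have := norm_integral_le_of_norm_le_const
    (μ := (volume : Measure (Fin n → ℝ)).restrict (g5b_cube n))
    (f := fun y => g (X + w • y) - g X) (C := lam * (w / 2))
    ((ae_restrict_iff' (g5b_cube_meas n)).2 (Filter.Eventually.of_forall (fun y hy => by
      have h1 := hl (X + w • y) X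
      have h2 : ‖X + w • y - X‖ ≤ w / 2 := by
        rw [add_sub_cancel_left, norm_smul, Real.norm_eq_abs, abs_of_pos hw]
        have := g5b_norm_cube hy
        nlinarith
      exact h1.trans (mul_le_mul_of_nonneg_left h2 hlam))))
  simpa using this

section core

variable {n : ℕ} {Ω : Type} [MeasurableSpace Ω] {m : Measure Ω} [SFinite m]

theorem g5b_int_bdd {f : Ω → ℝ} (hf : Measurable f) {B : ℝ} (hB : ∀ p, |f p| ≤ B) {K : ENNReal}
    (hK : K ≠ ⊤) (hT : m {p | f p ≠ 0} ≤ K) : Integrable f m := by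
  have h := g5b_integrable m (Measure.dirac ()) (fun p : Ω × Unit => f p.1)
    (hf.comp measurable_fst) B (fun p => hB _) univ MeasurableSet.univ (by simp) K hK
    (fun _ => hT) (fun _ _ h => absurd (mem_univ _) h)
  have h2 := h.prod_left_ae
  simp at h2
  exact h2

theorem g5b_G_bdd {M : ℝ} (hM : 0 < M) {ζ : Ω → (Fin n → ℝ)} (hζ : Measurable ζ)
    (hMB : ∀ c s, 0 < s → m {p | ‖ζ p - c‖ ≤ s} ≤ ENNReal.ofReal (M * (2 * s) ^ n))
    {w : ℝ} (hw : 0 < w) (X : Fin n → ℝ) : |∫ p, tent w (X - ζ p) ∂m| ≤ M * 2 ^ n := by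
  rw [abs_of_nonneg (integral_nonneg fun p => g5b_tent_nonneg hw _)]
  rw [integral_eq_lintegral_of_nonneg_ae (Filter.Eventually.of_forall fun p => g5b_tent_nonneg hw _)
    ?_]
  · apply ENNReal.toReal_le_of_le_ofReal (by positivity)
    calc ∫⁻ p, ENNReal.ofReal (tent w (X - ζ p)) ∂m ≤
        ∫⁻ p, {p | ‖ζ p - X‖ ≤ w}.indicator (fun _ => ENNReal.ofReal ((w ^ n)⁻¹)) p ∂m := by
          apply lintegral_mono
          intro p
          by_cases hp : ‖ζ p - X‖ ≤ w
          · rw [indicator_of_mem (by exact hp)]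
            exact ENNReal.ofReal_le_ofReal (g5b_tent_le hw _)
          · have : tent w (X - ζ p) = 0 := by
              by_contra hne
              have := g5b_tent_supp hw hne
              rw [norm_sub_rev] at this
              exact hp this
            simp [this]
      _ ≤ ENNReal.ofReal ((w ^ n)⁻¹) * m {p | ‖ζ p - X‖ ≤ w} := by
          have := lintegral_indicator_const_le (μ := m) {p | ‖ζ p - X‖ ≤ w}
            (ENNReal.ofReal ((w ^ n)⁻¹))
          exact this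
      _ ≤ ENNReal.ofReal ((w ^ n)⁻¹) * ENNReal.ofReal (M * (2 * w) ^ n) := by
          gcongr
          exact hMB X w hw
      _ = ENNReal.ofReal (M * 2 ^ n) := by
          rw [← ENNReal.ofReal_mul (by positivity)]
          congr 1
          rw [mul_pow]
          field_simp
  · exact ((g5b_tent_meas w).comp (measurable_const.sub hζ)).aestronglyMeasurable

theorem g5b_G_meas {ζ : Ω → (Fin n → ℝ)} (hζ : Measurable ζ) (w : ℝ) :
    Measurable (fun X => ∫ p, tent w (X - ζ p) ∂m) := by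
  have h : StronglyMeasurable (fun q : (Fin n → ℝ) × Ω => tent w (q.1 - ζ q.2)) :=
    ((g5b_tent_meas w).comp (measurable_fst.sub (hζ.comp measurable_snd))).stronglyMeasurable
  exact (h.integral_prod_right (ν := m)).measurable

theorem g5b_kernel {w v : ℝ} (hw : 0 < w) (hv : 0 < v) (X z0 : Fin n → ℝ) :
    avg w (avg w (avg w (fun z => tent v (X - z)))) z0 =
      ∫ y1 in g5b_cube n, ∫ y, tent v y * tent w (X + w • y1 - y - z0) := by
  have e1 : avg w (fun z : Fin n → ℝ => tent v (X - z)) = fun z => avg w (tent v) (X - z) :=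
    funext fun z => g5b_avg_refl w (tent v) X z
  have e2 : avg w (fun z : Fin n → ℝ => avg w (tent v) (X - z)) =
      fun z => avg w (avg w (tent v)) (X - z) :=
    funext fun z => g5b_avg_refl w (avg w (tent v)) X z
  rw [e1, e2, g5b_avg_refl w (avg w (avg w (tent v))) X z0, g5b_avg_def]
  congr 1
  funext y1
  rw [g5b_BB hw (g5b_tent_meas v) (B := (v ^ n)⁻¹) (fun x => by
    rw [abs_of_nonneg (g5b_tent_nonneg hv x)]; exact g5b_tent_le hv x)]
  rw [← integral_sub_right_eq_self _ (X - z0 + w • y1)]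
  congr 1
  funext y
  rw [mul_comm, add_sub_cancel, ← g5b_tent_even w (y - (X - z0 + w • y1))]
  congr 2
  abel

theorem g5b_ID {M : ℝ} {ζ : Ω → (Fin n → ℝ)} (hζ : Measurable ζ)
    (hMB : ∀ c s, 0 < s → m {p | ‖ζ p - c‖ ≤ s} ≤ ENNReal.ofReal (M * (2 * s) ^ n))
    {w v : ℝ} (hw : 0 < w) (hv : 0 < v) (X : Fin n → ℝ) :
    ∫ p, avg w (avg w (avg w (fun z => tent v (X - z)))) (ζ p) ∂m =
      avg w (g5b_T v (fun x => ∫ p, tent w (x - ζ p) ∂m)) X := by
  have htw := g5b_tent_meas (n := n) w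
  have htv := g5b_tent_meas (n := n) v
  have hbw : ∀ x : Fin n → ℝ, |tent w x| ≤ (w ^ n)⁻¹ := fun x => by
    rw [abs_of_nonneg (g5b_tent_nonneg hw x)]; exact g5b_tent_le hw x
  have hbv : ∀ x : Fin n → ℝ, |tent v x| ≤ (v ^ n)⁻¹ := fun x => by
    rw [abs_of_nonneg (g5b_tent_nonneg hv x)]; exact g5b_tent_le hv x
  have hw0 : 0 ≤ (w ^ n)⁻¹ := by positivity
  have hv0 : 0 ≤ (v ^ n)⁻¹ := by positivity
  simp only [g5b_kernel hw hv]
  -- first exchange
  have hFm : Measurable (Function.uncurry fun (p : Ω) (y1 : Fin n → ℝ) =>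
      ∫ y, tent v y * tent w (X + w • y1 - y - ζ p)) := by
    have h : StronglyMeasurable (fun q : (Ω × (Fin n → ℝ)) × (Fin n → ℝ) =>
        tent v q.2 * tent w (X + w • q.1.2 - q.2 - ζ q.1.1)) := by
      refine Measurable.stronglyMeasurable ?_
      refine (htv.comp measurable_snd).mul (htw.comp ?_)
      have h1 : Measurable fun q : (Ω × (Fin n → ℝ)) × (Fin n → ℝ) => ζ q.1.1 :=
        hζ.comp (measurable_fst.comp measurable_fst)
      have h2 : Measurable fun q : (Ω × (Fin n → ℝ)) × (Fin n → ℝ) => X + w • q.1.2 - q.2 := by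
        fun_prop
      exact h2.sub h1
    exact (h.integral_prod_right (ν := (volume : Measure (Fin n → ℝ)))).measurable
  have i1 : Integrable (Function.uncurry fun (p : Ω) (y1 : Fin n → ℝ) =>
      ∫ y, tent v y * tent w (X + w • y1 - y - ζ p))
      (m.prod ((volume : Measure (Fin n → ℝ)).restrict (g5b_cube n))) := by
    refine g5b_integrable m _ _ hFm ((w ^ n)⁻¹) ?_ univ MeasurableSet.univ (measure_ne_top _ _)
      (ENNReal.ofReal (M * (2 * (w + v)) ^ n)) ENNReal.ofReal_ne_top ?_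
      (fun _ _ h => absurd (mem_univ _) h)
    · rintro ⟨p, y1⟩
      have := g5b_T_bdd hv (g := fun x => tent w (x - ζ p)) (B := (w ^ n)⁻¹)
        (fun x => hbw _) (X + w • y1)
      exact this
    · intro y1
      refine le_trans (measure_mono ?_) (hMB (X + w • y1) (w + v) (by linarith))
      intro p hp
      simp only [mem_ofPred_eq, Function.uncurry] at hp ⊢
      by_contra hc
      apply hp
      have : ∀ y : Fin n → ℝ, tent v y * tent w (X + w • y1 - y - ζ p) = 0 := by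
        intro y
        by_contra hne
        have h1 := g5b_tent_supp hv (left_ne_zero_of_mul hne)
        have h2 := g5b_tent_supp hw (right_ne_zero_of_mul hne)
        apply hc
        calc ‖ζ p - (X + w • y1)‖ = ‖-(X + w • y1 - y - ζ p) + -y‖ := by congr 1; abel
          _ ≤ ‖-(X + w • y1 - y - ζ p)‖ + ‖-y‖ := norm_add_le _ _
          _ ≤ w + v := by rw [norm_neg, norm_neg]; linarith
      simp [this]
  rw [integral_integral_swap i1, g5b_avg_def]
  congr 1
  funext y1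
  -- second exchange
  have i2 : Integrable (Function.uncurry fun (p : Ω) (y : Fin n → ℝ) =>
      tent v y * tent w (X + w • y1 - y - ζ p)) (m.prod volume) := by
    refine g5b_integrable m _ _ ?_ ((v ^ n)⁻¹ * (w ^ n)⁻¹) ?_ (Metric.closedBall 0 v)
      Metric.isClosed_closedBall.measurableSet (isCompact_closedBall _ _).measure_lt_top.ne
      (ENNReal.ofReal (M * (2 * w) ^ n)) ENNReal.ofReal_ne_top ?_ ?_
    · refine (htv.comp measurable_snd).mul (htw.comp ?_)
      have h1 : Measurable fun q : Ω × (Fin n → ℝ) => ζ q.1 := hζ.comp measurable_fst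
      have h2 : Measurable fun q : Ω × (Fin n → ℝ) => X + w • y1 - q.2 := by
        fun_prop
      exact h2.sub h1
    · rintro ⟨p, y⟩
      simp only [Function.uncurry]
      rw [abs_mul]
      exact mul_le_mul (hbv _) (hbw _) (abs_nonneg _) hv0
    · intro y
      refine le_trans (measure_mono ?_) (hMB (X + w • y1 - y) w hw)
      intro p hp
      simp only [mem_ofPred_eq, Function.uncurry] at hp ⊢
      have := g5b_tent_supp hw (right_ne_zero_of_mul hp)
      rwa [norm_sub_rev]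
    · intro p y hy
      simp only [Function.uncurry]
      by_contra hne
      apply hy
      rw [mem_closedBall_zero_iff]
      exact g5b_tent_supp hv (left_ne_zero_of_mul hne)
  rw [integral_integral_swap i2]
  unfold g5b_T
  congr 1
  funext y
  rw [integral_const_mul]

end core

theorem g5b_summable (q : ℕ) : Summable (fun i : ℕ => ((i : ℝ) + 1) ^ (q + 1) / 2 ^ i) := by
  have h := summable_pow_mul_geometric_of_norm_lt_one (R := ℝ) (q + 1) (r := 1 / 2)
    (by rw [Real.norm_eq_abs]; norm_num)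
  have h2 := ((summable_nat_add_iff 1).2 h).mul_left 2
  refine h2.congr ?_
  intro i
  push_cast
  rw [one_div, inv_pow, pow_succ]
  field_simp
  ring

theorem g5b_tail (q : ℕ) (k : ℕ) :
    Summable (fun j : ℕ => (((k + j : ℕ) : ℝ) + 1) ^ (q + 1) / 2 ^ (k + j)) ∧
    ∑' j : ℕ, (((k + j : ℕ) : ℝ) + 1) ^ (q + 1) / 2 ^ (k + j) ≤
      (∑' i : ℕ, ((i : ℝ) + 1) ^ (q + 1) / 2 ^ i) * (((k : ℝ) + 1) ^ (q + 1) / 2 ^ k) := by
  have h1 : ∀ j : ℕ, (((k + j : ℕ) : ℝ) + 1) ^ (q + 1) / 2 ^ (k + j) ≤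
      (((j : ℝ) + 1) ^ (q + 1) / 2 ^ j) * (((k : ℝ) + 1) ^ (q + 1) / 2 ^ k) := by
    intro j
    rw [div_mul_div_comm, ← mul_pow, ← pow_add, add_comm j k]
    apply div_le_div_of_nonneg_right _ (by positivity)
    apply pow_le_pow_left₀ (by positivity)
    push_cast
    have hk : (0 : ℝ) ≤ k := Nat.cast_nonneg k
    have hj : (0 : ℝ) ≤ j := Nat.cast_nonneg j
    nlinarith
  have h2 := (g5b_summable q).mul_right (((k : ℝ) + 1) ^ (q + 1) / 2 ^ k)
  have h3 : Summable (fun j : ℕ => (((k + j : ℕ) : ℝ) + 1) ^ (q + 1) / 2 ^ (k + j)) :=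
    Summable.of_nonneg_of_le (fun j => by positivity) h1 h2
  refine ⟨h3, ?_⟩
  rw [← tsum_mul_right]
  exact Summable.tsum_le_tsum h1 h3 h2

theorem g5b_mass {n : ℕ} {Ω : Type} [MeasurableSpace Ω] {m : Measure Ω} [SFinite m]
    {M : ℝ} (hM : 0 < M) {ζ Z : Ω → (Fin n → ℝ)} (hζ : Measurable ζ) (hZ : Measurable Z)
    (hMB : ∀ c s, 0 < s → m {p | ‖ζ p - c‖ ≤ s} ≤ ENNReal.ofReal (M * (2 * s) ^ n))
    {w : ℝ} (hw : 0 < w) (hw1 : w ≤ 1) {r : ℝ} (hwr : w ≤ r) (hr3 : r ≤ 3)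
    (hlim : ∀ p, ‖Z p - ζ p‖ ≤ r) {φ : (Fin n → ℝ) → ℝ} (hφm : Measurable φ) {Bφ : ℝ}
    (hφB : ∀ x, |φ x| ≤ Bφ) {R : ℝ} (hR : 0 ≤ R) (hφR : ∀ x, φ x ≠ 0 → ‖x‖ ≤ R) {ε : ℝ}
    (hε : ∀ x y, ‖x - y‖ ≤ r → |φ x - φ y| ≤ ε) :
    |∫ p, φ (Z p) ∂m - ∫ X, φ X * ∫ p, tent w (X - ζ p) ∂m| ≤
      2 * ε * (M * (2 * (R + 4)) ^ n) := by
  have hε0 : 0 ≤ ε := by
    have := hε 0 0 (by simp; linarith)
    simpa using this
  have htw := g5b_tent_meas (n := n) w
  have hbw : ∀ x : Fin n → ℝ, |tent w x| ≤ (w ^ n)⁻¹ := fun x => by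
    rw [abs_of_nonneg (g5b_tent_nonneg hw x)]; exact g5b_tent_le hw x
  have hB0 : 0 ≤ Bφ := (abs_nonneg _).trans (hφB 0)
  have i1 : Integrable (Function.uncurry fun (p : Ω) (X : Fin n → ℝ) =>
      φ X * tent w (X - ζ p)) (m.prod volume) := by
    refine g5b_integrable m _ _ ?_ (Bφ * (w ^ n)⁻¹) ?_ (Metric.closedBall 0 R)
      Metric.isClosed_closedBall.measurableSet (isCompact_closedBall _ _).measure_lt_top.ne
      (ENNReal.ofReal (M * (2 * w) ^ n)) ENNReal.ofReal_ne_top ?_ ?_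
    · refine (hφm.comp measurable_snd).mul (htw.comp ?_)
      exact measurable_snd.sub (hζ.comp measurable_fst)
    · rintro ⟨p, y⟩
      simp only [Function.uncurry]
      rw [abs_mul]
      exact mul_le_mul (hφB _) (hbw _) (abs_nonneg _) hB0
    · intro y
      refine le_trans (measure_mono ?_) (hMB y w hw)
      intro p hp
      simp only [mem_ofPred_eq, Function.uncurry] at hp ⊢
      have := g5b_tent_supp hw (right_ne_zero_of_mul hp)
      rwa [norm_sub_rev]
    · intro p y hy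
      simp only [Function.uncurry]
      by_contra hne
      apply hy
      rw [mem_closedBall_zero_iff]
      exact hφR _ (left_ne_zero_of_mul hne)
  have e1 : ∫ X, φ X * ∫ p, tent w (X - ζ p) ∂m = ∫ p, (∫ X : Fin n → ℝ, φ X * tent w (X - ζ p)) ∂m := by
    rw [integral_integral_swap i1]
    congr 1
    funext X
    rw [integral_const_mul]
  have i2 : Integrable (fun p => ∫ X, φ X * tent w (X - ζ p)) m := i1.integral_prod_left
  have hZsmall : ∀ p, R + 4 < ‖ζ p‖ → φ (Z p) = 0 := by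
    intro p hp
    by_contra hne
    have h1 := hφR _ hne
    have h2 := hlim p
    have : ‖ζ p‖ ≤ ‖Z p‖ + ‖Z p - ζ p‖ := by
      calc ‖ζ p‖ = ‖Z p - (Z p - ζ p)‖ := by congr 1; abel
        _ ≤ _ := norm_sub_le _ _
    linarith
  have hKm : m {p | ‖ζ p‖ ≤ R + 4} ≤ ENNReal.ofReal (M * (2 * (R + 4)) ^ n) := by
    have := hMB 0 (R + 4) (by linarith)
    simpa using this
  have i3 : Integrable (fun p => φ (Z p)) m := by
    refine g5b_int_bdd (hφm.comp hZ) (fun p => hφB _) ENNReal.ofReal_ne_top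
      (le_trans (measure_mono ?_) hKm)
    intro p hp
    simp only [mem_ofPred_eq] at hp ⊢
    by_contra hc
    push Not at hc
    exact hp (hZsmall p hc)
  rw [e1, ← integral_sub i3 i2]
  have hpt : ∀ p, ‖φ (Z p) - ∫ X, φ X * tent w (X - ζ p)‖ ≤
      {p | ‖ζ p‖ ≤ R + 4}.indicator (fun _ => 2 * ε) p := by
    intro p
    have itent : Integrable (fun X : Fin n → ℝ => tent w (X - ζ p)) :=
      (g5b_tent_integrable hw).comp_sub_right (ζ p)
    by_cases hp : ‖ζ p‖ ≤ R + 4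
    · rw [indicator_of_mem (by exact hp)]
      have h1 : |φ (Z p) - φ (ζ p)| ≤ ε := hε _ _ (hlim p)
      have h2 : φ (ζ p) = ∫ X : Fin n → ℝ, φ (ζ p) * tent w (X - ζ p) := by
        rw [integral_const_mul, integral_sub_right_eq_self (tent w) (ζ p), g5b_tent_one hw, mul_one]
      have i4 : Integrable (fun X : Fin n → ℝ => φ X * tent w (X - ζ p)) :=
        itent.bdd_mul (c := Bφ) hφm.aestronglyMeasurable (Filter.Eventually.of_forall fun y => hφB _)
      have h3 : |φ (ζ p) - ∫ X, φ X * tent w (X - ζ p)| ≤ ε := by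
        conv_lhs => rw [h2]
        rw [← integral_sub (itent.const_mul _) i4, ← Real.norm_eq_abs]
        have h4 : ∀ X, ‖φ (ζ p) * tent w (X - ζ p) - φ X * tent w (X - ζ p)‖ ≤
            ε * tent w (X - ζ p) := by
          intro X
          rw [← sub_mul, norm_mul, Real.norm_eq_abs, Real.norm_eq_abs,
            abs_of_nonneg (g5b_tent_nonneg hw (X - ζ p))]
          by_cases hX : tent w (X - ζ p) = 0
          · rw [hX]; simp
          · apply mul_le_mul_of_nonneg_right _ (g5b_tent_nonneg hw _)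
            apply hε
            rw [norm_sub_rev]
            exact (g5b_tent_supp hw hX).trans hwr
        have h5 := norm_integral_le_of_norm_le (itent.const_mul ε) (Filter.Eventually.of_forall h4)
        rw [integral_const_mul, integral_sub_right_eq_self (tent w) (ζ p), g5b_tent_one hw,
          mul_one] at h5
        exact h5
      rw [Real.norm_eq_abs]
      calc |φ (Z p) - ∫ X, φ X * tent w (X - ζ p)| =
            |(φ (Z p) - φ (ζ p)) + (φ (ζ p) - ∫ X, φ X * tent w (X - ζ p))| := by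
              congr 1; ring
        _ ≤ _ := abs_add_le _ _
        _ ≤ 2 * ε := by linarith
    · rw [indicator_of_notMem (by exact hp)]
      push Not at hp
      rw [hZsmall p hp]
      have : ∀ X, φ X * tent w (X - ζ p) = 0 := by
        intro X
        by_contra hne
        have h1 := hφR _ (left_ne_zero_of_mul hne)
        have h2 := g5b_tent_supp hw (right_ne_zero_of_mul hne)
        have : ‖ζ p‖ ≤ ‖X‖ + ‖X - ζ p‖ := by
          calc ‖ζ p‖ = ‖X - (X - ζ p)‖ := by congr 1; abel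
            _ ≤ _ := norm_sub_le _ _
        linarith
      simp [this]
  have hmeas : MeasurableSet {p | ‖ζ p‖ ≤ R + 4} := measurableSet_le hζ.norm measurable_const
  have hfin : m {p | ‖ζ p‖ ≤ R + 4} ≠ ⊤ := ne_top_of_le_ne_top ENNReal.ofReal_ne_top hKm
  have i5 : Integrable (fun p => {p | ‖ζ p‖ ≤ R + 4}.indicator (fun _ => 2 * ε) p) m :=
    (integrable_indicator_iff hmeas).2 (integrableOn_const hfin)
  have h6 := norm_integral_le_of_norm_le i5 (Filter.Eventually.of_forall hpt)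
  rw [Real.norm_eq_abs] at h6
  refine h6.trans ?_
  rw [integral_indicator hmeas, setIntegral_const, smul_eq_mul, mul_comm]
  apply mul_le_mul_of_nonneg_left _ (by linarith)
  exact ENNReal.toReal_le_of_le_ofReal (by positivity) hKm

theorem g5b_core (n : ℕ) (q : ℕ) (M C : ℝ) (hM : 0 < M) (hC : 0 < C) :
    ∃ C' : ℝ, 0 < C' ∧ ∀ (Ω : Type) [MeasurableSpace Ω] (m : Measure Ω) [SFinite m]
      (Zs : ℕ → Ω → (Fin n → ℝ)) (Z : Ω → (Fin n → ℝ)), (∀ k, Measurable (Zs k)) →
      Measurable Z →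
      (∀ k c s, 0 < s → m {p | ‖Zs k p - c‖ ≤ s} ≤ ENNReal.ofReal (M * (2 * s) ^ n)) →
      (∀ k p, ‖Z p - Zs k p‖ ≤ 3 / 2 ^ k) →
      (∀ (k : ℕ) (X : Fin n → ℝ), |∫ p, tent (1 / 2 ^ (k + 1)) (X - Zs (k + 1) p) ∂m -
        ∫ p, avg (1 / 2 ^ k) (avg (1 / 2 ^ k) (avg (1 / 2 ^ k)
            (fun z => tent (1 / 2 ^ (k + 1)) (X - z)))) (Zs k p) ∂m| ≤
        C * ((k : ℝ) + 1) ^ q / 2 ^ k) →
      ∃ h : (Fin n → ℝ) → ℝ,
        (∀ (X X' : Fin n → ℝ) (k : ℕ), ‖X - X'‖ ≤ 1 / 2 ^ k →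
          |h X - h X'| ≤ C' * ((k : ℝ) + 1) ^ (q + 1) / 2 ^ k) ∧
        ∀ φ : (Fin n → ℝ) → ℝ, Continuous φ → HasCompactSupport φ →
          ∫ p, φ (Z p) ∂m = ∫ X, φ X * h X := by
  set B : ℝ := M * 2 ^ n with hBdef
  have hB0 : 0 < B := by positivity
  have hn0 : (0 : ℝ) ≤ n := Nat.cast_nonneg n
  set L : ℝ := 2 * B * n + 4 * n * C with hLdef
  have hL0 : 0 ≤ L := by positivity
  set D : ℝ := L + C with hDdef
  have hD0 : 0 < D := by positivity
  set S : ℝ := ∑' i : ℕ, ((i : ℝ) + 1) ^ (q + 1) / 2 ^ i with hSdef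
  have hS0 : 0 ≤ S := tsum_nonneg fun i => by positivity
  refine ⟨L + 2 * (D * S) + 1, by positivity, ?_⟩
  intro Ω _ m _ Zs Z hZs hZ hMB hlim hlev
  have hwk : ∀ k : ℕ, (0 : ℝ) < 1 / 2 ^ k := fun k => by positivity
  let G : ℕ → (Fin n → ℝ) → ℝ := fun k X => ∫ p, tent (1 / 2 ^ k) (X - Zs k p) ∂m
  let MM : ℕ → (Fin n → ℝ) → ℝ := fun k X => avg (1 / 2 ^ k) (g5b_T (1 / 2 ^ (k + 1)) (G k)) X
  have hGb : ∀ k X, |G k X| ≤ B := fun k X => g5b_G_bdd hM (hZs k) (hMB k) (hwk k) X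
  have hGm : ∀ k, Measurable (G k) := fun k => g5b_G_meas (hZs k) _
  have hTb : ∀ k X, |g5b_T (1 / 2 ^ (k + 1)) (G k) X| ≤ B := fun k X =>
    g5b_T_bdd (hwk (k + 1)) (hGb k) X
  have hTm : ∀ k, Measurable (g5b_T (1 / 2 ^ (k + 1)) (G k)) := fun k => g5b_T_meas _ (hGm k)
  have hMb : ∀ k X, |MM k X| ≤ B := fun k X => g5b_avg_bdd _ (hTb k) X
  have hMm : ∀ k, Measurable (MM k) := fun k => g5b_avg_meas _ (hTm k)
  have he : ∀ k X, |G (k + 1) X - MM k X| ≤ C * ((k : ℝ) + 1) ^ q / 2 ^ k := by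
    intro k X
    have h := hlev k X
    rw [g5b_ID (hZs k) (hMB k) (hwk k) (hwk (k + 1)) X] at h
    exact h
  have hdm : ∀ k, Measurable (fun x => G (k + 1) x - MM k x) := fun k => (hGm _).sub (hMm _)
  have hdec : ∀ k X, MM (k + 1) X =
      avg (1 / 2 ^ (k + 1)) (g5b_T (1 / 2 ^ (k + 1 + 1)) (MM k)) X +
      avg (1 / 2 ^ (k + 1)) (g5b_T (1 / 2 ^ (k + 1 + 1)) (fun x => G (k + 1) x - MM k x)) X := by
    intro k X
    have h1 : g5b_T (1 / 2 ^ (k + 1 + 1)) (fun x => G (k + 1) x - MM k x) =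
        fun x => g5b_T (1 / 2 ^ (k + 1 + 1)) (G (k + 1)) x -
          g5b_T (1 / 2 ^ (k + 1 + 1)) (MM k) x :=
      funext fun x => g5b_T_sub (hwk _) (hGm _) (hMm _) (hGb _) (hMb _) x
    rw [h1, g5b_avg_sub _ (hTm (k + 1)) (g5b_T_meas _ (hMm k)) (hTb (k + 1))
      (g5b_T_bdd (hwk _) (hMb k))]
    ring
  have hpow : ∀ k : ℕ, ((k : ℝ) + 1) ^ (q + 1) + ((k : ℝ) + 1) ^ q ≤
      (((k + 1 : ℕ) : ℝ) + 1) ^ (q + 1) := by
    intro k
    have hk : (0 : ℝ) ≤ k := Nat.cast_nonneg k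
    have h1 : ((k : ℝ) + 1) ^ q ≤ ((k : ℝ) + 1 + 1) ^ q :=
      pow_le_pow_left₀ (by linarith) (by linarith) q
    push_cast
    rw [pow_succ, pow_succ]
    nlinarith [pow_nonneg (show (0 : ℝ) ≤ (k : ℝ) + 1 by linarith) q]
  have hpow2 : ∀ k : ℕ, ((k : ℝ) + 1) ^ q ≤ ((k : ℝ) + 1) ^ (q + 1) := by
    intro k
    have hk : (0 : ℝ) ≤ k := Nat.cast_nonneg k
    exact pow_le_pow_right₀ (by linarith) (by omega)
  have hLip : ∀ (k : ℕ) (X X' : Fin n → ℝ), |MM k X - MM k X'| ≤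
      L * ((k : ℝ) + 1) ^ (q + 1) * ‖X - X'‖ := by
    intro k
    induction k with
    | zero =>
      intro X X'
      have h := g5b_avg_lip (w := 1 / 2 ^ 0) (hwk 0) (hTm 0) (hTb 0) X X'
      refine h.trans ?_
      have hx := norm_nonneg (X - X')
      simp only [pow_zero, div_one, Nat.cast_zero, zero_add, one_pow, mul_one]
      have : 0 ≤ 4 * n * C * ‖X - X'‖ := by positivity
      nlinarith
    | succ k ih =>
      intro X X'
      rw [hdec, hdec]
      have h1 := g5b_avg_lip2 (1 / 2 ^ (k + 1)) (g := g5b_T (1 / 2 ^ (k + 1 + 1)) (MM k))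
        (g5b_T_meas _ (hMm k)) (g5b_T_bdd (hwk _) (hMb k))
        (g5b_T_lip (hwk _) (hMm k) (hMb k) ih) X X'
      have h2 := g5b_avg_lip (w := 1 / 2 ^ (k + 1)) (hwk _)
        (g5b_T_meas (1 / 2 ^ (k + 1 + 1)) (hdm k)) (g5b_T_bdd (hwk _) (he k)) X X'
      have h3 : 2 * (C * ((k : ℝ) + 1) ^ q / 2 ^ k) * (n * (‖X - X'‖ / (1 / 2 ^ (k + 1)))) =
          4 * n * C * ((k : ℝ) + 1) ^ q * ‖X - X'‖ := by
        rw [pow_succ]
        field_simp
        ring
      rw [h3] at h2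
      have h4 : 4 * n * C * ((k : ℝ) + 1) ^ q * ‖X - X'‖ ≤ L * ((k : ℝ) + 1) ^ q * ‖X - X'‖ := by
        apply mul_le_mul_of_nonneg_right _ (norm_nonneg _)
        apply mul_le_mul_of_nonneg_right _ (by positivity)
        rw [hLdef]
        have : 0 ≤ 2 * B * n := by positivity
        linarith
      have h5 : (L * ((k : ℝ) + 1) ^ (q + 1) + L * ((k : ℝ) + 1) ^ q) * ‖X - X'‖ ≤
          L * (((k + 1 : ℕ) : ℝ) + 1) ^ (q + 1) * ‖X - X'‖ := by
        apply mul_le_mul_of_nonneg_right _ (norm_nonneg _)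
        rw [← mul_add]
        exact mul_le_mul_of_nonneg_left (hpow k) hL0
      calc |avg (1 / 2 ^ (k + 1)) (g5b_T (1 / 2 ^ (k + 1 + 1)) (MM k)) X +
              avg (1 / 2 ^ (k + 1)) (g5b_T (1 / 2 ^ (k + 1 + 1)) (fun x => G (k + 1) x - MM k x)) X -
            (avg (1 / 2 ^ (k + 1)) (g5b_T (1 / 2 ^ (k + 1 + 1)) (MM k)) X' +
              avg (1 / 2 ^ (k + 1)) (g5b_T (1 / 2 ^ (k + 1 + 1)) (fun x => G (k + 1) x - MM k x)) X')|
          = |(avg (1 / 2 ^ (k + 1)) (g5b_T (1 / 2 ^ (k + 1 + 1)) (MM k)) X -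
              avg (1 / 2 ^ (k + 1)) (g5b_T (1 / 2 ^ (k + 1 + 1)) (MM k)) X') +
            (avg (1 / 2 ^ (k + 1)) (g5b_T (1 / 2 ^ (k + 1 + 1)) (fun x => G (k + 1) x - MM k x)) X -
              avg (1 / 2 ^ (k + 1)) (g5b_T (1 / 2 ^ (k + 1 + 1))
                (fun x => G (k + 1) x - MM k x)) X')| := by
            congr 1; ring
        _ ≤ _ := abs_add_le _ _
        _ ≤ _ := by linarith
  have hstep : ∀ (k : ℕ) (X : Fin n → ℝ), |MM (k + 1) X - MM k X| ≤
      D * (((k : ℝ) + 1) ^ (q + 1) / 2 ^ k) := by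
    intro k X
    set lam : ℝ := L * ((k : ℝ) + 1) ^ (q + 1) with hlam
    have hlam0 : 0 ≤ lam := by positivity
    have h1 := g5b_avg_near (hwk (k + 1)) (g := g5b_T (1 / 2 ^ (k + 1 + 1)) (MM k))
        (g5b_T_meas _ (hMm k)) (g5b_T_bdd (hwk _) (hMb k)) hlam0
        (g5b_T_lip (hwk _) (hMm k) (hMb k) (hLip k)) X
    have h2 := g5b_T_near (hwk (k + 1 + 1)) (hMm k) (hMb k) hlam0 (hLip k) X
    have h3 := g5b_avg_bdd (1 / 2 ^ (k + 1)) (g5b_T_bdd (hwk (k + 1 + 1)) (he k)) X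
    rw [hdec]
    have h4 : lam * (1 / 2 ^ (k + 1) / 2) + lam * (1 / 2 ^ (k + 1 + 1)) =
        lam / 2 ^ k / 2 := by
      rw [pow_succ, pow_succ]
      field_simp
      ring
    have h5 : lam / 2 ^ k / 2 ≤ lam / 2 ^ k := by
      have : 0 ≤ lam / 2 ^ k := by positivity
      linarith
    have h6 : C * ((k : ℝ) + 1) ^ q / 2 ^ k ≤ C * (((k : ℝ) + 1) ^ (q + 1) / 2 ^ k) := by
      rw [mul_div_assoc]
      apply mul_le_mul_of_nonneg_left _ hC.le
      exact div_le_div_of_nonneg_right (hpow2 k) (by positivity)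
    have h7 : lam / 2 ^ k = L * (((k : ℝ) + 1) ^ (q + 1) / 2 ^ k) := by
      rw [hlam, mul_div_assoc]
    have h8 : D * (((k : ℝ) + 1) ^ (q + 1) / 2 ^ k) =
        L * (((k : ℝ) + 1) ^ (q + 1) / 2 ^ k) + C * (((k : ℝ) + 1) ^ (q + 1) / 2 ^ k) := by
      rw [hDdef]; ring
    calc |avg (1 / 2 ^ (k + 1)) (g5b_T (1 / 2 ^ (k + 1 + 1)) (MM k)) X +
            avg (1 / 2 ^ (k + 1)) (g5b_T (1 / 2 ^ (k + 1 + 1)) (fun x => G (k + 1) x - MM k x)) X -
            MM k X| =
          |(avg (1 / 2 ^ (k + 1)) (g5b_T (1 / 2 ^ (k + 1 + 1)) (MM k)) X -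
            g5b_T (1 / 2 ^ (k + 1 + 1)) (MM k) X) +
            (g5b_T (1 / 2 ^ (k + 1 + 1)) (MM k) X - MM k X) +
            avg (1 / 2 ^ (k + 1)) (g5b_T (1 / 2 ^ (k + 1 + 1)) (fun x => G (k + 1) x - MM k x)) X| := by
            congr 1; ring
      _ ≤ _ := abs_add_three _ _ _
      _ ≤ _ := by linarith
  -- the limit
  have hsum : Summable (fun j : ℕ => D * (((j : ℝ) + 1) ^ (q + 1) / 2 ^ j)) :=
    (g5b_summable q).mul_left D
  have hdist : ∀ (X : Fin n → ℝ) (k : ℕ), dist (MM k X) (MM k.succ X) ≤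
      D * (((k : ℝ) + 1) ^ (q + 1) / 2 ^ k) := by
    intro X k
    rw [dist_comm, Real.dist_eq]
    exact hstep k X
  have hcau : ∀ X, ∃ a, Filter.Tendsto (fun k => MM k X) Filter.atTop (nhds a) := fun X =>
    cauchySeq_tendsto_of_complete (cauchySeq_of_dist_le_of_summable _ (hdist X) hsum)
  choose H hH using hcau
  have hHk : ∀ (X : Fin n → ℝ) (k : ℕ), |MM k X - H X| ≤
      D * S * (((k : ℝ) + 1) ^ (q + 1) / 2 ^ k) := by
    intro X k
    have h1 := dist_le_tsum_of_dist_le_of_tendsto _ (hdist X) hsum (hH X) k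
    rw [Real.dist_eq] at h1
    refine h1.trans ?_
    rw [tsum_mul_left]
    have h2 := (g5b_tail q k).2
    rw [mul_assoc]
    exact mul_le_mul_of_nonneg_left h2 hD0.le
  have hHm : Measurable H := measurable_of_tendsto_metrizable hMm (tendsto_pi_nhds.2 hH)
  have hHb : ∀ X, |H X| ≤ B := fun X =>
    le_of_tendsto (hH X).abs (Filter.Eventually.of_forall fun k => hMb k X)
  refine ⟨H, ?_, ?_⟩
  · intro X X' k hX
    have h1 := hHk X k
    have h2 := hHk X' k
    have h3 := hLip k X X'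
    have h4 : L * ((k : ℝ) + 1) ^ (q + 1) * ‖X - X'‖ ≤ L * (((k : ℝ) + 1) ^ (q + 1) / 2 ^ k) := by
      have : L * (((k : ℝ) + 1) ^ (q + 1) / 2 ^ k) = L * ((k : ℝ) + 1) ^ (q + 1) * (1 / 2 ^ k) := by
        ring
      rw [this]
      exact mul_le_mul_of_nonneg_left hX (by positivity)
    rw [abs_sub_comm] at h1
    have h5 : 0 ≤ ((k : ℝ) + 1) ^ (q + 1) / 2 ^ k := by positivity
    calc |H X - H X'| = |(H X - MM k X) + (MM k X - MM k X') + (MM k X' - H X')| := by
          congr 1; ring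
      _ ≤ _ := abs_add_three _ _ _
      _ ≤ (L + 2 * (D * S)) * (((k : ℝ) + 1) ^ (q + 1) / 2 ^ k) := by linarith
      _ ≤ (L + 2 * (D * S) + 1) * (((k : ℝ) + 1) ^ (q + 1) / 2 ^ k) := by
          apply mul_le_mul_of_nonneg_right _ h5
          linarith
      _ = _ := by ring
  · intro φ hφ hφc
    obtain ⟨Bφ, hBφ⟩ := hφc.exists_bound_of_continuous hφ
    obtain ⟨R₀, hR₀⟩ := hφc.isCompact.isBounded.subset_closedBall (0 : Fin n → ℝ)
    set R : ℝ := max R₀ 0 with hRdef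
    have hR : 0 ≤ R := le_max_right _ _
    have hφR : ∀ x, φ x ≠ 0 → ‖x‖ ≤ R := by
      intro x hx
      have := hR₀ (subset_tsupport φ hx)
      rw [mem_closedBall_zero_iff] at this
      exact this.trans (le_max_left _ _)
    have hφm : Measurable φ := hφ.measurable
    have hφi : Integrable φ := hφ.integrable_of_hasCompactSupport hφc
    have huc := hφc.uniformContinuous_of_continuous hφ
    rw [Metric.uniformContinuous_iff] at huc
    set K : ℝ := M * (2 * (R + 4)) ^ n with hKdef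
    have hK0 : 0 ≤ K := by positivity
    set I : ℝ := ∫ x, |φ x| with hIdef
    have hI0 : 0 ≤ I := integral_nonneg fun x => abs_nonneg _
    apply eq_of_forall_dist_le
    intro η hη
    obtain ⟨δ, hδ, hδ'⟩ := huc (η / (4 * (K + 1))) (by positivity)
    -- choice of the scale
    have t1 : Filter.Tendsto (fun k : ℕ => (3 : ℝ) / 2 ^ k) Filter.atTop (nhds 0) := by
      have h := (tendsto_pow_atTop_nhds_zero_of_lt_one (r := (1 / 2 : ℝ)) (by norm_num)
        (by norm_num)).const_mul 3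
      simp only [mul_zero] at h
      refine h.congr fun k => ?_
      rw [one_div, inv_pow]
      rfl
    have t2 : Filter.Tendsto (fun k : ℕ => I * ((D * S + C) * (((k : ℝ) + 1) ^ (q + 1) / 2 ^ k)))
        Filter.atTop (nhds 0) := by
      have h := ((g5b_summable q).tendsto_atTop_zero.const_mul (D * S + C)).const_mul I
      simpa using h
    have t3 : ∀ᶠ k : ℕ in Filter.atTop, (3 : ℝ) / 2 ^ k < δ := by
      have := t1.eventually (gt_mem_nhds hδ)
      exact this
    have t4 : ∀ᶠ k : ℕ in Filter.atTop,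
        I * ((D * S + C) * (((k : ℝ) + 1) ^ (q + 1) / 2 ^ k)) < η / 2 :=
      t2.eventually (gt_mem_nhds (by positivity))
    obtain ⟨k, hk1, hk2⟩ := (t3.and t4).exists
    have hk3 : (3 : ℝ) / 2 ^ (k + 1) ≤ 3 / 2 ^ k := by
      rw [pow_succ]
      have : (0 : ℝ) < 2 ^ k := by positivity
      rw [div_le_div_iff₀ (by positivity) this]
      nlinarith
    have h2k : (1 : ℝ) ≤ 2 ^ (k + 1) := one_le_pow₀ (by norm_num)
    have a1 := g5b_mass (m := m) hM (hZs (k + 1)) hZ (hMB (k + 1)) (hwk (k + 1))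
      (by rw [div_le_one (by positivity)]; exact h2k) (r := 3 / 2 ^ (k + 1))
      (by apply div_le_div_of_nonneg_right (by norm_num) (by positivity))
      (by rw [div_le_iff₀ (by positivity)]; linarith) (hlim (k + 1)) hφm hBφ hR hφR
      (ε := η / (4 * (K + 1))) (by
        intro x y hxy
        have : dist (φ x) (φ y) < η / (4 * (K + 1)) := by
          apply hδ'
          rw [dist_eq_norm]
          linarith
        rw [Real.dist_eq] at this
        exact this.le)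
    have a2 : |(∫ X, φ X * G (k + 1) X) - ∫ X, φ X * H X| ≤
        I * ((D * S + C) * (((k : ℝ) + 1) ^ (q + 1) / 2 ^ k)) := by
      have i1 : Integrable (fun X => φ X * G (k + 1) X) :=
        hφi.mul_bdd (c := B) (hGm _).aestronglyMeasurable
          (Filter.Eventually.of_forall fun X => hGb _ X)
      have i2 : Integrable (fun X => φ X * H X) :=
        hφi.mul_bdd (c := B) hHm.aestronglyMeasurable
          (Filter.Eventually.of_forall fun X => hHb X)
      rw [← integral_sub i1 i2]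
      have h1 : ∀ X, ‖φ X * G (k + 1) X - φ X * H X‖ ≤
          |φ X| * ((D * S + C) * (((k : ℝ) + 1) ^ (q + 1) / 2 ^ k)) := by
        intro X
        rw [← mul_sub, norm_mul, Real.norm_eq_abs, Real.norm_eq_abs]
        apply mul_le_mul_of_nonneg_left _ (abs_nonneg _)
        have h2 := he k X
        have h3 := hHk X k
        have h6 : C * ((k : ℝ) + 1) ^ q / 2 ^ k ≤ C * (((k : ℝ) + 1) ^ (q + 1) / 2 ^ k) := by
          rw [mul_div_assoc]
          apply mul_le_mul_of_nonneg_left _ hC.le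
          exact div_le_div_of_nonneg_right (hpow2 k) (by positivity)
        calc |G (k + 1) X - H X| = |(G (k + 1) X - MM k X) + (MM k X - H X)| := by
              congr 1; ring
          _ ≤ _ := abs_add_le _ _
          _ ≤ _ := by rw [add_mul]; linarith
      have h2 := norm_integral_le_of_norm_le (hφi.abs.mul_const _) (Filter.Eventually.of_forall h1)
      rw [integral_mul_const] at h2
      exact h2
    rw [Real.dist_eq]
    have a3 : 2 * (η / (4 * (K + 1))) * K ≤ η / 2 := by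
      have : 2 * (η / (4 * (K + 1))) * K = (η / 2) * (K / (K + 1)) := by field_simp; ring
      rw [this]
      have h1 : K / (K + 1) ≤ 1 := by rw [div_le_one (by linarith)]; linarith
      have h2 : 0 ≤ η / 2 := by positivity
      nlinarith
    calc |∫ p, φ (Z p) ∂m - ∫ X, φ X * H X| =
          |((∫ p, φ (Z p) ∂m) - ∫ X, φ X * G (k + 1) X) +
            ((∫ X, φ X * G (k + 1) X) - ∫ X, φ X * H X)| := by congr 1; ring
      _ ≤ _ := abs_add_le _ _
      _ ≤ η := by linarith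

/-- the measure of density `ρ` on space times `(0,t]` -/
noncomputable def g5b_m {n : ℕ} (ρ : (Fin n → ℝ) × ℝ → ℝ) (t : ℝ) : Measure ((Fin n → ℝ) × ℝ) :=
  ((volume : Measure (Fin n → ℝ)).prod ((volume : Measure ℝ).restrict (Ioc 0 t))).withDensity
    (fun p => ENNReal.ofReal (ρ p))

instance g5b_m_sfinite {n : ℕ} (ρ : (Fin n → ℝ) × ℝ → ℝ) (t : ℝ) : SFinite (g5b_m ρ t) := by
  unfold g5b_m
  infer_instance

theorem g5b_m_ball {n : ℕ} {ρ : (Fin n → ℝ) × ℝ → ℝ} (hρm : Measurable ρ) {M : ℝ} (hM : 0 < M)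
    {ζ : (Fin n → ℝ) × ℝ → (Fin n → ℝ)} (hζ : Measurable ζ) (hMB : MassBound M ζ ρ) {t : ℝ}
    (ht : t ∈ Icc (0 : ℝ) 1) (c : Fin n → ℝ) (s : ℝ) (hs : 0 < s) :
    g5b_m ρ t {p | ‖ζ p - c‖ ≤ s} ≤ ENNReal.ofReal (M * (2 * s) ^ n) := by
  have hS : MeasurableSet {p | ‖ζ p - c‖ ≤ s} :=
    measurableSet_le (hζ.sub measurable_const).norm measurable_const
  have hind : Measurable ({p | ‖ζ p - c‖ ≤ s}.indicator (fun p => ENNReal.ofReal (ρ p))) :=
    (ENNReal.measurable_ofReal.comp hρm).indicator hS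
  unfold g5b_m
  rw [withDensity_apply _ hS, ← lintegral_indicator hS, lintegral_prod_symm' _ hind]
  calc ∫⁻ τ in Ioc 0 t, ∫⁻ x, {p | ‖ζ p - c‖ ≤ s}.indicator
        (fun p => ENNReal.ofReal (ρ p)) (x, τ) ≤
      ∫⁻ _τ in Ioc 0 t, ENNReal.ofReal (M * (2 * s) ^ n) := by
        apply lintegral_mono
        intro τ
        refine le_trans (le_of_eq ?_) (hMB τ c s hs)
        have hS' : MeasurableSet {x : Fin n → ℝ | ‖ζ (x, τ) - c‖ ≤ s} :=
          measurableSet_le ((hζ.comp (measurable_id.prodMk measurable_const)).sub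
            measurable_const).norm measurable_const
        rw [← lintegral_indicator hS']
        rfl
    _ = ENNReal.ofReal (M * (2 * s) ^ n) * ENNReal.ofReal t := by
        rw [setLIntegral_const, Real.volume_Ioc, sub_zero]
    _ ≤ ENNReal.ofReal (M * (2 * s) ^ n) * 1 := by
        gcongr
        rw [← ENNReal.ofReal_one]
        exact ENNReal.ofReal_le_ofReal ht.2
    _ = _ := mul_one _

theorem g5b_lab {n : ℕ} {ρ : (Fin n → ℝ) × ℝ → ℝ} (hρm : Measurable ρ) (hρ : ∀ p, 0 ≤ ρ p)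
    {t : ℝ} (ht : 0 ≤ t) {φ : (Fin n → ℝ) → ℝ} {ζ : (Fin n → ℝ) × ℝ → (Fin n → ℝ)}
    (hi : Integrable (fun p => φ (ζ p)) (g5b_m ρ t)) :
    lab ρ t φ ζ = ∫ p, φ (ζ p) ∂(g5b_m ρ t) := by
  have hm : Measurable (fun p => ENNReal.ofReal (ρ p)) := ENNReal.measurable_ofReal.comp hρm
  have hfin : ∀ᵐ p ∂((volume : Measure (Fin n → ℝ)).prod
      ((volume : Measure ℝ).restrict (Ioc 0 t))), ENNReal.ofReal (ρ p) < ⊤ :=
    Filter.Eventually.of_forall fun p => ENNReal.ofReal_lt_top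
  have e : ∀ p, (ENNReal.ofReal (ρ p)).toReal • φ (ζ p) = φ (ζ p) * ρ p := by
    intro p
    rw [ENNReal.toReal_ofReal (hρ p), smul_eq_mul, mul_comm]
  have hi2 : Integrable (fun p => φ (ζ p) * ρ p) ((volume : Measure (Fin n → ℝ)).prod
      ((volume : Measure ℝ).restrict (Ioc 0 t))) := by
    have h1 := (integrable_withDensity_iff_integrable_smul' hm hfin).1 hi
    simpa only [e] using h1
  unfold lab
  rw [intervalIntegral.integral_of_le ht]
  have h2 := integral_prod_symm _ hi2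
  rw [← h2]
  unfold g5b_m
  rw [integral_withDensity_eq_integral_toReal_smul hm hfin]
  simp only [e]

theorem g5b_avg_supp {n : ℕ} {w : ℝ} (hw : 0 < w) {φ : (Fin n → ℝ) → ℝ} {X : Fin n → ℝ} {r : ℝ}
    (h : ∀ z, φ z ≠ 0 → ‖z - X‖ ≤ r) (z : Fin n → ℝ) (hz : avg w φ z ≠ 0) : ‖z - X‖ ≤ r + w := by
  by_contra hc
  push Not at hc
  apply hz
  rw [g5b_avg_def]
  apply setIntegral_eq_zero_of_forall_eq_zero
  intro y hy
  by_contra hne
  have h1 := h _ hne
  have h2 : ‖w • y‖ ≤ w := by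
    rw [norm_smul, Real.norm_eq_abs, abs_of_pos hw]
    have := g5b_norm_cube hy
    nlinarith
  have h3 : ‖z - X‖ ≤ ‖z + w • y - X‖ + ‖w • y‖ := by
    calc ‖z - X‖ = ‖(z + w • y - X) - w • y‖ := by congr 1; abel
      _ ≤ _ := norm_sub_le _ _
  linarith

theorem masses (n : ℕ) (hn : 1 ≤ n) (q : ℕ) (M C : ℝ) (hM : 0 < M) (hC : 0 < C)
    (ρ : (Fin n → ℝ) × ℝ → ℝ) (hρm : Measurable ρ) (hρ : ∀ p, 0 ≤ ρ p)
    (Zs : ℕ → (Fin n → ℝ) × ℝ → (Fin n → ℝ)) (Z : (Fin n → ℝ) × ℝ → (Fin n → ℝ))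
    (hZs : ∀ k, Measurable (Zs k)) (hZ : Measurable Z)
    (hMB : ∀ k, MassBound M (Zs k) ρ) (hlim : ∀ k p, ‖Z p - Zs k p‖ ≤ 3 / 2 ^ k)
    (hlev : ∀ k : ℕ, ∀ t ∈ Icc (0 : ℝ) 1, ∀ X : Fin n → ℝ,
      |lab ρ t (fun z => tent (1 / 2 ^ (k + 1)) (X - z)) (Zs (k + 1))
        - lab ρ t (avg (1 / 2 ^ k) (avg (1 / 2 ^ k) (avg (1 / 2 ^ k)
            (fun z => tent (1 / 2 ^ (k + 1)) (X - z))))) (Zs k)| ≤
        C * ((k : ℝ) + 1) ^ q / 2 ^ k) :
    ∃ (H : (Fin n → ℝ) → ℝ → ℝ) (C' : ℝ), 0 < C' ∧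
      (∀ t ∈ Icc (0 : ℝ) 1, ∀ (X X' : Fin n → ℝ) (k : ℕ), ‖X - X'‖ ≤ 1 / 2 ^ k →
        |H X t - H X' t| ≤ C' * ((k : ℝ) + 1) ^ (q + 1) / 2 ^ k) ∧
      ∀ t ∈ Icc (0 : ℝ) 1, ∀ φ : (Fin n → ℝ) → ℝ, Continuous φ → HasCompactSupport φ →
        lab ρ t φ Z = ∫ X, φ X * H X t := by
  obtain ⟨C', hC', hcore⟩ := g5b_core n q M C hM hC
  have key : ∀ t : ℝ, ∃ h : (Fin n → ℝ) → ℝ, t ∈ Icc (0 : ℝ) 1 →
      (∀ (X X' : Fin n → ℝ) (k : ℕ), ‖X - X'‖ ≤ 1 / 2 ^ k →
        |h X - h X'| ≤ C' * ((k : ℝ) + 1) ^ (q + 1) / 2 ^ k) ∧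
      ∀ φ : (Fin n → ℝ) → ℝ, Continuous φ → HasCompactSupport φ →
        lab ρ t φ Z = ∫ X, φ X * h X := by
    intro t
    by_cases ht : t ∈ Icc (0 : ℝ) 1
    swap
    · exact ⟨fun _ => 0, fun h => absurd h ht⟩
    have hball := fun k c s hs => g5b_m_ball hρm hM (hZs k) (hMB k) ht c s hs
    have i1 : ∀ (k : ℕ) (X : Fin n → ℝ), Integrable
        (fun p => (fun z => tent (1 / 2 ^ (k + 1)) (X - z)) (Zs (k + 1) p)) (g5b_m ρ t) := by
      intro k X
      have hw : (0 : ℝ) < 1 / 2 ^ (k + 1) := by positivity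
      refine g5b_int_bdd ((g5b_tent_meas _).comp (measurable_const.sub (hZs (k + 1))))
        (B := ((1 / 2 ^ (k + 1)) ^ n)⁻¹) ?_ ENNReal.ofReal_ne_top
        (le_trans (measure_mono ?_) (hball (k + 1) X _ hw))
      · intro p
        rw [abs_of_nonneg (g5b_tent_nonneg hw _)]
        exact g5b_tent_le hw _
      · intro p hp
        simp only [mem_ofPred_eq] at hp ⊢
        have := g5b_tent_supp hw hp
        rwa [norm_sub_rev]
    have i2 : ∀ (k : ℕ) (X : Fin n → ℝ), Integrable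
        (fun p => (avg (1 / 2 ^ k) (avg (1 / 2 ^ k) (avg (1 / 2 ^ k)
            (fun z => tent (1 / 2 ^ (k + 1)) (X - z))))) (Zs k p)) (g5b_m ρ t) := by
      intro k X
      have hw : (0 : ℝ) < 1 / 2 ^ k := by positivity
      have hv : (0 : ℝ) < 1 / 2 ^ (k + 1) := by positivity
      have hm0 : Measurable (fun z : Fin n → ℝ => tent (1 / 2 ^ (k + 1)) (X - z)) :=
        (g5b_tent_meas _).comp (measurable_const.sub measurable_id)
      have hb0 : ∀ z : Fin n → ℝ, |tent (1 / 2 ^ (k + 1)) (X - z)| ≤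
          ((1 / 2 ^ (k + 1)) ^ n)⁻¹ := by
        intro z
        rw [abs_of_nonneg (g5b_tent_nonneg hv _)]
        exact g5b_tent_le hv _
      have hs0 : ∀ z : Fin n → ℝ, tent (1 / 2 ^ (k + 1)) (X - z) ≠ 0 →
          ‖z - X‖ ≤ 1 / 2 ^ (k + 1) := by
        intro z hz
        have := g5b_tent_supp hv hz
        rwa [norm_sub_rev]
      refine g5b_int_bdd ((g5b_avg_meas _ (g5b_avg_meas _ (g5b_avg_meas _ hm0))).comp (hZs k))
        (B := ((1 / 2 ^ (k + 1)) ^ n)⁻¹) (fun p => g5b_avg_bdd _ (g5b_avg_bdd _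
          (g5b_avg_bdd _ hb0)) _) ENNReal.ofReal_ne_top
        (le_trans (measure_mono ?_) (hball k X (1 / 2 ^ (k + 1) + 1 / 2 ^ k + 1 / 2 ^ k +
          1 / 2 ^ k) (by positivity)))
      intro p hp
      simp only [mem_ofPred_eq] at hp ⊢
      exact g5b_avg_supp hw (g5b_avg_supp hw (g5b_avg_supp hw hs0)) _ hp
    obtain ⟨h, h1, h2⟩ := hcore ((Fin n → ℝ) × ℝ) (g5b_m ρ t) Zs Z hZs hZ hball hlim (by
      intro k X
      have h0 := hlev k t ht X
      have e1 := g5b_lab (φ := fun z => tent (1 / 2 ^ (k + 1)) (X - z)) (ζ := Zs (k + 1))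
        hρm hρ ht.1 (i1 k X)
      have e2 := g5b_lab (φ := avg (1 / 2 ^ k) (avg (1 / 2 ^ k) (avg (1 / 2 ^ k)
            (fun z => tent (1 / 2 ^ (k + 1)) (X - z))))) (ζ := Zs k) hρm hρ ht.1 (i2 k X)
      rw [e1, e2] at h0
      exact h0)
    refine ⟨h, fun _ => ⟨h1, ?_⟩⟩
    intro φ hφ hφc
    obtain ⟨Bφ, hBφ⟩ := hφc.exists_bound_of_continuous hφ
    obtain ⟨R₀, hR₀⟩ := hφc.isCompact.isBounded.subset_closedBall (0 : Fin n → ℝ)
    rw [g5b_lab hρm hρ ht.1, h2 φ hφ hφc]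
    refine g5b_int_bdd (hφ.measurable.comp hZ) (fun p => hBφ _) ENNReal.ofReal_ne_top
        (le_trans (measure_mono ?_) (hball 0 0 (max R₀ 0 + 3) (by positivity)))
    intro p hp
    simp only [mem_ofPred_eq] at hp ⊢
    have h3 := hR₀ (subset_tsupport φ hp)
    rw [mem_closedBall_zero_iff] at h3
    have h4 := hlim 0 p
    have h5 : ‖Zs 0 p‖ ≤ ‖Z p‖ + ‖Z p - Zs 0 p‖ := by
      calc ‖Zs 0 p‖ = ‖Z p - (Z p - Zs 0 p)‖ := by congr 1; abel
        _ ≤ _ := norm_sub_le _ _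
    have h6 := le_max_left R₀ 0
    rw [sub_zero]
    norm_num at h4
    linarith
  choose h hh using key
  exact ⟨fun X t => h t X, C', hC', fun t ht => (hh t ht).1, fun t ht => (hh t ht).2⟩

end Pool.Agent.helper312_gd
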