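import Pool.Agent.helper312_gd.Level
import Pool.Agent.helper312_gd.Labels
import Pool.Agent.helper312_gd.Masses
import Pool.Agent.helper312_gd.Increments
import Pool.Agent.helper312_gd.Assembly

set_option autoImplicit false

open Set MeasureTheory

namespace Pool.Agent.helper312_gd

/-- realisation on the slab with exponent `n+4` -/
theorem main_planar (n : ℕ) (hn : 1 ≤ n) (a b : ℝ) (ha : 0 < a)
    (ρ : (Fin n → ℝ) × ℝ → ℝ) (hρm : Measurable ρ) (hρ : ∀ z, a ≤ ρ z ∧ ρ z ≤ b) :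
    ∃ f : (Fin n → ℝ) × ℝ → (Fin n → ℝ) × ℝ,
      InjOn f (Icc (0 : Fin n → ℝ) 1 ×ˢ Icc (0 : ℝ) 1) ∧
      (∃ C : ℝ, ∀ x ∈ Icc (0 : Fin n → ℝ) 1 ×ˢ Icc (0 : ℝ) 1,
        ∀ y ∈ Icc (0 : Fin n → ℝ) 1 ×ˢ Icc (0 : ℝ) 1, ∀ k : ℕ, dist x y ≤ 1 / 2 ^ k →
          dist (f x) (f y) ≤ C * ((k : ℝ) + 1) ^ (n + 4) / 2 ^ k) ∧
      (∃ C : ℝ, ∀ x ∈ Icc (0 : Fin n → ℝ) 1 ×ˢ Icc (0 : ℝ) 1,
        ∀ y ∈ Icc (0 : Fin n → ℝ) 1 ×ˢ Icc (0 : ℝ) 1, ∀ k : ℕ, dist (f x) (f y) ≤ 1 / 2 ^ k →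
          dist x y ≤ C * ((k : ℝ) + 1) ^ (n + 4) / 2 ^ k) ∧
      ∀ B : Set ((Fin n → ℝ) × ℝ), MeasurableSet B →
        ∫⁻ x in (Icc (0 : Fin n → ℝ) 1 ×ˢ Icc (0 : ℝ) 1) ∩ f ⁻¹' B, ENNReal.ofReal (ρ x)
          = volume (B ∩ f '' (Icc (0 : Fin n → ℝ) 1 ×ˢ Icc (0 : ℝ) 1)) := by
  obtain ⟨C, hC, hlev⟩ := level n hn (1 / 16) (by norm_num)
  have hb : 0 < b := ha.trans_le ((hρ (0, 0)).1.trans (hρ (0, 0)).2)
  have hρ0 : ∀ p, 0 ≤ ρ p := fun p => ha.le.trans (hρ p).1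
  set M : ℝ := b * 4 ^ n with hM
  have hMpos : 0 < M := by positivity
  -- property of a shift relative to a label map at level k
  let Sh : ℕ → ((Fin n → ℝ) → ℝ → (Fin n → ℝ)) → ((Fin n → ℝ) → ℝ → (Fin n → ℝ)) → Prop :=
    fun k Z v => Measurable (fun p : (Fin n → ℝ) × ℝ => v p.1 p.2) ∧
        (∀ z τ, ‖v z τ‖ ≤ 3 / 2 / 2 ^ k) ∧
        (∀ z z' τ τ', ‖v z τ - v z' τ'‖ ≤
          1 / 16 / ((k : ℝ) + 1) ^ 2 * (‖z - z'‖ + |τ - τ'|)) ∧
        (Measurable (fun p : (Fin n → ℝ) × ℝ => Z p.1 p.2) →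
          MassBound M (fun p => Z p.1 p.2) ρ → ∀ t ∈ Icc (0 : ℝ) 1, ∀ X : Fin n → ℝ,
          |lab ρ t (fun z => tent (1 / 2 ^ (k + 1)) (X - z)) (fun p => Z p.1 p.2 + v (Z p.1 p.2) p.2)
            - lab ρ t (avg (1 / 2 ^ k) (avg (1 / 2 ^ k) (avg (1 / 2 ^ k)
                (fun z => tent (1 / 2 ^ (k + 1)) (X - z))))) (fun p => Z p.1 p.2)| ≤
            C * M * ((k : ℝ) + 1) ^ (n + 3) / 2 ^ k)
  have hSh : ∀ k Z, ∃ v, Sh k Z v := by
    intro k Z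
    by_cases hZ : Measurable (fun p : (Fin n → ℝ) × ℝ => Z p.1 p.2) ∧
        MassBound M (fun p => Z p.1 p.2) ρ
    · obtain ⟨v, h1, h2, h3, h4⟩ := hlev M hMpos (fun p => Z p.1 p.2) ρ hZ.1 hρm hρ0 hZ.2 k
      exact ⟨v, h1, h2, h3, fun _ _ => h4⟩
    · refine ⟨fun _ _ => 0, measurable_const, fun z τ => ?_, fun z z' τ τ' => ?_, fun h h' => ?_⟩
      · rw [norm_zero]; positivity
      · rw [sub_self, norm_zero]; positivity
      · exact absurd ⟨h, h'⟩ hZ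
  choose V hV using hSh
  let Xs : ℕ → (Fin n → ℝ) → ℝ → (Fin n → ℝ) := fun k =>
    Nat.rec (fun x _ => x) (fun j Z x τ => Z x τ + V j Z (Z x τ) τ) k
  have hX0 : ∀ x τ, Xs 0 x τ = x := fun _ _ => rfl
  have hXs : ∀ k x τ, Xs (k + 1) x τ = Xs k x τ + V k (Xs k) (Xs k x τ) τ := fun _ _ _ => rfl
  obtain ⟨hL1, hL2, X, Y, hXl, hYX, hXY, hLX, hLX', hLY⟩ := labels n (fun k => V k (Xs k))
    (fun k z τ => (hV k (Xs k)).2.1 z τ) (fun k => (hV k (Xs k)).2.2.1) Xs hX0 hXs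
  have hcont : ∀ k, Continuous (fun p : (Fin n → ℝ) × ℝ => Xs k p.1 p.2) := by
    intro k
    have : LipschitzWith 4 (fun p : (Fin n → ℝ) × ℝ => Xs k p.1 p.2) := by
      refine LipschitzWith.of_dist_le_mul fun p p' => ?_
      rw [dist_eq_norm]
      refine (hL1 k p.1 p'.1 p.2 p'.2).trans ?_
      have h1 : ‖p.1 - p'.1‖ ≤ dist p p' := by
        rw [← dist_eq_norm]; exact le_max_left _ _
      have h2 : |p.2 - p'.2| ≤ dist p p' := by
        rw [← Real.dist_eq]; exact le_max_right _ _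
      have h3 : ((4 : NNReal) : ℝ) = 4 := by norm_num
      rw [h3]; linarith
    exact this.continuous
  have hXcont : Continuous (fun p : (Fin n → ℝ) × ℝ => X p.1 p.2) := by
    have : LipschitzWith 4 (fun p : (Fin n → ℝ) × ℝ => X p.1 p.2) := by
      refine LipschitzWith.of_dist_le_mul fun p p' => ?_
      rw [dist_eq_norm]
      refine (hLX p.1 p'.1 p.2 p'.2).trans ?_
      have h1 : ‖p.1 - p'.1‖ ≤ dist p p' := by
        rw [← dist_eq_norm]; exact le_max_left _ _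
      have h2 : |p.2 - p'.2| ≤ dist p p' := by
        rw [← Real.dist_eq]; exact le_max_right _ _
      have h3 : ((4 : NNReal) : ℝ) = 4 := by norm_num
      rw [h3]; linarith
    exact this.continuous
  have hMB : ∀ k, MassBound M (fun p => Xs k p.1 p.2) ρ := fun k =>
    massBound_of_lip n b hb ρ (fun p => ⟨hρ0 p, (hρ p).2⟩) _ (fun x x' τ => hL2 k x x' τ)
  obtain ⟨H, C', hC', hHmod, hmass⟩ := masses n hn (n + 3) M (C * M) hMpos (by positivity) ρ hρm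
    hρ0 (fun k p => Xs k p.1 p.2) (fun p => X p.1 p.2) (fun k => (hcont k).measurable)
    hXcont.measurable hMB (fun k p => hXl k p.1 p.2) (fun k t ht Z => by
      have := (hV k (Xs k)).2.2.2 (hcont k).measurable (hMB k) t ht Z
      exact this)
  have hn4 : n + 3 + 1 = n + 4 := rfl
  obtain ⟨hH0, hinc⟩ := increments n (n + 4) a b C' ha ρ hρm hρ X Y hXcont.measurable hYX hXY
    (fun x x' τ => by simpa using hLX x x' τ τ) hLX' H hHmod hmass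
  refine assembly_gd n (n + 4) a b (a / 2 ^ n) (b * 2 ^ n) 4 C' ha (by positivity) ρ hρm hρ X Y
    hYX hXY (fun x x' τ τ' => (hLX x x' τ τ').trans ?_) hLY H hHmod hH0 hinc hmass
  have : 0 ≤ ‖x - x'‖ + |τ - τ'| := by positivity
  linarith

end Pool.Agent.helper312_gd
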