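import Pool.Agent.helper312_gd.Defs

set_option autoImplicit false

open Set MeasureTheory

namespace Pool.Agent.helper312_gd

/-- configuration: the classes in `S` use the constant parameters `u`, the others use `θ` -/
def mix {n m : ℕ} (S : Finset (Cls n)) (u : Cls n → Par n m) (θ : Cls n → Cell n → Par n m) :
    Cls n → Cell n → Par n m :=
  fun c q => if c ∈ S then u c else θ c q

/-- mean over the parameters of the classes in `S` of the tested mass -/
noncomputable def meanLab {n m : ℕ} (w R : ℝ) (ρ : (Fin n → ℝ) × ℝ → ℝ)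
    (Z : (Fin n → ℝ) × ℝ → (Fin n → ℝ)) (S : Finset (Cls n)) (θ : Cls n → Cell n → Par n m)
    (X : Fin n → ℝ) (t : ℝ) : ℝ :=
  (∑ u : Cls n → Par n m, lab ρ t (fun z => tent (w / 2) (X - z))
      (fun p => Z p + field w R (mix S u θ) (Z p) p.2)) / Fintype.card (Cls n → Par n m)

end Pool.Agent.helper312_gd
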